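import Mathlib

set_option autoImplicit false

open MeasureTheory ProbabilityTheory Filter Topology Set Polynomial
open scoped ENNReal NNReal Real

namespace HS

/-- Standard Gaussian measure on the line. -/
noncomputable abbrev G1 : Measure ℝ := gaussianReal 0 1

/-- Standard Gaussian measure on `ℝ^n`. -/
noncomputable abbrev Gn (n : ℕ) : Measure (Fin n → ℝ) :=
  Measure.pi (fun _ : Fin n => gaussianReal 0 1)

/-- `ρ / |1 + l e^{iθ}|`. -/
noncomputable def xx (l ρ θ : ℝ) : ℝ := ρ / √(1 + 2 * l * Real.cos θ + l ^ 2)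

/-- The external field (concave kink at `|s| = a`). -/
noncomputable def VV (a α s : ℝ) : ℝ :=
  (s ^ 2 - a ^ 2) / 4 - (α / 4) * max (s ^ 2 - a ^ 2) 0

/-- The dual weight. -/
noncomputable def KK (a α s : ℝ) : ℝ := Real.exp ((α / 2) * max (s ^ 2 - a ^ 2) 0)

/-- bump and its two derivatives -/
noncomputable def bb (t : ℝ) : ℝ := (max (1 - t ^ 2) 0) ^ 3

noncomputable def bb1 (t : ℝ) : ℝ := -6 * t * (max (1 - t ^ 2) 0) ^ 2

noncomputable def bb2 (t : ℝ) : ℝ :=
  -6 * (max (1 - t ^ 2) 0) ^ 2 + 24 * t ^ 2 * max (1 - t ^ 2) 0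

/-- odd bump at `±a` of width `1/a` -/
noncomputable def gg (a s : ℝ) : ℝ := bb (a * (s - a)) - bb (a * (s + a))

/-- `ph = - gg'' + s gg'` -/
noncomputable def ph (a s : ℝ) : ℝ :=
  s * (a * bb1 (a * (s - a)) - a * bb1 (a * (s + a))) -
    (a ^ 2 * bb2 (a * (s - a)) - a ^ 2 * bb2 (a * (s + a)))

/-- The number operator on polynomials in one variable, `N Q = x Q' - Q''`. -/
noncomputable def NN (Q : ℝ[X]) : ℝ[X] := X * derivative Q - derivative (derivative Q)

/-- number of summands -/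
noncomputable def nn (a : ℝ) : ℕ := ⌈a * Real.exp (a ^ 2 / 2)⌉₊

end HS
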