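import Pool.Agent.HS.Defs

set_option autoImplicit false

open MeasureTheory ProbabilityTheory Filter Topology Set Polynomial
open scoped ENNReal NNReal Real

namespace HS

/-- probabilists' Hermite polynomials -/
noncomputable def he : ℕ → ℝ[X]
  | 0 => 1
  | 1 => X
  | (k + 2) => X * he (k + 1) - C ((k : ℝ) + 1) * he k

/-- Krawtchouk polynomials of the `M`-cube (`u = 1/M`) in the normalised sum of the signs -/
noncomputable def kr (u : ℝ) : ℕ → ℝ[X]
  | 0 => 1
  | 1 => X
  | (k + 2) => X * kr u (k + 1) - C (((k : ℝ) + 1) * (1 - (k : ℝ) * u)) * kr u k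

/-- sign of a bit -/
def sg (b : Bool) : ℝ := if b then -1 else 1

/-- elementary symmetric polynomial of the signs -/
noncomputable def ee (M k : ℕ) (x : Fin M → Bool) : ℝ :=
  ∑ T ∈ (Finset.univ : Finset (Fin M)).powersetCard k, ∏ i ∈ T, sg (x i)

/-- law of the normalised sum of `M` independent signs -/
noncomputable def muM (M : ℕ) : Measure ℝ :=
  ∑ x : Fin M → Bool, ENNReal.ofReal ((2 : ℝ) ^ M)⁻¹ • Measure.dirac ((√M)⁻¹ * ∑ i, sg (x i))

/-- the cube function attached to the coefficients `c` -/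
noncomputable def FM (n M D : ℕ) (c : ℕ → ℝ) (x : Fin (n * M) → Bool) : ℝ :=
  ∑ j : Fin n, ∑ k ∈ Finset.range (D + 1), c k * ((k.factorial : ℝ) * ((√M)⁻¹) ^ k *
    ee M k (fun i => x (finProdFinEquiv (j, i))))

end HS
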