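import Pool.Agent.HS.Defs
import Pool.Agent.HS.DefsT

set_option autoImplicit false

open MeasureTheory ProbabilityTheory Filter Topology Set Polynomial
open scoped ENNReal NNReal Real

namespace HS

theorem FM_lap_T {M : ℕ} (T : Finset (Fin M)) (y : Fin M → Bool) (i₀ : Fin M) :
    (∏ i ∈ T, sg (y i) - ∏ i ∈ T, sg (Function.update y i₀ (!y i₀) i)) / 2 =
      if i₀ ∈ T then ∏ i ∈ T, sg (y i) else 0 := by
  have hneg : ∀ b : Bool, sg (!b) = - sg b := by
    intro b; cases b <;> simp [sg]
  split_ifs with h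
  · rw [← Finset.mul_prod_erase T (fun i => sg (Function.update y i₀ (!y i₀) i)) h,
      ← Finset.mul_prod_erase T (fun i => sg (y i)) h]
    have h1 : ∏ i ∈ T.erase i₀, sg (Function.update y i₀ (!y i₀) i) =
        ∏ i ∈ T.erase i₀, sg (y i) := by
      refine Finset.prod_congr rfl (fun i hi => ?_)
      rw [Function.update_of_ne (Finset.ne_of_mem_erase hi)]
    rw [h1]
    simp only [Function.update_self, hneg]
    ring
  · have h1 : ∏ i ∈ T, sg (Function.update y i₀ (!y i₀) i) = ∏ i ∈ T, sg (y i) := by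
      refine Finset.prod_congr rfl (fun i hi => ?_)
      have hne : i ≠ i₀ := by rintro rfl; exact h hi
      rw [Function.update_of_ne hne]
    rw [h1]
    simp

theorem FM_lap_ee (M k : ℕ) (y : Fin M → Bool) :
    ∑ i₀, (ee M k y - ee M k (Function.update y i₀ (!y i₀))) / 2 = k * ee M k y := by
  have h1 : ∀ i₀, (ee M k y - ee M k (Function.update y i₀ (!y i₀))) / 2 =
      ∑ T ∈ (Finset.univ : Finset (Fin M)).powersetCard k,
        if i₀ ∈ T then ∏ i ∈ T, sg (y i) else 0 := by
    intro i₀
    unfold ee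
    rw [← Finset.sum_sub_distrib, Finset.sum_div]
    exact Finset.sum_congr rfl (fun T _ => FM_lap_T T y i₀)
  rw [Finset.sum_congr rfl (fun i₀ _ => h1 i₀), Finset.sum_comm]
  unfold ee
  rw [Finset.mul_sum]
  refine Finset.sum_congr rfl (fun T hT => ?_)
  rw [← Finset.sum_filter, Finset.sum_const, nsmul_eq_mul]
  have h2 : (Finset.univ.filter (fun i₀ => i₀ ∈ T)) = T := by
    ext i; simp
  rw [h2, (Finset.mem_powersetCard.mp hT).2]

theorem FM_lap_restr {n M : ℕ} (x : Fin (n * M) → Bool) (j₀ j : Fin n) (i₀ : Fin M) (b : Bool) :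
    (fun i => Function.update x (finProdFinEquiv (j₀, i₀)) b (finProdFinEquiv (j, i))) =
      if j = j₀ then Function.update (fun i => x (finProdFinEquiv (j, i))) i₀ b
        else (fun i => x (finProdFinEquiv (j, i))) := by
  split_ifs with h
  · subst h
    funext i
    by_cases hi : i = i₀
    · subst hi; simp
    · rw [Function.update_of_ne hi, Function.update_of_ne]
      intro h'
      have := finProdFinEquiv.injective h'
      exact hi (Prod.ext_iff.mp this).2
  · funext i
    rw [Function.update_of_ne]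
    intro h'
    have := finProdFinEquiv.injective h'
    exact h (Prod.ext_iff.mp this).1


theorem FM_lap (n M D : ℕ) (c : ℕ → ℝ) (x : Fin (n * M) → Bool) :
    ∑ i, (FM n M D c x - FM n M D c (Function.update x i (!x i))) / 2 =
      FM n M D (fun k => (k : ℝ) * c k) x := by
  set g : (Fin M → Bool) → ℝ := fun y => ∑ k ∈ Finset.range (D + 1), c k * ((k.factorial : ℝ) *
    ((√M)⁻¹) ^ k * ee M k y) with hg
  have hFM : ∀ z : Fin (n * M) → Bool, FM n M D c z = ∑ j : Fin n, g (fun i => z (finProdFinEquiv (j, i))) :=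
    fun z => rfl
  have hdiff : ∀ (j₀ : Fin n) (i₀ : Fin M),
      (FM n M D c x - FM n M D c (Function.update x (finProdFinEquiv (j₀, i₀))
        (!x (finProdFinEquiv (j₀, i₀))))) / 2 =
      (g (fun i => x (finProdFinEquiv (j₀, i))) -
        g (Function.update (fun i => x (finProdFinEquiv (j₀, i))) i₀ (!x (finProdFinEquiv (j₀, i₀))))) / 2 := by
    intro j₀ i₀
    congr 1
    rw [hFM, hFM, ← Finset.sum_sub_distrib]
    rw [Finset.sum_eq_single j₀]
    · rw [FM_lap_restr, if_pos rfl]
    · intro j _ hj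
      rw [FM_lap_restr, if_neg hj, sub_self]
    · intro h; exact absurd (Finset.mem_univ _) h
  have hgl : ∀ y : Fin M → Bool, ∑ i₀, (g y - g (Function.update y i₀ (!y i₀))) / 2 =
      ∑ k ∈ Finset.range (D + 1), ((k : ℝ) * c k) * ((k.factorial : ℝ) * ((√M)⁻¹) ^ k * ee M k y) := by
    intro y
    have h1 : ∀ i₀, (g y - g (Function.update y i₀ (!y i₀))) / 2 =
        ∑ k ∈ Finset.range (D + 1), c k * ((k.factorial : ℝ) * ((√M)⁻¹) ^ k) *
          ((ee M k y - ee M k (Function.update y i₀ (!y i₀))) / 2) := by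
      intro i₀
      simp only [hg]
      rw [← Finset.sum_sub_distrib, Finset.sum_div]
      refine Finset.sum_congr rfl (fun k _ => ?_)
      ring
    rw [Finset.sum_congr rfl (fun i₀ _ => h1 i₀), Finset.sum_comm]
    refine Finset.sum_congr rfl (fun k _ => ?_)
    rw [← Finset.mul_sum, FM_lap_ee]
    ring
  rw [← (finProdFinEquiv (m := n) (n := M)).sum_comp, Fintype.sum_prod_type]
  unfold FM
  refine Finset.sum_congr rfl (fun j₀ _ => ?_)
  rw [← hgl]
  refine Finset.sum_congr rfl (fun i₀ _ => ?_)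
  exact hdiff j₀ i₀

end HS
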