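import Pool.Agent.HS.Defs
import Pool.Agent.HS.DefsT

set_option autoImplicit false

open MeasureTheory ProbabilityTheory Filter Topology Set Polynomial
open scoped ENNReal NNReal Real

namespace HS

theorem FM_walsh_orth {N : ℕ} (A S : Finset (Fin N)) (h : A ≠ S) :
    ∑ x : Fin N → Bool, (∏ i ∈ A, sg (x i)) * ∏ i ∈ S, sg (x i) = 0 := by
  have h1 : ∀ x : Fin N → Bool, (∏ i ∈ A, sg (x i)) * ∏ i ∈ S, sg (x i) =
      ∏ i, ((if i ∈ A then sg (x i) else 1) * (if i ∈ S then sg (x i) else 1)) := by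
    intro x
    rw [Finset.prod_mul_distrib]
    simp [Finset.prod_ite_mem]
  simp only [h1]
  have h2 := Finset.prod_univ_sum (fun _ : Fin N => (Finset.univ : Finset Bool))
    (fun (i : Fin N) (b : Bool) => ((if i ∈ A then sg b else 1) * (if i ∈ S then sg b else 1)))
  rw [Fintype.piFinset_univ] at h2
  rw [← h2]
  obtain ⟨i, hi⟩ : ∃ i, ¬ (i ∈ A ↔ i ∈ S) := by
    by_contra hc
    push Not at hc
    exact h (Finset.ext hc)
  apply Finset.prod_eq_zero (Finset.mem_univ i)
  by_cases hA : i ∈ A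
  · have hS : i ∉ S := fun hS => hi ⟨fun _ => hS, fun _ => hA⟩
    simp [hA, hS, sg]
  · have hS : i ∈ S := by
      by_contra hS
      exact hi ⟨fun h => absurd h hA, fun h => absurd h hS⟩
    simp [hA, hS, sg]

theorem FM_walsh_term (n M k : ℕ) (j : Fin n) (T : Finset (Fin M)) (hT : T.card = k)
    (S : Finset (Fin (n * M))) (hS : S.card < k) :
    ∑ x : Fin (n * M) → Bool, (∏ i ∈ T, sg (x (finProdFinEquiv (j, i)))) *
      ∏ i ∈ S, sg (x i) = 0 := by
  have hinj : Function.Injective (fun i : Fin M => finProdFinEquiv (j, i)) := by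
    intro a b hab
    have := finProdFinEquiv.injective hab
    exact (Prod.ext_iff.1 this).2
  have h := FM_walsh_orth (T.map ⟨fun i : Fin M => finProdFinEquiv (j, i), hinj⟩) S (by
    intro he
    have := congrArg Finset.card he
    rw [Finset.card_map] at this
    omega)
  simpa [Finset.prod_map] using h

/-- Walsh coefficients of `FM` -/
theorem FM_walsh (n M D d : ℕ) (c : ℕ → ℝ) (hc : ∀ k, k ≤ d → c k = 0)
    (S : Finset (Fin (n * M))) (hS : S.card ≤ d) :
    ∑ x : Fin (n * M) → Bool, FM n M D c x * ∏ i ∈ S, (if x i then (-1 : ℝ) else 1) = 0 := by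
  have hsg : ∀ b : Bool, (if b then (-1 : ℝ) else 1) = sg b := fun b => rfl
  simp only [hsg]
  unfold FM
  simp only [Finset.sum_mul]
  rw [Finset.sum_comm]
  apply Finset.sum_eq_zero
  intro j _
  rw [Finset.sum_comm]
  apply Finset.sum_eq_zero
  intro k _
  by_cases hk : k ≤ d
  · simp [hc k hk]
  · push Not at hk
    have h1 : ∀ x : Fin (n * M) → Bool, c k * ((k.factorial : ℝ) * ((√M)⁻¹) ^ k *
        ee M k (fun i => x (finProdFinEquiv (j, i)))) * ∏ i ∈ S, sg (x i) =
        ∑ T ∈ (Finset.univ : Finset (Fin M)).powersetCard k,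
          c k * ((k.factorial : ℝ) * ((√M)⁻¹) ^ k) *
          ((∏ i ∈ T, sg (x (finProdFinEquiv (j, i)))) * ∏ i ∈ S, sg (x i)) := by
      intro x
      unfold ee
      rw [← Finset.mul_sum, ← Finset.sum_mul]
      ring
    simp only [h1]
    rw [Finset.sum_comm]
    apply Finset.sum_eq_zero
    intro T hT
    rw [← Finset.mul_sum, FM_walsh_term n M k j T (Finset.mem_powersetCard.1 hT).2 S
      (lt_of_le_of_lt hS hk), mul_zero]

end HS
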