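import Pool.Agent.HS.Defs

set_option autoImplicit false

open MeasureTheory ProbabilityTheory Filter Topology Set Polynomial
open scoped ENNReal NNReal Real

namespace HS

/-- Relation between the Gaussian integral with weight `KK` and the Lebesgue integral with
weight `exp (-2 VV)`. -/
theorem KK_VV (a α : ℝ) (f : ℝ → ℝ) :
    ∫ s, f s * KK a α s ∂G1 =
      (√(2 * π))⁻¹ * Real.exp (-(a ^ 2 / 2)) * ∫ s, f s * Real.exp (-2 * VV a α s) := by
  rw [integral_gaussianReal_eq_integral_smul one_ne_zero, ← integral_const_mul]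
  congr 1
  funext s
  rw [smul_eq_mul]
  unfold gaussianPDFReal KK VV
  have h1 : (2 * π * ((1 : ℝ≥0) : ℝ)) = 2 * π := by simp
  rw [h1]
  have h2 : Real.exp (-(s - 0) ^ 2 / (2 * ((1 : ℝ≥0) : ℝ))) *
      Real.exp (α / 2 * max (s ^ 2 - a ^ 2) 0) =
      Real.exp (-(a ^ 2 / 2)) *
        Real.exp (-2 * ((s ^ 2 - a ^ 2) / 4 - α / 4 * max (s ^ 2 - a ^ 2) 0)) := by
    rw [← Real.exp_add, ← Real.exp_add]
    congr 1
    simp only [NNReal.coe_one]
    ring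
  calc (√(2 * π))⁻¹ * Real.exp (-(s - 0) ^ 2 / (2 * ((1 : ℝ≥0) : ℝ))) *
        (f s * Real.exp (α / 2 * max (s ^ 2 - a ^ 2) 0))
      = (√(2 * π))⁻¹ * f s * (Real.exp (-(s - 0) ^ 2 / (2 * ((1 : ℝ≥0) : ℝ))) *
        Real.exp (α / 2 * max (s ^ 2 - a ^ 2) 0)) := by ring
    _ = (√(2 * π))⁻¹ * f s * (Real.exp (-(a ^ 2 / 2)) *
        Real.exp (-2 * ((s ^ 2 - a ^ 2) / 4 - α / 4 * max (s ^ 2 - a ^ 2) 0))) := by rw [h2]
    _ = _ := by ring

end HS
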