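import Pool.Agent.HS.Defs

set_option autoImplicit false

open MeasureTheory ProbabilityTheory Filter Topology Set Polynomial
open scoped ENNReal NNReal Real

namespace HS

theorem KK_VV_integrable (a α : ℝ) (f : ℝ → ℝ) :
    Integrable (fun s => f s * KK a α s) G1 ↔
      Integrable (fun s => f s * Real.exp (-2 * VV a α s)) := by
  have hv : (1 : ℝ≥0) ≠ 0 := one_ne_zero
  have hG : G1 = volume.withDensity (gaussianPDF 0 1) := gaussianReal_of_var_ne_zero 0 hv
  rw [hG, integrable_withDensity_iff_integrable_smul' (measurable_gaussianPDF 0 1)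
    (ae_of_all _ fun x => gaussianPDF_lt_top)]
  have hc : IsUnit ((√(2 * π))⁻¹ * Real.exp (-(a ^ 2) / 2)) := by
    rw [isUnit_iff_ne_zero]
    positivity
  rw [← integrable_const_mul_iff hc (fun s => f s * Real.exp (-2 * VV a α s))]
  have he : (fun x => (gaussianPDF 0 1 x).toReal • (f x * KK a α x)) =
      fun x => (√(2 * π))⁻¹ * Real.exp (-(a ^ 2) / 2) * (f x * Real.exp (-2 * VV a α x)) := by
    funext x
    rw [toReal_gaussianPDF, gaussianPDFReal_def, smul_eq_mul]
    simp only [NNReal.coe_one, mul_one, sub_zero]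
    have h1 : Real.exp (-x ^ 2 / 2) * KK a α x =
        Real.exp (-(a ^ 2) / 2) * Real.exp (-2 * VV a α x) := by
      unfold KK VV
      rw [← Real.exp_add, ← Real.exp_add]
      congr 1
      ring
    calc (√(2 * π))⁻¹ * Real.exp (-x ^ 2 / 2) * (f x * KK a α x)
        = (√(2 * π))⁻¹ * f x * (Real.exp (-x ^ 2 / 2) * KK a α x) := by ring
      _ = _ := by rw [h1]; ring
  rw [he]

end HS
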