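import Pool.Agent.HS.Defs

set_option autoImplicit false

open MeasureTheory ProbabilityTheory Filter Topology Set Polynomial
open scoped ENNReal NNReal Real

namespace HS

theorem NN_surj_aux (m : ℕ) : ∀ R : ℝ[X], R.natDegree ≤ m →
    ∃ (Q : ℝ[X]) (c : ℝ), Q.natDegree ≤ m ∧ R = NN Q + C c := by
  induction m with
  | zero =>
    intro R hR
    refine ⟨0, R.coeff 0, by simp, ?_⟩
    have h1 : NN 0 = 0 := by simp [NN]
    rw [h1, zero_add]
    exact eq_C_of_natDegree_le_zero hR
  | succ m ih =>
    intro R hR
    obtain ⟨a, ha⟩ : ∃ a : ℝ, a = R.coeff (m + 1) / (m + 1) := ⟨_, rfl⟩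
    have hm : ((m : ℝ) + 1) ≠ 0 := by positivity
    have ham : a * (((m + 1 : ℕ) : ℕ) : ℝ) = R.coeff (m + 1) := by
      rw [ha]
      push_cast
      field_simp
    have hNN : NN (monomial (m + 1) a) = monomial (m + 1) (R.coeff (m + 1)) -
        monomial (m - 1) (R.coeff (m + 1) * (m : ℝ)) := by
      unfold NN
      rw [derivative_monomial, ham, Nat.add_sub_cancel, X_mul_monomial, derivative_monomial]
    obtain ⟨Q, c, hQ, hRQ⟩ := ih (R - NN (monomial (m + 1) a)) (by
      rw [natDegree_le_iff_coeff_eq_zero]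
      intro N hN
      have hne : ¬ (m - 1 = N) := by omega
      rw [hNN, coeff_sub, coeff_sub, coeff_monomial, coeff_monomial, if_neg hne]
      by_cases h : m + 1 = N
      · rw [if_pos h, h]
        ring
      · rw [if_neg h, coeff_eq_zero_of_natDegree_lt (by omega)]
        ring)
    refine ⟨Q + monomial (m + 1) a, c, ?_, ?_⟩
    · refine (natDegree_add_le _ _).trans (max_le (by omega) (natDegree_monomial_le a))
    · have hadd : NN (Q + monomial (m + 1) a) = NN Q + NN (monomial (m + 1) a) := by
        unfold NN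
        simp only [derivative_add]
        ring
      rw [hadd]
      linear_combination hRQ

/-- Every polynomial is `NN Q` plus a constant. -/
theorem NN_surj (R : ℝ[X]) : ∃ (Q : ℝ[X]) (c : ℝ), Q.natDegree ≤ R.natDegree ∧ R = NN Q + C c := by
  exact NN_surj_aux R.natDegree R le_rfl

end HS
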