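import Pool.Agent.HS.Defs

set_option autoImplicit false

open MeasureTheory ProbabilityTheory Filter Topology Set Polynomial
open scoped ENNReal NNReal Real

namespace HS

theorem poly_integrable_pow (n : ℕ) : Integrable (fun s : ℝ => s ^ n) G1 := by
  rcases Nat.eq_zero_or_pos n with h | h
  · subst h
    simp only [pow_zero]
    exact integrable_const _
  · have h1 : MemLp id (n : ℝ≥0) G1 := memLp_id_gaussianReal (n : ℝ≥0)
    have h2 : Integrable (fun s : ℝ => ‖(id s : ℝ)‖ ^ n) G1 := by
      have := MemLp.integrable_norm_pow (f := (id : ℝ → ℝ)) (p := n) (μ := G1)
        (by simpa using h1) (by omega)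
      simpa using this
    refine h2.mono' (by fun_prop) ?_
    filter_upwards with s
    simp

theorem poly_integrable (P : ℝ[X]) : Integrable (fun s => P.eval s) G1 := by
  induction P using Polynomial.induction_on' with
  | add p q hp hq =>
    simp only [Polynomial.eval_add]
    exact hp.add hq
  | monomial n a =>
    simp only [Polynomial.eval_monomial]
    exact (poly_integrable_pow n).const_mul a

end HS
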