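import Pool.Agent.HS.Defs
import Pool.Agent.HS.M_poly_integrable

set_option autoImplicit false

open MeasureTheory ProbabilityTheory Filter Topology Set Polynomial
open scoped ENNReal NNReal Real

namespace HS

theorem NN_symm_w (x : ℝ) :
    HasDerivAt (gaussianPDFReal 0 1) (-x * gaussianPDFReal 0 1 x) x := by
  have h : gaussianPDFReal 0 1 = fun x : ℝ => (√(2 * π * ((1 : ℝ≥0) : ℝ)))⁻¹ *
      Real.exp (-(x - 0) ^ 2 / (2 * ((1 : ℝ≥0) : ℝ))) := by
    funext x; rw [gaussianPDFReal]
  rw [h]
  have h1 : HasDerivAt (fun x : ℝ => -(x - 0) ^ 2 / (2 * ((1 : ℝ≥0) : ℝ))) (-x) x := by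
    refine HasDerivAt.congr_deriv
      ((((hasDerivAt_id x).sub_const 0).pow 2).neg.div_const (2 * ((1 : ℝ≥0) : ℝ))) ?_
    simp only [id, sub_zero, NNReal.coe_one]
    norm_num
    ring
  refine HasDerivAt.congr_deriv ((h1.exp).const_mul ((√(2 * π * ((1 : ℝ≥0) : ℝ)))⁻¹)) ?_
  ring

theorem NN_symm_int (A : ℝ[X]) :
    Integrable (fun s => gaussianPDFReal 0 1 s * A.eval s) volume := by
  have h := poly_integrable A
  unfold G1 at h
  rw [gaussianReal_of_var_ne_zero 0 one_ne_zero,
    integrable_withDensity_iff_integrable_smul' (measurable_gaussianPDF 0 1)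
      (Filter.Eventually.of_forall fun x => by simp [gaussianPDF])] at h
  refine h.congr (Filter.Eventually.of_forall fun x => ?_)
  simp only [toReal_gaussianPDF, smul_eq_mul]

theorem NN_symm_ibp (A : ℝ[X]) : ∫ s, (X * A - derivative A).eval s ∂G1 = 0 := by
  unfold G1
  rw [integral_gaussianReal_eq_integral_smul one_ne_zero]
  have hd : ∀ x : ℝ, HasDerivAt (fun s => gaussianPDFReal 0 1 s * A.eval s)
      (-(gaussianPDFReal 0 1 x * (X * A - derivative A).eval x)) x := by
    intro x
    refine HasDerivAt.congr_deriv ((NN_symm_w x).mul (A.hasDerivAt x)) ?_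
    simp only [eval_sub, eval_mul, eval_X]
    ring
  have h := integral_eq_zero_of_hasDerivAt_of_integrable hd (NN_symm_int _).neg (NN_symm_int A)
  rw [integral_neg, neg_eq_zero] at h
  simpa [smul_eq_mul] using h

theorem NN_symm (P Q : ℝ[X]) :
    ∫ s, (NN P).eval s * Q.eval s ∂G1 = ∫ s, P.eval s * (NN Q).eval s ∂G1 := by
  have key : ∀ A B : ℝ[X], (∀ s, (X * A - derivative A).eval s = B.eval s -
      (derivative P * derivative Q).eval s) → ∫ s, B.eval s ∂G1 =
        ∫ s, (derivative P * derivative Q).eval s ∂G1 := by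
    intro A B h
    have h1 := NN_symm_ibp A
    rw [integral_congr_ae (Filter.Eventually.of_forall h),
      integral_sub (poly_integrable B) (poly_integrable _)] at h1
    linarith
  have e1 : ∫ s, (NN P).eval s * Q.eval s ∂G1 =
      ∫ s, (derivative P * derivative Q).eval s ∂G1 := by
    rw [← key (derivative P * Q) (NN P * Q) (fun s => by
      simp only [NN, derivative_mul, eval_sub, eval_mul, eval_add, eval_X]; ring)]
    simp only [eval_mul]
  have e2 : ∫ s, P.eval s * (NN Q).eval s ∂G1 =
      ∫ s, (derivative P * derivative Q).eval s ∂G1 := by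
    rw [← key (P * derivative Q) (P * NN Q) (fun s => by
      simp only [NN, derivative_mul, eval_sub, eval_mul, eval_add, eval_X]; ring)]
    simp only [eval_mul]
  rw [e1, e2]

end HS
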