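import Pool.Agent.HS.Defs
import Pool.Agent.HS.M_poly_integrable
import Pool.Agent.HS.M_NN_symm
import Pool.Agent.HS.M_NN_surj

set_option autoImplicit false

open MeasureTheory ProbabilityTheory Filter Topology Set Polynomial
open scoped ENNReal NNReal Real

namespace HS

theorem NN_inv_comp (Q : ℝ[X]) : NN (Q.comp (-X)) = (NN Q).comp (-X) := by
  have h1 : derivative (Q.comp (-X)) = -((derivative Q).comp (-X)) := by
    rw [derivative_comp]; simp
  have h2 : derivative ((derivative Q).comp (-X)) = -((derivative (derivative Q)).comp (-X)) := by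
    rw [derivative_comp]; simp
  unfold NN
  rw [h1, derivative_neg, h2]
  simp only [sub_comp, mul_comp, X_comp]
  ring

theorem NN_inv_add (P Q : ℝ[X]) : NN (P + Q) = NN P + NN Q := by
  unfold NN
  simp only [derivative_add]
  ring

theorem NN_inv_sub (P Q : ℝ[X]) : NN (P - Q) = NN P - NN Q := by
  unfold NN
  simp only [derivative_sub]
  ring

theorem NN_inv_C (a : ℝ) (Q : ℝ[X]) : NN (C a * Q) = C a * NN Q := by
  unfold NN
  simp only [derivative_C_mul]
  ring

theorem NN_inv_odd (Q : ℝ[X]) (h : ∀ s, Q.eval (-s) = -Q.eval s) : ∫ s, Q.eval s ∂G1 = 0 := by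
  have h1 : (G1).map (fun x => -x) = G1 := by
    have := gaussianReal_map_neg (μ := 0) (v := 1)
    simpa using this
  have h2 : ∫ s, Q.eval s ∂G1 = ∫ s, Q.eval (-s) ∂G1 := by
    conv_lhs => rw [← h1]
    rw [integral_map]
    · exact measurable_neg.aemeasurable
    · exact Q.continuous.aestronglyMeasurable
  simp only [h, integral_neg] at h2
  linarith

/-- Inverse of the number operator on the tail space (odd polynomials). -/
theorem NN_inv (d : ℕ) (q : ℝ[X]) (hodd : ∀ s, q.eval (-s) = -q.eval s)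
    (hT : ∀ R : ℝ[X], R.natDegree ≤ d → ∫ s, q.eval s * R.eval s ∂G1 = 0) :
    ∃ Q : ℝ[X], NN Q = q ∧ (∀ s, Q.eval (-s) = -Q.eval s) ∧
      ∀ R : ℝ[X], R.natDegree ≤ d → ∫ s, Q.eval s * R.eval s ∂G1 = 0 := by
  obtain ⟨Q0, c, -, hq⟩ := NN_surj q
  have hc : c = 0 := by
    have h1 := hT 1 (by simp)
    have h2 : ∫ s, (NN Q0).eval s * (1 : ℝ[X]).eval s ∂G1 = 0 := by
      rw [NN_symm]
      have : NN (1 : ℝ[X]) = 0 := by unfold NN; simp
      simp [this]
    simp only [eval_one, mul_one] at h1 h2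
    have h3 : ∫ s, q.eval s ∂G1 = (∫ s, (NN Q0).eval s ∂G1) + c := by
      conv_lhs => rw [hq]
      simp only [eval_add, eval_C]
      rw [integral_add (poly_integrable _) (integrable_const _)]
      simp
    linarith
  subst hc
  rw [C_0, add_zero] at hq
  have hqc : q.comp (-X) = -q := by
    apply Polynomial.funext
    intro s
    rw [eval_comp, eval_neg, eval_neg, eval_X, hodd]
  refine ⟨C (1 / 2) * (Q0 - Q0.comp (-X)), ?_, ?_, ?_⟩
  · rw [NN_inv_C, NN_inv_sub, NN_inv_comp, ← hq, hqc, sub_neg_eq_add, ← two_mul, ← mul_assoc]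
    have : (C (1 / 2) * 2 : ℝ[X]) = 1 := by
      rw [show (2 : ℝ[X]) = C 2 from rfl, ← C_mul]
      norm_num
    rw [this, one_mul]
  · intro s
    simp only [eval_mul, eval_C, eval_sub, eval_comp, eval_neg, eval_X, neg_neg]
    ring
  · set Q := C (1 / 2) * (Q0 - Q0.comp (-X)) with hQ
    have hNQ : NN Q = q := by
      rw [hQ, NN_inv_C, NN_inv_sub, NN_inv_comp, ← hq, hqc, sub_neg_eq_add, ← two_mul, ← mul_assoc]
      have : (C (1 / 2) * 2 : ℝ[X]) = 1 := by
        rw [show (2 : ℝ[X]) = C 2 from rfl, ← C_mul]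
        norm_num
      rw [this, one_mul]
    have hodd' : ∀ s, Q.eval (-s) = -Q.eval s := by
      intro s
      rw [hQ]
      simp only [eval_mul, eval_C, eval_sub, eval_comp, eval_neg, eval_X, neg_neg]
      ring
    intro R hR
    obtain ⟨R', c', hd, hR'⟩ := NN_surj R
    have h0 := NN_inv_odd Q hodd'
    have h1 : ∫ s, Q.eval s * R.eval s ∂G1 =
        (∫ s, Q.eval s * (NN R').eval s ∂G1) + c' * ∫ s, Q.eval s ∂G1 := by
      conv_lhs => rw [hR']
      rw [← integral_const_mul, ← integral_add]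
      · refine integral_congr_ae (Filter.Eventually.of_forall fun s => ?_)
        simp only [eval_add, eval_C]
        ring
      · simpa only [eval_mul] using poly_integrable (Q * NN R')
      · exact (poly_integrable Q).const_mul c'
    rw [h1, h0, mul_zero, add_zero, ← NN_symm, hNQ]
    exact hT R' (hd.trans hR)

end HS
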