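import Pool.Agent.HS.Defs

set_option autoImplicit false

open MeasureTheory ProbabilityTheory Filter Topology Set Polynomial
open scoped ENNReal NNReal Real

namespace HS

theorem xx_facts (l ρ : ℝ) (hl : 0 < l) (hl1 : l < 1) (hρ : 0 < ρ) :
    Continuous (fun θ => xx l ρ θ) ∧ ∀ θ, ρ / 2 ≤ xx l ρ θ ∧ xx l ρ θ ≤ ρ / (1 - l) := by
  have h1 : ∀ θ, (1 - l) ^ 2 ≤ 1 + 2 * l * Real.cos θ + l ^ 2 := fun θ => by
    nlinarith [Real.neg_one_le_cos θ]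
  have h2 : ∀ θ, 1 + 2 * l * Real.cos θ + l ^ 2 ≤ 2 ^ 2 := fun θ => by
    nlinarith [Real.cos_le_one θ]
  have hl' : 0 < 1 - l := by linarith
  have h3 : ∀ θ, 1 - l ≤ √(1 + 2 * l * Real.cos θ + l ^ 2) := fun θ =>
    Real.le_sqrt_of_sq_le (h1 θ)
  have h4 : ∀ θ, √(1 + 2 * l * Real.cos θ + l ^ 2) ≤ 2 := fun θ =>
    Real.sqrt_le_iff.2 ⟨by norm_num, h2 θ⟩
  have h5 : ∀ θ, 0 < √(1 + 2 * l * Real.cos θ + l ^ 2) := fun θ => lt_of_lt_of_le hl' (h3 θ)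
  refine ⟨?_, fun θ => ⟨?_, ?_⟩⟩
  · unfold xx
    apply Continuous.div continuous_const
    · fun_prop
    · intro θ; exact (h5 θ).ne'
  · unfold xx
    exact div_le_div_of_nonneg_left hρ.le (h5 θ) (h4 θ)
  · unfold xx
    exact div_le_div_of_nonneg_left hρ.le hl' (h3 θ)

end HS
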