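import Pool.Agent.HS.Defs
import Pool.Agent.HS.M_xx_facts

set_option autoImplicit false

open MeasureTheory ProbabilityTheory Filter Topology Set Polynomial
open scoped ENNReal NNReal Real

namespace HS

theorem xx_log_avg_pt (l ρ a θ u : ℝ) (hl : 2 / 3 ≤ l) (hl1 : l < 1) (hρ : 0 < ρ) (ha : 0 < a)
    (h1 : 1 - l ≤ 2 * ρ / a) (hθ : Real.cos θ = - Real.cos u) (hu : 2 * ρ / a ≤ u) (hu1 : u ≤ 1) :
    xx l ρ θ ≤ a ∧ ρ / (2 * u) ≤ xx l ρ θ := by
  have hδ : 0 < 2 * ρ / a := by positivity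
  have hu0 : 0 < u := lt_of_lt_of_le hδ hu
  have hD : 1 + 2 * l * Real.cos θ + l ^ 2 = (1 - l) ^ 2 + 2 * l * (1 - Real.cos u) := by
    rw [hθ]; ring
  have hc1 : 1 - u ^ 2 / 2 ≤ Real.cos u := Real.one_sub_sq_div_two_le_cos
  have hc2 : Real.cos u ≤ 1 - u ^ 2 / 2 + u ^ 4 * (5 / 96) := by
    have := Real.cos_bound (x := u) (by rw [abs_of_pos hu0]; exact hu1)
    rw [abs_of_pos hu0, abs_le] at this
    linarith [this.2]
  have hu2 : u ^ 2 ≤ 1 := by nlinarith
  have hu4 : u ^ 4 ≤ u ^ 2 := by nlinarith [sq_nonneg u]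
  have hlow : (u / 2) ^ 2 ≤ (1 - l) ^ 2 + 2 * l * (1 - Real.cos u) := by
    nlinarith [sq_nonneg (1 - l), sq_nonneg u]
  have hup : (1 - l) ^ 2 + 2 * l * (1 - Real.cos u) ≤ (2 * u) ^ 2 := by
    have h3 : (1 - l) ^ 2 ≤ u ^ 2 := by
      apply pow_le_pow_left₀ (by linarith) (by linarith)
    nlinarith [sq_nonneg u]
  have hs1 : u / 2 ≤ √(1 + 2 * l * Real.cos θ + l ^ 2) := by
    rw [hD]
    exact Real.le_sqrt_of_sq_le hlow
  have hs2 : √(1 + 2 * l * Real.cos θ + l ^ 2) ≤ 2 * u := by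
    rw [hD]
    exact Real.sqrt_le_iff.2 ⟨by linarith, hup⟩
  have hs0 : 0 < √(1 + 2 * l * Real.cos θ + l ^ 2) := lt_of_lt_of_le (by linarith) hs1
  constructor
  · unfold xx
    rw [div_le_iff₀ hs0]
    have h4 : ρ / a ≤ u / 2 := by
      have : 2 * ρ / a = 2 * (ρ / a) := by ring
      linarith
    have h5 : ρ / a ≤ √(1 + 2 * l * Real.cos θ + l ^ 2) := h4.trans hs1
    rw [div_le_iff₀ ha] at h5
    linarith
  · unfold xx
    exact div_le_div_of_nonneg_left hρ.le hs0 hs2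

theorem xx_log_avg_int (ρ δ : ℝ) (hδ : 0 < δ) (hδ1 : δ ≤ 1) :
    ∫ u in δ..1, ρ / (2 * u) = ρ / 2 * Real.log (1 / δ) := by
  have h : ∀ u : ℝ, ρ / (2 * u) = ρ / 2 * u⁻¹ := fun u => by
    rw [div_mul_eq_div_div, div_eq_mul_inv]
  simp_rw [h]
  rw [intervalIntegral.integral_const_mul, integral_inv_of_pos hδ one_pos]

theorem xx_log_avg (l ρ a : ℝ) (hl : 2 / 3 ≤ l) (hl1 : l < 1) (hρ : 0 < ρ)
    (h1 : 1 - l ≤ 2 * ρ / a) (h2 : 2 * ρ ≤ a) :
    ρ / (2 * π) * Real.log (a / (2 * ρ)) ≤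
      (2 * π)⁻¹ * ∫ θ in (0 : ℝ)..(2 * π), (if xx l ρ θ ≤ a then xx l ρ θ else 0) := by
  have ha : 0 < a := by linarith
  obtain ⟨hcont, hb⟩ := xx_facts l ρ (by linarith) hl1 hρ
  set F : ℝ → ℝ := fun θ => if xx l ρ θ ≤ a then xx l ρ θ else 0 with hF
  have hF0 : ∀ θ, 0 ≤ F θ := fun θ => by
    simp only [hF]
    split_ifs
    · have := (hb θ).1
      linarith
    · exact le_rfl
  have hFa : ∀ θ, F θ ≤ a := fun θ => by
    simp only [hF]
    split_ifs with h
    · exact h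
    · exact ha.le
  have hFm : Measurable F :=
    Measurable.ite (measurableSet_le hcont.measurable measurable_const) hcont.measurable
      measurable_const
  have hFi : ∀ x y, IntervalIntegrable F volume x y := fun x y => by
    rw [intervalIntegrable_iff]
    refine Measure.integrableOn_of_bounded (M := a) ?_ hFm.aestronglyMeasurable ?_
    · simp [uIoc]
    · refine Filter.Eventually.of_forall fun θ => ?_
      rw [Real.norm_eq_abs, abs_of_nonneg (hF0 θ)]
      exact hFa θ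
  set δ : ℝ := 2 * ρ / a with hδd
  have hδ : 0 < δ := by positivity
  have hδ1 : δ ≤ 1 := by rw [hδd, div_le_one ha]; exact h2
  have hπ : 3 < π := Real.pi_gt_three
  have hcg : ∀ x y : ℝ, 0 < x → 0 < y → IntervalIntegrable (fun u => ρ / (2 * u)) volume x y := by
    intro x y hx hy
    refine ContinuousOn.intervalIntegrable ?_
    intro z hz
    have hz0 : 0 < z := by
      have := hz.1
      exact lt_of_lt_of_le (lt_min hx hy) this
    have : ContinuousAt (fun u : ℝ => ρ / (2 * u)) z :=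
      ContinuousAt.div continuousAt_const (by fun_prop) (by positivity)
    exact this.continuousWithinAt
  -- the right piece
  have hR : ρ / 2 * Real.log (1 / δ) ≤ ∫ θ in (π + δ)..(π + 1), F θ := by
    rw [← xx_log_avg_int ρ δ hδ hδ1]
    have e1 : ∫ u in δ..1, ρ / (2 * u) = ∫ θ in (π + δ)..(π + 1), ρ / (2 * (θ - π)) := by
      rw [intervalIntegral.integral_comp_sub_right (fun u => ρ / (2 * u)) π]
      congr 1 <;> ring
    rw [e1]
    refine intervalIntegral.integral_mono_on (by linarith) ?_ (hFi _ _) ?_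
    · have := (hcg δ 1 hδ one_pos).comp_sub_right π
      convert this using 1 <;> ring
    · intro θ hθ
      have hu : δ ≤ θ - π := by linarith [hθ.1]
      have hu1 : θ - π ≤ 1 := by linarith [hθ.2]
      have hcos : Real.cos θ = - Real.cos (θ - π) := by rw [Real.cos_sub_pi, neg_neg]
      obtain ⟨h3, h4⟩ := xx_log_avg_pt l ρ a θ (θ - π) hl hl1 hρ ha h1 hcos hu hu1
      simp only [hF, if_pos h3]
      exact h4
  have hL : ρ / 2 * Real.log (1 / δ) ≤ ∫ θ in (π - 1)..(π - δ), F θ := by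
    rw [← xx_log_avg_int ρ δ hδ hδ1]
    have e1 : ∫ u in δ..1, ρ / (2 * u) = ∫ θ in (π - 1)..(π - δ), ρ / (2 * (π - θ)) := by
      rw [intervalIntegral.integral_comp_sub_left (fun u => ρ / (2 * u)) π]
      congr 1 <;> ring
    rw [e1]
    refine intervalIntegral.integral_mono_on (by linarith) ?_ (hFi _ _) ?_
    · have := (hcg δ 1 hδ one_pos).comp_sub_left π
      exact this.symm
    · intro θ hθ
      have hu : δ ≤ π - θ := by linarith [hθ.2]
      have hu1 : π - θ ≤ 1 := by linarith [hθ.1]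
      have hcos : Real.cos θ = - Real.cos (π - θ) := by rw [Real.cos_pi_sub, neg_neg]
      obtain ⟨h3, h4⟩ := xx_log_avg_pt l ρ a θ (π - θ) hl hl1 hρ ha h1 hcos hu hu1
      simp only [hF, if_pos h3]
      exact h4
  have hsplit : ∫ θ in (0 : ℝ)..(2 * π), F θ = (∫ θ in (0 : ℝ)..(π - 1), F θ)
      + (∫ θ in (π - 1)..(π - δ), F θ) + (∫ θ in (π - δ)..(π + δ), F θ)
      + (∫ θ in (π + δ)..(π + 1), F θ) + (∫ θ in (π + 1)..(2 * π), F θ) := by
    rw [intervalIntegral.integral_add_adjacent_intervals (hFi _ _) (hFi _ _),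
      intervalIntegral.integral_add_adjacent_intervals (hFi _ _) (hFi _ _),
      intervalIntegral.integral_add_adjacent_intervals (hFi _ _) (hFi _ _),
      intervalIntegral.integral_add_adjacent_intervals (hFi _ _) (hFi _ _)]
  have hn1 : 0 ≤ ∫ θ in (0 : ℝ)..(π - 1), F θ :=
    intervalIntegral.integral_nonneg (by linarith) fun θ _ => hF0 θ
  have hn2 : 0 ≤ ∫ θ in (π - δ)..(π + δ), F θ :=
    intervalIntegral.integral_nonneg (by linarith) fun θ _ => hF0 θ
  have hn3 : 0 ≤ ∫ θ in (π + 1)..(2 * π), F θ :=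
    intervalIntegral.integral_nonneg (by linarith) fun θ _ => hF0 θ
  have hlog : 1 / δ = a / (2 * ρ) := by
    rw [hδd, one_div_div]
  have htot : ρ * Real.log (a / (2 * ρ)) ≤ ∫ θ in (0 : ℝ)..(2 * π), F θ := by
    rw [hsplit, ← hlog]
    linarith
  have hfin : ρ / (2 * π) * Real.log (a / (2 * ρ)) = (2 * π)⁻¹ * (ρ * Real.log (a / (2 * ρ))) := by
    rw [div_eq_mul_inv]; ring
  rw [hfin]
  exact mul_le_mul_of_nonneg_left htot (by positivity)

end HS
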