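import Pool.Agent.HS.Defs
import Pool.Agent.HS.M_xx_facts

set_option autoImplicit false

open MeasureTheory ProbabilityTheory Filter Topology Set Polynomial
open scoped ENNReal NNReal Real

namespace HS

theorem xx_sq_avg_norm (l θ : ℝ) :
    ‖circleMap 0 1 θ - ((-l : ℝ) : ℂ)‖ ^ 2 = 1 + 2 * l * Real.cos θ + l ^ 2 := by
  have h1 : circleMap 0 1 θ - ((-l : ℝ) : ℂ) = ((Real.cos θ + l : ℝ) : ℂ) +
      ((Real.sin θ : ℝ) : ℂ) * Complex.I := by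
    rw [circleMap, Complex.exp_mul_I, ← Complex.ofReal_cos, ← Complex.ofReal_sin]
    push_cast
    ring
  rw [h1, ← Complex.normSq_eq_norm_sq, Complex.normSq_add_mul_I]
  nlinarith [Real.sin_sq_add_cos_sq θ]

theorem xx_sq_avg_pos (l θ : ℝ) (hl : 0 < l) (hl1 : l < 1) :
    0 < 1 + 2 * l * Real.cos θ + l ^ 2 := by
  have h1 := Real.neg_one_le_cos θ
  nlinarith [mul_nonneg hl.le (by linarith : 0 ≤ 1 + Real.cos θ), sq_pos_of_pos (by linarith : 0 < 1 - l)]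

theorem xx_sq_avg_poisson (l : ℝ) (hl : 0 < l) (hl1 : l < 1) :
    (2 * π)⁻¹ * ∫ θ in (0 : ℝ)..(2 * π), (1 - l ^ 2) / (1 + 2 * l * Real.cos θ + l ^ 2) = 1 := by
  have hw : ((-l : ℝ) : ℂ) ∈ Metric.ball (0 : ℂ) 1 := by
    rw [mem_ball_zero_iff, Complex.norm_real, Real.norm_eq_abs, abs_neg, abs_of_pos hl]
    exact hl1
  have hf : DiffContOnCl ℂ (fun _ : ℂ => (1 : ℂ)) (Metric.ball (0 : ℂ) 1) :=
    diffContOnCl_const
  have h := DiffContOnCl.circleAverage_poissonKernel_smul' hf hw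
  rw [Real.circleAverage_def] at h
  have h2 : ∀ θ : ℝ, ((‖circleMap 0 1 θ - 0‖ ^ 2 - ‖((-l : ℝ) : ℂ) - 0‖ ^ 2) /
      ‖(circleMap 0 1 θ - 0) - (((-l : ℝ) : ℂ) - 0)‖ ^ 2) =
      (1 - l ^ 2) / (1 + 2 * l * Real.cos θ + l ^ 2) := by
    intro θ
    rw [sub_zero, sub_zero, xx_sq_avg_norm, norm_circleMap_zero, Complex.norm_real,
      Real.norm_eq_abs, abs_neg, sq_abs, sq_abs, one_pow]
  simp only [h2] at h
  rw [intervalIntegral.integral_smul_const] at h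
  have h3 := congrArg Complex.re h
  simp only [Complex.smul_re, Complex.one_re, smul_eq_mul, mul_one] at h3
  exact h3

theorem xx_sq_avg (l ρ : ℝ) (hl : 0 < l) (hl1 : l < 1) (hρ : 0 < ρ) :
    (2 * π)⁻¹ * ∫ θ in (0 : ℝ)..(2 * π), (xx l ρ θ) ^ 2 = ρ ^ 2 / (1 - l ^ 2) := by
  have hl2 : 0 < 1 - l ^ 2 := by nlinarith
  have h1 : ∀ θ : ℝ, (xx l ρ θ) ^ 2 =
      ρ ^ 2 / (1 - l ^ 2) * ((1 - l ^ 2) / (1 + 2 * l * Real.cos θ + l ^ 2)) := by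
    intro θ
    have hp := xx_sq_avg_pos l θ hl hl1
    rw [xx, div_pow, Real.sq_sqrt hp.le]
    field_simp
  simp only [h1]
  rw [intervalIntegral.integral_const_mul]
  have h2 := xx_sq_avg_poisson l hl hl1
  calc (2 * π)⁻¹ * (ρ ^ 2 / (1 - l ^ 2) *
        ∫ θ in (0 : ℝ)..(2 * π), (1 - l ^ 2) / (1 + 2 * l * Real.cos θ + l ^ 2)) =
      ρ ^ 2 / (1 - l ^ 2) * ((2 * π)⁻¹ *
        ∫ θ in (0 : ℝ)..(2 * π), (1 - l ^ 2) / (1 + 2 * l * Real.cos θ + l ^ 2)) := by ring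
    _ = ρ ^ 2 / (1 - l ^ 2) := by rw [h2, mul_one]

end HS
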