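import Pool.Agent.HS.Defs
import Pool.Agent.HS.M_xx_facts
import Pool.Agent.HS.M_xx_sq_avg
import Pool.Agent.HS.M_xx_log_avg

set_option autoImplicit false

open MeasureTheory ProbabilityTheory Filter Topology Set Polynomial
open scoped ENNReal NNReal Real

namespace HS

theorem VV_avg_max (a s x b : ℝ) (ha : 2 ≤ a) (hs1 : -b ≤ s - a) (hs2 : s - a ≤ b)
    (hb0 : 0 < b) (hb : b ≤ 1 / 2) (hx2 : 2 * b ≤ x) (hxa : x ≤ a) :
    3 * a / 4 * x ≤ a ^ 2 - (s - x) ^ 2 := by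
  have ha0 : 0 < a := by linarith
  have hx0 : 0 < x := by linarith
  have u1 : x - s ≤ b := by linarith
  have u2 : s - x ≤ a - x / 2 := by linarith
  have hxx : x * x ≤ a * x := mul_le_mul_of_nonneg_right hxa hx0.le
  have hax : a * x ≤ a * a := mul_le_mul_of_nonneg_left hxa ha0.le
  have haa : 2 * 2 ≤ a * a := mul_le_mul ha ha (by norm_num) ha0.le
  rcases le_total 0 (s - x) with hu | hu
  · have h := pow_le_pow_left₀ hu u2 2
    have e : (a - x / 2) ^ 2 = a * a - a * x + x * x / 4 := by ring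
    rw [e] at h
    have e2 : a ^ 2 = a * a := by ring
    rw [e2]
    linarith
  · have h5 := pow_le_pow_left₀ (by linarith : 0 ≤ x - s) u1 2
    have h6 := pow_le_pow_left₀ hb0.le hb 2
    have e : (s - x) ^ 2 = (x - s) ^ 2 := by ring
    have e2 : a ^ 2 = a * a := by ring
    rw [e, e2]
    norm_num at h6
    linarith

theorem VV_avg_pt (a α s x : ℝ) (hα : 0 < α) (hα1 : α < 1) (ha : 2 ≤ a)
    (hs : |s - a| ≤ 1 / a) (hx : 2 / a ≤ x) :
    VV a α (s + x) + VV a α (s - x) ≤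
      (3 + x ^ 2) / 2 - (3 * α * a / 16) * (if x ≤ a then x else 0) := by
  have ha0 : 0 < a := by linarith
  obtain ⟨hs1, hs2⟩ := abs_le.mp hs
  have hinv : 1 / a ≤ 1 / 2 := by
    apply one_div_le_one_div_of_le <;> linarith
  have hinv0 : 0 < 1 / a := by positivity
  have haa : a * (1 / a) = 1 := by field_simp
  have hx2 : 2 * (1 / a) ≤ x := by
    have : 2 / a = 2 * (1 / a) := by ring
    linarith
  generalize 1 / a = b at *
  have hx0 : 0 < x := by linarith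
  have hmax : ∀ t : ℝ, VV a α t = (1 - α) / 4 * (t ^ 2 - a ^ 2) - (α / 4) * max (a ^ 2 - t ^ 2) 0 := by
    intro t
    unfold VV
    rcases le_total (t ^ 2 - a ^ 2) 0 with h | h
    · rw [max_eq_right h, max_eq_left (by linarith)]; ring
    · rw [max_eq_left h, max_eq_right (by linarith)]; ring
  rw [hmax, hmax]
  have h1 : s ^ 2 - a ^ 2 ≤ 3 := by
    have h := pow_le_pow_left₀ (by linarith : 0 ≤ s) (by linarith : s ≤ a + b) 2
    have h6 := pow_le_pow_left₀ hinv0.le hinv 2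
    have e : (a + b) ^ 2 = a ^ 2 + 2 * (a * b) + b ^ 2 := by ring
    rw [e, haa] at h
    norm_num at h6
    linarith
  have h2 : 0 ≤ max (a ^ 2 - (s + x) ^ 2) 0 := le_max_right _ _
  have h3 : 3 * a / 4 * (if x ≤ a then x else 0) ≤ max (a ^ 2 - (s - x) ^ 2) 0 := by
    split_ifs with hxa
    · exact le_max_of_le_left (VV_avg_max a s x b ha hs1 hs2 hinv0 hinv hx2 hxa)
    · simp
  have hα4 : 0 ≤ α / 4 := by linarith
  have h4 : (1 - α) / 4 * ((s + x) ^ 2 - a ^ 2) + (1 - α) / 4 * ((s - x) ^ 2 - a ^ 2) ≤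
      (3 + x ^ 2) / 2 := by
    have e : (1 - α) / 4 * ((s + x) ^ 2 - a ^ 2) + (1 - α) / 4 * ((s - x) ^ 2 - a ^ 2) =
        (1 - α) / 2 * (s ^ 2 - a ^ 2 + x ^ 2) := by ring
    rw [e]
    have : (1 - α) / 2 * (s ^ 2 - a ^ 2 + x ^ 2) ≤ (1 - α) / 2 * (3 + x ^ 2) :=
      mul_le_mul_of_nonneg_left (by linarith) (by linarith)
    have hh : 0 ≤ α * (3 + x ^ 2) := by positivity
    linarith
  have h7 := mul_le_mul_of_nonneg_left h3 hα4
  have h8 := mul_nonneg hα4 h2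
  have h9 : α / 4 * (3 * a / 4 * (if x ≤ a then x else 0)) =
      (3 * α * a / 16) * (if x ≤ a then x else 0) := by ring
  linarith

theorem VV_avg (a α l ρ s : ℝ) (hα : 0 < α) (hα1 : α < 1) (ha : 2 ≤ a)
    (hs : |s - a| ≤ 1 / a) (hl : 2 / 3 ≤ l) (hl1 : l < 1) (hρ : 4 / a ≤ ρ)
    (h1 : 1 - l ≤ 2 * ρ / a) (h2 : 2 * ρ ≤ a) :
    (2 * π)⁻¹ * ∫ θ in (0 : ℝ)..(2 * π), (VV a α (s + xx l ρ θ) + VV a α (s - xx l ρ θ)) ≤
      (3 + ρ ^ 2 / (1 - l ^ 2)) / 2 - (3 * α * a * ρ) / (32 * π) * Real.log (a / (2 * ρ)) := by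
  have ha0 : 0 < a := by linarith
  have hρ0 : 0 < ρ := lt_of_lt_of_le (by positivity) hρ
  have hl0 : 0 < l := by linarith
  obtain ⟨hxc, hxb⟩ := xx_facts l ρ hl0 hl1 hρ0
  have hx2 : ∀ θ, 2 / a ≤ xx l ρ θ := by
    intro θ
    have h := (hxb θ).1
    have : 2 / a = 4 / a / 2 := by ring
    linarith
  have hsq := xx_sq_avg l ρ hl0 hl1 hρ0
  have hlog := xx_log_avg l ρ a hl hl1 hρ0 h1 h2
  set I : ℝ → ℝ := fun θ => if xx l ρ θ ≤ a then xx l ρ θ else 0 with hI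
  have hIint : IntervalIntegrable I volume 0 (2 * π) := by
    have e : I = Set.indicator {θ | xx l ρ θ ≤ a} (fun θ => xx l ρ θ) := by
      funext θ
      simp only [hI, Set.indicator, Set.mem_setOf_eq]
    rw [intervalIntegrable_iff, e]
    have hc : IntegrableOn (fun θ => xx l ρ θ) (Set.uIoc 0 (2 * π)) volume :=
      (intervalIntegrable_iff.mp (hxc.intervalIntegrable 0 (2 * π)))
    exact hc.indicator (isClosed_le hxc continuous_const).measurableSet
  have hVc : Continuous (fun θ => VV a α (s + xx l ρ θ) + VV a α (s - xx l ρ θ)) := by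
    unfold VV
    fun_prop
  have hxsq : IntervalIntegrable (fun θ => (xx l ρ θ) ^ 2) volume 0 (2 * π) :=
    (hxc.pow 2).intervalIntegrable _ _
  have hx2c : Continuous (fun θ => (3 + (xx l ρ θ) ^ 2) / 2) := by fun_prop
  have hle : ∫ θ in (0 : ℝ)..(2 * π), (VV a α (s + xx l ρ θ) + VV a α (s - xx l ρ θ)) ≤
      ∫ θ in (0 : ℝ)..(2 * π), ((3 + (xx l ρ θ) ^ 2) / 2 - (3 * α * a / 16) * I θ) := by
    apply intervalIntegral.integral_mono_on (by positivity) (hVc.intervalIntegrable _ _)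
      ((hx2c.intervalIntegrable _ _).sub (hIint.const_mul _))
    intro θ _
    exact VV_avg_pt a α s (xx l ρ θ) hα hα1 ha hs (hx2 θ)
  have heq : ∫ θ in (0 : ℝ)..(2 * π), ((3 + (xx l ρ θ) ^ 2) / 2 - (3 * α * a / 16) * I θ) =
      (3 * (2 * π) + ∫ θ in (0 : ℝ)..(2 * π), (xx l ρ θ) ^ 2) / 2 -
        (3 * α * a / 16) * ∫ θ in (0 : ℝ)..(2 * π), I θ := by
    rw [intervalIntegral.integral_sub (hx2c.intervalIntegrable _ _) (hIint.const_mul _),
      intervalIntegral.integral_const_mul, intervalIntegral.integral_div,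
      intervalIntegral.integral_add intervalIntegrable_const hxsq,
      intervalIntegral.integral_const]
    simp
    ring
  rw [heq] at hle
  have hpi : 0 < (2 * π)⁻¹ := by positivity
  have h5 := mul_le_mul_of_nonneg_left hle hpi.le
  refine h5.trans ?_
  have e1 : (2 * π)⁻¹ * ((3 * (2 * π) + ∫ θ in (0 : ℝ)..(2 * π), (xx l ρ θ) ^ 2) / 2 -
        (3 * α * a / 16) * ∫ θ in (0 : ℝ)..(2 * π), I θ) =
      (3 + (2 * π)⁻¹ * ∫ θ in (0 : ℝ)..(2 * π), (xx l ρ θ) ^ 2) / 2 -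
        (3 * α * a / 16) * ((2 * π)⁻¹ * ∫ θ in (0 : ℝ)..(2 * π), I θ) := by
    have : (2 * π)⁻¹ * (2 * π) = 1 := inv_mul_cancel₀ (by positivity)
    linear_combination (3 / 2) * this
  rw [e1, hsq]
  have h6 : (3 * α * a / 16) * (ρ / (2 * π) * Real.log (a / (2 * ρ))) ≤
      (3 * α * a / 16) * ((2 * π)⁻¹ * ∫ θ in (0 : ℝ)..(2 * π), I θ) :=
    mul_le_mul_of_nonneg_left hlog (by positivity)
  have e2 : (3 * α * a / 16) * (ρ / (2 * π) * Real.log (a / (2 * ρ))) =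
      (3 * α * a * ρ) / (32 * π) * Real.log (a / (2 * ρ)) := by
    have := Real.pi_ne_zero
    field_simp
    ring
  linarith

end HS
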