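import Pool.Agent.HS.Defs

set_option autoImplicit false

open MeasureTheory ProbabilityTheory Filter Topology Set Polynomial
open scoped ENNReal NNReal Real

namespace HS

theorem cube_heat_deriv_orth (N : ℕ) (x y : Fin N → Bool) :
    ∑ S : Finset (Fin N), (∏ i ∈ S, (if y i then (-1 : ℝ) else 1)) *
      ∏ i ∈ S, (if x i then (-1 : ℝ) else 1) = if y = x then 2 ^ N else 0 := by
  have h1 : ∀ S : Finset (Fin N), (∏ i ∈ S, (if y i then (-1 : ℝ) else 1)) *
      ∏ i ∈ S, (if x i then (-1 : ℝ) else 1) =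
      ∏ i ∈ S, ((if y i then (-1 : ℝ) else 1) * (if x i then (-1 : ℝ) else 1)) :=
    fun S => Finset.prod_mul_distrib.symm
  simp_rw [h1]
  have h2 := Finset.prod_one_add (f := fun i : Fin N =>
    ((if y i then (-1 : ℝ) else 1) * (if x i then (-1 : ℝ) else 1))) Finset.univ
  rw [Finset.powerset_univ] at h2
  rw [← h2]
  by_cases hxy : y = x
  · rw [if_pos hxy, hxy]
    have : ∀ i : Fin N, (1 : ℝ) + (if x i then (-1 : ℝ) else 1) * (if x i then (-1 : ℝ) else 1) = 2 := by
      intro i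
      split_ifs <;> norm_num
    simp_rw [this]
    rw [Finset.prod_const, Finset.card_univ, Fintype.card_fin]
  · rw [if_neg hxy]
    obtain ⟨i, hi⟩ := Function.ne_iff.1 hxy
    refine Finset.prod_eq_zero (Finset.mem_univ i) ?_
    cases h3 : y i <;> cases h4 : x i <;> simp_all

theorem cube_heat_deriv_inv (N : ℕ) (f : (Fin N → Bool) → ℝ) (x : Fin N → Bool) :
    f x = ∑ S : Finset (Fin N),
        ((1 / (2 : ℝ) ^ N) * ∑ y : Fin N → Bool, f y * ∏ i ∈ S, (if y i then (-1 : ℝ) else 1)) *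
        ∏ i ∈ S, (if x i then (-1 : ℝ) else 1) := by
  have h1 : ∀ S : Finset (Fin N), ((1 / (2 : ℝ) ^ N) * ∑ y : Fin N → Bool, f y *
        ∏ i ∈ S, (if y i then (-1 : ℝ) else 1)) * ∏ i ∈ S, (if x i then (-1 : ℝ) else 1) =
      ∑ y : Fin N → Bool, (1 / (2 : ℝ) ^ N) * f y * ((∏ i ∈ S, (if y i then (-1 : ℝ) else 1)) *
        ∏ i ∈ S, (if x i then (-1 : ℝ) else 1)) := by
    intro S
    rw [Finset.mul_sum, Finset.sum_mul]
    refine Finset.sum_congr rfl fun y _ => ?_
    ring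
  simp_rw [h1]
  rw [Finset.sum_comm]
  simp_rw [← Finset.mul_sum, cube_heat_deriv_orth]
  simp only [mul_ite, mul_zero, Finset.sum_ite_eq', Finset.mem_univ, if_true]
  field_simp

theorem cube_heat_deriv_flip (N : ℕ) (x : Fin N → Bool) (S : Finset (Fin N)) (i : Fin N) :
    ∏ j ∈ S, (if Function.update x i (!x i) j then (-1 : ℝ) else 1) =
      if i ∈ S then -∏ j ∈ S, (if x j then (-1 : ℝ) else 1)
      else ∏ j ∈ S, (if x j then (-1 : ℝ) else 1) := by
  have h0 : ∀ j, j ≠ i → (if Function.update x i (!x i) j then (-1 : ℝ) else 1) =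
      (if x j then (-1 : ℝ) else 1) := by
    intro j hj
    rw [Function.update_of_ne hj]
  by_cases hi : i ∈ S
  · rw [if_pos hi, ← Finset.mul_prod_erase S _ hi, ← Finset.mul_prod_erase S (fun j =>
      (if x j then (-1 : ℝ) else 1)) hi, Function.update_self]
    rw [Finset.prod_congr rfl (fun j hj => h0 j (Finset.ne_of_mem_erase hj))]
    cases x i <;> simp
  · rw [if_neg hi]
    exact Finset.prod_congr rfl fun j hj => h0 j (fun h => hi (h ▸ hj))

theorem cube_heat_deriv_lim (c : ℝ) :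
    Tendsto (fun t : ℝ => (1 - Real.exp (-t * c)) / t) (𝓝[>] 0) (𝓝 c) := by
  have h1 : HasDerivAt (fun t : ℝ => 1 - Real.exp (-t * c)) c 0 := by
    have h2 : HasDerivAt (fun t : ℝ => -t * c) (-1 * c) 0 :=
      ((hasDerivAt_id (0 : ℝ)).neg).mul_const c
    have h3 := (h2.exp).const_sub 1
    simpa using h3
  have h2 := (hasDerivAt_iff_tendsto_slope_zero.1 h1).mono_left (nhdsGT_le_nhdsNE 0)
  refine h2.congr fun t => ?_
  simp only [zero_add, neg_zero, zero_mul, Real.exp_zero, sub_self, sub_zero, smul_eq_mul]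
  rw [div_eq_inv_mul]

/-- generator of the heat semigroup on the cube -/
theorem cube_heat_deriv (N : ℕ) (f : (Fin N → Bool) → ℝ) (x : Fin N → Bool) :
    Tendsto (fun t : ℝ => (f x - ∑ S : Finset (Fin N), Real.exp (-t * (S.card : ℝ)) *
        ((1 / (2 : ℝ) ^ N) * ∑ y : Fin N → Bool, f y * ∏ i ∈ S, (if y i then (-1 : ℝ) else 1)) *
        ∏ i ∈ S, (if x i then (-1 : ℝ) else 1)) / t) (𝓝[>] 0)
      (𝓝 (∑ i : Fin N, (f x - f (Function.update x i (!x i))) / 2)) := by
  obtain ⟨F, hF⟩ : ∃ F : Finset (Fin N) → ℝ, F = fun S => ((1 / (2 : ℝ) ^ N) *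
    ∑ y : Fin N → Bool, f y * ∏ i ∈ S, (if y i then (-1 : ℝ) else 1)) := ⟨_, rfl⟩
  have hinv : ∀ z, f z = ∑ S : Finset (Fin N), F S * ∏ i ∈ S, (if z i then (-1 : ℝ) else 1) := by
    intro z
    rw [hF]
    exact cube_heat_deriv_inv N f z
  have hFS : ∀ S : Finset (Fin N), ((1 / (2 : ℝ) ^ N) *
    ∑ y : Fin N → Bool, f y * ∏ i ∈ S, (if y i then (-1 : ℝ) else 1)) = F S := fun S => by rw [hF]
  simp_rw [hFS]
  have hR : ∑ i : Fin N, (f x - f (Function.update x i (!x i))) / 2 =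
      ∑ S : Finset (Fin N), (S.card : ℝ) * (F S * ∏ i ∈ S, (if x i then (-1 : ℝ) else 1)) := by
    have h1 : ∀ i : Fin N, (f x - f (Function.update x i (!x i))) / 2 =
        ∑ S : Finset (Fin N), if i ∈ S then (F S * ∏ i ∈ S, (if x i then (-1 : ℝ) else 1)) else 0 := by
      intro i
      rw [hinv x, hinv (Function.update x i (!x i)), ← Finset.sum_sub_distrib, Finset.sum_div]
      refine Finset.sum_congr rfl fun S _ => ?_
      rw [cube_heat_deriv_flip]
      split_ifs <;> ring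
    simp_rw [h1]
    rw [Finset.sum_comm]
    refine Finset.sum_congr rfl fun S _ => ?_
    rw [← Finset.sum_filter, Finset.sum_const, nsmul_eq_mul]
    congr 2
    simp
  rw [hR]
  have hL : ∀ t : ℝ, (f x - ∑ S : Finset (Fin N), Real.exp (-t * (S.card : ℝ)) * F S *
        ∏ i ∈ S, (if x i then (-1 : ℝ) else 1)) / t =
      ∑ S : Finset (Fin N), ((1 - Real.exp (-t * (S.card : ℝ))) / t) *
        (F S * ∏ i ∈ S, (if x i then (-1 : ℝ) else 1)) := by
    intro t
    rw [hinv x, ← Finset.sum_sub_distrib, Finset.sum_div]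
    refine Finset.sum_congr rfl fun S _ => ?_
    ring
  simp_rw [hL]
  exact tendsto_finsetSum _ fun S _ => (cube_heat_deriv_lim _).mul_const _

end HS
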