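import Pool.Agent.HS.Defs
import Pool.Agent.HS.DefsT

set_option autoImplicit false

open MeasureTheory ProbabilityTheory Filter Topology Set Polynomial
open scoped ENNReal NNReal Real

namespace HS

theorem he_facts_rec (k : ℕ) : he (k + 2) = X * he (k + 1) - C ((k : ℝ) + 1) * he k := by
  simp [he]

theorem he_facts_monic (k : ℕ) : ((he k).Monic ∧ (he k).natDegree = k) ∧
    ((he (k + 1)).Monic ∧ (he (k + 1)).natDegree = k + 1) := by
  induction k with
  | zero =>
    refine ⟨⟨?_, ?_⟩, ⟨?_, ?_⟩⟩
    · simp [he, monic_one]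
    · simp [he]
    · simp [he, monic_X]
    · simp [he]
  | succ k ih =>
    refine ⟨ih.2, ?_⟩
    have h1 : (X * he (k + 1)).Monic := monic_X.mul ih.2.1
    have h2 : (X * he (k + 1)).natDegree = k + 2 := by
      rw [natDegree_X_mul ih.2.1.ne_zero, ih.2.2]
    have h3 : (C ((k : ℝ) + 1) * he k).natDegree < (X * he (k + 1)).natDegree := by
      refine lt_of_le_of_lt (natDegree_C_mul_le _ _) ?_
      rw [ih.1.2, h2]
      omega
    show (he (k + 2)).Monic ∧ (he (k + 2)).natDegree = k + 2
    rw [he_facts_rec]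
    refine ⟨h1.sub_of_left (degree_lt_degree h3), ?_⟩
    rw [natDegree_sub_eq_left_of_natDegree_lt h3, h2]

theorem he_facts_der (k : ℕ) : derivative (he (k + 1)) = C ((k : ℝ) + 1) * he k ∧
    derivative (he (k + 2)) = C ((k : ℝ) + 2) * he (k + 1) := by
  induction k with
  | zero =>
    refine ⟨?_, ?_⟩
    · simp [he]
    · rw [he_facts_rec]
      simp [he]
      rw [← two_mul]
      congr 1
  | succ k ih =>
    refine ⟨?_, ?_⟩
    · have := ih.2
      push_cast
      rw [show ((k : ℝ) + 1 + 1) = (k : ℝ) + 2 by ring]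
      exact this
    · have h := he_facts_rec (k + 1)
      rw [h, derivative_sub, derivative_mul, derivative_X, derivative_C_mul, ih.2, ih.1]
      have h2 := he_facts_rec k
      push_cast
      have e1 : (C ((k : ℝ) + 1 + 2) : ℝ[X]) = C ((k : ℝ) + 2) + 1 := by
        rw [← C_1, ← C_add]
        congr 1
        ring
      have e2 : (C ((k : ℝ) + 1 + 1) : ℝ[X]) = C ((k : ℝ) + 2) := by
        congr 1
        ring
      rw [e1, e2, h2]
      ring

theorem he_facts (k : ℕ) : (he k).Monic ∧ (he k).natDegree = k ∧ NN (he k) = C (k : ℝ) * he k := by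
  refine ⟨(he_facts_monic k).1.1, (he_facts_monic k).1.2, ?_⟩
  rcases k with _ | _ | k
  · simp [NN, he]
  · simp [NN, he]
  · unfold NN
    show X * derivative (he (k + 2)) - derivative (derivative (he (k + 2))) =
      C ((k + 2 : ℕ) : ℝ) * he (k + 2)
    rw [(he_facts_der k).2, derivative_C_mul, (he_facts_der k).1, he_facts_rec k]
    push_cast
    ring

end HS
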