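import Pool.Agent.HS.Defs
import Pool.Agent.HS.DefsT
import Pool.Agent.HS.M_poly_integrable
import Pool.Agent.HS.M_NN_symm
import Pool.Agent.HS.M_he_facts

set_option autoImplicit false

open MeasureTheory ProbabilityTheory Filter Topology Set Polynomial
open scoped ENNReal NNReal Real

namespace HS

theorem he_expand_exists (D : ℕ) : ∀ Q : ℝ[X], Q.natDegree ≤ D →
    ∃ c : ℕ → ℝ, Q = ∑ k ∈ Finset.range (D + 1), C (c k) * he k := by
  induction D with
  | zero =>
    intro Q hQ
    refine ⟨fun _ => Q.coeff 0, ?_⟩
    have h := Polynomial.eq_C_of_natDegree_le_zero hQ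
    simp only [zero_add, Finset.range_one, Finset.sum_singleton]
    have : he 0 = 1 := by simp [he]
    rw [this, mul_one]
    exact h
  | succ D ih =>
    intro Q hQ
    obtain ⟨h1, h2, h3⟩ := he_facts (D + 1)
    have hlt : (Q - C (Q.coeff (D + 1)) * he (D + 1)).natDegree ≤ D := by
      rw [Polynomial.natDegree_le_iff_coeff_eq_zero]
      intro N hN
      rw [Polynomial.coeff_sub, Polynomial.coeff_C_mul]
      rcases Nat.lt_or_ge (D + 1) N with h | h
      · have e1 : Q.coeff N = 0 := Polynomial.coeff_eq_zero_of_natDegree_lt (lt_of_le_of_lt hQ h)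
        have e2 : (he (D + 1)).coeff N = 0 :=
          Polynomial.coeff_eq_zero_of_natDegree_lt (by rw [h2]; exact h)
        rw [e1, e2]
        simp
      · have hN' : N = D + 1 := by omega
        subst hN'
        have : (he (D + 1)).coeff (D + 1) = 1 := by
          have := h1.coeff_natDegree
          rwa [h2] at this
        rw [this]
        ring
    obtain ⟨c, hc⟩ := ih _ hlt
    refine ⟨fun k => if k = D + 1 then Q.coeff (D + 1) else c k, ?_⟩
    rw [Finset.sum_range_succ]
    have h4 : ∑ k ∈ Finset.range (D + 1), C (if k = D + 1 then Q.coeff (D + 1) else c k) * he k =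
        ∑ k ∈ Finset.range (D + 1), C (c k) * he k := by
      apply Finset.sum_congr rfl
      intro k hk
      rw [Finset.mem_range] at hk
      rw [if_neg (by omega)]
    rw [h4, ← hc]
    simp

theorem he_expand_orth (j k : ℕ) (hjk : j ≠ k) :
    ∫ s, (he j).eval s * (he k).eval s ∂G1 = 0 := by
  have h := NN_symm (he j) (he k)
  rw [(he_facts j).2.2, (he_facts k).2.2] at h
  simp only [Polynomial.eval_mul, Polynomial.eval_C] at h
  have h1 : ∫ s, (j : ℝ) * (he j).eval s * (he k).eval s ∂G1 =
      (j : ℝ) * ∫ s, (he j).eval s * (he k).eval s ∂G1 := by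
    rw [← MeasureTheory.integral_const_mul]
    congr 1
    ext s
    ring
  have h2 : ∫ s, (he j).eval s * ((k : ℝ) * (he k).eval s) ∂G1 =
      (k : ℝ) * ∫ s, (he j).eval s * (he k).eval s ∂G1 := by
    rw [← MeasureTheory.integral_const_mul]
    congr 1
    ext s
    ring
  rw [h1, h2] at h
  have h3 : ((j : ℝ) - k) * ∫ s, (he j).eval s * (he k).eval s ∂G1 = 0 := by
    linear_combination h
  rcases mul_eq_zero.1 h3 with h4 | h4
  · exfalso
    apply hjk
    exact_mod_cast sub_eq_zero.1 h4
  · exact h4

theorem he_expand_pos (k : ℕ) : ∫ s, (he k).eval s * (he k).eval s ∂G1 ≠ 0 := by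
  intro h0
  have hint : Integrable (fun s => (he k).eval s * (he k).eval s) G1 := by
    have := poly_integrable (he k * he k)
    simpa only [Polynomial.eval_mul] using this
  have hnn : 0 ≤ fun s => (he k).eval s * (he k).eval s := fun s => mul_self_nonneg _
  rw [MeasureTheory.integral_eq_zero_iff_of_nonneg hnn hint] at h0
  have hne : he k ≠ 0 := (he_facts k).1.ne_zero
  have hfin : {s : ℝ | (he k).eval s = 0}.Finite := by
    have := (he k).roots.toFinset.finite_toSet
    apply this.subset
    intro s hs
    simp only [Multiset.mem_toFinset, Finset.mem_coe]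
    rw [Polynomial.mem_roots hne]
    exact hs
  have hna : NullSingletonClass (gaussianReal 0 1) :=
    nullSingletonClass_gaussianReal (by norm_num)
  have hz : G1 {s : ℝ | (he k).eval s = 0} = 0 := hfin.measure_zero _
  have h1 : ∀ᵐ s ∂G1, (he k).eval s = 0 := by
    filter_upwards [h0] with s hs
    exact mul_self_eq_zero.1 hs
  have h2 : ∀ᵐ s ∂G1, ¬ ((he k).eval s = 0) := by
    rw [MeasureTheory.ae_iff]
    simpa only [not_not] using hz
  have h3 : ∀ᵐ s ∂G1, False := by
    filter_upwards [h1, h2] with s a b
    exact b a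
  rw [MeasureTheory.ae_iff] at h3
  simp at h3

theorem he_expand_NN (D : ℕ) (c : ℕ → ℝ) :
    NN (∑ k ∈ Finset.range (D + 1), C (c k) * he k) =
      ∑ k ∈ Finset.range (D + 1), C ((k : ℝ) * c k) * he k := by
  have hadd : ∀ P Q : ℝ[X], NN (P + Q) = NN P + NN Q := by
    intro P Q
    simp only [NN, derivative_add]
    ring
  have hsm : ∀ (a : ℝ) (P : ℝ[X]), NN (C a * P) = C a * NN P := by
    intro a P
    simp only [NN, derivative_C_mul]
    ring
  have hzero : NN 0 = 0 := by simp [NN]
  have hsum : ∀ n, NN (∑ k ∈ Finset.range n, C (c k) * he k) =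
      ∑ k ∈ Finset.range n, C ((k : ℝ) * c k) * he k := by
    intro n
    induction n with
    | zero => simp [hzero]
    | succ n ih =>
      rw [Finset.sum_range_succ, Finset.sum_range_succ, hadd, ih, hsm, (he_facts n).2.2]
      rw [← mul_assoc, ← Polynomial.C_mul, mul_comm (c n)]
  exact hsum _

/-- Hermite expansion of a polynomial in the tail space -/
theorem he_expand (d : ℕ) (Q : ℝ[X])
    (hT : ∀ R : ℝ[X], R.natDegree ≤ d → ∫ s, Q.eval s * R.eval s ∂G1 = 0) :
    ∃ (D : ℕ) (c : ℕ → ℝ), (∀ k, k ≤ d → c k = 0) ∧
      Q = ∑ k ∈ Finset.range (D + 1), C (c k) * he k ∧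
      NN Q = ∑ k ∈ Finset.range (D + 1), C ((k : ℝ) * c k) * he k := by
  obtain ⟨c, hc⟩ := he_expand_exists (max Q.natDegree d) Q (le_max_left _ _)
  refine ⟨max Q.natDegree d, c, ?_, hc, ?_⟩
  · intro k hk
    have h1 := hT (he k) (by rw [(he_facts k).2.1]; exact hk)
    have h2 : ∀ s : ℝ, Q.eval s * (he k).eval s =
        ∑ j ∈ Finset.range (max Q.natDegree d + 1), c j * ((he j).eval s * (he k).eval s) := by
      intro s
      conv_lhs => rw [hc]
      rw [Polynomial.eval_finset_sum, Finset.sum_mul]
      apply Finset.sum_congr rfl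
      intro j _
      rw [Polynomial.eval_mul, Polynomial.eval_C, mul_assoc]
    simp_rw [h2] at h1
    rw [MeasureTheory.integral_finset_sum] at h1
    · rw [Finset.sum_eq_single k] at h1
      · rw [MeasureTheory.integral_const_mul] at h1
        rcases mul_eq_zero.1 h1 with h | h
        · exact h
        · exact absurd h (he_expand_pos k)
      · intro j _ hj
        rw [MeasureTheory.integral_const_mul, he_expand_orth j k hj, mul_zero]
      · intro hk'
        exfalso
        apply hk'
        rw [Finset.mem_range]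
        have := le_max_right Q.natDegree d
        omega
    · intro j _
      apply Integrable.const_mul
      have := poly_integrable (he j * he k)
      simpa only [Polynomial.eval_mul] using this
  · conv_lhs => rw [hc]
    exact he_expand_NN _ c

end HS
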