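import Pool.Agent.HS.Defs
import Pool.Agent.HS.DefsT
import Pool.Agent.HS.M_muM_prob

set_option autoImplicit false

open MeasureTheory ProbabilityTheory Filter Topology Set Polynomial
open scoped ENNReal NNReal Real

namespace HS

theorem cube_integral_pi {ι : Type} [Fintype ι] (n : ℕ) (c : ℝ≥0∞) (f : ι → ℝ)
    [IsProbabilityMeasure (∑ x : ι, c • Measure.dirac (f x))] :
    Measure.pi (fun _ : Fin n => ∑ x : ι, c • Measure.dirac (f x)) =
      ∑ y : Fin n → ι, c ^ n • Measure.dirac (fun j => f (y j)) := by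
  classical
  symm
  refine (Measure.pi_eq fun s hs => ?_).symm
  rw [Measure.finsetSum_apply]
  have h1 : ∀ y : Fin n → ι, (c ^ n • Measure.dirac (fun j => f (y j))) (Set.pi Set.univ s) =
      ∏ j, (c * (s j).indicator 1 (f (y j))) := by
    intro y
    rw [Measure.smul_apply, Measure.dirac_apply' _ (MeasurableSet.univ_pi hs), smul_eq_mul,
      Finset.prod_mul_distrib, Finset.prod_const, Finset.card_univ, Fintype.card_fin]
    congr 1
    by_cases h : (fun j => f (y j)) ∈ Set.pi Set.univ s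
    · rw [Set.indicator_of_mem h]
      symm
      apply Finset.prod_eq_one
      intro j _
      rw [Set.indicator_of_mem (h j (Set.mem_univ j))]
      rfl
    · rw [Set.indicator_of_notMem h]
      rw [Set.mem_univ_pi] at h
      push Not at h
      obtain ⟨j, hj⟩ := h
      symm
      apply Finset.prod_eq_zero (Finset.mem_univ j)
      rw [Set.indicator_of_notMem hj]
  simp only [h1]
  have h2 : ∀ j : Fin n, (∑ x : ι, c • Measure.dirac (f x)) (s j) =
      ∑ x : ι, c * (s j).indicator 1 (f x) := by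
    intro j
    rw [Measure.finsetSum_apply]
    refine Finset.sum_congr rfl fun x _ => ?_
    rw [Measure.smul_apply, Measure.dirac_apply' _ (hs j), smul_eq_mul]
  simp only [h2]
  rw [Finset.prod_univ_sum, Fintype.piFinset_univ]

theorem cube_integral (n M : ℕ) (F : (Fin n → ℝ) → ℝ) (hF : Continuous F) :
    ((2 : ℝ) ^ (n * M))⁻¹ * ∑ x : Fin (n * M) → Bool,
        F (fun j => (√M)⁻¹ * ∑ i, sg (x (finProdFinEquiv (j, i)))) =
      ∫ s, F s ∂(Measure.pi (fun _ : Fin n => muM M)) := by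
  classical
  have hp : IsProbabilityMeasure (∑ x : Fin M → Bool,
      ENNReal.ofReal ((2 : ℝ) ^ M)⁻¹ • Measure.dirac ((√M)⁻¹ * ∑ i, sg (x i))) := muM_prob M
  have h1 : (Measure.pi (fun _ : Fin n => muM M)) =
      ∑ y : Fin n → Fin M → Bool, (ENNReal.ofReal ((2 : ℝ) ^ M)⁻¹) ^ n •
        Measure.dirac (fun j => (√M)⁻¹ * ∑ i, sg (y j i)) := by
    unfold muM
    exact cube_integral_pi n (ENNReal.ofReal ((2 : ℝ) ^ M)⁻¹)
      (fun x : Fin M → Bool => (√M)⁻¹ * ∑ i, sg (x i))
  have hc : (ENNReal.ofReal ((2 : ℝ) ^ M)⁻¹) ^ n ≠ ⊤ := ENNReal.pow_ne_top ENNReal.ofReal_ne_top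
  rw [h1, integral_finsetSum_measure]
  · have h2 : ∀ y : Fin n → Fin M → Bool, ∫ s, F s ∂((ENNReal.ofReal ((2 : ℝ) ^ M)⁻¹) ^ n •
        Measure.dirac (fun j => (√M)⁻¹ * ∑ i, sg (y j i))) =
        ((2 : ℝ) ^ (n * M))⁻¹ * F (fun j => (√M)⁻¹ * ∑ i, sg (y j i)) := by
      intro y
      rw [integral_smul_measure, integral_dirac, ENNReal.toReal_pow,
        ENNReal.toReal_ofReal (by positivity), smul_eq_mul]
      congr 1
      rw [inv_pow, ← pow_mul, mul_comm]
    simp only [h2]
    rw [← Finset.mul_sum]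
    congr 1
    let e : (Fin (n * M) → Bool) ≃ (Fin n → Fin M → Bool) :=
      (Equiv.arrowCongr finProdFinEquiv.symm (Equiv.refl Bool)).trans (Equiv.curry _ _ _)
    exact Fintype.sum_equiv e _ _ (fun x => rfl)
  · intro y _
    refine Integrable.smul_measure ?_ hc
    exact integrable_dirac (by simp)

end HS
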