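import Pool.Agent.HS.Defs
import Pool.Agent.HS.DefsT

set_option autoImplicit false

open MeasureTheory ProbabilityTheory Filter Topology Set Polynomial
open scoped ENNReal NNReal Real

namespace HS

theorem ee_rec_ins {ι : Type*} [DecidableEq ι] (S : Finset ι) (a : ι) (ha : a ∉ S) (f : ι → ℝ)
    (k : ℕ) : ∑ T ∈ (insert a S).powersetCard (k + 1), ∏ i ∈ T, f i =
      ∑ T ∈ S.powersetCard (k + 1), ∏ i ∈ T, f i + f a * ∑ T ∈ S.powersetCard k, ∏ i ∈ T, f i := by
  have hmem : ∀ n, ∀ T ∈ S.powersetCard n, a ∉ T := by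
    intro n T hT h
    exact ha ((Finset.mem_powersetCard.1 hT).1 h)
  rw [Finset.powersetCard_succ_insert ha, Finset.sum_union]
  · congr 1
    rw [Finset.sum_image, Finset.mul_sum]
    · apply Finset.sum_congr rfl
      intro T hT
      rw [Finset.prod_insert (hmem _ T hT)]
    · intro T hT T' hT' h
      have h1 := hmem _ T hT
      have h2 := hmem _ T' hT'
      have h3 : (insert a T).erase a = (insert a T').erase a := by rw [h]
      rwa [Finset.erase_insert h1, Finset.erase_insert h2] at h3
  · rw [Finset.disjoint_left]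
    intro T hT hT'
    obtain ⟨T', _, rfl⟩ := Finset.mem_image.1 hT'
    exact hmem _ _ hT (Finset.mem_insert_self a T')

theorem ee_rec_gen {ι : Type*} [DecidableEq ι] (S : Finset ι) (f : ι → ℝ)
    (hf : ∀ i, f i ^ 2 = 1) :
    (∑ T ∈ S.powersetCard 1, ∏ i ∈ T, f i = ∑ i ∈ S, f i) ∧
    ∀ k : ℕ, ((k : ℝ) + 2) * ∑ T ∈ S.powersetCard (k + 2), ∏ i ∈ T, f i =
      (∑ i ∈ S, f i) * ∑ T ∈ S.powersetCard (k + 1), ∏ i ∈ T, f i -
        ((S.card : ℝ) - k) * ∑ T ∈ S.powersetCard k, ∏ i ∈ T, f i := by
  induction S using Finset.induction_on with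
  | empty =>
    have h0 : ∀ n : ℕ, ∑ T ∈ (∅ : Finset ι).powersetCard (n + 1), ∏ i ∈ T, f i = 0 := by
      intro n
      have h1 : (∅ : Finset ι).powersetCard (n + 1) = ∅ := by
        rw [Finset.powersetCard_eq_empty]
        simp
      rw [h1, Finset.sum_empty]
    constructor
    · rw [h0 0]
      simp
    · intro k
      rcases k with _ | k
      · rw [h0 1, h0 0]
        simp
      · rw [h0 (k + 2), h0 (k + 1), h0 k]
        simp
  | insert a S ha ih =>
    obtain ⟨ih1, ih2⟩ := ih
    constructor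
    · have h1 := ee_rec_ins S a ha f 0
      rw [zero_add] at h1
      rw [h1, ih1, Finset.sum_insert ha]
      simp
      ring
    · intro k
      have hya := hf a
      have h2 := ih2 k
      rw [ee_rec_ins S a ha f (k + 1), ee_rec_ins S a ha f k, Finset.sum_insert ha,
        Finset.card_insert_of_notMem ha]
      rcases k with _ | k
      · have h3 : ∑ T ∈ (insert a S).powersetCard 0, ∏ i ∈ T, f i = 1 := by simp
        have h4 : ∑ T ∈ S.powersetCard 0, ∏ i ∈ T, f i = 1 := by simp
        rw [h3]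
        rw [h4] at h2 ⊢
        rw [zero_add] at h2 ⊢
        rw [ih1] at h2 ⊢
        push_cast at h2 ⊢
        linear_combination h2 - hya
      · have h5 := ih2 k
        rw [ee_rec_ins S a ha f k]
        push_cast at h2 h5 ⊢
        rw [show k + 1 + 1 = k + 2 by ring] at h2 ⊢
        linear_combination h2 + f a * h5 - (∑ T ∈ S.powersetCard (k + 1), ∏ i ∈ T, f i) * hya

theorem ee_rec (M k : ℕ) (x : Fin M → Bool) :
    ((k : ℝ) + 2) * ee M (k + 2) x =
      (∑ i, sg (x i)) * ee M (k + 1) x - ((M : ℝ) - k) * ee M k x := by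
  have h := (ee_rec_gen (Finset.univ : Finset (Fin M)) (fun i => sg (x i)) (by
    intro i
    unfold sg
    split_ifs <;> norm_num)).2 k
  rw [Finset.card_univ, Fintype.card_fin] at h
  exact h

end HS
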