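import Pool.Agent.HS.Defs
import Pool.Agent.HS.DefsT
import Pool.Agent.HS.M_ee_rec

set_option autoImplicit false

open MeasureTheory ProbabilityTheory Filter Topology Set Polynomial
open scoped ENNReal NNReal Real

namespace HS

theorem kr_eval_two (M : ℕ) (hM : 1 ≤ M) (x : Fin M → Bool) (k : ℕ) :
    ((k.factorial : ℝ) * ((√M)⁻¹) ^ k * ee M k x =
      (kr (1 / M) k).eval ((√M)⁻¹ * ∑ i, sg (x i))) ∧
    (((k + 1).factorial : ℝ) * ((√M)⁻¹) ^ (k + 1) * ee M (k + 1) x =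
      (kr (1 / M) (k + 1)).eval ((√M)⁻¹ * ∑ i, sg (x i))) := by
  have hMpos : (0:ℝ) < M := by exact_mod_cast hM
  have hr : ((√(M:ℝ))⁻¹) ^ 2 * M = 1 := by
    rw [inv_pow, Real.sq_sqrt hMpos.le]
    exact inv_mul_cancel₀ hMpos.ne'
  have hr' : (1 / (M:ℝ)) = ((√(M:ℝ))⁻¹) ^ 2 := by
    rw [inv_pow, Real.sq_sqrt hMpos.le, one_div]
  induction k with
  | zero =>
    constructor
    · simp [ee, kr]
    · simp [ee, kr, Finset.powersetCard_one]
  | succ k ih =>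
    refine ⟨ih.2, ?_⟩
    have h1 := ee_rec M k x
    have e1 : (kr (1 / M) (k + 1 + 1)) =
        X * kr (1 / M) (k + 1) - C (((k : ℝ) + 1) * (1 - (k : ℝ) * (1 / M))) * kr (1 / M) k := by
      rw [kr]
    rw [e1, eval_sub, eval_mul, eval_mul, eval_X, eval_C, ← ih.1, ← ih.2, hr']
    rw [Nat.factorial_succ (k + 1), Nat.factorial_succ k]
    push_cast
    generalize (√(M:ℝ))⁻¹ = r at *
    generalize (∑ i, sg (x i)) = S at *
    have e2 : ee M (k + 1 + 1) x = ee M (k + 2) x := rfl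
    rw [e2]
    linear_combination ((k:ℝ) + 1) * (k.factorial : ℝ) * r ^ (k + 2) * h1
      - ((k:ℝ) + 1) * (k.factorial : ℝ) * r ^ k * ee M k x * hr

theorem kr_eval (M k : ℕ) (hM : 1 ≤ M) (x : Fin M → Bool) :
    (k.factorial : ℝ) * ((√M)⁻¹) ^ k * ee M k x =
      (kr (1 / M) k).eval ((√M)⁻¹ * ∑ i, sg (x i)) :=
  (kr_eval_two M hM x k).1

end HS
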