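import Pool.Agent.HS.Defs
import Pool.Agent.HS.DefsT

set_option autoImplicit false

open MeasureTheory ProbabilityTheory Filter Topology Set Polynomial
open scoped ENNReal NNReal Real

namespace HS

theorem kr_tendsto_aux : ∀ k : ℕ,
    (∀ m : ℕ, Tendsto (fun M : ℕ => (kr (1 / (M : ℝ)) k).coeff m) atTop (𝓝 ((he k).coeff m))) ∧
      ∀ u : ℝ, (kr u k).natDegree ≤ k
  | 0 => by
    refine ⟨fun m => ?_, fun u => ?_⟩
    · simp only [kr, he]
      exact tendsto_const_nhds
    · simp [kr]
  | 1 => by
    refine ⟨fun m => ?_, fun u => ?_⟩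
    · simp only [kr, he]
      exact tendsto_const_nhds
    · simp only [kr]
      exact natDegree_X_le
  | (k + 2) => by
    obtain ⟨h0, d0⟩ := kr_tendsto_aux k
    obtain ⟨h1, d1⟩ := kr_tendsto_aux (k + 1)
    refine ⟨fun m => ?_, fun u => ?_⟩
    · simp only [kr, he, coeff_sub, coeff_C_mul]
      refine Tendsto.sub ?_ ?_
      · cases m with
        | zero =>
          simp only [coeff_X_mul_zero]
          exact tendsto_const_nhds
        | succ m =>
          simp only [coeff_X_mul]
          exact h1 m
      · refine Tendsto.mul ?_ (h0 m)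
        have : Tendsto (fun M : ℕ => ((k : ℝ) + 1) * (1 - (k : ℝ) * (1 / (M : ℝ)))) atTop
            (𝓝 (((k : ℝ) + 1) * (1 - (k : ℝ) * 0))) :=
          (tendsto_const_nhds.sub
            (tendsto_one_div_atTop_nhds_zero_nat.const_mul (k : ℝ))).const_mul _
        simpa using this
    · simp only [kr]
      refine (natDegree_sub_le _ _).trans (max_le ?_ ?_)
      · refine natDegree_mul_le.trans ?_
        have h2 := d1 u
        have h3 : (X : ℝ[X]).natDegree ≤ 1 := natDegree_X_le
        omega
      · refine natDegree_mul_le.trans ?_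
        rw [natDegree_C]
        have h2 := d0 u
        omega

theorem kr_tendsto (k m : ℕ) :
    Tendsto (fun M : ℕ => (kr (1 / (M : ℝ)) k).coeff m) atTop (𝓝 ((he k).coeff m)) ∧
      ∀ u : ℝ, (kr u k).natDegree ≤ k :=
  ⟨(kr_tendsto_aux k).1 m, (kr_tendsto_aux k).2⟩

end HS
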