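import Pool.Agent.HS.Defs
import Pool.Agent.HS.DefsT
import Pool.Agent.HS.M_muM_prob

set_option autoImplicit false

open MeasureTheory ProbabilityTheory Filter Topology Set Polynomial
open scoped ENNReal NNReal Real

namespace HS

theorem muM_exp_int (M : ℕ) (f : ℝ → ℝ) : Integrable f (muM M) := by
  unfold muM
  rw [integrable_finsetSum_measure]
  intro x _
  exact (integrable_dirac (by simp)).smul_measure ENNReal.ofReal_ne_top

theorem muM_exp_integral (M : ℕ) (f : ℝ → ℝ) : ∫ s, f s ∂(muM M) =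
    ∑ x : Fin M → Bool, ((2 : ℝ) ^ M)⁻¹ * f ((√M)⁻¹ * ∑ i, sg (x i)) := by
  unfold muM
  rw [integral_finsetSum_measure]
  · refine Finset.sum_congr rfl fun x _ => ?_
    rw [integral_smul_measure, integral_dirac, ENNReal.toReal_ofReal (by positivity), smul_eq_mul]
  · intro x _
    exact (integrable_dirac (by simp)).smul_measure ENNReal.ofReal_ne_top

theorem muM_exp_one (M : ℕ) (t : ℝ) (ht : t ^ 2 = (((√M)⁻¹ : ℝ)) ^ 2) :
    ∑ x : Fin M → Bool, ((2 : ℝ) ^ M)⁻¹ * Real.exp (t * ∑ i, sg (x i)) ≤ Real.exp (1 / 2) := by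
  have h1 : ∑ x : Fin M → Bool, Real.exp (t * ∑ i, sg (x i)) = (2 * Real.cosh t) ^ M := by
    have h2 : ∀ x : Fin M → Bool, Real.exp (t * ∑ i, sg (x i)) = ∏ i, Real.exp (t * sg (x i)) := by
      intro x
      rw [Finset.mul_sum, Real.exp_sum]
    simp only [h2]
    rw [← Fintype.prod_sum (fun (_ : Fin M) (b : Bool) => Real.exp (t * sg b))]
    rw [Finset.prod_const, Finset.card_univ, Fintype.card_fin]
    congr 1
    rw [Fintype.sum_bool, Real.cosh_eq]
    simp [sg]
    ring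
  rw [← Finset.mul_sum, h1, mul_pow, ← mul_assoc, inv_mul_cancel₀ (by positivity), one_mul]
  have h3 := Real.cosh_le_exp_half_sq t
  have h4 : 0 < Real.cosh t := Real.cosh_pos t
  calc Real.cosh t ^ M ≤ (Real.exp (t ^ 2 / 2)) ^ M := pow_le_pow_left₀ h4.le h3 M
    _ = Real.exp (M * (t ^ 2 / 2)) := by rw [← Real.exp_nat_mul]
    _ ≤ Real.exp (1 / 2) := by
      apply Real.exp_le_exp.2
      rw [ht, inv_pow, Real.sq_sqrt (Nat.cast_nonneg M)]
      rcases Nat.eq_zero_or_pos M with h | h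
      · subst h; simp
      · have : (0 : ℝ) < M := by exact_mod_cast h
        field_simp
        exact le_refl _




theorem muM_exp (M : ℕ) : Integrable (fun s => Real.exp |s|) (muM M) ∧
    ∫ s, Real.exp |s| ∂(muM M) ≤ 4 := by
  refine ⟨muM_exp_int M _, ?_⟩
  have h1 : ∫ s, Real.exp |s| ∂(muM M) ≤ ∫ s, (Real.exp s + Real.exp (-s)) ∂(muM M) := by
    refine integral_mono (muM_exp_int M _) (muM_exp_int M _) fun s => ?_
    show Real.exp |s| ≤ Real.exp s + Real.exp (-s)
    rcases abs_cases s with ⟨h, _⟩ | ⟨h, _⟩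
    · rw [h]; linarith [Real.exp_pos (-s)]
    · rw [h]; linarith [Real.exp_pos s]
  rw [integral_add (muM_exp_int M _) (muM_exp_int M _), muM_exp_integral M (fun s => Real.exp s),
    muM_exp_integral M (fun s => Real.exp (-s))] at h1
  have h2 := muM_exp_one M ((√M)⁻¹) rfl
  have h3 := muM_exp_one M (-(√M)⁻¹) (by ring)
  have h4 : ∀ x : Fin M → Bool, -((√M)⁻¹ * ∑ i, sg (x i)) = -(√M)⁻¹ * ∑ i, sg (x i) := by
    intro x; ring
  simp only [h4] at h1
  have h5 : Real.exp (1 / 2) ≤ 2 := by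
    have h6 : Real.exp (1 / 2) ^ 2 = Real.exp 1 := by
      rw [← Real.exp_nat_mul]; norm_num
    have h7 := Real.exp_one_lt_d9
    have h8 := Real.exp_pos (1 / 2)
    nlinarith
  linarith

end HS
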