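import Pool.Agent.HS.Defs
import Pool.Agent.HS.DefsT
import Pool.Agent.HS.M_muM_prob
import Pool.Agent.HS.M_muM_exp

set_option autoImplicit false

open MeasureTheory ProbabilityTheory Filter Topology Set Polynomial
open scoped ENNReal NNReal Real

namespace HS

theorem poly_moment_bound_pt (D : ℕ) (q : ℝ[X]) (B : ℝ) (hq : q.natDegree ≤ D)
    (hB : ∀ k, |q.coeff k| ≤ B) (s : ℝ) :
    (q.eval s) ^ 4 ≤ B ^ 4 * (∑ k ∈ Finset.range (D + 1), (4 : ℝ) ^ k * (k.factorial : ℝ)) ^ 4 *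
      Real.exp |s| := by
  have hB0 : 0 ≤ B := (abs_nonneg _).trans (hB 0)
  obtain ⟨C, hC⟩ : ∃ C : ℝ, C = ∑ k ∈ Finset.range (D + 1), (4 : ℝ) ^ k * (k.factorial : ℝ) :=
    ⟨_, rfl⟩
  have hC0 : 0 ≤ C := by rw [hC]; positivity
  have h1 : |q.eval s| ≤ B * C * Real.exp (|s| / 4) := by
    rw [Polynomial.eval_eq_sum_range' (Nat.lt_succ_of_le hq) s, hC, Finset.mul_sum, Finset.sum_mul]
    refine (Finset.abs_sum_le_sum_abs _ _).trans (Finset.sum_le_sum fun k _ => ?_)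
    rw [abs_mul, abs_pow]
    have h2 : |s| ^ k ≤ (4 : ℝ) ^ k * (k.factorial : ℝ) * Real.exp (|s| / 4) := by
      have h3 := Real.pow_div_factorial_le_exp (|s| / 4) (by positivity) k
      have hf : (0 : ℝ) < k.factorial := by positivity
      rw [div_le_iff₀ hf, div_pow, div_le_iff₀ (by positivity)] at h3
      linarith
    calc |q.coeff k| * |s| ^ k ≤ B * ((4 : ℝ) ^ k * (k.factorial : ℝ) * Real.exp (|s| / 4)) :=
          mul_le_mul (hB k) h2 (by positivity) hB0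
      _ = B * ((4 : ℝ) ^ k * (k.factorial : ℝ)) * Real.exp (|s| / 4) := by ring
  rw [← hC]
  have h4 : (q.eval s) ^ 4 = |q.eval s| ^ 4 := by
    rw [← abs_pow, abs_of_nonneg (by positivity)]
  rw [h4]
  refine (pow_le_pow_left₀ (abs_nonneg _) h1 4).trans_eq ?_
  rw [mul_pow, mul_pow, ← Real.exp_nat_mul]
  congr 2
  push_cast
  ring

theorem poly_moment_bound_sum (n : ℕ) (v : Fin n → ℝ) :
    (∑ j, v j) ^ 4 ≤ (n : ℝ) ^ 3 * ∑ j, v j ^ 4 := by
  have h1 : (∑ j, v j) ^ 2 ≤ (n : ℝ) * ∑ j, v j ^ 2 := by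
    have := sq_sum_le_card_mul_sum_sq (s := (Finset.univ : Finset (Fin n))) (f := v)
    simpa using this
  have h2 : (∑ j, v j ^ 2) ^ 2 ≤ (n : ℝ) * ∑ j, v j ^ 4 := by
    have := sq_sum_le_card_mul_sum_sq (s := (Finset.univ : Finset (Fin n))) (f := fun j => v j ^ 2)
    simp only [Finset.card_univ, Fintype.card_fin, ← pow_mul] at this
    exact this
  have h3 : 0 ≤ (∑ j, v j) ^ 2 := by positivity
  have h4 : ((∑ j, v j) ^ 2) ^ 2 ≤ ((n : ℝ) * ∑ j, v j ^ 2) ^ 2 := pow_le_pow_left₀ h3 h1 2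
  calc (∑ j, v j) ^ 4 = ((∑ j, v j) ^ 2) ^ 2 := by ring
    _ ≤ ((n : ℝ) * ∑ j, v j ^ 2) ^ 2 := h4
    _ = (n : ℝ) ^ 2 * (∑ j, v j ^ 2) ^ 2 := by ring
    _ ≤ (n : ℝ) ^ 2 * ((n : ℝ) * ∑ j, v j ^ 4) := mul_le_mul_of_nonneg_left h2 (by positivity)
    _ = (n : ℝ) ^ 3 * ∑ j, v j ^ 4 := by ring

theorem poly_moment_bound (D : ℕ) (n : ℕ) : ∃ K : ℝ, 0 < K ∧ ∀ (q : ℝ[X]) (B : ℝ) (M : ℕ),
    q.natDegree ≤ D → (∀ k, |q.coeff k| ≤ B) →
      Integrable (fun s : Fin n → ℝ => (∑ j, q.eval (s j)) ^ 4)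
        (Measure.pi (fun _ : Fin n => muM M)) ∧
      ∫ s, (∑ j, q.eval (s j)) ^ 4 ∂(Measure.pi (fun _ : Fin n => muM M)) ≤ K * B ^ 4 := by
  obtain ⟨C, hC⟩ : ∃ C : ℝ, C = ∑ k ∈ Finset.range (D + 1), (4 : ℝ) ^ k * (k.factorial : ℝ) :=
    ⟨_, rfl⟩
  have hC0 : 0 ≤ C := by rw [hC]; positivity
  refine ⟨4 * (n : ℝ) ^ 4 * C ^ 4 + 1, by positivity, ?_⟩
  intro q B M hq hB
  haveI := muM_prob M
  have hB0 : 0 ≤ B := (abs_nonneg _).trans (hB 0)
  obtain ⟨he, he4⟩ := muM_exp M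
  have hcont : Continuous fun s : ℝ => Real.exp |s| := by fun_prop
  have hmp : ∀ j : Fin n, MeasurePreserving (Function.eval j)
      (Measure.pi (fun _ : Fin n => muM M)) (muM M) := fun j =>
    measurePreserving_eval (fun _ : Fin n => muM M) j
  have hint : ∀ j : Fin n, Integrable (fun s : Fin n → ℝ => Real.exp |s j|)
      (Measure.pi (fun _ : Fin n => muM M)) := by
    intro j
    exact ((hmp j).integrable_comp he.aestronglyMeasurable).2 he
  have hval : ∀ j : Fin n, ∫ s : Fin n → ℝ, Real.exp |s j|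
      ∂(Measure.pi (fun _ : Fin n => muM M)) ≤ 4 := by
    intro j
    have h1 : ∫ s : Fin n → ℝ, Real.exp |s j| ∂(Measure.pi (fun _ : Fin n => muM M)) =
        ∫ x, Real.exp |x| ∂(muM M) := by
      have h2 := integral_map (f := fun x : ℝ => Real.exp |x|) (hmp j).aemeasurable
        hcont.aestronglyMeasurable
      rw [(hmp j).map_eq] at h2
      exact h2.symm
    rw [h1]; exact he4
  have hpt : ∀ s : Fin n → ℝ, (∑ j, q.eval (s j)) ^ 4 ≤
      (n : ℝ) ^ 3 * ∑ j, B ^ 4 * C ^ 4 * Real.exp |s j| := by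
    intro s
    refine (poly_moment_bound_sum n _).trans (mul_le_mul_of_nonneg_left ?_ (by positivity))
    refine Finset.sum_le_sum fun j _ => ?_
    rw [hC]
    exact poly_moment_bound_pt D q B hq hB (s j)
  have hintF : Integrable (fun s : Fin n → ℝ => (n : ℝ) ^ 3 * ∑ j, B ^ 4 * C ^ 4 * Real.exp |s j|)
      (Measure.pi (fun _ : Fin n => muM M)) :=
    (integrable_finsetSum _ fun j _ => (hint j).const_mul _).const_mul _
  have hnn : ∀ s : Fin n → ℝ, 0 ≤ (∑ j, q.eval (s j)) ^ 4 := fun s => by positivity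
  have hI : Integrable (fun s : Fin n → ℝ => (∑ j, q.eval (s j)) ^ 4)
        (Measure.pi (fun _ : Fin n => muM M)) := by
    refine hintF.mono ?_ (Filter.Eventually.of_forall fun s => ?_)
    · refine Continuous.aestronglyMeasurable ?_
      refine (continuous_finset_sum _ fun j _ => ?_).pow 4
      exact q.continuous.comp (continuous_apply j)
    · rw [Real.norm_of_nonneg (hnn s), Real.norm_of_nonneg ((hnn s).trans (hpt s))]
      exact hpt s
  refine ⟨hI, ?_⟩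
  refine (integral_mono hI hintF hpt).trans ?_
  rw [integral_const_mul, integral_finset_sum _ fun j _ => (hint j).const_mul _]
  simp only [integral_const_mul]
  have h5 : ∑ j : Fin n, B ^ 4 * C ^ 4 * ∫ s : Fin n → ℝ, Real.exp |s j|
      ∂(Measure.pi (fun _ : Fin n => muM M)) ≤ ∑ j : Fin n, B ^ 4 * C ^ 4 * 4 :=
    Finset.sum_le_sum fun j _ => mul_le_mul_of_nonneg_left (hval j) (by positivity)
  rw [Finset.sum_const, Finset.card_univ, Fintype.card_fin, nsmul_eq_mul] at h5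
  refine (mul_le_mul_of_nonneg_left h5 (by positivity)).trans ?_
  have h6 : (n : ℝ) ^ 3 * ((n : ℝ) * (B ^ 4 * C ^ 4 * 4)) = 4 * (n : ℝ) ^ 4 * C ^ 4 * B ^ 4 := by
    ring
  rw [h6, add_mul, one_mul]
  exact le_add_of_nonneg_right (by positivity)

end HS
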