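import Pool.Agent.HS.Defs
import Pool.Agent.HS.DefsT
import Pool.Agent.HS.M_muM_prob

set_option autoImplicit false

open MeasureTheory ProbabilityTheory Filter Topology Set Polynomial
open scoped ENNReal NNReal Real

namespace HS

/-- the uniform measure on bits -/
noncomputable def muM_tendsto_nu : Measure Bool :=
  ∑ b : Bool, ENNReal.ofReal (1 / 2) • Measure.dirac b

theorem muM_tendsto_nu_prob : IsProbabilityMeasure muM_tendsto_nu := by
  constructor
  unfold muM_tendsto_nu
  simp only [Measure.coe_finsetSum, Finset.sum_apply, Measure.smul_apply, measure_univ,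
    smul_eq_mul, mul_one, Finset.sum_const, Finset.card_univ, Fintype.card_bool]
  rw [nsmul_eq_mul, ← ENNReal.ofReal_natCast, ← ENNReal.ofReal_mul (by norm_num)]
  norm_num

theorem muM_tendsto_nu_int {E : Type*} [NormedAddCommGroup E] [NormedSpace ℝ E] [CompleteSpace E] (g : Bool → E) :
    ∫ b, g b ∂muM_tendsto_nu = (1 / 2 : ℝ) • (g true + g false) := by
  unfold muM_tendsto_nu
  haveI := muM_tendsto_nu_prob
  rw [integral_finsetSum_measure (fun b _ => by
    apply Integrable.smul_measure _ ENNReal.ofReal_ne_top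
    exact Integrable.of_finite)]
  simp only [integral_smul_measure, Fintype.univ_bool]
  rw [Finset.sum_insert (by simp), Finset.sum_singleton]
  simp only [integral_dirac, ENNReal.toReal_ofReal (show (0:ℝ) ≤ 1/2 by norm_num)]
  rw [smul_add]

theorem muM_tendsto_cf (M : ℕ) (t : ℝ) :
    charFun (muM M) t = (charFun (muM_tendsto_nu.map sg) ((√M)⁻¹ * t)) ^ M := by
  have hsg : Measurable sg := measurable_of_countable sg
  have h1 : charFun (muM_tendsto_nu.map sg) ((√M)⁻¹ * t) =
      (2 : ℂ)⁻¹ * ∑ b : Bool, Complex.exp ((((√M)⁻¹ * t : ℝ) : ℂ) * (sg b : ℂ) * Complex.I) := by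
    rw [charFun_apply_real, integral_map hsg.aemeasurable (by fun_prop), muM_tendsto_nu_int]
    rw [Fintype.sum_bool]
    rw [Complex.real_smul]
    push_cast
    ring
  rw [h1, mul_pow, Fintype.sum_pow, charFun_apply_real]
  unfold muM
  rw [integral_finsetSum_measure (fun b _ => by
    apply Integrable.smul_measure _ ENNReal.ofReal_ne_top
    exact integrable_dirac (by simp))]
  rw [Finset.mul_sum]
  refine Finset.sum_congr rfl (fun x _ => ?_)
  rw [integral_smul_measure, integral_dirac, ENNReal.toReal_ofReal (by positivity), ← Complex.exp_sum,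
    Complex.real_smul]
  congr 1
  · push_cast
    rw [inv_pow]
  · congr 1
    rw [← Finset.sum_mul, ← Finset.mul_sum]
    push_cast
    ring

theorem muM_tendsto (f : BoundedContinuousFunction ℝ ℝ) :
    Tendsto (fun M : ℕ => ∫ s, f s ∂(muM M)) atTop (𝓝 (∫ s, f s ∂G1)) := by
  have hsg : Measurable sg := measurable_of_countable sg
  haveI := muM_tendsto_nu_prob
  let μ : ℕ → ProbabilityMeasure ℝ := fun M => ⟨muM M, muM_prob M⟩
  let μ₀ : ProbabilityMeasure ℝ := ⟨G1, inferInstance⟩
  have h : Tendsto μ atTop (𝓝 μ₀) := by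
    rw [ProbabilityMeasure.tendsto_iff_tendsto_charFun]
    intro t
    have e1 : ∀ n, charFun (μ n : Measure ℝ) t = (charFun (muM_tendsto_nu.map sg) ((√n)⁻¹ * t)) ^ n :=
      fun n => muM_tendsto_cf n t
    have e2 : charFun (μ₀ : Measure ℝ) t = Complex.exp (- t ^ 2 / 2) := by
      have : charFun (μ₀ : Measure ℝ) t = charFun (gaussianReal 0 1) t := rfl
      rw [this, charFun_gaussianReal]
      congr 1
      push_cast
      simp
      ring
    rw [e2]
    simp_rw [e1]
    refine tendsto_charFun_inv_sqrt_mul_pow hsg.aemeasurable ?_ ?_ t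
    · rw [muM_tendsto_nu_int]; simp [sg]
    · have : ∀ b, (sg ^ 2) b = 1 := by intro b; cases b <;> simp [sg]
      rw [muM_tendsto_nu_int, this, this]; norm_num
  have h2 := (ProbabilityMeasure.tendsto_iff_forall_integral_tendsto.1 h) f
  exact h2

end HS
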