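import Pool.Agent.HS.Defs
import Pool.Agent.HS.DefsT
import Pool.Agent.HS.M_muM_prob
import Pool.Agent.HS.M_muM_tendsto

set_option autoImplicit false

open MeasureTheory ProbabilityTheory Filter Topology Set Polynomial
open scoped ENNReal NNReal Real

namespace HS

theorem muM_pi_tendsto (n : ℕ) (f : BoundedContinuousFunction (Fin n → ℝ) ℝ) :
    Tendsto (fun M : ℕ => ∫ s, f s ∂(Measure.pi (fun _ : Fin n => muM M))) atTop
      (𝓝 (∫ s, f s ∂(Gn n))) := by
  obtain ⟨P, hP⟩ : ∃ P : ℕ → ProbabilityMeasure ℝ, ∀ M, (P M : Measure ℝ) = muM M :=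
    ⟨fun M => ⟨muM M, muM_prob M⟩, fun M => rfl⟩
  obtain ⟨Q, hQ⟩ : ∃ Q : ProbabilityMeasure ℝ, (Q : Measure ℝ) = G1 :=
    ⟨⟨G1, inferInstance⟩, rfl⟩
  have h1 : Tendsto P atTop (𝓝 Q) := by
    refine ProbabilityMeasure.tendsto_iff_forall_integral_tendsto.2 fun g => ?_
    simp only [hP, hQ]
    exact muM_tendsto g
  have h2 : Tendsto (fun M : ℕ => (fun _ : Fin n => P M)) atTop (𝓝 (fun _ : Fin n => Q)) :=
    tendsto_pi_nhds.2 fun _ => h1
  have h3 := ((ProbabilityMeasure.continuous_pi (ι := Fin n) (α := fun _ => ℝ)).tendsto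
    (fun _ : Fin n => Q)).comp h2
  have h4 := ProbabilityMeasure.tendsto_iff_forall_integral_tendsto.1 h3 f
  simp only [Function.comp_apply, ProbabilityMeasure.toMeasure_pi, hP, hQ] at h4
  exact h4

end HS
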