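import Pool.Agent.HS.Defs
import Pool.Agent.HS.DefsT
import Pool.Agent.HS.M_poly_integrable
import Pool.Agent.HS.M_muM_prob
import Pool.Agent.HS.M_muM_pi_tendsto
import Pool.Agent.HS.M_poly_moment_bound

set_option autoImplicit false

open MeasureTheory ProbabilityTheory Filter Topology Set Polynomial
open scoped ENNReal NNReal Real

namespace HS

theorem tendsto_fixed_trunc {Ω : Type*} [MeasurableSpace Ω] (μ : Measure Ω)
    [IsProbabilityMeasure μ] (φ v : Ω → ℝ) (hφ : ∀ s, 0 ≤ φ s) (hφm : Measurable φ)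
    (hv : Integrable v μ) (h1 : ∀ s, φ s ≤ v s) (h2 : ∀ s, φ s ^ 2 ≤ v s) (R : ℝ) (hR : 0 < R) :
    |∫ s, φ s ∂μ - ∫ s, min (φ s) R ∂μ| ≤ (∫ s, v s ∂μ) / R := by
  have hφi : Integrable φ μ := by
    refine hv.mono' hφm.aestronglyMeasurable (Eventually.of_forall fun s => ?_)
    rw [Real.norm_eq_abs, abs_of_nonneg (hφ s)]
    exact h1 s
  have hmi : Integrable (fun s => min (φ s) R) μ := by
    refine hφi.mono' (hφm.min measurable_const).aestronglyMeasurable
      (Eventually.of_forall fun s => ?_)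
    rw [Real.norm_eq_abs, abs_of_nonneg (le_min (hφ s) hR.le)]
    exact min_le_left _ _
  rw [← integral_sub hφi hmi, ← integral_div]
  have hnn : 0 ≤ ∫ s, (φ s - min (φ s) R) ∂μ :=
    integral_nonneg fun s => sub_nonneg.2 (min_le_left _ _)
  rw [abs_of_nonneg hnn]
  refine integral_mono (hφi.sub hmi) (hv.div_const R) fun s => ?_
  show φ s - min (φ s) R ≤ v s / R
  rcases le_total (φ s) R with h | h
  · rw [min_eq_left h, sub_self]
    exact div_nonneg ((hφ s).trans (h1 s)) hR.le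
  · rw [min_eq_right h, le_div_iff₀ hR]
    have := h2 s
    nlinarith [hφ s]

theorem tendsto_fixed_rpow (p : ℝ) (hp : 1 ≤ p) (hp2 : p ≤ 2) (u : ℝ) :
    |u| ^ p ≤ 1 + u ^ 4 ∧ (|u| ^ p) ^ 2 ≤ 1 + u ^ 4 := by
  have h0 : 0 ≤ |u| ^ p := Real.rpow_nonneg (abs_nonneg u) p
  have h4 : 0 ≤ u ^ 4 := by positivity
  rcases le_total |u| 1 with h | h
  · have h1 : |u| ^ p ≤ 1 := Real.rpow_le_one (abs_nonneg u) h (by linarith)
    constructor
    · linarith
    · nlinarith
  · have h1 : |u| ^ p ≤ |u| ^ (2 : ℝ) := Real.rpow_le_rpow_of_exponent_le h hp2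
    rw [Real.rpow_two, sq_abs] at h1
    have h2 : 1 ≤ u ^ 2 := by rw [← sq_abs]; nlinarith
    constructor
    · nlinarith
    · nlinarith

theorem tendsto_fixed_int (n : ℕ) (Q : ℝ[X]) :
    Integrable (fun s : Fin n → ℝ => (∑ j, Q.eval (s j)) ^ 4) (Gn n) := by
  have hc : ∀ j, Continuous fun s : Fin n → ℝ => Q.eval (s j) := fun j =>
    Q.continuous.comp (continuous_apply j)
  have h1 : ∀ j : Fin n, MemLp (fun s : Fin n → ℝ => Q.eval (s j)) 4 (Gn n) := by
    intro j
    rw [← integrable_norm_rpow_iff (hc j).aestronglyMeasurable (by norm_num) (by norm_num)]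
    have h2 : Integrable (fun s : Fin n → ℝ => (Q ^ 4).eval (s j)) (Gn n) :=
      integrable_comp_eval (μ := fun _ : Fin n => G1) (i := j)
        (f := fun x => (Q ^ 4).eval x) (poly_integrable (Q ^ 4))
    refine h2.congr (Eventually.of_forall fun s => ?_)
    simp only [eval_pow]
    have : ((4 : ℝ≥0∞).toReal) = ((4 : ℕ) : ℝ) := by simp
    rw [this, Real.rpow_natCast, Real.norm_eq_abs]
    exact ((by decide : Even 4).pow_abs _).symm
  have h3 : MemLp (fun s : Fin n → ℝ => ∑ j, Q.eval (s j)) 4 (Gn n) :=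
    memLp_finsetSum _ fun j _ => h1 j
  rw [← integrable_norm_rpow_iff h3.1 (by norm_num) (by norm_num)] at h3
  refine h3.congr (Eventually.of_forall fun s => ?_)
  have : ((4 : ℝ≥0∞).toReal) = ((4 : ℕ) : ℝ) := by simp
  simp only
  rw [this, Real.rpow_natCast, Real.norm_eq_abs]
  exact (by decide : Even 4).pow_abs _

/-- convergence of the integral of one function of polynomial growth -/
theorem tendsto_fixed (n : ℕ) (p : ℝ) (hp : 1 ≤ p) (hp2 : p ≤ 2) (Q : ℝ[X]) :
    Tendsto (fun M : ℕ => ∫ s, |∑ j, Q.eval (s j)| ^ p ∂(Measure.pi (fun _ : Fin n => muM M)))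
      atTop (𝓝 (∫ s, |∑ j, Q.eval (s j)| ^ p ∂(Gn n))) := by
  have hprob : ∀ M, IsProbabilityMeasure (muM M) := muM_prob
  obtain ⟨K, hK, hmom⟩ := poly_moment_bound Q.natDegree n
  set B : ℝ := ∑ k ∈ Finset.range (Q.natDegree + 1), |Q.coeff k| with hB
  have hcoef : ∀ k, |Q.coeff k| ≤ B := by
    intro k
    by_cases hk : k < Q.natDegree + 1
    · exact Finset.single_le_sum (f := fun k => |Q.coeff k|) (fun i _ => abs_nonneg _)
        (Finset.mem_range.2 hk)
    · rw [coeff_eq_zero_of_natDegree_lt (by omega), abs_zero]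
      exact Finset.sum_nonneg fun i _ => abs_nonneg _
  have hM := fun M => hmom Q B M le_rfl hcoef
  have hG := tendsto_fixed_int n Q
  set u : (Fin n → ℝ) → ℝ := fun s => ∑ j, Q.eval (s j) with hu
  have huc : Continuous u := by
    rw [hu]
    exact continuous_finsetSum _ fun j _ => Q.continuous.comp (continuous_apply j)
  set φ : (Fin n → ℝ) → ℝ := fun s => |u s| ^ p with hφ
  have hφc : Continuous φ := huc.abs.rpow_const fun _ => Or.inr (by linarith)
  have hφ0 : ∀ s, 0 ≤ φ s := fun s => Real.rpow_nonneg (abs_nonneg _) _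
  -- a common bound for the integrals of `1 + u ^ 4`
  obtain ⟨C, hC, hCM, hCG⟩ : ∃ C : ℝ, 0 < C ∧
      (∀ M, ∫ s, (1 + u s ^ 4) ∂(Measure.pi (fun _ : Fin n => muM M)) ≤ C) ∧
      ∫ s, (1 + u s ^ 4) ∂(Gn n) ≤ C := by
    refine ⟨1 + K * B ^ 4 + ∫ s, u s ^ 4 ∂(Gn n), ?_, ?_, ?_⟩
    · have h1 : 0 ≤ ∫ s, u s ^ 4 ∂(Gn n) := integral_nonneg fun s => by positivity
      positivity
    · intro M
      have h1 : 0 ≤ ∫ s, u s ^ 4 ∂(Gn n) := integral_nonneg fun s => by positivity
      rw [integral_add (integrable_const _) (hM M).1]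
      have h2 := (hM M).2
      simp only [integral_const, probReal_univ, smul_eq_mul, mul_one]
      linarith
    · rw [integral_add (integrable_const _) hG]
      simp only [integral_const, probReal_univ, smul_eq_mul, mul_one]
      have : 0 ≤ K * B ^ 4 := by positivity
      linarith
  rw [Metric.tendsto_atTop]
  intro ε hε
  set R : ℝ := 3 * C / ε with hR
  have hR0 : 0 < R := by positivity
  have hCR : C / R = ε / 3 := by rw [hR]; field_simp
  have hfc : Continuous fun s => min (φ s) R := hφc.min continuous_const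
  let f : BoundedContinuousFunction (Fin n → ℝ) ℝ :=
    BoundedContinuousFunction.ofNormedAddCommGroup (fun s => min (φ s) R) hfc R (by
      intro s
      rw [Real.norm_eq_abs, abs_of_nonneg (le_min (hφ0 s) hR0.le)]
      exact min_le_right _ _)
  obtain ⟨N, hN⟩ := (Metric.tendsto_atTop.1 (muM_pi_tendsto n f)) (ε / 3) (by positivity)
  refine ⟨N, fun M hMN => ?_⟩
  have h1 := hN M hMN
  have h2 := tendsto_fixed_trunc (Measure.pi (fun _ : Fin n => muM M)) φ (fun s => 1 + u s ^ 4)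
    hφ0 hφc.measurable ((integrable_const _).add (hM M).1)
    (fun s => (tendsto_fixed_rpow p hp hp2 (u s)).1)
    (fun s => (tendsto_fixed_rpow p hp hp2 (u s)).2) R hR0
  have h3 := tendsto_fixed_trunc (Gn n) φ (fun s => 1 + u s ^ 4)
    hφ0 hφc.measurable ((integrable_const _).add hG)
    (fun s => (tendsto_fixed_rpow p hp hp2 (u s)).1)
    (fun s => (tendsto_fixed_rpow p hp hp2 (u s)).2) R hR0
  have h2' := h2.trans ((div_le_div_of_nonneg_right (hCM M) hR0.le).trans hCR.le)
  have h3' := h3.trans ((div_le_div_of_nonneg_right hCG hR0.le).trans hCR.le)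
  rw [Real.dist_eq] at h1 ⊢
  have h4 : |∫ s, min (φ s) R ∂(Measure.pi (fun _ : Fin n => muM M)) -
      ∫ s, min (φ s) R ∂(Gn n)| < ε / 3 := h1
  rw [abs_lt] at h4 ⊢
  rw [abs_le] at h2' h3'
  constructor <;> linarith [h2'.1, h2'.2, h3'.1, h3'.2, h4.1, h4.2]

end HS
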