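import Pool.Agent.HS.Defs
import Pool.Agent.HS.DefsT
import Pool.Agent.HS.M_muM_prob
import Pool.Agent.HS.M_muM_exp
import Pool.Agent.HS.M_poly_moment_bound
import Pool.Agent.HS.M_tendsto_fixed

set_option autoImplicit false

open MeasureTheory ProbabilityTheory Filter Topology Set Polynomial
open scoped ENNReal NNReal Real

namespace HS

theorem tendsto_varying_bern (p : ℝ) (hp : 1 ≤ p) (hp2 : p ≤ 2) (a b : ℝ) (ha : 0 ≤ a)
    (hab : a ≤ b) : b ^ p - a ^ p ≤ 2 * (b - a) * (1 + b) := by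
  rcases eq_or_lt_of_le (ha.trans hab) with hb | hb
  · have h0 : a = 0 := le_antisymm (by linarith) ha
    rw [← hb, h0]; simp
  · have h1 : 1 + p * ((a - b) / b) ≤ (1 + (a - b) / b) ^ p :=
      one_add_mul_self_le_rpow_one_add (by rw [le_div_iff₀ hb]; linarith) hp
    have h2 : 1 + (a - b) / b = a / b := by field_simp; ring
    rw [h2, Real.div_rpow ha hb.le] at h1
    have hbp : 0 < b ^ p := Real.rpow_pos_of_pos hb p
    rw [le_div_iff₀ hbp] at h1
    have h4 : b ^ p = b ^ (p - 1) * b := by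
      rw [← Real.rpow_add_one hb.ne']; congr 1; ring
    have h5 : b ^ (p - 1) ≤ 1 + b := by
      rcases le_total b 1 with h | h
      · have := Real.rpow_le_one hb.le h (by linarith : 0 ≤ p - 1)
        linarith
      · have := Real.rpow_le_rpow_of_exponent_le h (by linarith : p - 1 ≤ 1)
        rw [Real.rpow_one] at this
        linarith
    have h5' : 0 ≤ b ^ (p - 1) := Real.rpow_nonneg hb.le _
    have h6 : (1 + p * ((a - b) / b)) * b ^ p = b ^ p - p * b ^ (p - 1) * (b - a) := by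
      rw [h4]; field_simp; ring
    rw [h6] at h1
    have h7 : p * b ^ (p - 1) * (b - a) ≤ 2 * (1 + b) * (b - a) := by
      apply mul_le_mul_of_nonneg_right _ (by linarith)
      exact mul_le_mul hp2 h5 h5' (by norm_num)
    linarith

theorem tendsto_varying_abs (p : ℝ) (hp : 1 ≤ p) (hp2 : p ≤ 2) (u v : ℝ) :
    |(|v| ^ p - |u| ^ p)| ≤ 2 * |v - u| * (1 + |u| + |v|) := by
  have hu := abs_nonneg u
  have hv := abs_nonneg v
  have huv := abs_nonneg (v - u)
  rcases le_total |u| |v| with h | h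
  · have h1 := tendsto_varying_bern p hp hp2 |u| |v| hu h
    have h2 : |u| ^ p ≤ |v| ^ p := Real.rpow_le_rpow hu h (by linarith)
    rw [abs_of_nonneg (by linarith)]
    have h3 : |v| - |u| ≤ |v - u| := abs_sub_abs_le_abs_sub v u
    refine h1.trans ?_
    refine mul_le_mul (by linarith) (by linarith) (by linarith) (by linarith)
  · have h1 := tendsto_varying_bern p hp hp2 |v| |u| hv h
    have h2 : |v| ^ p ≤ |u| ^ p := Real.rpow_le_rpow hv h (by linarith)
    rw [abs_of_nonpos (by linarith)]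
    have h3 : |u| - |v| ≤ |v - u| := by
      rw [abs_sub_comm]; exact abs_sub_abs_le_abs_sub u v
    have h4 : -(|v| ^ p - |u| ^ p) = |u| ^ p - |v| ^ p := by ring
    rw [h4]
    refine h1.trans ?_
    refine mul_le_mul (by linarith) (by linarith) (by linarith) (by linarith)

theorem tendsto_varying_pt (p : ℝ) (hp : 1 ≤ p) (hp2 : p ≤ 2) (u v ε : ℝ) (hε : 0 < ε) :
    |(|v| ^ p - |u| ^ p)| ≤
      ε * (13 / 2) + ε * (3 / 2) * u ^ 4 + ε * (3 / 2) * v ^ 4 + (1 / (2 * ε ^ 3)) * (v - u) ^ 4 := by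
  refine (tendsto_varying_abs p hp hp2 u v).trans ?_
  set w := |v - u| with hw
  set X := 1 + |u| + |v| with hX
  have hw4 : (v - u) ^ 4 = w ^ 4 := by
    rw [hw]; exact (Even.pow_abs (by decide) _).symm
  have hu4 : u ^ 4 = |u| ^ 4 := (Even.pow_abs (by decide) _).symm
  have hv4 : v ^ 4 = |v| ^ 4 := (Even.pow_abs (by decide) _).symm
  rw [hw4, hu4, hv4]
  have h1 : 2 * w * X ≤ ε * X ^ 2 + w ^ 2 / ε := by
    have : ε * X ^ 2 + w ^ 2 / ε - 2 * w * X = (ε * X - w) ^ 2 / ε := by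
      field_simp; ring
    have h' : 0 ≤ (ε * X - w) ^ 2 / ε := by positivity
    linarith
  have h2 : w ^ 2 / ε ≤ ε / 2 + 1 / (2 * ε ^ 3) * w ^ 4 := by
    have : ε / 2 + 1 / (2 * ε ^ 3) * w ^ 4 - w ^ 2 / ε = (w ^ 2 - ε ^ 2) ^ 2 / (2 * ε ^ 3) := by
      field_simp; ring
    have h' : 0 ≤ (w ^ 2 - ε ^ 2) ^ 2 / (2 * ε ^ 3) := by positivity
    linarith
  have h3 : X ^ 2 ≤ 6 + 3 / 2 * |u| ^ 4 + 3 / 2 * |v| ^ 4 := by
    rw [hX]
    nlinarith [sq_nonneg (1 - |u|), sq_nonneg (1 - |v|), sq_nonneg (|u| - |v|),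
      sq_nonneg (|u| ^ 2 - 1), sq_nonneg (|v| ^ 2 - 1)]
  have h4 : ε * X ^ 2 ≤ ε * (6 + 3 / 2 * |u| ^ 4 + 3 / 2 * |v| ^ 4) :=
    mul_le_mul_of_nonneg_left h3 hε.le
  linarith

theorem tendsto_varying_int (n : ℕ) (M : ℕ) (p : ℝ) (hp : 1 ≤ p) (hp2 : p ≤ 2)
    (f : (Fin n → ℝ) → ℝ) (hf : Continuous f)
    (h4 : Integrable (fun s => (f s) ^ 4) (Measure.pi (fun _ : Fin n => muM M))) :
    Integrable (fun s => |f s| ^ p) (Measure.pi (fun _ : Fin n => muM M)) := by
  haveI : IsProbabilityMeasure (muM M) := muM_prob M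
  have hc : Continuous (fun s => |f s| ^ p) :=
    (continuous_abs.comp hf).rpow_const (fun _ => Or.inr (by linarith))
  refine Integrable.mono' ((integrable_const (2 : ℝ)).add h4) hc.aestronglyMeasurable ?_
  refine Filter.Eventually.of_forall (fun s => ?_)
  have h0 := abs_nonneg (f s)
  rw [Real.norm_of_nonneg (Real.rpow_nonneg h0 _)]
  have hf4 : (f s) ^ 4 = |f s| ^ 4 := (Even.pow_abs (by decide) _).symm
  simp only [Pi.add_apply]
  rw [hf4]
  rcases le_total |f s| 1 with h | h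
  · have := Real.rpow_le_one h0 h (by linarith : 0 ≤ p)
    have h'' : 0 ≤ |f s| ^ 4 := by positivity
    linarith
  · have := Real.rpow_le_rpow_of_exponent_le h (by linarith : p ≤ 4)
    have h5 : |f s| ^ (4 : ℝ) = |f s| ^ 4 := by
      rw [← Real.rpow_natCast]; norm_num
    rw [h5] at this
    linarith

theorem tendsto_varying_bdd (D : ℕ) (q : ℕ → ℝ[X]) (Q : ℝ[X])
    (hD : ∀ M, (q M).natDegree ≤ D) (hQD : Q.natDegree ≤ D)
    (hq : ∀ k, Tendsto (fun M => (q M).coeff k) atTop (𝓝 (Q.coeff k))) :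
    ∃ b : ℕ → ℝ, (∀ M, 0 ≤ b M) ∧ Tendsto b atTop (𝓝 0) ∧ (∀ M k, |(q M - Q).coeff k| ≤ b M) := by
  refine ⟨fun M => ∑ k ∈ Finset.range (D + 1), |(q M).coeff k - Q.coeff k|, ?_, ?_, ?_⟩
  · intro M
    exact Finset.sum_nonneg (fun _ _ => abs_nonneg _)
  · have : Tendsto (fun M => ∑ k ∈ Finset.range (D + 1), |(q M).coeff k - Q.coeff k|) atTop
        (𝓝 (∑ k ∈ Finset.range (D + 1), (0 : ℝ))) := by
      refine tendsto_finset_sum _ (fun k _ => ?_)
      have h := ((hq k).sub_const (Q.coeff k)).abs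
      simpa using h
    simpa using this
  · intro M k
    rw [coeff_sub]
    by_cases hk : k ≤ D
    · exact Finset.single_le_sum (f := fun k => |(q M).coeff k - Q.coeff k|)
        (fun _ _ => abs_nonneg _) (Finset.mem_range.2 (by omega))
    · have h1 : (q M).coeff k = 0 := coeff_eq_zero_of_natDegree_lt (lt_of_le_of_lt (hD M) (by omega))
      have h2 : Q.coeff k = 0 := coeff_eq_zero_of_natDegree_lt (lt_of_le_of_lt hQD (by omega))
      rw [h1, h2]
      simp only [sub_zero, abs_zero]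
      exact Finset.sum_nonneg (fun _ _ => abs_nonneg _)

theorem tendsto_varying_lin {n : ℕ} (μ : Measure (Fin n → ℝ)) [IsProbabilityMeasure μ]
    (c c1 c2 c3 : ℝ) (f g h : (Fin n → ℝ) → ℝ) (hf : Integrable f μ) (hg : Integrable g μ)
    (hh : Integrable h μ) :
    ∫ s, (c + c1 * f s + c2 * g s + c3 * h s) ∂μ =
      c + c1 * ∫ s, f s ∂μ + c2 * ∫ s, g s ∂μ + c3 * ∫ s, h s ∂μ := by
  have i0 : Integrable (fun _ : Fin n → ℝ => c) μ := integrable_const c
  have i1 : Integrable (fun s => c + c1 * f s) μ := i0.add (hf.const_mul c1)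
  have i2 : Integrable (fun s => c + c1 * f s + c2 * g s) μ := i1.add (hg.const_mul c2)
  rw [integral_add i2 (hh.const_mul c3), integral_add i1 (hg.const_mul c2),
    integral_add i0 (hf.const_mul c1), integral_const_mul, integral_const_mul,
    integral_const_mul, integral_const]
  simp

theorem tendsto_varying (n : ℕ) (p : ℝ) (hp : 1 ≤ p) (hp2 : p ≤ 2) (Q : ℝ[X]) (q : ℕ → ℝ[X])
    (D : ℕ) (hD : ∀ M, (q M).natDegree ≤ D) (hQD : Q.natDegree ≤ D)
    (hq : ∀ k, Tendsto (fun M => (q M).coeff k) atTop (𝓝 (Q.coeff k))) :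
    Tendsto (fun M : ℕ => ∫ s, |∑ j, (q M).eval (s j)| ^ p
        ∂(Measure.pi (fun _ : Fin n => muM M)))
      atTop (𝓝 (∫ s, |∑ j, Q.eval (s j)| ^ p ∂(Gn n))) := by
  obtain ⟨K, hK, hKb⟩ := poly_moment_bound D n
  obtain ⟨b, hb0, hb, hbc⟩ := tendsto_varying_bdd D q Q hD hQD hq
  -- bound of the coefficients of Q
  set B : ℝ := ∑ k ∈ Finset.range (D + 1), |Q.coeff k| with hB
  have hB0 : 0 ≤ B := Finset.sum_nonneg (fun _ _ => abs_nonneg _)
  have hQB : ∀ k, |Q.coeff k| ≤ B := by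
    intro k
    by_cases hk : k ≤ D
    · exact Finset.single_le_sum (f := fun k => |Q.coeff k|)
        (fun _ _ => abs_nonneg _) (Finset.mem_range.2 (by omega))
    · have h2 : Q.coeff k = 0 := coeff_eq_zero_of_natDegree_lt (lt_of_le_of_lt hQD (by omega))
      rw [h2, abs_zero]; exact hB0
  have hqB : ∀ M k, |(q M).coeff k| ≤ B + b M := by
    intro M k
    have h1 := hbc M k
    have h2 := hQB k
    rw [coeff_sub] at h1
    have h3 : (q M).coeff k = Q.coeff k + ((q M).coeff k - Q.coeff k) := by ring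
    rw [h3]
    exact (abs_add_le _ _).trans (add_le_add h2 h1)
  have hcont : ∀ r : ℝ[X], Continuous (fun s : Fin n → ℝ => ∑ j, r.eval (s j)) := by
    intro r
    exact continuous_finset_sum _ (fun j _ => r.continuous.comp (continuous_apply j))
  -- key estimate
  have key : ∀ ε : ℝ, 0 < ε → ∀ M : ℕ,
      |∫ s, |∑ j, (q M).eval (s j)| ^ p ∂(Measure.pi (fun _ : Fin n => muM M)) -
        ∫ s, |∑ j, Q.eval (s j)| ^ p ∂(Measure.pi (fun _ : Fin n => muM M))| ≤
      ε * (13 / 2) + ε * (3 / 2) * (K * B ^ 4) + ε * (3 / 2) * (K * (B + b M) ^ 4) +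
        (1 / (2 * ε ^ 3)) * (K * (b M) ^ 4) := by
    intro ε hε M
    haveI : IsProbabilityMeasure (muM M) := muM_prob M
    obtain ⟨iu, bu⟩ := hKb Q B M hQD hQB
    obtain ⟨iv, bv⟩ := hKb (q M) (B + b M) M (hD M) (hqB M)
    obtain ⟨iw, bw⟩ := hKb (q M - Q) (b M) M
      ((natDegree_sub_le _ _).trans (max_le (hD M) hQD)) (hbc M)
    have iv' := tendsto_varying_int n M p hp hp2 _ (hcont (q M)) iv
    have iu' := tendsto_varying_int n M p hp hp2 _ (hcont Q) iu
    rw [← integral_sub iv' iu']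
    refine (abs_integral_le_integral_abs).trans ?_
    have hint : Integrable (fun s : Fin n → ℝ => ε * (13 / 2) +
        ε * (3 / 2) * (∑ j, Q.eval (s j)) ^ 4 + ε * (3 / 2) * (∑ j, (q M).eval (s j)) ^ 4 +
        (1 / (2 * ε ^ 3)) * (∑ j, (q M - Q).eval (s j)) ^ 4)
        (Measure.pi (fun _ : Fin n => muM M)) :=
      (((integrable_const _).add (iu.const_mul _)).add (iv.const_mul _)).add (iw.const_mul _)
    have hle : ∫ s, |(|∑ j, (q M).eval (s j)| ^ p - |∑ j, Q.eval (s j)| ^ p)|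
          ∂(Measure.pi (fun _ : Fin n => muM M)) ≤
        ∫ s, (ε * (13 / 2) +
        ε * (3 / 2) * (∑ j, Q.eval (s j)) ^ 4 + ε * (3 / 2) * (∑ j, (q M).eval (s j)) ^ 4 +
        (1 / (2 * ε ^ 3)) * (∑ j, (q M - Q).eval (s j)) ^ 4)
        ∂(Measure.pi (fun _ : Fin n => muM M)) := by
      refine integral_mono (iv'.sub iu').abs hint (fun s => ?_)
      have h := tendsto_varying_pt p hp hp2 (∑ j, Q.eval (s j)) (∑ j, (q M).eval (s j)) ε hε
      have h2 : ∑ j, (q M - Q).eval (s j) = ∑ j, (q M).eval (s j) - ∑ j, Q.eval (s j) := by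
        rw [← Finset.sum_sub_distrib]
        exact Finset.sum_congr rfl (fun j _ => eval_sub _ _ _)
      simp only
      rw [h2]
      exact h
    refine hle.trans ?_
    rw [tendsto_varying_lin _ _ _ _ _ _ _ _ iu iv iw]
    have e1 : 0 ≤ ε * (3 / 2) := by positivity
    have e2 : 0 ≤ 1 / (2 * ε ^ 3) := by positivity
    have := mul_le_mul_of_nonneg_left bu e1
    have := mul_le_mul_of_nonneg_left bv e1
    have := mul_le_mul_of_nonneg_left bw e2
    linarith
  -- the difference tends to zero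
  have hdiff : Tendsto (fun M : ℕ =>
      ∫ s, |∑ j, (q M).eval (s j)| ^ p ∂(Measure.pi (fun _ : Fin n => muM M)) -
        ∫ s, |∑ j, Q.eval (s j)| ^ p ∂(Measure.pi (fun _ : Fin n => muM M))) atTop (𝓝 0) := by
    rw [Metric.tendsto_atTop]
    intro δ hδ
    set C : ℝ := 13 / 2 + 3 / 2 * (K * B ^ 4) + 3 / 2 * (K * (B + 1) ^ 4) with hC
    have hCpos : 0 < C := by positivity
    set ε : ℝ := δ / (2 * C) with hε
    have hεpos : 0 < ε := by positivity
    have ht : Tendsto (fun M => (1 / (2 * ε ^ 3)) * (K * (b M) ^ 4)) atTop (𝓝 0) := by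
      have := ((hb.pow 4).const_mul K).const_mul (1 / (2 * ε ^ 3))
      simpa using this
    have e1 : ∀ᶠ M in atTop, (1 / (2 * ε ^ 3)) * (K * (b M) ^ 4) < δ / 2 :=
      ht.eventually (gt_mem_nhds (by positivity))
    have e2 : ∀ᶠ M in atTop, b M < 1 := hb.eventually (gt_mem_nhds one_pos)
    obtain ⟨N, hN⟩ := eventually_atTop.1 (e1.and e2)
    refine ⟨N, fun M hM => ?_⟩
    obtain ⟨h1, h2⟩ := hN M hM
    rw [Real.dist_eq, sub_zero]
    refine lt_of_le_of_lt (key ε hεpos M) ?_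
    have h3 : (B + b M) ^ 4 ≤ (B + 1) ^ 4 := by
      have := hb0 M
      gcongr
    have h4 : ε * (3 / 2) * (K * (B + b M) ^ 4) ≤ ε * (3 / 2) * (K * (B + 1) ^ 4) := by
      have := mul_le_mul_of_nonneg_left h3 hK.le
      exact mul_le_mul_of_nonneg_left this (by positivity)
    have h5 : ε * (13 / 2) + ε * (3 / 2) * (K * B ^ 4) + ε * (3 / 2) * (K * (B + 1) ^ 4) = δ / 2 := by
      have : ε * (13 / 2) + ε * (3 / 2) * (K * B ^ 4) + ε * (3 / 2) * (K * (B + 1) ^ 4) = ε * C := by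
        rw [hC]; ring
      rw [this, hε]; field_simp
    linarith
  have hfix := tendsto_fixed n p hp hp2 Q
  have := hdiff.add hfix
  simpa using this

end HS
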