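import Pool.Agent.HS.Defs
import Pool.Agent.HS.DefsT
import Pool.Agent.HS.M_kr_eval
import Pool.Agent.HS.M_kr_tendsto
import Pool.Agent.HS.M_muM_prob
import Pool.Agent.HS.M_cube_integral
import Pool.Agent.HS.M_tendsto_varying

set_option autoImplicit false

open MeasureTheory ProbabilityTheory Filter Topology Set Polynomial
open scoped ENNReal NNReal Real

namespace HS

theorem transfer_he_eq (k : ℕ) : he k = kr 0 k := by
  induction k using Nat.strong_induction_on with
  | _ k ih =>
    match k with
    | 0 => rfl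
    | 1 => rfl
    | (k + 2) =>
      rw [he, kr, ih (k + 1) (by omega), ih k (by omega)]
      simp

theorem transfer_deg (D : ℕ) (u : ℝ) (c : ℕ → ℝ) :
    (∑ k ∈ Finset.range (D + 1), C (c k) * kr u k).natDegree ≤ D := by
  refine Polynomial.natDegree_sum_le_of_forall_le _ _ (fun k hk => ?_)
  refine (Polynomial.natDegree_C_mul_le _ _).trans ?_
  have h1 := (kr_tendsto k 0).2 u
  have h2 := Finset.mem_range.mp hk
  omega

/-- **Transfer from Gauss space to the cube.** -/
theorem transfer (n D : ℕ) (p : ℝ) (hp : 1 ≤ p) (hp2 : p ≤ 2) (c : ℕ → ℝ) :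
    Tendsto (fun M : ℕ => ((2 : ℝ) ^ (n * M))⁻¹ *
        ∑ x : Fin (n * M) → Bool, |FM n M D c x| ^ p) atTop
      (𝓝 (∫ s, |∑ j, (∑ k ∈ Finset.range (D + 1), C (c k) * he k).eval (s j)| ^ p ∂(Gn n))) := by
  have hT := tendsto_varying n p hp hp2 (∑ k ∈ Finset.range (D + 1), C (c k) * he k)
    (fun M : ℕ => ∑ k ∈ Finset.range (D + 1), C (c k) * kr (1 / (M : ℝ)) k) D
    (fun M => transfer_deg D _ c)
    (by simp_rw [transfer_he_eq]; exact transfer_deg D 0 c)
    (by
      intro m
      simp only [Polynomial.finset_sum_coeff, Polynomial.coeff_C_mul]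
      refine tendsto_finsetSum _ (fun k _ => ?_)
      exact (kr_tendsto k m).1.const_mul _)
  refine hT.congr' ?_
  filter_upwards [eventually_ge_atTop 1] with M hM
  have hp0 : 0 ≤ p := by linarith
  have hcont : Continuous (fun s : Fin n → ℝ => |∑ j, (∑ k ∈ Finset.range (D + 1),
      C (c k) * kr (1 / (M : ℝ)) k).eval (s j)| ^ p) := by
    refine Continuous.rpow_const ?_ (fun _ => Or.inr hp0)
    refine Continuous.abs ?_
    refine continuous_finsetSum _ (fun j _ => ?_)
    exact (Polynomial.continuous _).comp (continuous_apply j)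
  rw [← cube_integral n M _ hcont]
  congr 1
  refine Finset.sum_congr rfl (fun x _ => ?_)
  congr 2
  unfold FM
  refine Finset.sum_congr rfl (fun j _ => ?_)
  rw [Polynomial.eval_finset_sum]
  refine Finset.sum_congr rfl (fun k _ => ?_)
  rw [kr_eval M k hM, Polynomial.eval_mul, Polynomial.eval_C]

end HS
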