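import Pool.Agent.HS.Defs
import Pool.Agent.HS.M_xx_facts

set_option autoImplicit false

open MeasureTheory ProbabilityTheory Filter Topology Set Polynomial
open scoped ENNReal NNReal Real

namespace HS

/-- the auxiliary polynomial -/
noncomputable def mahler_gap_R (P : ℝ[X]) (s l ρ : ℝ) : ℂ[X] :=
  C ((P.map (algebraMap ℝ ℂ)).leadingCoeff ^ 2) *
    ((P.map (algebraMap ℝ ℂ)).roots.map (fun z => C (((s : ℂ) - z) ^ 2) *
      (C (l : ℂ) * X + 1) * (X + C (l : ℂ)) - C ((ρ : ℂ) ^ 2) * X)).prod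

theorem mahler_gap_evalR (P : ℝ[X]) (s l ρ : ℝ) (w : ℂ) :
    (mahler_gap_R P s l ρ).eval w = (P.map (algebraMap ℝ ℂ)).leadingCoeff ^ 2 *
      ((P.map (algebraMap ℝ ℂ)).roots.map (fun z => ((s : ℂ) - z) ^ 2 *
        (l * w + 1) * (w + l) - (ρ : ℂ) ^ 2 * w)).prod := by
  unfold mahler_gap_R
  rw [eval_mul, eval_C, eval_multiset_prod, Multiset.map_map]
  congr 2
  refine Multiset.map_congr rfl fun z _ => ?_
  simp

theorem mahler_gap_evalP (P : ℝ[X]) (t : ℝ) :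
    ((P.eval t : ℝ) : ℂ) = (P.map (algebraMap ℝ ℂ)).leadingCoeff *
      ((P.map (algebraMap ℝ ℂ)).roots.map (fun z => (t : ℂ) - z)).prod := by
  rw [← (IsAlgClosed.splits (P.map (algebraMap ℝ ℂ))).eval_eq_prod_roots]
  rw [eval_map_algebraMap]
  exact (Polynomial.aeval_algebraMap_apply ℂ t P).symm

theorem mahler_gap_card (P : ℝ[X]) :
    Multiset.card (P.map (algebraMap ℝ ℂ)).roots = P.natDegree := by
  have h := (IsAlgClosed.splits (P.map (algebraMap ℝ ℂ))).natDegree_eq_card_roots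
  rw [← h]
  exact natDegree_map_eq_of_injective (algebraMap ℝ ℂ).injective P

theorem mahler_gap_D_pos {l : ℝ} (hl1 : l < 1) (hl : 0 < l) (θ : ℝ) :
    0 < 1 + 2 * l * Real.cos θ + l ^ 2 := by
  nlinarith [Real.neg_one_le_cos θ, sq_nonneg (1 - l), mul_pos hl (sub_pos.2 hl1)]

theorem mahler_gap_circ (l θ : ℝ) :
    ((l : ℂ) * circleMap 0 1 θ + 1) * (circleMap 0 1 θ + l) =
      circleMap 0 1 θ * ((1 + 2 * l * Real.cos θ + l ^ 2 : ℝ) : ℂ) := by
  have hw : circleMap 0 1 θ = Complex.cos θ + Complex.sin θ * Complex.I := by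
    rw [circleMap_zero, Complex.exp_mul_I]; simp
  rw [hw]
  push_cast
  have h := Complex.cos_sq_add_sin_sq (θ : ℂ)
  have hI : Complex.I ^ 2 = -1 := Complex.I_sq
  linear_combination (-(l : ℂ)) * h + (l * Complex.sin θ ^ 2) * hI

theorem mahler_gap_normD {l : ℝ} (hl1 : l < 1) (hl : 0 < l) (θ : ℝ) :
    ‖(l : ℂ) * circleMap 0 1 θ + 1‖ ^ 2 = 1 + 2 * l * Real.cos θ + l ^ 2 := by
  have hw : circleMap 0 1 θ = Complex.cos θ + Complex.sin θ * Complex.I := by
    rw [circleMap_zero, Complex.exp_mul_I]; simp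
  have e : (l : ℂ) * circleMap 0 1 θ + 1 = ⟨l * Real.cos θ + 1, l * Real.sin θ⟩ := by
    rw [hw]
    apply Complex.ext
    · simp [← Complex.ofReal_cos, ← Complex.ofReal_sin]
    · simp [← Complex.ofReal_cos, ← Complex.ofReal_sin]
  rw [e, ← Complex.normSq_eq_norm_sq, Complex.normSq_mk]
  have := Real.cos_sq_add_sin_sq θ
  linear_combination l ^ 2 * this

theorem mahler_gap_xx {l ρ : ℝ} (hl1 : l < 1) (hl : 0 < l) (θ : ℝ) :
    (1 + 2 * l * Real.cos θ + l ^ 2) * xx l ρ θ ^ 2 = ρ ^ 2 := by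
  have h := mahler_gap_D_pos hl1 hl θ
  unfold xx
  rw [div_pow, Real.sq_sqrt h.le]
  field_simp

theorem mahler_gap_factor {l ρ : ℝ} (hl1 : l < 1) (hl : 0 < l) (P : ℝ[X]) (s θ : ℝ) :
    (mahler_gap_R P s l ρ).eval (circleMap 0 1 θ) =
      (circleMap 0 1 θ * ((1 + 2 * l * Real.cos θ + l ^ 2 : ℝ) : ℂ)) ^ P.natDegree *
        (((P.eval (s + xx l ρ θ) * P.eval (s - xx l ρ θ) : ℝ)) : ℂ) := by
  rw [mahler_gap_evalR, Complex.ofReal_mul, mahler_gap_evalP, mahler_gap_evalP]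
  set w := circleMap 0 1 θ with hw
  set D : ℝ := 1 + 2 * l * Real.cos θ + l ^ 2 with hD
  set x := xx l ρ θ with hx
  have e : ∀ z : ℂ, ((s : ℂ) - z) ^ 2 * (l * w + 1) * (w + l) - (ρ : ℂ) ^ 2 * w =
      (w * (D : ℂ)) * ((((s + x : ℝ) : ℂ) - z) * (((s - x : ℝ) : ℂ) - z)) := by
    intro z
    have h1 := mahler_gap_circ l θ
    rw [← hw, ← hD] at h1
    have h2 : (ρ : ℂ) ^ 2 = (D : ℂ) * (x : ℂ) ^ 2 := by
      rw [← Complex.ofReal_pow, ← Complex.ofReal_pow, ← Complex.ofReal_mul]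
      exact congrArg _ (mahler_gap_xx hl1 hl θ).symm
    push_cast
    linear_combination ((s : ℂ) - z) ^ 2 * h1 - w * h2
  rw [Multiset.map_congr rfl fun z _ => e z]
  generalize w * (D : ℂ) = q
  rw [Multiset.prod_map_mul, Multiset.prod_map_mul,
    Multiset.map_const', Multiset.prod_replicate, mahler_gap_card]
  ring

theorem mahler_gap_norm {l ρ : ℝ} (hl1 : l < 1) (hl : 0 < l) (P : ℝ[X]) (s θ : ℝ) :
    ‖(mahler_gap_R P s l ρ).eval (circleMap 0 1 θ)‖ =
      ‖(l : ℂ) * circleMap 0 1 θ + 1‖ ^ (2 * P.natDegree) *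
        |P.eval (s + xx l ρ θ) * P.eval (s - xx l ρ θ)| := by
  rw [mahler_gap_factor hl1 hl, norm_mul, norm_pow, norm_mul, Complex.norm_real,
    Complex.norm_real, norm_circleMap_zero, abs_one, one_mul, Real.norm_eq_abs, Real.norm_eq_abs,
    abs_of_pos (mahler_gap_D_pos hl1 hl θ), ← mahler_gap_normD hl1 hl θ, ← pow_mul]

theorem mahler_gap_coeff0 (P : ℝ[X]) (s l ρ : ℝ) :
    (mahler_gap_R P s l ρ).coeff 0 = (((P.eval s) ^ 2 * l ^ P.natDegree : ℝ) : ℂ) := by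
  rw [coeff_zero_eq_eval_zero, mahler_gap_evalR]
  have e : ∀ z : ℂ, ((s : ℂ) - z) ^ 2 * (l * 0 + 1) * (0 + l) - (ρ : ℂ) ^ 2 * 0 =
      (l : ℂ) * (((s : ℂ) - z) * ((s : ℂ) - z)) := by intro z; ring
  rw [Multiset.map_congr rfl fun z _ => e z, Multiset.prod_map_mul, Multiset.prod_map_mul,
    Multiset.map_const', Multiset.prod_replicate, mahler_gap_card]
  rw [Complex.ofReal_mul, Complex.ofReal_pow, mahler_gap_evalP]
  push_cast
  ring

theorem mahler_gap_log (x : ℝ) (w : ℝ) (m : ℕ) (hw : 0 < w) (h : w ^ (2 * m) * x ≠ 0) :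
    Real.log x = Real.log (w ^ (2 * m) * x) - 2 * m * Real.log w := by
  have hx : x ≠ 0 := right_ne_zero_of_mul h
  rw [Real.log_mul (by positivity) hx, Real.log_pow]
  push_cast
  ring

theorem mahler_gap_zero {l : ℝ} (hl : 0 < l) (hl1 : l < 1) :
    IntervalIntegrable (fun θ => Real.log ‖(l : ℂ) * circleMap 0 1 θ + 1‖) volume 0 (2 * π) ∧
      (2 * π)⁻¹ * ∫ θ in (0 : ℝ)..(2 * π), Real.log ‖(l : ℂ) * circleMap 0 1 θ + 1‖ = 0 := by
  have hlc : (l : ℂ) ≠ 0 := by exact_mod_cast hl.ne'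
  have h1 := intervalIntegrable_mahlerMeasure (C (l : ℂ) * X + C 1)
  have h2 := logMahlerMeasure_C_mul_X_add_C hlc 1
  rw [logMahlerMeasure_def, Real.circleAverage_def, smul_eq_mul] at h2
  simp only [eval_add, eval_mul, eval_C, eval_X] at h1 h2
  refine ⟨h1, ?_⟩
  rw [h2, mul_one, norm_inv, Complex.norm_real, Real.norm_eq_abs, abs_of_pos hl]
  have h3 : Real.posLog l⁻¹ = Real.log l⁻¹ := by
    rw [Real.posLog_eq_log]
    rw [abs_of_pos (inv_pos.2 hl)]
    exact (one_le_inv₀ hl).2 hl1.le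
  rw [h3, Real.log_inv]
  ring

theorem mahler_gap (P : ℝ[X]) (d : ℕ) (hd : P.natDegree ≤ d) (s l ρ : ℝ)
    (hl : 0 < l) (hl1 : l < 1) (hρ : 0 < ρ) (hP : P.eval s ≠ 0) :
    IntervalIntegrable (fun θ => Real.log |P.eval (s + xx l ρ θ) * P.eval (s - xx l ρ θ)|)
        volume 0 (2 * π) ∧
      2 * Real.log |P.eval s| + d * Real.log l ≤
        (2 * π)⁻¹ * ∫ θ in (0 : ℝ)..(2 * π),
          Real.log |P.eval (s + xx l ρ θ) * P.eval (s - xx l ρ θ)| := by
  set R := mahler_gap_R P s l ρ with hR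
  have hc0 : R.coeff 0 = (((P.eval s) ^ 2 * l ^ P.natDegree : ℝ) : ℂ) := mahler_gap_coeff0 P s l ρ
  have hpos : 0 < (P.eval s) ^ 2 * l ^ P.natDegree := by positivity
  have hR0 : R ≠ 0 := by
    intro h
    rw [h, coeff_zero] at hc0
    have : ((P.eval s) ^ 2 * l ^ P.natDegree : ℝ) = 0 := by exact_mod_cast hc0.symm
    exact hpos.ne' this
  obtain ⟨hI0, hA0⟩ := mahler_gap_zero hl hl1
  have hIR := intervalIntegrable_mahlerMeasure R
  -- almost everywhere equality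
  have hne : ∀ᵐ θ : ℝ, R.eval (circleMap 0 1 θ) ≠ 0 := by
    have hfin : ({w : ℂ | R.eval w = 0} : Set ℂ).Countable := by
      have : ({w : ℂ | R.eval w = 0} : Set ℂ) ⊆ ↑(R.roots.toFinset) := by
        intro w hw
        simp only [Finset.mem_coe, Multiset.mem_toFinset]
        exact (mem_roots hR0).2 hw
      exact (Finset.countable_toSet _).mono this
    have h0 := (hfin.preimage_circleMap 0 (one_ne_zero (α := ℝ))).measure_zero volume
    rw [ae_iff]
    refine measure_mono_null ?_ h0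
    intro θ hθ
    simpa using hθ
  have hw0 : ∀ θ : ℝ, 0 < ‖(l : ℂ) * circleMap 0 1 θ + 1‖ := by
    intro θ
    have := mahler_gap_normD hl1 hl θ
    have h2 := mahler_gap_D_pos hl1 hl θ
    rw [← this] at h2
    exact lt_of_le_of_ne (norm_nonneg _) (fun h => by rw [← h] at h2; simp at h2)
  have hae : ∀ᵐ θ : ℝ, Real.log ‖R.eval (circleMap 0 1 θ)‖ -
      2 * P.natDegree * Real.log ‖(l : ℂ) * circleMap 0 1 θ + 1‖ =
        Real.log |P.eval (s + xx l ρ θ) * P.eval (s - xx l ρ θ)| := by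
    filter_upwards [hne] with θ hθ
    have hn : ‖R.eval (circleMap 0 1 θ)‖ ≠ 0 := norm_ne_zero_iff.2 hθ
    rw [hR, mahler_gap_norm hl1 hl] at hn ⊢
    exact (mahler_gap_log _ _ _ (hw0 θ) hn).symm
  have hdiff := hIR.sub (hI0.const_mul (2 * (P.natDegree : ℝ)))
  refine ⟨hdiff.congr_ae (ae_restrict_of_ae hae), ?_⟩
  have hint : ∫ θ in (0 : ℝ)..(2 * π), Real.log |P.eval (s + xx l ρ θ) * P.eval (s - xx l ρ θ)| =
      ∫ θ in (0 : ℝ)..(2 * π), (Real.log ‖R.eval (circleMap 0 1 θ)‖ -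
      2 * P.natDegree * Real.log ‖(l : ℂ) * circleMap 0 1 θ + 1‖) := by
    refine intervalIntegral.integral_congr_ae ?_
    filter_upwards [hae] with θ hθ _
    exact hθ.symm
  rw [hint, intervalIntegral.integral_sub hIR (hI0.const_mul (2 * (P.natDegree : ℝ))),
    intervalIntegral.integral_const_mul, mul_sub, mul_left_comm, hA0, mul_zero, sub_zero]
  have hM : (2 * π)⁻¹ * ∫ θ in (0 : ℝ)..(2 * π), Real.log ‖R.eval (circleMap 0 1 θ)‖ =
      R.logMahlerMeasure := by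
    rw [logMahlerMeasure_def, Real.circleAverage_def, smul_eq_mul]
  rw [hM, logMahlerMeasure_eq_log_MahlerMeasure]
  have hcoef := norm_coeff_le_choose_mul_mahlerMeasure 0 R
  rw [Nat.choose_zero_right, Nat.cast_one, one_mul, hc0, Complex.norm_real, Real.norm_eq_abs,
    abs_of_pos hpos] at hcoef
  have hlog := Real.log_le_log hpos hcoef
  refine le_trans ?_ hlog
  have hP2 : (P.eval s) ^ 2 ≠ 0 := pow_ne_zero 2 hP
  rw [Real.log_mul hP2 (by positivity), Real.log_pow, Real.log_pow, Real.log_abs]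
  have hdl : (d : ℝ) * Real.log l ≤ (P.natDegree : ℝ) * Real.log l :=
    mul_le_mul_of_nonpos_right (by exact_mod_cast hd) (Real.log_neg hl hl1).le
  push_cast
  linarith

end HS
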