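import Pool.Agent.HS.Defs
import Pool.Agent.HS.M_xx_facts

set_option autoImplicit false

open MeasureTheory ProbabilityTheory Filter Topology Set Polynomial
open scoped ENNReal NNReal Real

namespace HS

theorem xx_ae_ne_cos (w : ℝ) : {θ : ℝ | Real.cos θ = w}.Countable := by
  rcases Set.eq_empty_or_nonempty {θ : ℝ | Real.cos θ = w} with h | ⟨x, hx⟩
  · rw [h]
    exact Set.countable_empty
  · have hsub : {θ : ℝ | Real.cos θ = w} ⊆
        (Set.range fun k : ℤ => 2 * (k : ℝ) * Real.pi + x) ∪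
          (Set.range fun k : ℤ => 2 * (k : ℝ) * Real.pi - x) := by
      intro y hy
      have hxy : Real.cos x = Real.cos y := by
        have h1 : Real.cos x = w := hx
        have h2 : Real.cos y = w := hy
        rw [h1, h2]
      obtain ⟨k, hk | hk⟩ := Real.cos_eq_cos_iff.1 hxy
      · exact Or.inl ⟨k, hk.symm⟩
      · exact Or.inr ⟨k, hk.symm⟩
    exact ((Set.countable_range _).union (Set.countable_range _)).mono hsub

theorem xx_ae_ne_val (l ρ v : ℝ) (hl : 0 < l) (hl1 : l < 1) (hρ : 0 < ρ) :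
    {θ : ℝ | xx l ρ θ = v}.Countable := by
  refine (xx_ae_ne_cos ((ρ ^ 2 / v ^ 2 - 1 - l ^ 2) / (2 * l))).mono ?_
  intro θ hθ
  have hx : xx l ρ θ = v := hθ
  have hpos : 0 < 1 + 2 * l * Real.cos θ + l ^ 2 := by
    have h1 := Real.neg_one_le_cos θ
    nlinarith [sq_nonneg (1 - l), mul_nonneg hl.le (by linarith : (0 : ℝ) ≤ 1 + Real.cos θ),
      mul_pos (by linarith : (0 : ℝ) < 1 - l) (by linarith : (0 : ℝ) < 1 - l)]
  have hs : 0 < √(1 + 2 * l * Real.cos θ + l ^ 2) := Real.sqrt_pos.2 hpos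
  have hsq : √(1 + 2 * l * Real.cos θ + l ^ 2) ^ 2 = 1 + 2 * l * Real.cos θ + l ^ 2 :=
    Real.sq_sqrt hpos.le
  have hv : ρ ^ 2 / v ^ 2 = 1 + 2 * l * Real.cos θ + l ^ 2 := by
    rw [← hx, ← hsq]
    unfold xx
    field_simp
  change Real.cos θ = _
  rw [hv]
  field_simp
  ring

theorem xx_ae_ne (P : ℝ[X]) (hP : P ≠ 0) (s l ρ : ℝ) (hl : 0 < l) (hl1 : l < 1) (hρ : 0 < ρ) :
    ∀ᵐ θ : ℝ, P.eval (s + xx l ρ θ) ≠ 0 ∧ P.eval (s - xx l ρ θ) ≠ 0 := by
  have hc : (⋃ r ∈ (P.roots.toFinset : Set ℝ), ({θ : ℝ | xx l ρ θ = r - s} ∪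
      {θ : ℝ | xx l ρ θ = s - r})).Countable := by
    refine Set.Countable.biUnion (Finset.countable_toSet _) (fun r _ => ?_)
    exact (xx_ae_ne_val l ρ _ hl hl1 hρ).union (xx_ae_ne_val l ρ _ hl hl1 hρ)
  filter_upwards [hc.ae_notMem volume] with θ hθ
  constructor
  · intro h
    apply hθ
    rw [Set.mem_iUnion₂]
    refine ⟨s + xx l ρ θ, ?_, Or.inl ?_⟩
    · simpa [hP] using h
    · change xx l ρ θ = s + xx l ρ θ - s
      ring
  · intro h
    apply hθ
    rw [Set.mem_iUnion₂]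
    refine ⟨s - xx l ρ θ, ?_, Or.inr ?_⟩
    · simpa [hP] using h
    · change xx l ρ θ = s - (s - xx l ρ θ)
      ring

end HS
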