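import Pool.Agent.HS.Defs
import Pool.Agent.HS.M_xx_facts
import Pool.Agent.HS.M_mahler_gap
import Pool.Agent.HS.M_xx_ae_ne

set_option autoImplicit false

open MeasureTheory ProbabilityTheory Filter Topology Set Polynomial
open scoped ENNReal NNReal Real

namespace HS

theorem point_gap (P : ℝ[X]) (d : ℕ) (hd : P.natDegree ≤ d) (s l ρ : ℝ)
    (hl : 0 < l) (hl1 : l < 1) (hρ : 0 < ρ) (V : ℝ → ℝ) (hV : Continuous V) (L : ℝ)
    (hL : (2 * π)⁻¹ * ∫ θ in (0 : ℝ)..(2 * π), (V (s + xx l ρ θ) + V (s - xx l ρ θ)) ≤ L) :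
    (P.eval s) ^ 2 ≤ Real.exp (d * Real.log (1 / l) + L) *
      ((2 * π)⁻¹ * ∫ θ in (0 : ℝ)..(2 * π),
        ((P.eval (s + xx l ρ θ)) ^ 2 * Real.exp (-2 * V (s + xx l ρ θ)) +
          (P.eval (s - xx l ρ θ)) ^ 2 * Real.exp (-2 * V (s - xx l ρ θ))) / 2) := by
  have hpi : 0 < 2 * π := by positivity
  have hxc := (xx_facts l ρ hl hl1 hρ).1
  have hPc : Continuous (fun x : ℝ => P.eval x) := P.continuous
  have hHc : Continuous (fun θ => ((P.eval (s + xx l ρ θ)) ^ 2 * Real.exp (-2 * V (s + xx l ρ θ)) +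
          (P.eval (s - xx l ρ θ)) ^ 2 * Real.exp (-2 * V (s - xx l ρ θ))) / 2) := by
    have h1 : Continuous (fun θ => P.eval (s + xx l ρ θ)) := hPc.comp (continuous_const.add hxc)
    have h2 : Continuous (fun θ => P.eval (s - xx l ρ θ)) := hPc.comp (continuous_const.sub hxc)
    have h3 : Continuous (fun θ => V (s + xx l ρ θ)) := hV.comp (continuous_const.add hxc)
    have h4 : Continuous (fun θ => V (s - xx l ρ θ)) := hV.comp (continuous_const.sub hxc)
    fun_prop
  by_cases hPs : P.eval s = 0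
  · rw [hPs]
    have h0 : 0 ≤ ∫ θ in (0 : ℝ)..(2 * π),
        ((P.eval (s + xx l ρ θ)) ^ 2 * Real.exp (-2 * V (s + xx l ρ θ)) +
          (P.eval (s - xx l ρ θ)) ^ 2 * Real.exp (-2 * V (s - xx l ρ θ))) / 2 := by
      apply intervalIntegral.integral_nonneg hpi.le
      intro u _
      positivity
    rw [zero_pow two_ne_zero]
    positivity
  · have hP0 : P ≠ 0 := by
      intro h
      rw [h] at hPs
      simp at hPs
    obtain ⟨hfi, hmg⟩ := mahler_gap P d hd s l ρ hl hl1 hρ hPs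
    have hae := xx_ae_ne P hP0 s l ρ hl hl1 hρ
    let W : ℝ → ℝ := fun θ => V (s + xx l ρ θ) + V (s - xx l ρ θ)
    let G : ℝ → ℝ := fun θ => |P.eval (s + xx l ρ θ) * P.eval (s - xx l ρ θ)| * Real.exp (-W θ)
    have h1 : Continuous (fun θ => P.eval (s + xx l ρ θ)) := hPc.comp (continuous_const.add hxc)
    have h2 : Continuous (fun θ => P.eval (s - xx l ρ θ)) := hPc.comp (continuous_const.sub hxc)
    have h3 : Continuous (fun θ => V (s + xx l ρ θ)) := hV.comp (continuous_const.add hxc)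
    have h4 : Continuous (fun θ => V (s - xx l ρ θ)) := hV.comp (continuous_const.sub hxc)
    have hWc : Continuous W := h3.add h4
    have hGc : Continuous G := ((h1.mul h2).abs).mul (hWc.neg.rexp)
    have hG0 : ∀ θ, 0 ≤ G θ := fun θ => mul_nonneg (abs_nonneg _) (Real.exp_pos _).le
    have hGpos : ∀ θ, P.eval (s + xx l ρ θ) ≠ 0 → P.eval (s - xx l ρ θ) ≠ 0 → 0 < G θ := by
      intro θ a b
      exact mul_pos (abs_pos.mpr (mul_ne_zero a b)) (Real.exp_pos _)
    have hGint : 0 < ∫ θ in (0 : ℝ)..(2 * π), G θ := by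
      apply intervalIntegral.integral_pos hpi hGc.continuousOn (fun x _ => hG0 x)
      by_contra hcon
      push Not at hcon
      have h5 : volume (Icc (0:ℝ) (2 * π)) = 0 := by
        refine measure_mono_null (fun θ hθ => ?_) (ae_iff.mp hae)
        intro h
        exact absurd (hGpos θ h.1 h.2) (not_lt.mpr (hcon θ hθ))
      rw [Real.volume_Icc, ENNReal.ofReal_eq_zero] at h5
      linarith
    obtain ⟨m, hm⟩ : ∃ m, m = (2 * π)⁻¹ * ∫ θ in (0 : ℝ)..(2 * π), G θ := ⟨_, rfl⟩
    have hm0 : 0 < m := by rw [hm]; positivity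
    -- Jensen
    have hle : (fun θ => Real.log |P.eval (s + xx l ρ θ) * P.eval (s - xx l ρ θ)|) ≤ᵐ[volume]
        fun θ => m⁻¹ * G θ + (Real.log m - 1) + W θ := by
      filter_upwards [hae] with θ hθ
      have hg := hGpos θ hθ.1 hθ.2
      have h6 : Real.log (G θ / m) ≤ G θ / m - 1 := Real.log_le_sub_one_of_pos (div_pos hg hm0)
      rw [Real.log_div hg.ne' hm0.ne'] at h6
      have h7 : Real.log (G θ) =
          Real.log |P.eval (s + xx l ρ θ) * P.eval (s - xx l ρ θ)| - W θ := by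
        show Real.log (|P.eval (s + xx l ρ θ) * P.eval (s - xx l ρ θ)| * Real.exp (-W θ)) = _
        rw [Real.log_mul (abs_pos.mpr (mul_ne_zero hθ.1 hθ.2)).ne' (Real.exp_pos _).ne',
          Real.log_exp]
        ring
      rw [h7] at h6
      have h8 : G θ / m = m⁻¹ * G θ := by rw [div_eq_mul_inv, mul_comm]
      rw [h8] at h6
      linarith
    have hGi : IntervalIntegrable G volume 0 (2 * π) := hGc.intervalIntegrable _ _
    have hWi : IntervalIntegrable W volume 0 (2 * π) := hWc.intervalIntegrable _ _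
    have hRi : IntervalIntegrable (fun θ => m⁻¹ * G θ + (Real.log m - 1) + W θ) volume 0
        (2 * π) := by
      have : Continuous (fun θ => m⁻¹ * G θ + (Real.log m - 1) + W θ) := by fun_prop
      exact this.intervalIntegrable _ _
    have hint := intervalIntegral.integral_mono_ae hpi.le hfi hRi hle
    have hcalc : ∫ θ in (0 : ℝ)..(2 * π), (m⁻¹ * G θ + (Real.log m - 1) + W θ) =
        m⁻¹ * (∫ θ in (0 : ℝ)..(2 * π), G θ) + (2 * π) * (Real.log m - 1) +
          ∫ θ in (0 : ℝ)..(2 * π), W θ := by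
      have hc1 : Continuous (fun θ => m⁻¹ * G θ) := by fun_prop
      have hc2 : Continuous (fun θ => m⁻¹ * G θ + (Real.log m - 1)) := by fun_prop
      rw [intervalIntegral.integral_add (hc2.intervalIntegrable _ _) hWi,
        intervalIntegral.integral_add (hc1.intervalIntegrable _ _)
          (continuous_const.intervalIntegrable _ _),
        intervalIntegral.integral_const_mul, intervalIntegral.integral_const]
      simp
    rw [hcalc] at hint
    have hGm : ∫ θ in (0 : ℝ)..(2 * π), G θ = (2 * π) * m := by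
      rw [hm, ← mul_assoc, mul_inv_cancel₀ hpi.ne', one_mul]
    have hj : (2 * π)⁻¹ * ∫ θ in (0 : ℝ)..(2 * π),
        Real.log |P.eval (s + xx l ρ θ) * P.eval (s - xx l ρ θ)| ≤ Real.log m + L := by
      have h9 : (2 * π)⁻¹ * ∫ θ in (0 : ℝ)..(2 * π),
          Real.log |P.eval (s + xx l ρ θ) * P.eval (s - xx l ρ θ)| ≤
          (2 * π)⁻¹ * (m⁻¹ * (∫ θ in (0 : ℝ)..(2 * π), G θ) + (2 * π) * (Real.log m - 1) +
          ∫ θ in (0 : ℝ)..(2 * π), W θ) :=
        mul_le_mul_of_nonneg_left hint (by positivity)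
      have h10 : (2 * π)⁻¹ * (m⁻¹ * (∫ θ in (0 : ℝ)..(2 * π), G θ) + (2 * π) * (Real.log m - 1) +
          ∫ θ in (0 : ℝ)..(2 * π), W θ) =
          Real.log m + (2 * π)⁻¹ * ∫ θ in (0 : ℝ)..(2 * π), W θ := by
        rw [hGm]
        have hm1 : m⁻¹ * m = 1 := inv_mul_cancel₀ hm0.ne'
        have hp1 : (2 * π)⁻¹ * (2 * π) = 1 := inv_mul_cancel₀ hpi.ne'
        have e1 : (2 * π)⁻¹ * (m⁻¹ * (2 * π * m) + (2 * π) * (Real.log m - 1) +
            ∫ θ in (0 : ℝ)..(2 * π), W θ) =
            ((2 * π)⁻¹ * (2 * π)) * (m⁻¹ * m) + ((2 * π)⁻¹ * (2 * π)) * (Real.log m - 1) +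
            (2 * π)⁻¹ * ∫ θ in (0 : ℝ)..(2 * π), W θ := by ring
        rw [e1, hm1, hp1]
        ring
      rw [h10] at h9
      have h11 : (2 * π)⁻¹ * ∫ θ in (0 : ℝ)..(2 * π), W θ ≤ L := hL
      linarith
    -- AM-GM
    have hmH : m ≤ (2 * π)⁻¹ * ∫ θ in (0 : ℝ)..(2 * π),
        ((P.eval (s + xx l ρ θ)) ^ 2 * Real.exp (-2 * V (s + xx l ρ θ)) +
          (P.eval (s - xx l ρ θ)) ^ 2 * Real.exp (-2 * V (s - xx l ρ θ))) / 2 := by
      rw [hm]
      refine mul_le_mul_of_nonneg_left ?_ (by positivity)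
      refine intervalIntegral.integral_mono_on hpi.le hGi (hHc.intervalIntegrable _ _) ?_
      intro θ _
      show |P.eval (s + xx l ρ θ) * P.eval (s - xx l ρ θ)| * Real.exp (-(V (s + xx l ρ θ) + V (s - xx l ρ θ))) ≤ _
      have e1 : Real.exp (-2 * V (s + xx l ρ θ)) = Real.exp (-V (s + xx l ρ θ)) ^ 2 := by
        rw [← Real.exp_nat_mul]; congr 1; push_cast; ring
      have e2 : Real.exp (-2 * V (s - xx l ρ θ)) = Real.exp (-V (s - xx l ρ θ)) ^ 2 := by
        rw [← Real.exp_nat_mul]; congr 1; push_cast; ring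
      have e3 : Real.exp (-(V (s + xx l ρ θ) + V (s - xx l ρ θ))) =
          Real.exp (-V (s + xx l ρ θ)) * Real.exp (-V (s - xx l ρ θ)) := by
        rw [← Real.exp_add]; congr 1; ring
      rw [e1, e2, e3, abs_mul, ← sq_abs (P.eval (s + xx l ρ θ)), ← sq_abs (P.eval (s - xx l ρ θ))]
      nlinarith [sq_nonneg (|P.eval (s + xx l ρ θ)| * Real.exp (-V (s + xx l ρ θ)) -
        |P.eval (s - xx l ρ θ)| * Real.exp (-V (s - xx l ρ θ)))]
    have hlog : Real.log (1 / l) = - Real.log l := by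
      rw [one_div, Real.log_inv]
    have hfin : 2 * Real.log |P.eval s| ≤ (d * Real.log (1 / l) + L) + Real.log m := by
      rw [hlog]
      linarith
    have habs : 0 < |P.eval s| := abs_pos.mpr hPs
    calc (P.eval s) ^ 2 = Real.exp (2 * Real.log |P.eval s|) := by
          rw [mul_comm, Real.exp_mul, Real.exp_log habs]
          norm_num
      _ ≤ Real.exp ((d * Real.log (1 / l) + L) + Real.log m) := Real.exp_le_exp.mpr hfin
      _ = Real.exp (d * Real.log (1 / l) + L) * m := by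
          rw [Real.exp_add, Real.exp_log hm0]
      _ ≤ _ := mul_le_mul_of_nonneg_left hmH (Real.exp_pos _).le

end HS
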