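import Pool.Agent.HS.Defs
import Pool.Agent.HS.M_xx_facts
import Pool.Agent.HS.M_point_gap

set_option autoImplicit false

open MeasureTheory ProbabilityTheory Filter Topology Set Polynomial
open scoped ENNReal NNReal Real

namespace HS

theorem int_gap_half (F : ℝ → ℝ) (hF : Continuous F) (h0 : ∀ s, 0 ≤ F s) (c : ℝ) :
    ∫⁻ s, ENNReal.ofReal ((F (s + c) + F (s - c)) / 2) = ∫⁻ s, ENNReal.ofReal (F s) := by
  have h1 : ∀ s, ENNReal.ofReal ((F (s + c) + F (s - c)) / 2) =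
      ENNReal.ofReal (1 / 2) * (ENNReal.ofReal (F (s + c)) + ENNReal.ofReal (F (s - c))) := by
    intro s
    rw [← ENNReal.ofReal_add (h0 _) (h0 _), ← ENNReal.ofReal_mul (by norm_num)]
    congr 1
    ring
  simp_rw [h1]
  have hm1 : Measurable (fun s => ENNReal.ofReal (F (s + c))) :=
    ENNReal.measurable_ofReal.comp (hF.comp (by fun_prop)).measurable
  have hm2 : Measurable (fun s => ENNReal.ofReal (F (s - c))) :=
    ENNReal.measurable_ofReal.comp (hF.comp (by fun_prop)).measurable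
  rw [lintegral_const_mul' _ _ ENNReal.ofReal_ne_top, lintegral_add_left hm1]
  rw [lintegral_add_right_eq_self (fun s => ENNReal.ofReal (F s)) c,
    lintegral_sub_right_eq_self (fun s => ENNReal.ofReal (F s)) c]
  rw [← two_mul, ← mul_assoc]
  have : ENNReal.ofReal (1 / 2) * 2 = 1 := by
    rw [show (2 : ℝ≥0∞) = ENNReal.ofReal 2 by simp, ← ENNReal.ofReal_mul (by norm_num)]
    norm_num
  rw [this, one_mul]

theorem int_gap_shift (F : ℝ → ℝ) (hF : Continuous F) (h0 : ∀ s, 0 ≤ F s) (x : ℝ → ℝ)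
    (hx : Continuous x) :
    ∫⁻ s, ENNReal.ofReal ((2 * π)⁻¹ * ∫ θ in (0 : ℝ)..(2 * π), (F (s + x θ) + F (s - x θ)) / 2) =
      ∫⁻ s, ENNReal.ofReal (F s) := by
  have hpi : (0 : ℝ) < 2 * π := by positivity
  have h1 : ∀ s, ENNReal.ofReal ((2 * π)⁻¹ * ∫ θ in (0 : ℝ)..(2 * π), (F (s + x θ) + F (s - x θ)) / 2) =
      ENNReal.ofReal (2 * π)⁻¹ * ∫⁻ θ in Set.Ioc 0 (2 * π),
        ENNReal.ofReal ((F (s + x θ) + F (s - x θ)) / 2) := by
    intro s
    rw [ENNReal.ofReal_mul (by positivity), intervalIntegral.integral_of_le hpi.le,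
      ofReal_integral_eq_lintegral_ofReal]
    · have hc : Continuous (fun θ => (F (s + x θ) + F (s - x θ)) / 2) := by fun_prop
      exact (hc.intervalIntegrable 0 (2 * π)).1
    · exact Filter.Eventually.of_forall (fun θ => by
        have a := h0 (s + x θ)
        have b := h0 (s - x θ)
        show 0 ≤ (F (s + x θ) + F (s - x θ)) / 2
        linarith)
  simp_rw [h1]
  have hm : Measurable (Function.uncurry (fun s θ => ENNReal.ofReal ((F (s + x θ) + F (s - x θ)) / 2))) := by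
    apply ENNReal.measurable_ofReal.comp
    have : Continuous (fun p : ℝ × ℝ => (F (p.1 + x p.2) + F (p.1 - x p.2)) / 2) := by fun_prop
    exact this.measurable
  rw [lintegral_const_mul' _ _ ENNReal.ofReal_ne_top, lintegral_lintegral_swap hm.aemeasurable]
  simp_rw [int_gap_half F hF h0]
  rw [lintegral_const, Measure.restrict_apply_univ, Real.volume_Ioc, mul_comm, mul_assoc,
    ← ENNReal.ofReal_mul (by linarith)]
  rw [show (2 * π - 0) * (2 * π)⁻¹ = 1 by field_simp; ring]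
  simp

theorem int_gap (P : ℝ[X]) (d : ℕ) (hd : P.natDegree ≤ d) (l ρ : ℝ)
    (hl : 0 < l) (hl1 : l < 1) (hρ : 0 < ρ) (V : ℝ → ℝ) (hV : Continuous V) (L : ℝ)
    (B : Set ℝ) (hB : MeasurableSet B)
    (hL : ∀ s ∈ B,
      (2 * π)⁻¹ * ∫ θ in (0 : ℝ)..(2 * π), (V (s + xx l ρ θ) + V (s - xx l ρ θ)) ≤ L)
    (hint : Integrable (fun s => (P.eval s) ^ 2 * Real.exp (-2 * V s))) :
    ∫ s in B, (P.eval s) ^ 2 ≤ Real.exp (d * Real.log (1 / l) + L) *
      ∫ s, (P.eval s) ^ 2 * Real.exp (-2 * V s) := by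
  set F : ℝ → ℝ := fun s => (P.eval s) ^ 2 * Real.exp (-2 * V s) with hFdef
  set C : ℝ := Real.exp (d * Real.log (1 / l) + L) with hC
  have hC0 : 0 < C := Real.exp_pos _
  have hF : Continuous F := by
    have : Continuous (fun s => P.eval s) := P.continuous
    fun_prop
  have h0 : ∀ s, 0 ≤ F s := fun s => mul_nonneg (sq_nonneg _) (Real.exp_pos _).le
  have hx := (xx_facts l ρ hl hl1 hρ).1
  have hpt : ∀ s ∈ B, ENNReal.ofReal ((P.eval s) ^ 2) ≤ ENNReal.ofReal C *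
      ENNReal.ofReal ((2 * π)⁻¹ * ∫ θ in (0 : ℝ)..(2 * π), (F (s + xx l ρ θ) + F (s - xx l ρ θ)) / 2) := by
    intro s hs
    rw [← ENNReal.ofReal_mul hC0.le]
    apply ENNReal.ofReal_le_ofReal
    exact point_gap P d hd s l ρ hl hl1 hρ V hV L (hL s hs)
  have hle : ∫⁻ s in B, ENNReal.ofReal ((P.eval s) ^ 2) ≤
      ENNReal.ofReal C * ∫⁻ s, ENNReal.ofReal (F s) := by
    calc ∫⁻ s in B, ENNReal.ofReal ((P.eval s) ^ 2)
        ≤ ∫⁻ s in B, ENNReal.ofReal C *
      ENNReal.ofReal ((2 * π)⁻¹ * ∫ θ in (0 : ℝ)..(2 * π), (F (s + xx l ρ θ) + F (s - xx l ρ θ)) / 2) := by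
          apply lintegral_mono_ae
          exact (ae_restrict_iff' hB).2 (Filter.Eventually.of_forall hpt)
      _ ≤ ∫⁻ s, ENNReal.ofReal C *
      ENNReal.ofReal ((2 * π)⁻¹ * ∫ θ in (0 : ℝ)..(2 * π), (F (s + xx l ρ θ) + F (s - xx l ρ θ)) / 2) :=
          setLIntegral_le_lintegral _ _
      _ = ENNReal.ofReal C * ∫⁻ s, ENNReal.ofReal (F s) := by
          rw [lintegral_const_mul' _ _ ENNReal.ofReal_ne_top,
            int_gap_shift F hF h0 (fun θ => xx l ρ θ) hx]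
  rw [integral_eq_lintegral_of_nonneg_ae (Filter.Eventually.of_forall (fun s => sq_nonneg _))
    (P.continuous.pow 2).aestronglyMeasurable]
  have hfin : ∫⁻ s, ENNReal.ofReal (F s) = ENNReal.ofReal (∫ s, F s) := by
    rw [ofReal_integral_eq_lintegral_ofReal hint (Filter.Eventually.of_forall h0)]
  rw [hfin, ← ENNReal.ofReal_mul hC0.le] at hle
  have hnn : 0 ≤ C * ∫ s, F s := mul_nonneg hC0.le (integral_nonneg h0)
  calc (∫⁻ s in B, ENNReal.ofReal ((P.eval s) ^ 2)).toReal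
      ≤ (ENNReal.ofReal (C * ∫ s, F s)).toReal := ENNReal.toReal_mono ENNReal.ofReal_ne_top hle
    _ = C * ∫ s, F s := ENNReal.toReal_ofReal hnn

end HS
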