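import Pool.Agent.HS.Defs
import Pool.Agent.HS.M_xx_facts
import Pool.Agent.HS.M_int_gap
import Pool.Agent.HS.M_VV_avg

set_option autoImplicit false

open MeasureTheory ProbabilityTheory Filter Topology Set Polynomial
open scoped ENNReal NNReal Real

namespace HS

theorem gap_VV_cont (a α : ℝ) : Continuous (VV a α) := by
  unfold VV
  fun_prop

theorem gap_exp (α ε r w c D : ℝ) (hα : 0 < α) (hε : 0 < ε) (hr : 0 < r) (hr1 : r ≤ 1 / 2)
    (hw : 0 < w) (hc : c = 32 * π / (α * ε)) (hlog : Real.log (ε / (2 * r)) = c)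
    (hD : 3 / 2 - D ≤ r * w ^ 2) :
    w ^ 2 * Real.log (1 / (1 - r / 2)) + ((3 + (r * w) ^ 2 / (1 - (1 - r / 2) ^ 2)) / 2 -
      (3 * α * (ε * w) * (r * w)) / (32 * π) * Real.log ((ε * w) / (2 * (r * w)))) ≤ D := by
  have hpi := Real.pi_pos
  have e1 : (ε * w) / (2 * (r * w)) = ε / (2 * r) := by field_simp
  have e2 : (3 * α * (ε * w) * (r * w)) / (32 * π) * c = 3 * (r * w ^ 2) := by
    rw [hc]; field_simp
  have hl : 0 < 1 - r / 2 := by linarith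
  have e3 : (r * w) ^ 2 / (1 - (1 - r / 2) ^ 2) ≤ 6 / 5 * (r * w ^ 2) := by
    have h1 : 0 < 1 - (1 - r / 2) ^ 2 := by nlinarith
    rw [div_le_iff₀ h1]
    have h2 : 6 / 5 * (r * w ^ 2) * (1 - (1 - r / 2) ^ 2) - (r * w) ^ 2 =
      (r * w) ^ 2 * (6 / 5 * (1 - r / 4) - 1) := by ring
    have h3 : 0 ≤ (r * w) ^ 2 * (6 / 5 * (1 - r / 4) - 1) := by
      apply mul_nonneg (sq_nonneg _); linarith
    linarith
  have e4 : Real.log (1 / (1 - r / 2)) ≤ 3 / 4 * r := by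
    have h1 := Real.log_le_sub_one_of_pos (show (0 : ℝ) < 1 / (1 - r / 2) by positivity)
    have h2 : 1 / (1 - r / 2) ≤ 1 + 3 / 4 * r := by
      rw [div_le_iff₀ hl]; nlinarith
    linarith
  rw [e1, hlog, e2]
  have e5 : w ^ 2 * Real.log (1 / (1 - r / 2)) ≤ w ^ 2 * (3 / 4 * r) :=
    mul_le_mul_of_nonneg_left e4 (sq_nonneg _)
  have e6 : 0 < r * w ^ 2 := by positivity
  linarith [mul_comm (w ^ 2) r]


theorem gap (α ε δ : ℝ) (hα : 0 < α) (hα1 : α < 1) (hε : 0 < ε) (hε1 : ε ≤ 1) (hδ : 0 < δ) :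
    ∃ d₀ : ℕ, ∀ d : ℕ, d₀ ≤ d → ∀ P : ℝ[X], P.natDegree ≤ d →
      Integrable (fun s => (P.eval s) ^ 2 * Real.exp (-2 * VV (ε * √d) α s)) →
      ∫ s in {s | |s - ε * √d| ≤ 1 / (ε * √d)}, (P.eval s) ^ 2 ≤
        δ * ∫ s, (P.eval s) ^ 2 * Real.exp (-2 * VV (ε * √d) α s) := by
  have hpi := Real.pi_pos
  obtain ⟨c, hc⟩ : ∃ c, c = 32 * π / (α * ε) := ⟨_, rfl⟩
  obtain ⟨r, hrd⟩ : ∃ r, r = ε / 2 * Real.exp (-c) := ⟨_, rfl⟩
  have hc0 : 0 < c := by rw [hc]; positivity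
  have hr : 0 < r := by rw [hrd]; positivity
  have he1 : Real.exp (-c) ≤ 1 := by rw [Real.exp_le_one_iff]; linarith
  have hr2 : 2 * r ≤ ε := by
    rw [hrd]; nlinarith
  have hr1 : r ≤ 1 / 2 := by linarith
  have hlog : Real.log (ε / (2 * r)) = c := by
    have h1 : ε / (2 * r) = Real.exp c := by
      rw [hrd, Real.exp_neg]; field_simp
    rw [h1, Real.log_exp]
  obtain ⟨d₀, hd₀⟩ := exists_nat_ge (4 / ε ^ 2 + 4 / (ε * r) + |3 / 2 - Real.log δ| / r)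
  refine ⟨d₀, fun d hd P hP hint => ?_⟩
  have hdD : 4 / ε ^ 2 + 4 / (ε * r) + |3 / 2 - Real.log δ| / r ≤ d :=
    hd₀.trans (by exact_mod_cast hd)
  have p1 : 0 < 4 / ε ^ 2 := by positivity
  have p2 : 0 < 4 / (ε * r) := by positivity
  have p3 : 0 ≤ |3 / 2 - Real.log δ| / r := by positivity
  have hd0 : (0 : ℝ) < d := by linarith
  obtain ⟨w, hw⟩ : ∃ w, w = √(d : ℝ) := ⟨_, rfl⟩
  have hw0 : 0 < w := by rw [hw]; exact Real.sqrt_pos.2 hd0
  have hw2 : w ^ 2 = d := by rw [hw]; exact Real.sq_sqrt hd0.le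
  rw [← hw] at hint ⊢
  have q1 : 4 ≤ ε ^ 2 * w ^ 2 := by
    have : 4 / ε ^ 2 ≤ w ^ 2 := by rw [hw2]; linarith
    rw [div_le_iff₀ (by positivity)] at this
    linarith
  have q2 : 4 ≤ ε * r * w ^ 2 := by
    have : 4 / (ε * r) ≤ w ^ 2 := by rw [hw2]; linarith
    rw [div_le_iff₀ (by positivity)] at this
    linarith
  have q3 : 3 / 2 - Real.log δ ≤ r * w ^ 2 := by
    have : |3 / 2 - Real.log δ| / r ≤ w ^ 2 := by rw [hw2]; linarith
    rw [div_le_iff₀ (by positivity)] at this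
    linarith [le_abs_self (3 / 2 - Real.log δ)]
  have ha : 2 ≤ ε * w := by
    by_contra hcon
    push Not at hcon
    have : 0 < ε * w := by positivity
    nlinarith
  have ha0 : 0 < ε * w := by positivity
  have hl : 0 < 1 - r / 2 := by linarith
  have hl1 : 1 - r / 2 < 1 := by linarith
  have hρ : 0 < r * w := by positivity
  have hVV : ∀ s ∈ {s | |s - ε * w| ≤ 1 / (ε * w)},
      (2 * π)⁻¹ * ∫ θ in (0 : ℝ)..(2 * π), (VV (ε * w) α (s + xx (1 - r / 2) (r * w) θ) +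
        VV (ε * w) α (s - xx (1 - r / 2) (r * w) θ)) ≤
      (3 + (r * w) ^ 2 / (1 - (1 - r / 2) ^ 2)) / 2 -
        (3 * α * (ε * w) * (r * w)) / (32 * π) * Real.log ((ε * w) / (2 * (r * w))) := by
    intro s hs
    refine VV_avg (ε * w) α (1 - r / 2) (r * w) s hα hα1 ha hs (by linarith) hl1 ?_ ?_ ?_
    · rw [div_le_iff₀ ha0]
      calc (4 : ℝ) ≤ ε * r * w ^ 2 := q2
        _ = r * w * (ε * w) := by ring
    · have h1 : 2 * (r * w) / (ε * w) = 2 * r / ε := by field_simp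
      rw [h1, le_div_iff₀ hε]
      nlinarith
    · nlinarith
  have hB : MeasurableSet {s : ℝ | |s - ε * w| ≤ 1 / (ε * w)} :=
    (isClosed_le (by fun_prop) continuous_const).measurableSet
  have hmain := int_gap P d hP (1 - r / 2) (r * w) hl hl1 hρ (VV (ε * w) α)
    (gap_VV_cont _ _) _ _ hB hVV hint
  refine hmain.trans ?_
  have hI : 0 ≤ ∫ s, (P.eval s) ^ 2 * Real.exp (-2 * VV (ε * w) α s) :=
    integral_nonneg fun s => by positivity
  refine mul_le_mul_of_nonneg_right ?_ hI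
  have hexp := gap_exp α ε r w c (Real.log δ) hα hε hr hr1 hw0 hc hlog q3
  rw [hw2] at hexp
  calc _ ≤ Real.exp (Real.log δ) := Real.exp_le_exp.2 hexp
    _ = δ := Real.exp_log hδ

end HS
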