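import Pool.Agent.HS.Defs

set_option autoImplicit false

open MeasureTheory ProbabilityTheory Filter Topology Set Polynomial
open scoped ENNReal NNReal Real

namespace HS

theorem gg_facts_nonneg (t : ℝ) : 0 ≤ bb t := by
  unfold bb
  positivity

theorem gg_facts_le (t : ℝ) : bb t ≤ 1 := by
  unfold bb
  apply pow_le_one₀ (le_max_right _ _)
  apply max_le
  · nlinarith [sq_nonneg t]
  · norm_num

theorem gg_facts_even (t : ℝ) : bb (-t) = bb t := by
  unfold bb
  rw [neg_sq]

theorem gg_facts_zero (t : ℝ) (h : 1 ≤ |t|) : bb t = 0 := by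
  unfold bb
  have h1 : 1 - t ^ 2 ≤ 0 := by
    have : 1 ≤ |t| ^ 2 := one_le_pow₀ h
    rw [sq_abs] at this
    linarith
  rw [max_eq_right h1]
  norm_num

theorem gg_facts_low (t : ℝ) (h : |t| ≤ 1 / 2) : 27 / 64 ≤ bb t := by
  unfold bb
  have h1 : t ^ 2 ≤ 1 / 4 := by
    have : |t| ^ 2 ≤ (1 / 2) ^ 2 := pow_le_pow_left₀ (abs_nonneg _) h 2
    rw [sq_abs] at this
    linarith
  have h2 : 3 / 4 ≤ max (1 - t ^ 2) 0 := le_trans (by linarith) (le_max_left _ _)
  calc (27 / 64 : ℝ) = (3 / 4) ^ 3 := by norm_num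
    _ ≤ _ := pow_le_pow_left₀ (by norm_num) h2 3

theorem gg_facts (a : ℝ) (ha : 1 ≤ a) :
    Continuous (gg a) ∧ (∀ s, gg a (-s) = -gg a s) ∧ (∀ s, |gg a s| ≤ 1) ∧
      (∀ s, ¬ (|s - a| ≤ 1 / a ∨ |s + a| ≤ 1 / a) → gg a s = 0) ∧
      (∀ s, |s - a| ≤ 1 / (2 * a) → 2 / 5 ≤ gg a s) := by
  have ha0 : 0 < a := by linarith
  refine ⟨?_, ?_, ?_, ?_, ?_⟩
  · unfold gg bb
    fun_prop
  · intro s
    unfold gg
    rw [show a * (-s - a) = -(a * (s + a)) by ring, show a * (-s + a) = -(a * (s - a)) by ring,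
      gg_facts_even, gg_facts_even]
    ring
  · intro s
    unfold gg
    rw [abs_le]
    have h1 := gg_facts_nonneg (a * (s - a))
    have h2 := gg_facts_nonneg (a * (s + a))
    have h3 := gg_facts_le (a * (s - a))
    have h4 := gg_facts_le (a * (s + a))
    constructor <;> linarith
  · intro s h
    push Not at h
    unfold gg
    have h1 : 1 ≤ |a * (s - a)| := by
      rw [abs_mul, abs_of_pos ha0]
      have := h.1
      rw [div_lt_iff₀ ha0] at this
      linarith
    have h2 : 1 ≤ |a * (s + a)| := by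
      rw [abs_mul, abs_of_pos ha0]
      have := h.2
      rw [div_lt_iff₀ ha0] at this
      linarith
    rw [gg_facts_zero _ h1, gg_facts_zero _ h2, sub_zero]
  · intro s h
    have h' : |s - a| * (2 * a) ≤ 1 := by
      rwa [le_div_iff₀ (by positivity)] at h
    have h1 : |a * (s - a)| ≤ 1 / 2 := by
      rw [abs_mul, abs_of_pos ha0]
      linarith
    have h2 : 1 ≤ |a * (s + a)| := by
      have h3 := (abs_le.mp h1).1
      have h4 : 1 ≤ a * (s + a) := by nlinarith
      exact h4.trans (le_abs_self _)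
    unfold gg
    rw [gg_facts_zero _ h2, sub_zero]
    exact le_trans (by norm_num) (gg_facts_low _ h1)

end HS
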