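import Pool.Agent.HS.Defs

set_option autoImplicit false

open MeasureTheory ProbabilityTheory Filter Topology Set Polynomial
open scoped ENNReal NNReal Real

namespace HS

theorem nn_bounds (a : ℝ) (ha : 1 ≤ a) :
    a * Real.exp (a ^ 2 / 2) ≤ (nn a : ℝ) ∧ (nn a : ℝ) ≤ 2 * a * Real.exp (a ^ 2 / 2) := by
  have he : 1 ≤ Real.exp (a ^ 2 / 2) := Real.one_le_exp (by positivity)
  have h1 : 1 ≤ a * Real.exp (a ^ 2 / 2) := one_le_mul_of_one_le_of_one_le ha he
  refine ⟨Nat.le_ceil _, ?_⟩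
  have h2 : ((nn a : ℕ) : ℝ) < a * Real.exp (a ^ 2 / 2) + 1 :=
    Nat.ceil_lt_add_one (by linarith)
  linarith

end HS
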