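import Pool.Agent.HS.Defs
import Pool.Agent.HS.M_gg_facts
import Pool.Agent.HS.M_nn_bounds

set_option autoImplicit false

open MeasureTheory ProbabilityTheory Filter Topology Set Polynomial
open scoped ENNReal NNReal Real

namespace HS

theorem nn_gg_lower_right_meas (a : ℝ) (ha : 1 ≤ a) :
    (√(2 * π))⁻¹ * Real.exp (-(a ^ 2 / 2) - 5 / 8) * (1 / a) ≤
      (G1).real (Icc (a - 1 / (2 * a)) (a + 1 / (2 * a))) := by
  have ha0 : 0 < a := by linarith
  have hle : a - 1 / (2 * a) ≤ a + 1 / (2 * a) := by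
    have : 0 < 1 / (2 * a) := by positivity
    linarith
  have h1 : (G1).real (Icc (a - 1 / (2 * a)) (a + 1 / (2 * a))) =
      ∫ x in Icc (a - 1 / (2 * a)) (a + 1 / (2 * a)), gaussianPDFReal 0 1 x := by
    rw [Measure.real, gaussianReal_apply_eq_integral 0 one_ne_zero, ENNReal.toReal_ofReal]
    exact setIntegral_nonneg measurableSet_Icc (fun x _ => gaussianPDFReal_nonneg 0 1 x)
  rw [h1]
  have h2 : ∀ x ∈ Icc (a - 1 / (2 * a)) (a + 1 / (2 * a)),
      (√(2 * π))⁻¹ * Real.exp (-(a ^ 2 / 2) - 5 / 8) ≤ gaussianPDFReal 0 1 x := by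
    intro x hx
    have hx2 : x ^ 2 ≤ a ^ 2 + 5 / 4 := by
      have h3 : |x| ≤ a + 1 / (2 * a) := by
        rw [abs_le]
        refine ⟨?_, hx.2⟩
        have : 1 / (2 * a) ≤ 1 / 2 := by
          rw [div_le_div_iff₀ (by positivity) (by norm_num)]
          linarith
        have := hx.1
        have h4 : 0 < 1 / (2 * a) := by positivity
        linarith
      have h4 : x ^ 2 ≤ (a + 1 / (2 * a)) ^ 2 := by
        rw [← sq_abs x]
        exact pow_le_pow_left₀ (abs_nonneg _) h3 2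
      have h5 : (a + 1 / (2 * a)) ^ 2 = a ^ 2 + 1 + (1 / (2 * a)) ^ 2 := by
        field_simp
        ring
      have h6 : (1 / (2 * a)) ^ 2 ≤ 1 / 4 := by
        have h7 : 1 / (2 * a) ≤ 1 / 2 := by
          rw [div_le_div_iff₀ (by positivity) (by norm_num)]
          linarith
        have h8 : 0 < 1 / (2 * a) := by positivity
        nlinarith
      linarith
    unfold gaussianPDFReal
    have e1 : √(2 * π * ((1 : ℝ≥0) : ℝ)) = √(2 * π) := by
      rw [NNReal.coe_one, mul_one]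
    rw [e1]
    refine mul_le_mul_of_nonneg_left ?_ (by positivity)
    rw [Real.exp_le_exp, NNReal.coe_one, sub_zero, mul_one]
    linarith
  have hint : IntegrableOn (gaussianPDFReal 0 1) (Icc (a - 1 / (2 * a)) (a + 1 / (2 * a))) :=
    (integrable_gaussianPDFReal 0 1).integrableOn
  have h3 := setIntegral_mono_on (μ := volume) (s := Icc (a - 1 / (2 * a)) (a + 1 / (2 * a)))
    (f := fun _ => (√(2 * π))⁻¹ * Real.exp (-(a ^ 2 / 2) - 5 / 8)) (g := gaussianPDFReal 0 1)
    (integrableOn_const (by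
      rw [Real.volume_Icc]
      exact ENNReal.ofReal_ne_top)) hint measurableSet_Icc h2
  rw [setIntegral_const, Real.volume_real_Icc_of_le hle, smul_eq_mul] at h3
  refine le_trans (le_of_eq ?_) h3
  field_simp
  ring

theorem nn_gg_lower_right (a : ℝ) (ha : 1 ≤ a) :
    1 / 50 ≤ (nn a : ℝ) * ∫ s in {s | |s - a| ≤ 1 / a}, (gg a s) ^ 2 ∂G1 := by
  have ha0 : 0 < a := by linarith
  obtain ⟨hcont, -, hbd, -, hlow⟩ := gg_facts a ha
  obtain ⟨hnn, -⟩ := nn_bounds a ha
  have hsub : Icc (a - 1 / (2 * a)) (a + 1 / (2 * a)) ⊆ {s | |s - a| ≤ 1 / a} := by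
    intro s hs
    have h1 : |s - a| ≤ 1 / (2 * a) := by
      rw [abs_le]
      exact ⟨by linarith [hs.1], by linarith [hs.2]⟩
    have h2 : 1 / (2 * a) ≤ 1 / a := by
      rw [div_le_div_iff₀ (by positivity) ha0]
      linarith
    exact h1.trans h2
  have hint : Integrable (fun s => (gg a s) ^ 2) G1 := by
    refine Integrable.of_bound (hcont.pow 2).aestronglyMeasurable 1 (Filter.Eventually.of_forall ?_)
    intro s
    rw [Real.norm_eq_abs, abs_pow]
    exact pow_le_one₀ (abs_nonneg _) (hbd s)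
  have h1 : ∫ s in Icc (a - 1 / (2 * a)) (a + 1 / (2 * a)), (gg a s) ^ 2 ∂G1 ≤
      ∫ s in {s | |s - a| ≤ 1 / a}, (gg a s) ^ 2 ∂G1 := by
    refine setIntegral_mono_set hint.integrableOn
      (Filter.Eventually.of_forall (fun s => sq_nonneg _)) ?_
    exact (HasSubset.Subset.eventuallyLE hsub)
  have h2 : (G1).real (Icc (a - 1 / (2 * a)) (a + 1 / (2 * a))) * (4 / 25) ≤
      ∫ s in Icc (a - 1 / (2 * a)) (a + 1 / (2 * a)), (gg a s) ^ 2 ∂G1 := by
    have h3 := setIntegral_mono_on (μ := G1) (s := Icc (a - 1 / (2 * a)) (a + 1 / (2 * a)))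
      (f := fun _ => (4 / 25 : ℝ)) (g := fun s => (gg a s) ^ 2)
      (integrableOn_const (measure_ne_top _ _)) hint.integrableOn measurableSet_Icc (by
        intro s hs
        have h4 := hlow s (by
          rw [abs_le]
          exact ⟨by linarith [hs.1], by linarith [hs.2]⟩)
        show (4 / 25 : ℝ) ≤ (gg a s) ^ 2
        nlinarith)
    rw [setIntegral_const, smul_eq_mul] at h3
    exact h3
  have h3 := nn_gg_lower_right_meas a ha
  have hE1 : Real.exp (a ^ 2 / 2) * Real.exp (-(a ^ 2 / 2) - 5 / 8) = Real.exp (-(5 / 8)) := by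
    rw [← Real.exp_add]
    congr 1
    ring
  have hnum : 1 / 8 ≤ (√(2 * π))⁻¹ * Real.exp (-(5 / 8)) := by
    have hs : √(2 * π) ≤ 2.6 := by
      rw [Real.sqrt_le_left (by norm_num)]
      have := Real.pi_lt_d2
      norm_num
      linarith
    have hs0 : 0 < √(2 * π) := by positivity
    have he : Real.exp (5 / 8) ≤ 2.72 := by
      have h5 : Real.exp (5 / 8) ≤ Real.exp 1 := Real.exp_le_exp.2 (by norm_num)
      have h6 := Real.exp_one_lt_d9
      linarith
    have he0 := Real.exp_pos (5 / 8)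
    rw [Real.exp_neg, ← mul_inv, one_div]
    rw [inv_le_inv₀ (by norm_num) (by positivity)]
    calc √(2 * π) * Real.exp (5 / 8) ≤ 2.6 * 2.72 := mul_le_mul hs he he0.le (by norm_num)
      _ ≤ 8 := by norm_num
  have hI : (√(2 * π))⁻¹ * Real.exp (-(a ^ 2 / 2) - 5 / 8) * (1 / a) * (4 / 25) ≤
      ∫ s in {s | |s - a| ≤ 1 / a}, (gg a s) ^ 2 ∂G1 := by linarith
  have hI0 : 0 ≤ (√(2 * π))⁻¹ * Real.exp (-(a ^ 2 / 2) - 5 / 8) * (1 / a) * (4 / 25) := by
    positivity
  calc (1 / 50 : ℝ) = 1 / 8 * (4 / 25) := by norm_num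
    _ ≤ (√(2 * π))⁻¹ * Real.exp (-(5 / 8)) * (4 / 25) :=
      mul_le_mul_of_nonneg_right hnum (by norm_num)
    _ = a * Real.exp (a ^ 2 / 2) *
        ((√(2 * π))⁻¹ * Real.exp (-(a ^ 2 / 2) - 5 / 8) * (1 / a) * (4 / 25)) := by
      rw [← hE1]
      field_simp
    _ ≤ (nn a : ℝ) * ∫ s in {s | |s - a| ≤ 1 / a}, (gg a s) ^ 2 ∂G1 :=
      mul_le_mul hnn hI hI0 (Nat.cast_nonneg _)

end HS
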