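import Pool.Agent.HS.Defs
import Pool.Agent.HS.M_nn_bounds

set_option autoImplicit false

open MeasureTheory ProbabilityTheory Filter Topology Set Polynomial
open scoped ENNReal NNReal Real

namespace HS

theorem nn_mass_dens (a s : ℝ) (ha : 1 ≤ a) (h : |s - a| ≤ 1 / a ∨ |s + a| ≤ 1 / a) :
    gaussianPDFReal 0 1 s ≤ (√(2 * π))⁻¹ * Real.exp (1 - a ^ 2 / 2) := by
  have ha0 : 0 < a := by linarith
  have hinv : a * (1 / a) = 1 := by field_simp
  have hinvp : 0 < 1 / a := by positivity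
  have hle1 : 1 / a ≤ a := by
    have : 1 / a ≤ 1 := by
      rw [div_le_one ha0]; exact ha
    linarith
  have hs2 : a ^ 2 - 2 ≤ s ^ 2 := by
    rcases h with h | h
    · have h1 := (abs_le.1 h).1
      have h2 : a - 1 / a ≤ s := by linarith
      nlinarith [mul_self_le_mul_self (by linarith : 0 ≤ a - 1 / a) h2]
    · have h1 := (abs_le.1 h).2
      have h2 : a - 1 / a ≤ -s := by linarith
      nlinarith [mul_self_le_mul_self (by linarith : 0 ≤ a - 1 / a) h2]
  unfold gaussianPDFReal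
  simp only [NNReal.coe_one, mul_one, sub_zero]
  apply mul_le_mul_of_nonneg_left _ (by positivity)
  apply Real.exp_le_exp.2
  linarith

theorem nn_mass_vol (a : ℝ) (ha : 1 ≤ a) :
    volume {s : ℝ | |s - a| ≤ 1 / a ∨ |s + a| ≤ 1 / a} ≤ ENNReal.ofReal (4 / a) := by
  have hsub : {s : ℝ | |s - a| ≤ 1 / a ∨ |s + a| ≤ 1 / a} ⊆
      Set.Icc (a - 1 / a) (a + 1 / a) ∪ Set.Icc (-a - 1 / a) (-a + 1 / a) := by
    intro s hs
    rcases hs with h | h
    · left
      have := abs_le.1 h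
      constructor <;> linarith [this.1, this.2]
    · right
      have := abs_le.1 h
      constructor <;> linarith [this.1, this.2]
  refine (measure_mono hsub).trans ((measure_union_le _ _).trans ?_)
  rw [Real.volume_Icc, Real.volume_Icc, ← ENNReal.ofReal_add (by
    have : 0 < 1 / a := by positivity
    linarith) (by
    have : 0 < 1 / a := by positivity
    linarith)]
  apply ENNReal.ofReal_le_ofReal
  apply le_of_eq
  ring

theorem nn_mass_meas (a : ℝ) :
    MeasurableSet {s : ℝ | |s - a| ≤ 1 / a ∨ |s + a| ≤ 1 / a} := by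
  have h1 : MeasurableSet {s : ℝ | |s - a| ≤ 1 / a} :=
    (isClosed_le (by fun_prop) (by fun_prop)).measurableSet
  have h2 : MeasurableSet {s : ℝ | |s + a| ≤ 1 / a} :=
    (isClosed_le (by fun_prop) (by fun_prop)).measurableSet
  exact h1.union h2

theorem nn_mass_G1 (a : ℝ) (ha : 1 ≤ a) :
    G1.real {s | |s - a| ≤ 1 / a ∨ |s + a| ≤ 1 / a} ≤
      (√(2 * π))⁻¹ * Real.exp (1 - a ^ 2 / 2) * (4 / a) := by
  have hC : 0 ≤ (√(2 * π))⁻¹ * Real.exp (1 - a ^ 2 / 2) := by positivity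
  have h4 : 0 ≤ 4 / a := by positivity
  have key : G1 {s | |s - a| ≤ 1 / a ∨ |s + a| ≤ 1 / a} ≤
      ENNReal.ofReal ((√(2 * π))⁻¹ * Real.exp (1 - a ^ 2 / 2) * (4 / a)) := by
    unfold G1
    rw [gaussianReal_apply _ one_ne_zero]
    calc ∫⁻ x in {s | |s - a| ≤ 1 / a ∨ |s + a| ≤ 1 / a}, gaussianPDF 0 1 x
        ≤ ∫⁻ x in {s | |s - a| ≤ 1 / a ∨ |s + a| ≤ 1 / a},
            ENNReal.ofReal ((√(2 * π))⁻¹ * Real.exp (1 - a ^ 2 / 2)) := by
          apply setLIntegral_mono' (nn_mass_meas a)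
          intro x hx
          unfold gaussianPDF
          exact ENNReal.ofReal_le_ofReal (nn_mass_dens a x ha hx)
      _ = ENNReal.ofReal ((√(2 * π))⁻¹ * Real.exp (1 - a ^ 2 / 2)) *
            volume {s : ℝ | |s - a| ≤ 1 / a ∨ |s + a| ≤ 1 / a} := by
          rw [setLIntegral_const]
      _ ≤ ENNReal.ofReal ((√(2 * π))⁻¹ * Real.exp (1 - a ^ 2 / 2)) * ENNReal.ofReal (4 / a) := by
          gcongr
          exact nn_mass_vol a ha
      _ = _ := by rw [← ENNReal.ofReal_mul hC]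
  unfold Measure.real
  exact ENNReal.toReal_le_of_le_ofReal (by positivity) key

theorem nn_mass (a : ℝ) (ha : 1 ≤ a) :
    (nn a : ℝ) * G1.real {s | |s - a| ≤ 1 / a ∨ |s + a| ≤ 1 / a} ≤ 10 := by
  have ha0 : 0 < a := by linarith
  have h1 := (nn_bounds a ha).2
  have h2 := nn_mass_G1 a ha
  have h0 : 0 ≤ G1.real {s | |s - a| ≤ 1 / a ∨ |s + a| ≤ 1 / a} := measureReal_nonneg
  have hn : 0 ≤ 2 * a * Real.exp (a ^ 2 / 2) := by positivity
  have hexp : Real.exp (a ^ 2 / 2) * Real.exp (1 - a ^ 2 / 2) = Real.exp 1 := by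
    rw [← Real.exp_add]; congr 1; ring
  have hs : (5 : ℝ) / 2 ≤ √(2 * π) := by
    apply Real.le_sqrt_of_sq_le
    have := Real.pi_gt_d4
    norm_num at this ⊢
    linarith
  have hs' : (√(2 * π))⁻¹ ≤ 2 / 5 := by
    rw [inv_le_comm₀ (by positivity) (by norm_num)]
    have h7 : ((2 : ℝ) / 5)⁻¹ = 5 / 2 := by norm_num
    rw [h7]
    exact hs
  have he := Real.exp_one_lt_d9
  calc (nn a : ℝ) * G1.real {s | |s - a| ≤ 1 / a ∨ |s + a| ≤ 1 / a}
      ≤ (2 * a * Real.exp (a ^ 2 / 2)) *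
          ((√(2 * π))⁻¹ * Real.exp (1 - a ^ 2 / 2) * (4 / a)) :=
        mul_le_mul h1 h2 h0 hn
    _ = 8 * (√(2 * π))⁻¹ * (Real.exp (a ^ 2 / 2) * Real.exp (1 - a ^ 2 / 2)) := by
        field_simp
        ring
    _ = 8 * (√(2 * π))⁻¹ * Real.exp 1 := by rw [hexp]
    _ ≤ 8 * (2 / 5) * 3 := by
        have : Real.exp 1 ≤ 3 := by linarith
        have h5 : 0 ≤ (√(2 * π))⁻¹ := by positivity
        have h6 : 0 < Real.exp 1 := Real.exp_pos 1
        nlinarith
    _ ≤ 10 := by norm_num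

end HS
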