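import Pool.Agent.HS.Defs
import Pool.Agent.HS.M_gg_facts
import Pool.Agent.HS.M_nn_mass

set_option autoImplicit false

open MeasureTheory ProbabilityTheory Filter Topology Set Polynomial
open scoped ENNReal NNReal Real

namespace HS

theorem nn_gg_upper_exp : Real.exp (3 / 2) ≤ 5 := by
  have h1 : Real.exp (3 / 2) ^ 2 ≤ 5 ^ 2 := by
    rw [← Real.exp_nat_mul]
    have h2 : ((2 : ℕ) : ℝ) * (3 / 2) = 1 + 1 + 1 := by norm_num
    rw [h2, Real.exp_add, Real.exp_add]
    have h3 := Real.exp_one_lt_d9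
    have h4 := Real.exp_pos 1
    have h5 : Real.exp 1 * Real.exp 1 ≤ 2.7182818286 * 2.7182818286 :=
      mul_le_mul h3.le h3.le h4.le (by norm_num)
    have h6 : Real.exp 1 * Real.exp 1 * Real.exp 1 ≤ 2.7182818286 * 2.7182818286 * 2.7182818286 :=
      mul_le_mul h5 h3.le h4.le (by norm_num)
    norm_num at h6 ⊢
    linarith
  exact (abs_le_of_sq_le_sq' h1 (by norm_num)).2

theorem nn_gg_upper_KK (a α s : ℝ) (ha : 1 ≤ a) (hα : 0 < α) (hα1 : α < 1)
    (hs : |s - a| ≤ 1 / a ∨ |s + a| ≤ 1 / a) : KK a α s ≤ 5 := by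
  have ha0 : 0 < a := by linarith
  have h1a : 1 / a ≤ 1 := by
    rw [div_le_one ha0]; exact ha
  have h1a0 : 0 < 1 / a := by positivity
  have haa : a * (1 / a) = 1 := by
    field_simp
  have hb : |s| ≤ a + 1 / a := by
    rcases hs with h | h
    · have := abs_le.1 h
      rw [abs_le]
      constructor <;> linarith
    · have := abs_le.1 h
      rw [abs_le]
      constructor <;> linarith
  have hs2 : s ^ 2 ≤ (a + 1 / a) ^ 2 := by
    rw [← sq_abs]
    exact pow_le_pow_left₀ (abs_nonneg _) hb 2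
  have h3 : s ^ 2 - a ^ 2 ≤ 3 := by
    have h4 : (1 / a) ^ 2 ≤ 1 := pow_le_one₀ h1a0.le h1a
    nlinarith
  have h5 : max (s ^ 2 - a ^ 2) 0 ≤ 3 := max_le h3 (by norm_num)
  have h6 : 0 ≤ max (s ^ 2 - a ^ 2) 0 := le_max_right _ _
  unfold KK
  refine le_trans (Real.exp_le_exp.2 ?_) nn_gg_upper_exp
  calc α / 2 * max (s ^ 2 - a ^ 2) 0 ≤ 1 / 2 * 3 :=
        mul_le_mul (by linarith) h5 h6 (by norm_num)
    _ = 3 / 2 := by norm_num

theorem nn_gg_upper (a α : ℝ) (ha : 1 ≤ a) (hα : 0 < α) (hα1 : α < 1) :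
    (nn a : ℝ) * ∫ s, (gg a s) ^ 2 * KK a α s ∂G1 ≤ 50 := by
  obtain ⟨_, _, h1, h0, _⟩ := gg_facts a ha
  obtain ⟨B, hB⟩ : ∃ B : Set ℝ, B = {s | |s - a| ≤ 1 / a ∨ |s + a| ≤ 1 / a} := ⟨_, rfl⟩
  have hBm : MeasurableSet B := by
    rw [hB]
    apply IsClosed.measurableSet
    have c1 : IsClosed {s : ℝ | |s - a| ≤ 1 / a} := isClosed_le (by fun_prop) continuous_const
    have c2 : IsClosed {s : ℝ | |s + a| ≤ 1 / a} := isClosed_le (by fun_prop) continuous_const
    exact c1.union c2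
  have hle : ∫ s, (gg a s) ^ 2 * KK a α s ∂G1 ≤ ∫ s, B.indicator (fun _ => (5 : ℝ)) s ∂G1 := by
    refine integral_mono_of_nonneg (Eventually.of_forall ?_)
      ((integrable_const (5 : ℝ)).indicator hBm) (Eventually.of_forall ?_)
    · intro s
      exact mul_nonneg (sq_nonneg _) (Real.exp_pos _).le
    · intro s
      beta_reduce
      by_cases hs : s ∈ B
      · rw [Set.indicator_of_mem hs]
        have h2 : gg a s ^ 2 ≤ 1 := by
          rw [← sq_abs]
          exact pow_le_one₀ (abs_nonneg _) (h1 s)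
        have h3 : KK a α s ≤ 5 := nn_gg_upper_KK a α s ha hα hα1 (by rw [hB] at hs; exact hs)
        calc gg a s ^ 2 * KK a α s ≤ 1 * 5 :=
              mul_le_mul h2 h3 (Real.exp_pos _).le zero_le_one
          _ = 5 := one_mul 5
      · rw [Set.indicator_of_notMem hs, h0 s (by rw [hB] at hs; exact hs)]
        simp
  rw [integral_indicator_const _ hBm, smul_eq_mul] at hle
  have hm := nn_mass a ha
  rw [← hB] at hm
  have hn : (0 : ℝ) ≤ (nn a : ℝ) := Nat.cast_nonneg _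
  calc (nn a : ℝ) * ∫ s, (gg a s) ^ 2 * KK a α s ∂G1 ≤ (nn a : ℝ) * (G1.real B * 5) :=
        mul_le_mul_of_nonneg_left hle hn
    _ = ((nn a : ℝ) * G1.real B) * 5 := by ring
    _ ≤ 10 * 5 := mul_le_mul_of_nonneg_right hm (by norm_num)
    _ = 50 := by norm_num

end HS
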