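import Pool.Agent.HS.Defs
import Pool.Agent.HS.M_nn_bounds

set_option autoImplicit false

open MeasureTheory ProbabilityTheory Filter Topology Set Polynomial
open scoped ENNReal NNReal Real

namespace HS

theorem nn_right_le_exp : Real.exp (5 / 2) ≤ 20 := by
  have h1 : Real.exp (5 / 2) ≤ Real.exp 1 ^ 3 := by
    rw [← Real.exp_nat_mul]
    apply Real.exp_le_exp.2
    norm_num
  have h2 : Real.exp 1 < 2.7182818286 := Real.exp_one_lt_d9
  have h3 : Real.exp 1 ^ 3 ≤ 2.7182818286 ^ 3 := by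
    apply pow_le_pow_left₀ (Real.exp_pos 1).le h2.le
  have h4 : Real.exp (5 / 2) ^ 2 = Real.exp 1 ^ 5 := by
    rw [← Real.exp_nat_mul, ← Real.exp_nat_mul]
    congr 1
    norm_num
  have h5 : Real.exp 1 ^ 5 ≤ 2.7182818286 ^ 5 := by
    apply pow_le_pow_left₀ (Real.exp_pos 1).le h2.le
  have h6 : (2.7182818286 : ℝ) ^ 5 ≤ 20 ^ 2 := by norm_num
  exact le_of_sq_le_sq' (by linarith) (by norm_num)
where
  le_of_sq_le_sq' {x y : ℝ} (h : x ^ 2 ≤ y ^ 2) (hy : 0 ≤ y) : x ≤ y := by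
    exact le_of_abs_le ((sq_le_sq.1 h).trans_eq (abs_of_nonneg hy))

theorem nn_right_le_pdf (s : ℝ) : gaussianPDFReal 0 1 s ≤ 2 / 5 * Real.exp (-(s ^ 2) / 2) := by
  unfold gaussianPDFReal
  have h1 : (5 / 2 : ℝ) ≤ √(2 * Real.pi * ((1 : ℝ≥0) : ℝ)) := by
    apply Real.le_sqrt_of_sq_le
    have := Real.pi_gt_d2
    simp only [NNReal.coe_one]
    nlinarith
  have h2 : (√(2 * Real.pi * ((1 : ℝ≥0) : ℝ)))⁻¹ ≤ 2 / 5 := by
    rw [inv_le_comm₀ (by linarith) (by norm_num)]
    linarith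
  have h3 : Real.exp (-(s - 0) ^ 2 / (2 * ((1 : ℝ≥0) : ℝ))) = Real.exp (-(s ^ 2) / 2) := by
    congr 1
    simp
  rw [h3]
  exact mul_le_mul_of_nonneg_right h2 (Real.exp_pos _).le

theorem nn_right_le_set (S : Set ℝ) (hS : MeasurableSet S) (g : ℝ → ℝ) :
    ∫ s in S, g s ∂G1 = ∫ s in S, gaussianPDFReal 0 1 s * g s := by
  rw [← integral_indicator hS, ← integral_indicator hS,
    integral_gaussianReal_eq_integral_smul (by norm_num)]
  congr 1
  funext s
  by_cases h : s ∈ S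
  · simp [Set.indicator_of_mem h]
  · simp [Set.indicator_of_notMem h]

theorem nn_right_le_pt (a α s : ℝ) (ha : 1 ≤ a) (hα : 0 < α) (hα1 : α < 1) (hs : |s - a| ≤ 1 / a) :
    (nn a : ℝ) * (gaussianPDFReal 0 1 s * KK a α s) ≤ 20 * a := by
  have ha0 : 0 < a := by linarith
  obtain ⟨h1, h2⟩ := abs_le.1 hs
  have hinv : 1 / a ≤ 1 := by rw [div_le_one ha0]; exact ha
  have hinv0 : 0 < 1 / a := by positivity
  have haa : a * (1 / a) = 1 := by field_simp
  have hsl : a - 1 / a ≤ s := by linarith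
  have hsu : s ≤ a + 1 / a := by linarith
  have hs0 : 0 ≤ s := by linarith
  have hsq1 : a ^ 2 - 2 ≤ s ^ 2 := by nlinarith
  have hsq2 : s ^ 2 - a ^ 2 ≤ 3 := by nlinarith
  have hK : KK a α s ≤ Real.exp (3 / 2) := by
    unfold KK
    apply Real.exp_le_exp.2
    have : max (s ^ 2 - a ^ 2) 0 ≤ 3 := max_le hsq2 (by norm_num)
    have h0 : 0 ≤ max (s ^ 2 - a ^ 2) 0 := le_max_right _ _
    nlinarith
  have hK0 : 0 ≤ KK a α s := (Real.exp_pos _).le
  have hp : gaussianPDFReal 0 1 s ≤ 2 / 5 * Real.exp (1 - a ^ 2 / 2) := by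
    refine (nn_right_le_pdf s).trans ?_
    apply mul_le_mul_of_nonneg_left _ (by norm_num)
    apply Real.exp_le_exp.2
    linarith
  have hp0 : 0 ≤ gaussianPDFReal 0 1 s := gaussianPDFReal_nonneg _ _ _
  have hn := (nn_bounds a ha).2
  have hn0 : (0 : ℝ) ≤ nn a := Nat.cast_nonneg _
  calc (nn a : ℝ) * (gaussianPDFReal 0 1 s * KK a α s)
      ≤ (2 * a * Real.exp (a ^ 2 / 2)) * ((2 / 5 * Real.exp (1 - a ^ 2 / 2)) * Real.exp (3 / 2)) := by
        apply mul_le_mul hn _ (by positivity) (by positivity)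
        exact mul_le_mul hp hK hK0 (by positivity)
    _ = 4 / 5 * a * (Real.exp (a ^ 2 / 2) * Real.exp (1 - a ^ 2 / 2) * Real.exp (3 / 2)) := by ring
    _ = 4 / 5 * a * Real.exp (5 / 2) := by
        rw [← Real.exp_add, ← Real.exp_add]
        congr 2
        ring
    _ ≤ 20 * a := by
        have := nn_right_le_exp
        nlinarith

/-- comparison of the weights on the right bump interval -/
theorem nn_right_le (a α : ℝ) (ha : 1 ≤ a) (hα : 0 < α) (hα1 : α < 1) (P : ℝ[X]) :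
    (nn a : ℝ) * ∫ s in {s | |s - a| ≤ 1 / a}, (P.eval s) ^ 2 * KK a α s ∂G1 ≤
      20 * a * ∫ s in {s | |s - a| ≤ 1 / a}, (P.eval s) ^ 2 := by
  have ha0 : 0 < a := by linarith
  set S : Set ℝ := {s | |s - a| ≤ 1 / a} with hSdef
  have hSeq : S = Metric.closedBall a (1 / a) := by
    ext s
    simp [hSdef, Real.dist_eq]
  have hSc : IsCompact S := by rw [hSeq]; exact isCompact_closedBall a _
  have hSm : MeasurableSet S := hSc.isClosed.measurableSet
  rw [nn_right_le_set S hSm, ← integral_const_mul, ← integral_const_mul]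
  have hcP : Continuous (fun s : ℝ => (P.eval s) ^ 2) := P.continuous.pow 2
  have hcK : Continuous (fun s : ℝ => KK a α s) := by
    unfold KK
    fun_prop
  have hcG : Continuous (fun s : ℝ => gaussianPDFReal 0 1 s) := by
    unfold gaussianPDFReal
    fun_prop
  apply setIntegral_mono_on
  · exact (continuous_const.mul (hcG.mul (hcP.mul hcK))).continuousOn.integrableOn_compact hSc
  · exact (continuous_const.mul hcP).continuousOn.integrableOn_compact hSc
  · exact hSm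
  · intro s hs
    have h1 := nn_right_le_pt a α s ha hα hα1 hs
    have h2 : 0 ≤ (P.eval s) ^ 2 := sq_nonneg _
    calc (nn a : ℝ) * (gaussianPDFReal 0 1 s * ((P.eval s) ^ 2 * KK a α s))
        = ((nn a : ℝ) * (gaussianPDFReal 0 1 s * KK a α s)) * (P.eval s) ^ 2 := by ring
      _ ≤ 20 * a * (P.eval s) ^ 2 := mul_le_mul_of_nonneg_right h1 h2

end HS
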