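import Pool.Agent.HS.Defs

set_option autoImplicit false

open MeasureTheory ProbabilityTheory Filter Topology Set Polynomial
open scoped ENNReal NNReal Real

namespace HS

theorem poly_KK_integrable_poly (b : ℝ) (hb : 0 < b) (P : ℝ[X]) :
    Integrable (fun s : ℝ => P.eval s * Real.exp (-b * s ^ 2)) volume := by
  induction P using Polynomial.induction_on' with
  | add p q hp hq =>
    have h1 : (fun s : ℝ => (p + q).eval s * Real.exp (-b * s ^ 2)) =
        fun s => p.eval s * Real.exp (-b * s ^ 2) + q.eval s * Real.exp (-b * s ^ 2) := by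
      funext s
      rw [eval_add, add_mul]
    rw [h1]
    exact hp.add hq
  | monomial n c =>
    have h1 : (fun s : ℝ => (monomial n c).eval s * Real.exp (-b * s ^ 2)) =
        fun s => c * (s ^ (n : ℝ) * Real.exp (-b * s ^ 2)) := by
      funext s
      rw [eval_monomial, Real.rpow_natCast, mul_assoc]
    rw [h1]
    have hn : (-1 : ℝ) < n := by
      have : (0 : ℝ) ≤ n := Nat.cast_nonneg n
      linarith
    exact (integrable_rpow_mul_exp_neg_mul_sq hb hn).const_mul c

theorem poly_KK_integrable_KK_le (a α : ℝ) (hα : 0 < α) (s : ℝ) :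
    KK a α s ≤ Real.exp (α / 2 * s ^ 2) := by
  unfold KK
  apply Real.exp_le_exp.mpr
  apply mul_le_mul_of_nonneg_left _ (by positivity)
  exact max_le (by nlinarith [sq_nonneg a]) (sq_nonneg s)

theorem poly_KK_integrable (a α : ℝ) (hα : 0 < α) (hα1 : α < 1) (P : ℝ[X]) :
    Integrable (fun s => P.eval s * KK a α s) G1 := by
  unfold G1
  rw [gaussianReal_of_var_ne_zero 0 (one_ne_zero : (1 : ℝ≥0) ≠ 0)]
  rw [integrable_withDensity_iff (measurable_gaussianPDF 0 1)
    (Filter.Eventually.of_forall fun x => gaussianPDF_lt_top)]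
  have hb : 0 < (1 - α) / 2 := by linarith
  have h1 := (poly_KK_integrable_poly ((1 - α) / 2) hb P).const_mul ((√(2 * π * (1 : ℝ≥0)))⁻¹)
  refine h1.mono ?_ (Filter.Eventually.of_forall fun s => ?_)
  · have hKK : Continuous (fun s => KK a α s) := by
      unfold KK
      fun_prop
    have hP : Continuous (fun s => P.eval s * KK a α s) := P.continuous.mul hKK
    refine hP.aestronglyMeasurable.mul ?_
    exact (measurable_gaussianPDF 0 1).ennreal_toReal.aestronglyMeasurable
  · rw [toReal_gaussianPDF, gaussianPDFReal, norm_mul, norm_mul, norm_mul, norm_mul, norm_mul,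
      Real.norm_of_nonneg (Real.exp_pos _).le, Real.norm_of_nonneg (Real.exp_pos _).le]
    have h2 : ‖KK a α s‖ ≤ Real.exp (α / 2 * s ^ 2) := by
      rw [Real.norm_of_nonneg (by unfold KK; exact (Real.exp_pos _).le)]
      exact poly_KK_integrable_KK_le a α hα s
    have h3 : Real.exp (-((1 - α) / 2) * s ^ 2) = Real.exp (α / 2 * s ^ 2) *
        Real.exp (-(s - 0) ^ 2 / (2 * (1 : ℝ≥0))) := by
      rw [← Real.exp_add]
      congr 1
      push_cast
      ring
    rw [h3]
    calc ‖P.eval s‖ * ‖KK a α s‖ * (‖(√(2 * π * (1 : ℝ≥0)))⁻¹‖ *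
          Real.exp (-(s - 0) ^ 2 / (2 * (1 : ℝ≥0))))
        ≤ ‖P.eval s‖ * Real.exp (α / 2 * s ^ 2) * (‖(√(2 * π * (1 : ℝ≥0)))⁻¹‖ *
          Real.exp (-(s - 0) ^ 2 / (2 * (1 : ℝ≥0)))) := by gcongr
      _ = _ := by ring

end HS
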