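import Pool.Agent.HS.Defs
import Pool.Agent.HS.M_gap
import Pool.Agent.HS.M_gg_facts
import Pool.Agent.HS.M_nn_bounds
import Pool.Agent.HS.M_nn_gg_lower_right
import Pool.Agent.HS.M_nn_gg_upper
import Pool.Agent.HS.M_nn_right_le
import Pool.Agent.HS.M_poly_KK_integrable
import Pool.Agent.HS.M_KK_VV
import Pool.Agent.HS.M_KK_VV_integrable

set_option autoImplicit false

open MeasureTheory ProbabilityTheory Filter Topology Set Polynomial
open scoped ENNReal NNReal Real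

namespace HS

theorem dist_lower_KK_cont (a α : ℝ) : Continuous (KK a α) := by
  unfold KK
  fun_prop

theorem dist_lower_KK_ge (a α s : ℝ) (hα : 0 < α) : 1 ≤ KK a α s := by
  unfold KK
  exact Real.one_le_exp (by positivity)

theorem dist_lower_int1 (a α : ℝ) (hα : 0 < α) (hα1 : α < 1) :
    Integrable (fun s => KK a α s) G1 := by
  have h := poly_KK_integrable a α hα hα1 1
  simpa using h

theorem dist_lower_intP (a α : ℝ) (hα : 0 < α) (hα1 : α < 1) (P : ℝ[X]) :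
    Integrable (fun s => (P.eval s) ^ 2 * KK a α s) G1 := by
  have h := poly_KK_integrable a α hα hα1 (P ^ 2)
  simpa using h

theorem dist_lower_intg (a α : ℝ) (ha : 1 ≤ a) (hα : 0 < α) (hα1 : α < 1) :
    Integrable (fun s => (gg a s) ^ 2 * KK a α s) G1 := by
  obtain ⟨hc, _, hb, _⟩ := gg_facts a ha
  refine (dist_lower_int1 a α hα hα1).mono'
    ((hc.pow 2).mul (dist_lower_KK_cont a α)).aestronglyMeasurable ?_
  refine Filter.Eventually.of_forall fun s => ?_
  have h1 := dist_lower_KK_ge a α s hα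
  have h2 : gg a s ^ 2 ≤ 1 := by
    rw [← sq_abs]; nlinarith [hb s, abs_nonneg (gg a s)]
  rw [Real.norm_of_nonneg (by positivity)]
  nlinarith

theorem dist_lower_intd (a α : ℝ) (ha : 1 ≤ a) (hα : 0 < α) (hα1 : α < 1) (P : ℝ[X]) :
    Integrable (fun s => (gg a s - P.eval s) ^ 2 * KK a α s) G1 := by
  obtain ⟨hc, _, hb, _⟩ := gg_facts a ha
  refine (((dist_lower_intg a α ha hα hα1).const_mul 2).add
    ((dist_lower_intP a α hα hα1 P).const_mul 2)).mono'
    (((hc.sub P.continuous).pow 2).mul (dist_lower_KK_cont a α)).aestronglyMeasurable ?_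
  refine Filter.Eventually.of_forall fun s => ?_
  have h1 := dist_lower_KK_ge a α s hα
  rw [Real.norm_of_nonneg (by positivity)]
  show (gg a s - P.eval s) ^ 2 * KK a α s ≤
    2 * (gg a s ^ 2 * KK a α s) + 2 * (P.eval s ^ 2 * KK a α s)
  have h2 : 0 ≤ (gg a s + P.eval s) ^ 2 * KK a α s := by positivity
  nlinarith

theorem dist_lower_sqrt : √(2 * π) ≤ 2.51 := by
  rw [Real.sqrt_le_iff]
  refine ⟨by norm_num, ?_⟩
  have := Real.pi_lt_d4
  norm_num at this ⊢
  linarith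




theorem dist_lower (α ε : ℝ) (hα : 0 < α) (hα1 : α < 1) (hε : 0 < ε) (hε1 : ε ≤ 1) :
    ∃ d₀ : ℕ, ∀ d : ℕ, d₀ ≤ d → ∀ P : ℝ[X], P.natDegree ≤ d →
      1 / 400 ≤ (nn (ε * √d) : ℝ) * ∫ s, (gg (ε * √d) s - P.eval s) ^ 2 * KK (ε * √d) α s ∂G1 := by
  obtain ⟨d₁, hd₁⟩ := gap α ε (1 / 10 ^ 6) hα hα1 hε hε1 (by norm_num)
  obtain ⟨d₂, hd₂⟩ := exists_nat_ge (1 / ε ^ 2)
  refine ⟨max d₁ d₂, fun d hd P hP => ?_⟩
  have hgap := hd₁ d ((le_max_left _ _).trans hd) P hP
  have hdr : 1 / ε ^ 2 ≤ d := hd₂.trans (by exact_mod_cast (le_max_right _ _).trans hd)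
  have ha : 1 ≤ ε * √d := by
    have h1 : 1 ≤ ε ^ 2 * d := by
      rw [div_le_iff₀ (by positivity)] at hdr; linarith
    have h2 : (√(d : ℝ)) ^ 2 = d := Real.sq_sqrt (Nat.cast_nonneg d)
    by_contra hcon
    push Not at hcon
    have h3 : 0 ≤ ε * √d := by positivity
    nlinarith
  generalize ε * √d = a at *
  have ha0 : 0 < a := by linarith
  by_contra hcon
  push Not at hcon
  obtain ⟨hc, _, hb, _⟩ := gg_facts a ha
  obtain ⟨hn1, -⟩ := nn_bounds a ha
  have hup := nn_gg_upper a α ha hα hα1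
  have hlow := nn_gg_lower_right a ha
  have hright := nn_right_le a α ha hα hα1 P
  have iP := dist_lower_intP a α hα hα1 P
  have ig := dist_lower_intg a α ha hα hα1
  have id := dist_lower_intd a α ha hα hα1 P
  have hnn0 : (0 : ℝ) ≤ nn a := Nat.cast_nonneg _
  -- first inequality
  have h1 : ∫ s, (P.eval s) ^ 2 * KK a α s ∂G1 ≤
      2 * ∫ s, (gg a s - P.eval s) ^ 2 * KK a α s ∂G1 + 2 * ∫ s, (gg a s) ^ 2 * KK a α s ∂G1 := by
    rw [← integral_const_mul, ← integral_const_mul, ← integral_add (id.const_mul 2) (ig.const_mul 2)]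
    refine integral_mono iP ((id.const_mul 2).add (ig.const_mul 2)) fun s => ?_
    show P.eval s ^ 2 * KK a α s ≤
      2 * ((gg a s - P.eval s) ^ 2 * KK a α s) + 2 * (gg a s ^ 2 * KK a α s)
    have h1 := dist_lower_KK_ge a α s hα
    have h2 : 0 ≤ (2 * gg a s - P.eval s) ^ 2 * KK a α s := by positivity
    nlinarith
  have h1' : (nn a : ℝ) * ∫ s, (P.eval s) ^ 2 * KK a α s ∂G1 ≤ 101 := by
    have := mul_le_mul_of_nonneg_left h1 hnn0
    nlinarith
  -- relation with the Lebesgue integral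
  have hKV := KK_VV a α (fun s => (P.eval s) ^ 2)
  have iV : Integrable (fun s => (P.eval s) ^ 2 * Real.exp (-2 * VV a α s)) :=
    (KK_VV_integrable a α (fun s => (P.eval s) ^ 2)).1 iP
  have hgap' := hgap iV
  have hS0 : 0 ≤ ∫ s, (P.eval s) ^ 2 * KK a α s ∂G1 :=
    integral_nonneg fun s => by
      have h1 := dist_lower_KK_ge a α s hα
      show 0 ≤ P.eval s ^ 2 * KK a α s
      positivity
  set S := ∫ s, (P.eval s) ^ 2 * KK a α s ∂G1 with hS
  set IV := ∫ s, (P.eval s) ^ 2 * Real.exp (-2 * VV a α s) with hIV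
  have h2 : IV = √(2 * π) * Real.exp (a ^ 2 / 2) * S := by
    have hp : 0 < √(2 * π) := Real.sqrt_pos.2 (by positivity)
    have e1 : S = (√(2 * π))⁻¹ * Real.exp (-(a ^ 2 / 2)) * IV := hKV
    rw [e1, Real.exp_neg]
    field_simp
  have h3 : a * IV ≤ 254 := by
    calc a * IV = √(2 * π) * ((a * Real.exp (a ^ 2 / 2)) * S) := by rw [h2]; ring
      _ ≤ √(2 * π) * ((nn a : ℝ) * S) := by gcongr
      _ ≤ 2.51 * 101 := by
          refine mul_le_mul dist_lower_sqrt h1' (by positivity) (by norm_num)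
      _ ≤ 254 := by norm_num
  have h4 : (nn a : ℝ) * ∫ s in {s | |s - a| ≤ 1 / a}, (P.eval s) ^ 2 * KK a α s ∂G1 ≤ 51 / 10000 := by
    refine hright.trans ?_
    calc 20 * a * ∫ s in {s | |s - a| ≤ 1 / a}, (P.eval s) ^ 2 ≤ 20 * a * (1 / 10 ^ 6 * IV) := by
          gcongr
      _ = 20 / 10 ^ 6 * (a * IV) := by ring
      _ ≤ 20 / 10 ^ 6 * 254 := by gcongr
      _ ≤ 51 / 10000 := by norm_num
  -- on the bump interval
  have h6 : ∫ s in {s | |s - a| ≤ 1 / a}, (gg a s) ^ 2 ∂G1 ≤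
      2 * ∫ s in {s | |s - a| ≤ 1 / a}, (gg a s - P.eval s) ^ 2 * KK a α s ∂G1 +
      2 * ∫ s in {s | |s - a| ≤ 1 / a}, (P.eval s) ^ 2 * KK a α s ∂G1 := by
    have id' := (id.integrableOn (s := {s | |s - a| ≤ 1 / a})).const_mul 2
    have iP' := (iP.integrableOn (s := {s | |s - a| ≤ 1 / a})).const_mul 2
    rw [← integral_const_mul, ← integral_const_mul, ← integral_add id' iP']
    have ig' : Integrable (fun s => (gg a s) ^ 2) (G1.restrict {s | |s - a| ≤ 1 / a}) := by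
      refine Integrable.of_bound (hc.pow 2).aestronglyMeasurable 1 ?_
      refine Filter.Eventually.of_forall fun s => ?_
      rw [Real.norm_of_nonneg (sq_nonneg _), ← sq_abs]
      nlinarith [hb s, abs_nonneg (gg a s)]
    refine integral_mono ig' (id'.add iP') fun s => ?_
    show gg a s ^ 2 ≤
      2 * ((gg a s - P.eval s) ^ 2 * KK a α s) + 2 * (P.eval s ^ 2 * KK a α s)
    have h1 := dist_lower_KK_ge a α s hα
    have h2 : 0 ≤ (gg a s - 2 * P.eval s) ^ 2 * KK a α s := by positivity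
    have h3 : 0 ≤ gg a s ^ 2 * (KK a α s - 1) := mul_nonneg (sq_nonneg _) (by linarith)
    nlinarith
  have h7 : ∫ s in {s | |s - a| ≤ 1 / a}, (gg a s - P.eval s) ^ 2 * KK a α s ∂G1 ≤
      ∫ s, (gg a s - P.eval s) ^ 2 * KK a α s ∂G1 := by
    refine setIntegral_le_integral id (Filter.Eventually.of_forall fun s => ?_)
    have h1 := dist_lower_KK_ge a α s hα
    show 0 ≤ (gg a s - P.eval s) ^ 2 * KK a α s
    positivity
  have h8 := mul_le_mul_of_nonneg_left h6 hnn0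
  have h9 := mul_le_mul_of_nonneg_left h7 hnn0
  have h10 : (nn a : ℝ) *
      (2 * ∫ s in {s | |s - a| ≤ 1 / a}, (gg a s - P.eval s) ^ 2 * KK a α s ∂G1 +
      2 * ∫ s in {s | |s - a| ≤ 1 / a}, (P.eval s) ^ 2 * KK a α s ∂G1) =
      2 * ((nn a : ℝ) * ∫ s in {s | |s - a| ≤ 1 / a}, (gg a s - P.eval s) ^ 2 * KK a α s ∂G1) +
      2 * ((nn a : ℝ) * ∫ s in {s | |s - a| ≤ 1 / a}, (P.eval s) ^ 2 * KK a α s ∂G1) := by ring
  rw [h10] at h8
  linarith

end HS
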