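import Pool.Agent.HS.Defs
import Pool.Agent.HS.M_gg_facts
import Pool.Agent.HS.M_poly_KK_integrable

set_option autoImplicit false

open MeasureTheory ProbabilityTheory Filter Topology Set Polynomial
open scoped ENNReal NNReal Real

namespace HS

theorem exists_proj_neg (f : ℝ → ℝ) : ∫ s, f (-s) ∂G1 = ∫ s, f s ∂G1 := by
  have h := integral_map_equiv (μ := G1) (MeasurableEquiv.neg ℝ) f
  have h2 : Measure.map (MeasurableEquiv.neg ℝ) G1 = G1 := by
    have h3 := gaussianReal_map_neg (μ := 0) (v := 1)
    rw [neg_zero] at h3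
    exact h3
  rw [h2] at h
  exact h.symm

theorem exists_proj_iPR (a α : ℝ) (hα : 0 < α) (hα1 : α < 1) (P R : ℝ[X]) :
    Integrable (fun s => P.eval s * (R.eval s * KK a α s)) G1 := by
  have h := poly_KK_integrable a α hα hα1 (P * R)
  refine h.congr (Eventually.of_forall fun s => ?_)
  simp only [eval_mul]
  ring

theorem exists_proj_gint (a α : ℝ) (ha : 1 ≤ a) (hα : 0 < α) (hα1 : α < 1) (R : ℝ[X]) :
    Integrable (fun s => gg a s * (R.eval s * KK a α s)) G1 := by
  have h := poly_KK_integrable a α hα hα1 R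
  refine Integrable.bdd_mul (c := 1) h (gg_facts a ha).1.aestronglyMeasurable
    (Eventually.of_forall fun s => ?_)
  rw [Real.norm_eq_abs]
  exact (gg_facts a ha).2.2.1 s

theorem exists_proj_main (a α : ℝ) (ha : 1 ≤ a) (hα : 0 < α) (hα1 : α < 1) (d : ℕ) :
    ∃ P0 : ℝ[X], P0.natDegree ≤ d ∧ ∀ R : ℝ[X], R.natDegree ≤ d →
      ∫ s, P0.eval s * (R.eval s * KK a α s) ∂G1 =
        ∫ s, gg a s * (R.eval s * KK a α s) ∂G1 := by
  have iPR := exists_proj_iPR a α hα hα1
  have iG := exists_proj_gint a α ha hα hα1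
  haveI : FiniteDimensional ℝ (Polynomial.degreeLT ℝ (d + 1)) :=
    Module.Finite.equiv (Polynomial.degreeLTEquiv ℝ (d + 1)).symm
  obtain ⟨B, hB⟩ : ∃ B : (Polynomial.degreeLT ℝ (d + 1)) →ₗ[ℝ]
      (Polynomial.degreeLT ℝ (d + 1)) →ₗ[ℝ] ℝ,
      ∀ P R, B P R = ∫ s, (P : ℝ[X]).eval s * ((R : ℝ[X]).eval s * KK a α s) ∂G1 := by
    refine ⟨LinearMap.mk₂ ℝ (fun P R : Polynomial.degreeLT ℝ (d + 1) =>
      ∫ s, (P : ℝ[X]).eval s * ((R : ℝ[X]).eval s * KK a α s) ∂G1) ?_ ?_ ?_ ?_, ?_⟩
    · intro P P' R
      rw [← integral_add (iPR _ _) (iPR _ _)]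
      refine integral_congr_ae (Eventually.of_forall fun s => ?_)
      simp only [Submodule.coe_add, eval_add]
      ring
    · intro c P R
      rw [smul_eq_mul, ← integral_const_mul]
      refine integral_congr_ae (Eventually.of_forall fun s => ?_)
      simp only [Submodule.coe_smul, eval_smul, smul_eq_mul]
      ring
    · intro P R R'
      rw [← integral_add (iPR _ _) (iPR _ _)]
      refine integral_congr_ae (Eventually.of_forall fun s => ?_)
      simp only [Submodule.coe_add, eval_add]
      ring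
    · intro c P R
      rw [smul_eq_mul, ← integral_const_mul]
      refine integral_congr_ae (Eventually.of_forall fun s => ?_)
      simp only [Submodule.coe_smul, eval_smul, smul_eq_mul]
      ring
    · intro P R
      rfl
  obtain ⟨φ, hφ⟩ : ∃ φ : (Polynomial.degreeLT ℝ (d + 1)) →ₗ[ℝ] ℝ,
      ∀ R, φ R = ∫ s, gg a s * ((R : ℝ[X]).eval s * KK a α s) ∂G1 := by
    refine ⟨{ toFun := fun R : Polynomial.degreeLT ℝ (d + 1) =>
                ∫ s, gg a s * ((R : ℝ[X]).eval s * KK a α s) ∂G1
              map_add' := ?_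
              map_smul' := ?_ }, ?_⟩
    · intro R R'
      rw [← integral_add (iG _) (iG _)]
      refine integral_congr_ae (Eventually.of_forall fun s => ?_)
      simp only [Submodule.coe_add, eval_add]
      ring
    · intro c R
      rw [RingHom.id_apply, smul_eq_mul, ← integral_const_mul]
      refine integral_congr_ae (Eventually.of_forall fun s => ?_)
      simp only [Submodule.coe_smul, eval_smul, smul_eq_mul]
      ring
    · intro R
      rfl
  have hinj : Function.Injective B := by
    rw [← LinearMap.ker_eq_bot, LinearMap.ker_eq_bot']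
    intro P hP
    have h1 : B P P = 0 := by
      rw [hP]
      rfl
    rw [hB, integral_eq_zero_iff_of_nonneg _ (iPR _ _)] at h1
    · have h3 : ∀ᵐ s ∂(volume : Measure ℝ), (P : ℝ[X]).eval s = 0 := by
        have h4 : ∀ᵐ s ∂G1, (P : ℝ[X]).eval s = 0 := by
          filter_upwards [h1] with s hs
          have hs' : (P : ℝ[X]).eval s * ((P : ℝ[X]).eval s * KK a α s) = 0 := hs
          have hk : 0 < KK a α s := Real.exp_pos _
          by_contra hne
          exact (mul_ne_zero hne (mul_ne_zero hne hk.ne')) hs'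
        exact (gaussianReal_absolutelyContinuous' 0 one_ne_zero).ae_le h4
      have h5 : (fun s => (P : ℝ[X]).eval s) = fun _ => (0:ℝ) :=
        (Continuous.ae_eq_iff_eq volume (P : ℝ[X]).continuous continuous_const).1 h3
      apply Subtype.ext
      apply Polynomial.funext
      intro s
      have h6 : (P : ℝ[X]).eval s = 0 := congrFun h5 s
      rw [h6]
      simp
    · intro s
      have hk : 0 < KK a α s := Real.exp_pos _
      show 0 ≤ (P : ℝ[X]).eval s * ((P : ℝ[X]).eval s * KK a α s)
      have : (P : ℝ[X]).eval s * ((P : ℝ[X]).eval s * KK a α s) =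
        ((P : ℝ[X]).eval s) ^ 2 * KK a α s := by ring
      rw [this]
      positivity
  have hsurj : Function.Surjective B :=
    (LinearMap.injective_iff_surjective_of_finrank_eq_finrank
      (Subspace.dual_finrank_eq (K := ℝ) (V := Polynomial.degreeLT ℝ (d + 1))).symm).1 hinj
  obtain ⟨P0, hP0⟩ := hsurj φ
  refine ⟨P0, ?_, ?_⟩
  · by_cases h0 : (P0 : ℝ[X]) = 0
    · rw [h0]
      simp
    · have h1 := Polynomial.mem_degreeLT.1 P0.2
      have h2 := (Polynomial.natDegree_lt_iff_degree_lt h0).2 h1
      omega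
  · intro R hR
    have hR1 : R ∈ Polynomial.degreeLT ℝ (d + 1) := by
      rw [Polynomial.mem_degreeLT]
      exact (Polynomial.degree_le_of_natDegree_le hR).trans_lt
        (by exact_mod_cast Nat.lt_succ_self d)
    have h3 : B P0 ⟨R, hR1⟩ = φ ⟨R, hR1⟩ := by rw [hP0]
    rw [hB, hφ] at h3
    exact h3

/-- Odd polynomial of best approximation. -/
theorem exists_proj (a α : ℝ) (ha : 1 ≤ a) (hα : 0 < α) (hα1 : α < 1) (d : ℕ) :
    ∃ P : ℝ[X], P.natDegree ≤ d ∧ (∀ s, P.eval (-s) = -P.eval s) ∧
      ∀ R : ℝ[X], R.natDegree ≤ d →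
        ∫ s, (gg a s - P.eval s) * KK a α s * R.eval s ∂G1 = 0 := by
  have iPR := exists_proj_iPR a α hα hα1
  have iG := exists_proj_gint a α ha hα hα1
  obtain ⟨P0, hd, hP0⟩ := exists_proj_main a α ha hα hα1 d
  have hcomp : ∀ Q : ℝ[X], Q.natDegree ≤ d → (Q.comp (-X)).natDegree ≤ d := by
    intro Q hQ
    refine natDegree_comp_le.trans ?_
    rw [natDegree_neg, natDegree_X, mul_one]
    exact hQ
  have hKK : ∀ s, KK a α (-s) = KK a α s := by
    intro s
    unfold KK
    rw [neg_sq]
  refine ⟨C (1 / 2) * (P0 - P0.comp (-X)), ?_, ?_, ?_⟩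
  · refine (natDegree_C_mul_le _ _).trans ?_
    refine (natDegree_sub_le _ _).trans ?_
    exact max_le hd (hcomp P0 hd)
  · intro s
    simp only [eval_mul, eval_C, eval_sub, eval_comp, eval_neg, eval_X, neg_neg]
    ring
  · intro R hR
    have h1 := hP0 R hR
    have h2 := hP0 (R.comp (-X)) (hcomp R hR)
    have h3 : ∫ s, (P0.comp (-X)).eval s * (R.eval s * KK a α s) ∂G1 =
        ∫ s, P0.eval s * ((R.comp (-X)).eval s * KK a α s) ∂G1 := by
      rw [← exists_proj_neg (fun s => P0.eval s * ((R.comp (-X)).eval s * KK a α s))]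
      refine integral_congr_ae (Eventually.of_forall fun s => ?_)
      simp only [eval_comp, eval_neg, eval_X, neg_neg, hKK]
    have h4 : ∫ s, gg a s * ((R.comp (-X)).eval s * KK a α s) ∂G1 =
        -∫ s, gg a s * (R.eval s * KK a α s) ∂G1 := by
      rw [← exists_proj_neg (fun s => gg a s * ((R.comp (-X)).eval s * KK a α s)),
        ← integral_neg]
      refine integral_congr_ae (Eventually.of_forall fun s => ?_)
      simp only [eval_comp, eval_neg, eval_X, neg_neg, hKK, (gg_facts a ha).2.1]
      ring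
    have k1 := iG R
    have k2 := (iPR P0 R).const_mul (1 / 2)
    have k3 := (iPR (P0.comp (-X)) R).const_mul (1 / 2)
    have k12 : Integrable (fun s => gg a s * (R.eval s * KK a α s) -
        1 / 2 * (P0.eval s * (R.eval s * KK a α s))) G1 := k1.sub k2
    have h5 : ∫ s, (gg a s - (C (1 / 2) * (P0 - P0.comp (-X))).eval s) * KK a α s *
        R.eval s ∂G1 = ∫ s, ((gg a s * (R.eval s * KK a α s) -
        1 / 2 * (P0.eval s * (R.eval s * KK a α s))) +
        1 / 2 * ((P0.comp (-X)).eval s * (R.eval s * KK a α s))) ∂G1 := by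
      refine integral_congr_ae (Eventually.of_forall fun s => ?_)
      simp only [eval_mul, eval_C, eval_sub]
      ring
    rw [h5, integral_add k12 k3, integral_sub k1 k2, integral_const_mul, integral_const_mul,
      h3, h2, h4, h1]
    ring

end HS
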