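import Pool.Agent.HS.Defs
import Pool.Agent.HS.M_gg_facts
import Pool.Agent.HS.M_nn_gg_upper
import Pool.Agent.HS.M_poly_KK_integrable
import Pool.Agent.HS.M_exists_proj
import Pool.Agent.HS.M_dist_lower

set_option autoImplicit false

open MeasureTheory ProbabilityTheory Filter Topology Set Polynomial
open scoped ENNReal NNReal Real

namespace HS

theorem exists_psi_KK_pos (a α s : ℝ) : 0 < KK a α s := Real.exp_pos _

theorem exists_psi_KK_cont (a α : ℝ) : Continuous (KK a α) := by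
  unfold KK
  fun_prop

theorem exists_psi_KK_sq (a α s : ℝ) : (KK a α s) ^ 2 = KK a (2 * α) s := by
  unfold KK
  rw [← Real.exp_nat_mul]
  congr 1
  push_cast
  ring

theorem exists_psi_int_sq (a α : ℝ) (ha : 1 ≤ a) (hα : 0 < α) (hα1 : α < 1) (P : ℝ[X]) :
    Integrable (fun s => (gg a s - P.eval s) ^ 2 * KK a α s) G1 := by
  obtain ⟨g1, g2, g3, g4, g5⟩ := gg_facts a ha
  have h := poly_KK_integrable a α hα hα1 (C 2 + C 2 * P ^ 2)
  refine h.mono' ?_ (Filter.Eventually.of_forall fun s => ?_)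
  · exact (((g1.sub P.continuous).pow 2).mul (exists_psi_KK_cont a α)).aestronglyMeasurable
  · have hk := exists_psi_KK_pos a α s
    rw [Real.norm_eq_abs, abs_of_nonneg (mul_nonneg (sq_nonneg _) hk.le)]
    apply mul_le_mul_of_nonneg_right _ hk.le
    simp only [eval_add, eval_mul, eval_C, eval_pow]
    have h3 := abs_le.1 (g3 s)
    nlinarith [sq_nonneg (gg a s + P.eval s), sq_nonneg (gg a s)]

theorem exists_psi_int_P (a α : ℝ) (ha : 1 ≤ a) (hα : 0 < α) (hα1 : α < 1) (P : ℝ[X]) :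
    Integrable (fun s => (gg a s - P.eval s) * KK a α s * P.eval s) G1 := by
  obtain ⟨g1, g2, g3, g4, g5⟩ := gg_facts a ha
  have h := poly_KK_integrable a α hα hα1 (C 2 + C 2 * P ^ 2)
  refine h.mono' ?_ (Filter.Eventually.of_forall fun s => ?_)
  · exact (((g1.sub P.continuous).mul (exists_psi_KK_cont a α)).mul
      P.continuous).aestronglyMeasurable
  · have hk := exists_psi_KK_pos a α s
    have e : (gg a s - P.eval s) * KK a α s * P.eval s
        = ((gg a s - P.eval s) * P.eval s) * KK a α s := by ring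
    rw [Real.norm_eq_abs, e, abs_mul, abs_of_pos hk]
    apply mul_le_mul_of_nonneg_right _ hk.le
    simp only [eval_add, eval_mul, eval_C, eval_pow]
    have h3 := abs_le.1 (g3 s)
    rw [abs_le]
    constructor
    · nlinarith [sq_nonneg (gg a s + P.eval s), sq_nonneg (gg a s - P.eval s),
        sq_nonneg (gg a s), sq_nonneg (P.eval s)]
    · nlinarith [sq_nonneg (gg a s + P.eval s), sq_nonneg (gg a s - P.eval s),
        sq_nonneg (gg a s), sq_nonneg (P.eval s)]

theorem exists_psi_int_P2 (a α : ℝ) (hα : 0 < α) (hα1 : α < 1) (P : ℝ[X]) :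
    Integrable (fun s => (P.eval s) ^ 2 * KK a α s) G1 := by
  have h := poly_KK_integrable a α hα hα1 (P ^ 2)
  simpa [eval_pow] using h

/-- The one-variable dual function `psi = (gg - P) * KK`. -/
theorem exists_psi (α ε : ℝ) (hα : 0 < α) (hα1 : α < 1 / 2) (hε : 0 < ε) (hε1 : ε ≤ 1) :
    ∃ d₀ : ℕ, ∀ d : ℕ, d₀ ≤ d → ∃ ψ : ℝ → ℝ, Continuous ψ ∧ (∀ s, ψ (-s) = -ψ s) ∧
      MemLp ψ 2 G1 ∧
      (∀ R : ℝ[X], R.natDegree ≤ d → ∫ s, ψ s * R.eval s ∂G1 = 0) ∧
      1 / 400 ≤ (nn (ε * √d) : ℝ) * ∫ s, ψ s * gg (ε * √d) s ∂G1 ∧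
      (nn (ε * √d) : ℝ) * ∫ s, (ψ s) ^ 2 * (KK (ε * √d) α s)⁻¹ ∂G1 ≤ 50 := by
  obtain ⟨d₀, hd₀⟩ := dist_lower α ε hα (by linarith) hε hε1
  refine ⟨max d₀ (⌈(1 / ε) ^ 2⌉₊), fun d hd => ?_⟩
  have hd1 : d₀ ≤ d := le_trans (le_max_left _ _) hd
  have hd2 : (1 / ε) ^ 2 ≤ (d : ℝ) := by
    have : ⌈(1 / ε) ^ 2⌉₊ ≤ d := le_trans (le_max_right _ _) hd
    exact (Nat.le_ceil _).trans (by exact_mod_cast this)
  have ha : 1 ≤ ε * √d := by
    have h1 : 1 / ε ≤ √d := Real.le_sqrt_of_sq_le hd2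
    calc (1:ℝ) = ε * (1 / ε) := by field_simp
      _ ≤ ε * √d := mul_le_mul_of_nonneg_left h1 hε.le
  have hα2 : α < 1 := by linarith
  set a : ℝ := ε * √d with hadef
  obtain ⟨g1, g2, g3, g4, g5⟩ := gg_facts a ha
  obtain ⟨P, hPd, hPodd, hPorth⟩ := exists_proj a α ha hα hα2 d
  have hKc := exists_psi_KK_cont a α
  have i1 := exists_psi_int_sq a α ha hα hα2 P
  have i2 := exists_psi_int_P a α ha hα hα2 P
  have i3 := exists_psi_int_P2 a α hα hα2 P
  have hz := hPorth P hPd
  -- key identities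
  have e1 : ∫ s, ((gg a s - P.eval s) * KK a α s) * gg a s ∂G1
      = ∫ s, (gg a s - P.eval s) ^ 2 * KK a α s ∂G1 := by
    have : (fun s => ((gg a s - P.eval s) * KK a α s) * gg a s)
        = fun s => (gg a s - P.eval s) ^ 2 * KK a α s
          + (gg a s - P.eval s) * KK a α s * P.eval s := by
      funext s; ring
    rw [this, integral_add i1 i2, hz, add_zero]
  have e2 : ∫ s, ((gg a s - P.eval s) * KK a α s) ^ 2 * (KK a α s)⁻¹ ∂G1
      = ∫ s, (gg a s - P.eval s) ^ 2 * KK a α s ∂G1 := by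
    congr 1
    funext s
    have hk := (exists_psi_KK_pos a α s).ne'
    field_simp
  have e3 : ∫ s, (gg a s) ^ 2 * KK a α s ∂G1
      = ∫ s, (gg a s - P.eval s) ^ 2 * KK a α s ∂G1 + ∫ s, (P.eval s) ^ 2 * KK a α s ∂G1 := by
    have : (fun s => (gg a s) ^ 2 * KK a α s)
        = fun s => ((gg a s - P.eval s) ^ 2 * KK a α s + (P.eval s) ^ 2 * KK a α s)
          + 2 * ((gg a s - P.eval s) * KK a α s * P.eval s) := by
      funext s; ring
    have i13 : Integrable (fun s => (gg a s - P.eval s) ^ 2 * KK a α s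
        + (P.eval s) ^ 2 * KK a α s) G1 := i1.add i3
    have i22 : Integrable (fun s => 2 * ((gg a s - P.eval s) * KK a α s * P.eval s)) G1 :=
      i2.const_mul 2
    rw [this, integral_add i13 i22, integral_add i1 i3,
      integral_const_mul, hz, mul_zero, add_zero]
  have hnn : (0:ℝ) ≤ (nn a : ℝ) := Nat.cast_nonneg _
  refine ⟨fun s => (gg a s - P.eval s) * KK a α s, ?_, ?_, ?_, ?_, ?_, ?_⟩
  · exact (g1.sub P.continuous).mul hKc
  · intro s
    have hk : KK a α (-s) = KK a α s := by unfold KK; simp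
    simp only [g2, hPodd, hk]
    ring
  · have hm : AEStronglyMeasurable (fun s => (gg a s - P.eval s) * KK a α s) G1 :=
      ((g1.sub P.continuous).mul hKc).aestronglyMeasurable
    rw [memLp_two_iff_integrable_sq hm]
    have := exists_psi_int_sq a (2 * α) ha (by linarith) (by linarith) P
    refine this.congr (Filter.Eventually.of_forall fun s => ?_)
    simp only [mul_pow, exists_psi_KK_sq]
  · intro R hR
    exact hPorth R hR
  · simp only []
    rw [e1]
    exact hd₀ d hd1 P hPd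
  · simp only []
    rw [e2]
    have h5 := nn_gg_upper a α ha hα hα2
    have hP0 : 0 ≤ ∫ s, (P.eval s) ^ 2 * KK a α s ∂G1 :=
      integral_nonneg fun s => mul_nonneg (sq_nonneg _) (exists_psi_KK_pos a α s).le
    refine le_trans (mul_le_mul_of_nonneg_left ?_ hnn) h5
    rw [e3]; linarith

end HS
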