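import Pool.Agent.HS.Defs

set_option autoImplicit false

open MeasureTheory ProbabilityTheory Filter Topology Set Polynomial
open scoped ENNReal NNReal Real

namespace HS

theorem pairing_comp (n : ℕ) (j : Fin n) (φ : ℝ → ℝ) (hφ : AEStronglyMeasurable φ G1) :
    ∫ x : Fin n → ℝ, φ (x j) ∂(Gn n) = ∫ s, φ s ∂G1 := by
  have hT : MeasurePreserving (Function.eval j) (Gn n) G1 :=
    measurePreserving_eval (fun _ : Fin n => gaussianReal 0 1) j
  conv_rhs => rw [← hT.map_eq]
  rw [integral_map hT.measurable.aemeasurable (by rw [hT.map_eq]; exact hφ)]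

theorem pairing_odd (f : ℝ → ℝ) (hf : AEStronglyMeasurable f G1) (hfo : ∀ s, f (-s) = -f s) :
    ∫ s, f s ∂G1 = 0 := by
  have h0 : G1.map (fun x : ℝ => -x) = G1 := by
    rw [gaussianReal_map_neg, neg_zero]
  have h1 : ∫ s, f s ∂G1 = ∫ s, f (-s) ∂G1 := by
    conv_lhs => rw [← h0]
    rw [integral_map measurable_neg.aemeasurable (by rw [h0]; exact hf)]
  have h2 : ∫ s, f (-s) ∂G1 = - ∫ s, f s ∂G1 := by
    rw [← integral_neg]
    exact integral_congr_ae (Filter.Eventually.of_forall hfo)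
  linarith

theorem pairing (n : ℕ) (f g : ℝ → ℝ) (hf : MemLp f 2 G1) (hg : MemLp g 2 G1)
    (hfo : ∀ s, f (-s) = -f s) (hgo : ∀ s, g (-s) = -g s) :
    ∫ x : Fin n → ℝ, (∑ j, f (x j)) * (∑ j, g (x j)) ∂(Gn n) =
      (n : ℝ) * ∫ s, f s * g s ∂G1 := by
  classical
  have hF : ∀ j, MemLp (fun x : Fin n → ℝ => f (x j)) 2 (Gn n) := fun j =>
    hf.comp_measurePreserving (measurePreserving_eval (fun _ : Fin n => gaussianReal 0 1) j)
  have hG : ∀ j, MemLp (fun x : Fin n → ℝ => g (x j)) 2 (Gn n) := fun j =>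
    hg.comp_measurePreserving (measurePreserving_eval (fun _ : Fin n => gaussianReal 0 1) j)
  have hint : ∀ i j, Integrable (fun x : Fin n → ℝ => f (x i) * g (x j)) (Gn n) := fun i j =>
    (hF i).integrable_mul (hG j)
  have hoff : ∀ i j, i ≠ j → ∫ x : Fin n → ℝ, f (x i) * g (x j) ∂(Gn n) = 0 := by
    intro i j hij
    let Y : Fin n → ℝ → ℝ := fun k => if k = i then f else g
    have hX : ∀ k, AEMeasurable (Y k) (gaussianReal 0 1) := by
      intro k
      by_cases hk : k = i
      · simp only [Y, if_pos hk]; exact hf.1.aemeasurable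
      · simp only [Y, if_neg hk]; exact hg.1.aemeasurable
    have hind := (iIndepFun_pi (μ := fun _ : Fin n => gaussianReal 0 1) hX).indepFun hij
    have e1 : (fun ω : Fin n → ℝ => Y i (ω i)) = fun ω => f (ω i) := by
      funext ω; simp [Y]
    have e2 : (fun ω : Fin n → ℝ => Y j (ω j)) = fun ω => g (ω j) := by
      funext ω; simp [Y, hij.symm]
    rw [e1, e2] at hind
    rw [hind.integral_fun_mul_eq_mul_integral (hF i).1 (hG j).1, pairing_comp n i f hf.1,
      pairing_odd f hf.1 hfo, zero_mul]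
  have hdiag : ∀ i, ∫ x : Fin n → ℝ, f (x i) * g (x i) ∂(Gn n) = ∫ s, f s * g s ∂G1 := fun i =>
    pairing_comp n i (fun s => f s * g s) (hf.1.mul hg.1)
  calc ∫ x : Fin n → ℝ, (∑ j, f (x j)) * (∑ j, g (x j)) ∂(Gn n)
      = ∫ x : Fin n → ℝ, ∑ i, ∑ j, f (x i) * g (x j) ∂(Gn n) := by
        refine integral_congr_ae (Filter.Eventually.of_forall fun x => ?_)
        exact Finset.sum_mul_sum _ _ _ _
    _ = ∑ i, ∑ j, ∫ x : Fin n → ℝ, f (x i) * g (x j) ∂(Gn n) := by
        rw [integral_finsetSum _ fun i _ => integrable_finsetSum _ fun j _ => hint i j]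
        refine Finset.sum_congr rfl fun i _ => ?_
        rw [integral_finsetSum _ fun j _ => hint i j]
    _ = ∑ i : Fin n, ∫ s, f s * g s ∂G1 := by
        refine Finset.sum_congr rfl fun i _ => ?_
        rw [Finset.sum_eq_single i, hdiag]
        · intro j _ hj
          exact hoff i j (Ne.symm hj)
        · intro h
          exact absurd (Finset.mem_univ _) h
    _ = (n : ℝ) * ∫ s, f s * g s ∂G1 := by
        rw [Finset.sum_const, Finset.card_univ, Fintype.card_fin, nsmul_eq_mul]

end HS
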