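import Pool.Agent.HS.Defs
import Pool.Agent.HS.M_poly_integrable
import Pool.Agent.HS.M_pairing

set_option autoImplicit false

open MeasureTheory ProbabilityTheory Filter Topology Set Polynomial
open scoped ENNReal NNReal Real

namespace HS

theorem holder_pair_sum (n : ℕ) (q : ℝ≥0∞) (f : ℝ → ℝ) (hf : MemLp f q G1) :
    MemLp (fun x : Fin n → ℝ => ∑ j, f (x j)) q (Gn n) := by
  refine memLp_finsetSum _ fun j _ => ?_
  exact hf.comp_measurePreserving (measurePreserving_eval (fun _ : Fin n => gaussianReal 0 1) j)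

/-- Hölder for the pairing. -/
theorem holder_pair (n : ℕ) (p : ℝ) (hp : 1 < p) (hp2 : p < 2) (Q : ℝ[X]) (f : ℝ → ℝ) (L : ℝ)
    (hodd : ∀ s, Q.eval (-s) = -Q.eval s)
    (hf : Continuous f) (hfb : ∀ s, |f s| ≤ L) (hfo : ∀ s, f (-s) = -f s) :
    (n : ℝ) * ∫ s, Q.eval s * f s ∂G1 ≤
      (∫ x : Fin n → ℝ, |∑ j, Q.eval (x j)| ^ p ∂(Gn n)) ^ (1 / p) *
        (∫ x : Fin n → ℝ, |∑ j, f (x j)| ^ (p / (p - 1)) ∂(Gn n)) ^ (1 / (p / (p - 1))) := by
  have hQ2 : MemLp (fun s => Q.eval s) 2 G1 := by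
    refine (memLp_two_iff_integrable_sq (Q.continuous.aestronglyMeasurable)).2 ?_
    have := poly_integrable (Q ^ 2)
    simpa using this
  have hfq : ∀ q : ℝ≥0∞, MemLp f q G1 := fun q =>
    MemLp.of_bound hf.aestronglyMeasurable L (ae_of_all _ fun s => by
      rw [Real.norm_eq_abs]; exact hfb s)
  have hSQ2 := holder_pair_sum n 2 _ hQ2
  have hSf2 := holder_pair_sum n 2 _ (hfq 2)
  have hSQ : MemLp (fun x : Fin n → ℝ => ∑ j, Q.eval (x j)) (ENNReal.ofReal p) (Gn n) := by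
    refine hSQ2.mono_exponent ?_
    rw [show (2 : ℝ≥0∞) = ENNReal.ofReal 2 by simp]
    exact ENNReal.ofReal_le_ofReal hp2.le
  have hSf := holder_pair_sum n (ENNReal.ofReal (p / (p - 1))) _ (hfq _)
  rw [← pairing n _ f hQ2 (hfq 2) hodd hfo]
  have hconj : p.HolderConjugate (p / (p - 1)) := Real.HolderConjugate.conjExponent hp
  refine le_trans (integral_mono (hSQ2.integrable_mul hSf2)
    (hSQ2.integrable_mul hSf2).abs fun x => le_abs_self _) ?_
  have hH := integral_mul_le_Lp_mul_Lq_of_nonneg hconj (μ := Gn n)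
    (f := fun x : Fin n → ℝ => |∑ j, Q.eval (x j)|) (g := fun x : Fin n → ℝ => |∑ j, f (x j)|)
    (ae_of_all _ fun x => abs_nonneg _) (ae_of_all _ fun x => abs_nonneg _) hSQ.abs hSf.abs
  refine le_trans (le_of_eq ?_) hH
  refine integral_congr_ae (ae_of_all _ fun x => ?_)
  simp [abs_mul]

end HS
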