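import Pool.Agent.HS.Defs

set_option autoImplicit false

open MeasureTheory ProbabilityTheory Filter Topology Set Polynomial
open scoped ENNReal NNReal Real

namespace HS

theorem ph_facts_max (t : ℝ) (ht : 1 ≤ |t|) : max (1 - t ^ 2) 0 = 0 := by
  apply max_eq_right
  have h1 : 1 ≤ |t| ^ 2 := one_le_pow₀ ht
  rw [sq_abs] at h1
  linarith

theorem ph_facts_zero (t : ℝ) (ht : 1 ≤ |t|) : bb1 t = 0 ∧ bb2 t = 0 := by
  unfold bb1 bb2
  rw [ph_facts_max t ht]
  constructor <;> ring

theorem ph_facts_bd (t : ℝ) : |bb1 t| ≤ 6 ∧ |bb2 t| ≤ 30 := by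
  rcases le_or_gt 1 |t| with ht | ht
  · rw [(ph_facts_zero t ht).1, (ph_facts_zero t ht).2]
    norm_num
  · have h1 := abs_lt.mp ht
    have h2 : t ^ 2 ≤ 1 := by nlinarith
    have hm : max (1 - t ^ 2) 0 = 1 - t ^ 2 := max_eq_left (by linarith)
    have h0 : 0 ≤ t ^ 2 := sq_nonneg t
    unfold bb1 bb2
    rw [hm]
    constructor
    · have h3 : (1 - t ^ 2) ^ 2 ≤ 1 := by nlinarith
      have h4 : 0 ≤ (1 - t ^ 2) ^ 2 := sq_nonneg _
      rw [abs_le]
      constructor <;> nlinarith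
    · rw [abs_le]
      constructor <;> nlinarith [mul_nonneg h0 (sub_nonneg.mpr h2)]

theorem ph_facts_odd (t : ℝ) : bb1 (-t) = -bb1 t ∧ bb2 (-t) = bb2 t := by
  unfold bb1 bb2
  rw [neg_sq]
  constructor <;> ring

theorem ph_facts (a : ℝ) (ha : 1 ≤ a) :
    Continuous (ph a) ∧ (∀ s, ph a (-s) = -ph a s) ∧ (∀ s, |ph a s| ≤ 100 * a ^ 2) ∧
      (∀ s, ¬ (|s - a| ≤ 1 / a ∨ |s + a| ≤ 1 / a) → ph a s = 0) := by
  have ha0 : 0 < a := by linarith
  have hz : ∀ s, ¬ (|s - a| ≤ 1 / a ∨ |s + a| ≤ 1 / a) → ph a s = 0 := by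
    intro s hs
    push Not at hs
    obtain ⟨h1, h2⟩ := hs
    have h3 : 1 ≤ |a * (s - a)| := by
      rw [abs_mul, abs_of_pos ha0]
      rw [div_lt_iff₀ ha0] at h1
      linarith
    have h4 : 1 ≤ |a * (s + a)| := by
      rw [abs_mul, abs_of_pos ha0]
      rw [div_lt_iff₀ ha0] at h2
      linarith
    unfold ph
    rw [(ph_facts_zero _ h3).1, (ph_facts_zero _ h3).2, (ph_facts_zero _ h4).1,
      (ph_facts_zero _ h4).2]
    ring
  refine ⟨?_, ?_, ?_, hz⟩
  · unfold ph bb1 bb2
    fun_prop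
  · intro s
    unfold ph
    have e1 : a * (-s - a) = -(a * (s + a)) := by ring
    have e2 : a * (-s + a) = -(a * (s - a)) := by ring
    rw [e1, e2, (ph_facts_odd _).1, (ph_facts_odd _).2, (ph_facts_odd _).1, (ph_facts_odd _).2]
    ring
  · intro s
    by_cases hs : |s - a| ≤ 1 / a ∨ |s + a| ≤ 1 / a
    · have hinv : 1 / a ≤ a := by
        rw [div_le_iff₀ ha0]
        nlinarith
      have hsa : |s| ≤ 2 * a := by
        rcases hs with h | h
        · have h1 := abs_le.mp h
          rw [abs_le]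
          constructor <;> linarith
        · have h1 := abs_le.mp h
          rw [abs_le]
          constructor <;> linarith
      have b1 := ph_facts_bd (a * (s - a))
      have b2 := ph_facts_bd (a * (s + a))
      unfold ph
      have h1 : |s * (a * bb1 (a * (s - a)) - a * bb1 (a * (s + a)))| ≤ 24 * a ^ 2 := by
        rw [abs_mul, ← mul_sub, abs_mul, abs_of_pos ha0]
        have h2 : |bb1 (a * (s - a)) - bb1 (a * (s + a))| ≤ 12 := by
          refine (abs_sub _ _).trans ?_
          linarith [b1.1, b2.1]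
        have h3 : a * |bb1 (a * (s - a)) - bb1 (a * (s + a))| ≤ a * 12 :=
          mul_le_mul_of_nonneg_left h2 ha0.le
        have h4 : |s| * (a * |bb1 (a * (s - a)) - bb1 (a * (s + a))|) ≤ 2 * a * (a * 12) :=
          mul_le_mul hsa h3 (by positivity) (by positivity)
        nlinarith
      have h5 : |a ^ 2 * bb2 (a * (s - a)) - a ^ 2 * bb2 (a * (s + a))| ≤ 60 * a ^ 2 := by
        rw [← mul_sub, abs_mul, abs_of_pos (by positivity : 0 < a ^ 2)]
        have h2 : |bb2 (a * (s - a)) - bb2 (a * (s + a))| ≤ 60 := by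
          refine (abs_sub _ _).trans ?_
          linarith [b1.2, b2.2]
        have h3 := mul_le_mul_of_nonneg_left h2 (by positivity : 0 ≤ a ^ 2)
        linarith
      refine (abs_sub _ _).trans ?_
      nlinarith [sq_nonneg a]
    · rw [hz s hs, abs_zero]
      positivity

end HS
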