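import Pool.Agent.HS.Defs
import Pool.Agent.HS.M_gg_facts
import Pool.Agent.HS.M_ph_facts

set_option autoImplicit false

open MeasureTheory ProbabilityTheory Filter Topology Set Polynomial
open scoped ENNReal NNReal Real

namespace HS

theorem ibp_hmax (m : ℕ) (u : ℝ) :
    HasDerivAt (fun u : ℝ => (max u 0) ^ (m + 2)) (((m + 2 : ℕ) : ℝ) * (max u 0) ^ (m + 1)) u := by
  rcases lt_trichotomy u 0 with h | h | h
  · have h1 : (fun u : ℝ => (max u 0) ^ (m + 2)) =ᶠ[𝓝 u] fun _ => (0 : ℝ) := by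
      filter_upwards [Iio_mem_nhds h] with x hx
      rw [max_eq_right (le_of_lt hx)]; simp
    rw [max_eq_right h.le]
    simpa using (hasDerivAt_const u (0 : ℝ)).congr_of_eventuallyEq h1
  · subst h
    have h1 : (fun u : ℝ => (max u 0) ^ (m + 2)) =O[𝓝 (0 : ℝ)] fun x : ℝ => ‖x - 0‖ ^ (m + 2) := by
      refine Asymptotics.IsBigO.of_bound 1 (Filter.Eventually.of_forall fun x => ?_)
      rw [one_mul, norm_pow, norm_pow, norm_norm, sub_zero]
      refine pow_le_pow_left₀ (norm_nonneg _) ?_ _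
      rw [Real.norm_eq_abs, Real.norm_eq_abs, abs_of_nonneg (le_max_right _ _)]
      exact max_le (le_abs_self x) (abs_nonneg x)
    have h2 := (Asymptotics.IsBigO.hasFDerivAt (𝕜 := ℝ) h1 (by omega)).hasDerivAt
    simpa using h2
  · have h1 : (fun u : ℝ => (max u 0) ^ (m + 2)) =ᶠ[𝓝 u] fun u => u ^ (m + 2) := by
      filter_upwards [Ioi_mem_nhds h] with x hx
      rw [max_eq_left (le_of_lt hx)]
    rw [max_eq_left h.le]
    have h2 := (hasDerivAt_pow (m + 2) u).congr_of_eventuallyEq h1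
    simpa using h2

theorem ibp_bb (t : ℝ) : HasDerivAt bb (bb1 t) t := by
  have h1 : HasDerivAt (fun t : ℝ => 1 - t ^ 2) (-(2 * t)) t := by
    have := (hasDerivAt_pow 2 t).const_sub 1
    simpa using this
  have h2 := (ibp_hmax 1 (1 - t ^ 2)).comp t h1
  refine h2.congr_deriv ?_
  unfold bb1
  norm_num
  ring

theorem ibp_bb1 (t : ℝ) : HasDerivAt bb1 (bb2 t) t := by
  have h1 : HasDerivAt (fun t : ℝ => 1 - t ^ 2) (-(2 * t)) t := by
    have := (hasDerivAt_pow 2 t).const_sub 1
    simpa using this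
  have h2 := (ibp_hmax 0 (1 - t ^ 2)).comp t h1
  have h3 : HasDerivAt (fun t : ℝ => -6 * t) (-6) t := by
    simpa using (hasDerivAt_id t).const_mul (-6 : ℝ)
  refine (h3.mul h2).congr_deriv ?_
  unfold bb2
  simp only [Function.comp]
  norm_num
  ring

theorem ibp_zero (t : ℝ) (ht : 1 ≤ |t|) : bb t = 0 ∧ bb1 t = 0 ∧ bb2 t = 0 := by
  have h : max (1 - t ^ 2) 0 = 0 := by
    apply max_eq_right
    have : 1 ≤ t ^ 2 := by
      rw [← sq_abs]; nlinarith
    linarith
  refine ⟨?_, ?_, ?_⟩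
  · unfold bb; rw [h]; norm_num
  · unfold bb1; rw [h]; norm_num
  · unfold bb2; rw [h]; norm_num

noncomputable def ibp_g1 (a s : ℝ) : ℝ := a * bb1 (a * (s - a)) - a * bb1 (a * (s + a))

noncomputable def ibp_g2 (a s : ℝ) : ℝ := a ^ 2 * bb2 (a * (s - a)) - a ^ 2 * bb2 (a * (s + a))

theorem ibp_gd (a s : ℝ) : HasDerivAt (gg a) (ibp_g1 a s) s := by
  have h1 : HasDerivAt (fun s : ℝ => a * (s - a)) a s := by
    simpa using ((hasDerivAt_id s).sub_const a).const_mul a
  have h2 : HasDerivAt (fun s : ℝ => a * (s + a)) a s := by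
    simpa using ((hasDerivAt_id s).add_const a).const_mul a
  have h3 := ((ibp_bb (a * (s - a))).comp s h1).sub ((ibp_bb (a * (s + a))).comp s h2)
  refine h3.congr_deriv ?_
  unfold ibp_g1
  ring

theorem ibp_g1d (a s : ℝ) : HasDerivAt (ibp_g1 a) (ibp_g2 a s) s := by
  have h1 : HasDerivAt (fun s : ℝ => a * (s - a)) a s := by
    simpa using ((hasDerivAt_id s).sub_const a).const_mul a
  have h2 : HasDerivAt (fun s : ℝ => a * (s + a)) a s := by
    simpa using ((hasDerivAt_id s).add_const a).const_mul a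
  have h3 := (((ibp_bb1 (a * (s - a))).comp s h1).const_mul a).sub
    (((ibp_bb1 (a * (s + a))).comp s h2).const_mul a)
  refine h3.congr_deriv ?_
  unfold ibp_g2
  ring

theorem ibp_out (a : ℝ) (ha : 1 ≤ a) (s : ℝ) (hs : s ∉ Icc (-(a + 1)) (a + 1)) :
    1 ≤ |a * (s - a)| ∧ 1 ≤ |a * (s + a)| := by
  have h : a + 1 < |s| := by
    by_contra hc
    push Not at hc
    exact hs ⟨by linarith [neg_abs_le s], by linarith [le_abs_self s]⟩
  rw [abs_mul, abs_mul, abs_of_nonneg (by linarith : (0 : ℝ) ≤ a)]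
  have h1 : 1 ≤ |s - a| := by
    have := abs_sub_abs_le_abs_sub s a
    rw [abs_of_nonneg (by linarith : (0 : ℝ) ≤ a)] at this
    linarith
  have h2 : 1 ≤ |s + a| := by
    have := abs_sub_abs_le_abs_sub s (-a)
    rw [abs_neg, abs_of_nonneg (by linarith : (0 : ℝ) ≤ a), sub_neg_eq_add] at this
    linarith
  constructor <;> nlinarith

theorem ibp_g1c (a : ℝ) : Continuous (ibp_g1 a) := by
  rw [continuous_iff_continuousAt]
  exact fun s => (ibp_g1d a s).continuousAt

theorem ibp_pdf (s : ℝ) : HasDerivAt (gaussianPDFReal 0 1) (-s * gaussianPDFReal 0 1 s) s := by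
  have h0 : gaussianPDFReal 0 1 = fun s : ℝ => (√(2 * π))⁻¹ * Real.exp (-s ^ 2 / 2) := by
    ext x
    simp [gaussianPDFReal]
  rw [h0]
  have h1 : HasDerivAt (fun s : ℝ => -s ^ 2 / 2) (-s) s := by
    have := ((hasDerivAt_pow 2 s).neg).div_const 2
    refine this.congr_deriv ?_
    norm_num
    ring
  have h2 := (h1.exp).const_mul ((√(2 * π))⁻¹)
  refine h2.congr_deriv ?_
  ring

theorem ibp (a : ℝ) (ha : 1 ≤ a) (Q : ℝ[X]) :
    ∫ s, Q.eval s * ph a s ∂G1 = ∫ s, (NN Q).eval s * gg a s ∂G1 := by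
  have hphc := (ph_facts a ha).1
  have hggc := (gg_facts a ha).1
  have hph : ∀ s, ph a s = s * ibp_g1 a s - ibp_g2 a s := fun s => rfl
  have hwc : Continuous (gaussianPDFReal 0 1) := by
    rw [continuous_iff_continuousAt]
    exact fun s => (ibp_pdf s).continuousAt
  have hz : ∀ s, s ∉ Icc (-(a + 1)) (a + 1) → gg a s = 0 ∧ ibp_g1 a s = 0 ∧ ph a s = 0 := by
    intro s hs
    obtain ⟨h1, h2⟩ := ibp_out a ha s hs
    obtain ⟨p1, p2, p3⟩ := ibp_zero _ h1
    obtain ⟨q1, q2, q3⟩ := ibp_zero _ h2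
    refine ⟨?_, ?_, ?_⟩
    · unfold gg; rw [p1, q1]; simp
    · unfold ibp_g1; rw [p2, q2]; simp
    · unfold ph; rw [p2, q2, p3, q3]; simp
  have i1 : Integrable (fun s => gaussianPDFReal 0 1 s * (Q.eval s * ph a s)) := by
    refine Continuous.integrable_of_hasCompactSupport (by fun_prop) ?_
    refine HasCompactSupport.intro (isCompact_Icc (a := -(a + 1)) (b := a + 1)) ?_
    intro s hs
    rw [(hz s hs).2.2]; simp
  have i2 : Integrable (fun s => gaussianPDFReal 0 1 s * ((NN Q).eval s * gg a s)) := by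
    refine Continuous.integrable_of_hasCompactSupport (by fun_prop) ?_
    refine HasCompactSupport.intro (isCompact_Icc (a := -(a + 1)) (b := a + 1)) ?_
    intro s hs
    rw [(hz s hs).1]; simp
  have hg1c := ibp_g1c a
  have i3 : Integrable (fun s => gaussianPDFReal 0 1 s *
      ((derivative Q).eval s * gg a s - Q.eval s * ibp_g1 a s)) := by
    refine Continuous.integrable_of_hasCompactSupport (by fun_prop) ?_
    refine HasCompactSupport.intro (isCompact_Icc (a := -(a + 1)) (b := a + 1)) ?_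
    intro s hs
    rw [(hz s hs).1, (hz s hs).2.1]; simp
  have hd : ∀ s, HasDerivAt (fun s => gaussianPDFReal 0 1 s *
      ((derivative Q).eval s * gg a s - Q.eval s * ibp_g1 a s))
      (gaussianPDFReal 0 1 s * (Q.eval s * ph a s) -
        gaussianPDFReal 0 1 s * ((NN Q).eval s * gg a s)) s := by
    intro s
    have h1 := (((derivative Q).hasDerivAt s).mul (ibp_gd a s)).sub
      ((Q.hasDerivAt s).mul (ibp_g1d a s))
    refine ((ibp_pdf s).mul h1).congr_deriv ?_
    rw [hph]
    unfold NN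
    simp only [eval_sub, eval_mul, eval_X, Pi.mul_apply, Pi.sub_apply]
    ring
  have h0 := integral_eq_zero_of_hasDerivAt_of_integrable hd (i1.sub i2) i3
  rw [integral_sub i1 i2] at h0
  rw [integral_gaussianReal_eq_integral_smul one_ne_zero,
    integral_gaussianReal_eq_integral_smul one_ne_zero]
  simp only [smul_eq_mul]
  linarith

end HS
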