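import Pool.Agent.HS.Defs
import Pool.Agent.HS.M_poly_integrable

set_option autoImplicit false

open MeasureTheory ProbabilityTheory Filter Topology Set Polynomial
open scoped ENNReal NNReal Real

namespace HS

theorem poly_dense_memLp (P : ℝ[X]) : MemLp (fun s => P.eval s) 2 G1 := by
  rw [memLp_two_iff_integrable_sq P.continuous.aestronglyMeasurable]
  have := poly_integrable (P ^ 2)
  simpa [eval_pow] using this

theorem poly_dense_exp (t : ℝ) : MemLp (fun s => Real.exp |t * s|) 2 G1 := by
  rw [memLp_two_iff_integrable_sq (by fun_prop)]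
  refine Integrable.mono' ((integrable_exp_mul_gaussianReal (2 * t)).add
    (integrable_exp_mul_gaussianReal (-(2 * t)))) (by fun_prop) ?_
  refine Filter.Eventually.of_forall fun s => ?_
  rw [Real.norm_of_nonneg (by positivity), ← Real.exp_nat_mul, Pi.add_apply]
  rcases le_total 0 (t * s) with h | h
  · rw [abs_of_nonneg h]
    have e1 : ((2 : ℕ) : ℝ) * (t * s) = 2 * t * s := by push_cast; ring
    rw [e1]
    have := Real.exp_pos (-(2 * t) * s)
    linarith
  · rw [abs_of_nonpos h]
    have e1 : ((2 : ℕ) : ℝ) * -(t * s) = -(2 * t) * s := by push_cast; ring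
    rw [e1]
    have := Real.exp_pos (2 * t * s)
    linarith

theorem poly_dense_char (F : ℝ → ℝ) (hFm : Measurable F) (hF : MemLp F 2 G1)
    (h : ∀ n : ℕ, ∫ s, s ^ n * F s ∂G1 = 0) (t : ℝ) :
    ∫ s, Complex.exp (t * s * Complex.I) * (F s : ℂ) ∂G1 = 0 := by
  have hint : Integrable (fun s => Real.exp |t * s| * |F s|) G1 := by
    have := (poly_dense_exp t).integrable_mul hF.abs
    exact this
  have hsum := hasSum_integral_of_dominated_convergence (μ := G1)
    (F := fun (n : ℕ) (s : ℝ) => ((t * s * Complex.I) ^ n / (n.factorial : ℂ)) * (F s : ℂ))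
    (f := fun s : ℝ => Complex.exp (t * s * Complex.I) * (F s : ℂ))
    (fun n s => |t * s| ^ n / (n.factorial : ℝ) * |F s|) ?_ ?_ ?_ ?_ ?_
  · have hz : ∀ n : ℕ, ∫ s : ℝ, ((t * s * Complex.I) ^ n / (n.factorial : ℂ)) * (F s : ℂ) ∂G1 = 0 := by
      intro n
      have e1 : (fun s : ℝ => ((t * s * Complex.I) ^ n / (n.factorial : ℂ)) * (F s : ℂ)) =
          fun s : ℝ => ((t * Complex.I) ^ n / (n.factorial : ℂ)) * ((s ^ n * F s : ℝ) : ℂ) := by
        funext s
        push_cast
        ring
      rw [e1, integral_const_mul, integral_complex_ofReal, h n]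
      simp
    simp only [hz] at hsum
    exact hsum.unique hasSum_zero
  · intro n
    exact (by fun_prop : Measurable (fun s : ℝ => ((t * s * Complex.I) ^ n / (n.factorial : ℂ)) *
      (F s : ℂ))).aestronglyMeasurable
  · intro n
    refine Filter.Eventually.of_forall fun s => ?_
    rw [norm_mul, norm_div, norm_pow, norm_mul, norm_mul, Complex.norm_I, mul_one,
      Complex.norm_real, Complex.norm_real, Complex.norm_real, Complex.norm_natCast,
      Real.norm_eq_abs, Real.norm_eq_abs, Real.norm_eq_abs, abs_mul]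
  · refine Filter.Eventually.of_forall fun s => ?_
    exact (Real.summable_pow_div_factorial _).mul_right _
  · have e2 : (fun s : ℝ => ∑' n : ℕ, |t * s| ^ n / (n.factorial : ℝ) * |F s|) =
        fun s => Real.exp |t * s| * |F s| := by
      funext s
      rw [tsum_mul_right, Real.exp_eq_exp_ℝ, NormedSpace.exp_eq_tsum_div]
    rw [e2]
    exact hint
  · refine Filter.Eventually.of_forall fun s => ?_
    refine HasSum.mul_right _ ?_
    rw [Complex.exp_eq_exp_ℂ]
    exact NormedSpace.expSeries_div_hasSum_exp _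

theorem poly_dense_zero (F : ℝ → ℝ) (hFm : Measurable F) (hF : MemLp F 2 G1)
    (h : ∀ n : ℕ, ∫ s, s ^ n * F s ∂G1 = 0) : F =ᵐ[G1] 0 := by
  have hFi : Integrable F G1 := hF.integrable (by norm_num)
  have := isFiniteMeasure_withDensity_ofReal (μ := G1) (f := F) hFi.2
  have := isFiniteMeasure_withDensity_ofReal (μ := G1) (f := fun s => - F s) hFi.neg.2
  have hm1 : Measurable (fun s => ENNReal.ofReal (F s)) := hFm.ennreal_ofReal
  have hm2 : Measurable (fun s => ENNReal.ofReal (-F s)) := hFm.neg.ennreal_ofReal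
  have hE : ∀ t : ℝ, Measurable (fun s : ℝ => Complex.exp (t * s * Complex.I)) := fun t => by
    fun_prop
  have hb : ∀ (t : ℝ) (G : ℝ → ℝ), Integrable G G1 →
      Integrable (fun s : ℝ => (G s) • Complex.exp (t * s * Complex.I)) G1 := by
    intro t G hG
    refine hG.norm.mono' (hG.1.smul (hE t).aestronglyMeasurable) ?_
    refine Filter.Eventually.of_forall fun s => ?_
    have : ‖Complex.exp (t * s * Complex.I)‖ = 1 := by
      have := Complex.norm_exp_ofReal_mul_I (t * s)
      push_cast at this
      exact this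
    rw [norm_smul, this, mul_one]
  have heq : G1.withDensity (fun s => ENNReal.ofReal (F s)) =
      G1.withDensity (fun s => ENNReal.ofReal (-F s)) := by
    refine Measure.ext_of_charFun ?_
    funext t
    rw [charFun_apply_real, charFun_apply_real,
      integral_withDensity_eq_integral_toReal_smul hm1 (by simp),
      integral_withDensity_eq_integral_toReal_smul hm2 (by simp), ← sub_eq_zero]
    simp only [ENNReal.toReal_ofReal']
    rw [← integral_sub (hb t _ hFi.pos_part) (hb t _ (by exact hFi.neg.pos_part))]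
    rw [← poly_dense_char F hFm hF h t]
    refine integral_congr_ae (Filter.Eventually.of_forall fun s => ?_)
    simp only
    rw [← sub_smul, Complex.real_smul, mul_comm]
    congr 2
    rcases le_total 0 (F s) with h0 | h0
    · rw [max_eq_left h0, max_eq_right (by linarith), sub_zero]
    · rw [max_eq_right h0, max_eq_left (by linarith)]
      ring
  rw [withDensity_eq_iff hm1.aemeasurable hm2.aemeasurable hFi.lintegral_lt_top.ne] at heq
  filter_upwards [heq] with s hs
  rcases lt_trichotomy (F s) 0 with h0 | h0 | h0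
  · rw [ENNReal.ofReal_of_nonpos h0.le] at hs
    have : 0 < ENNReal.ofReal (-F s) := ENNReal.ofReal_pos.2 (by linarith)
    exact absurd hs this.ne
  · exact h0
  · rw [ENNReal.ofReal_of_nonpos (p := -F s) (by linarith)] at hs
    have : 0 < ENNReal.ofReal (F s) := ENNReal.ofReal_pos.2 h0
    exact absurd hs this.ne'

/-- polynomials as elements of `L²` -/
noncomputable def poly_dense_map : ℝ[X] →ₗ[ℝ] Lp ℝ 2 G1 where
  toFun P := (poly_dense_memLp P).toLp
  map_add' P Q := by
    rw [← MemLp.toLp_add]
    refine MemLp.toLp_congr _ _ (Filter.Eventually.of_forall fun s => ?_)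
    simp
  map_smul' c P := by
    rw [RingHom.id_apply, ← MemLp.toLp_const_smul]
    refine MemLp.toLp_congr _ _ (Filter.Eventually.of_forall fun s => ?_)
    simp

theorem poly_dense_top : (LinearMap.range poly_dense_map).topologicalClosure = ⊤ := by
  rw [Submodule.topologicalClosure_eq_top_iff, Submodule.eq_bot_iff]
  intro F hF
  have h1 : ∀ n : ℕ, ∫ s, s ^ n * F s ∂G1 = 0 := by
    intro n
    have h2 := (Submodule.mem_orthogonal _ F).1 hF (poly_dense_map (X ^ n)) ⟨_, rfl⟩
    rw [L2.inner_def] at h2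
    rw [← h2]
    refine integral_congr_ae ?_
    filter_upwards [(poly_dense_memLp (X ^ n)).coeFn_toLp] with s hs
    have hs' : (poly_dense_map (X ^ n) : ℝ → ℝ) s = s ^ n := by
      refine Eq.trans hs ?_
      simp
    rw [hs']
    simp [mul_comm]
  have h3 := poly_dense_zero F (Lp.stronglyMeasurable F).measurable (Lp.memLp F) h1
  exact (Lp.eq_zero_iff_ae_eq_zero).2 h3

/-- Polynomials are dense in `L²` of the Gaussian measure. -/
theorem poly_dense (ψ : ℝ → ℝ) (hψ : MemLp ψ 2 G1) (η : ℝ) (hη : 0 < η) :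
    ∃ R : ℝ[X], ∫ s, (ψ s - R.eval s) ^ 2 ∂G1 ≤ η := by
  have h1 : hψ.toLp ∈ closure ((LinearMap.range poly_dense_map : Submodule ℝ (Lp ℝ 2 G1)) :
      Set (Lp ℝ 2 G1)) := by
    rw [← Submodule.topologicalClosure_coe, poly_dense_top]
    trivial
  obtain ⟨b, ⟨R, rfl⟩, hb⟩ := Metric.mem_closure_iff.1 h1 (√η) (Real.sqrt_pos.2 hη)
  refine ⟨R, ?_⟩
  rw [dist_eq_norm] at hb
  have h2 : hψ.toLp - poly_dense_map R = (hψ.sub (poly_dense_memLp R)).toLp :=
    (MemLp.toLp_sub hψ (poly_dense_memLp R)).symm
  rw [h2] at hb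
  have h3 : ‖(hψ.sub (poly_dense_memLp R)).toLp‖ ^ 2 = ∫ s, (ψ s - R.eval s) ^ 2 ∂G1 := by
    rw [← real_inner_self_eq_norm_sq, L2.inner_def]
    refine integral_congr_ae ?_
    filter_upwards [(hψ.sub (poly_dense_memLp R)).coeFn_toLp] with s hs
    rw [hs]
    simp [sq]
  rw [← h3]
  have h4 := Real.sq_sqrt hη.le
  have h5 := norm_nonneg (hψ.sub (poly_dense_memLp R)).toLp
  nlinarith [Real.sqrt_nonneg η]

end HS
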