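import Pool.Agent.HS.Defs
import Pool.Agent.HS.M_poly_integrable
import Pool.Agent.HS.M_poly_dense

set_option autoImplicit false

open MeasureTheory ProbabilityTheory Filter Topology Set Polynomial
open scoped ENNReal NNReal Real

namespace HS

theorem poly_dense_tail_mem (P : ℝ[X]) : MemLp (fun s => P.eval s) 2 G1 := by
  refine (memLp_two_iff_integrable_sq P.continuous.aestronglyMeasurable).2 ?_
  have := poly_integrable (P ^ 2)
  simpa [eval_pow] using this

theorem poly_dense_tail_intmul (P : ℝ[X]) {ψ : ℝ → ℝ} (hψ : MemLp ψ 2 G1) :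
    Integrable (fun s => ψ s * P.eval s) G1 :=
  hψ.integrable_mul (poly_dense_tail_mem P)

/-- the class in `L²` -/
noncomputable def poly_dense_tail_T : ℝ[X] →ₗ[ℝ] Lp ℝ 2 G1 where
  toFun P := (poly_dense_tail_mem P).toLp _
  map_add' P R := by
    rw [← MemLp.toLp_add]
    congr 1
    funext s
    simp
  map_smul' c P := by
    rw [RingHom.id_apply, ← MemLp.toLp_const_smul]
    congr 1
    funext s
    simp

theorem poly_dense_tail_inner (P R : ℝ[X]) :
    (inner ℝ (poly_dense_tail_T P) (poly_dense_tail_T R) : ℝ) = ∫ s, P.eval s * R.eval s ∂G1 := by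
  rw [L2.inner_def]
  refine integral_congr_ae ?_
  have h1 : (poly_dense_tail_T P : ℝ → ℝ) =ᵐ[G1] fun s => P.eval s :=
    (poly_dense_tail_mem P).coeFn_toLp
  have h2 : (poly_dense_tail_T R : ℝ → ℝ) =ᵐ[G1] fun s => R.eval s :=
    (poly_dense_tail_mem R).coeFn_toLp
  filter_upwards [h1, h2] with s e1 e2
  rw [e1, e2]
  simp [mul_comm]

theorem poly_dense_tail_mem_deg (d : ℕ) (R : ℝ[X]) :
    R ∈ degreeLT ℝ (d + 1) ↔ R.natDegree ≤ d := by
  rw [mem_degreeLT]
  constructor
  · intro h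
    by_cases h0 : R = 0
    · rw [h0]; simp
    · exact Nat.lt_succ_iff.1 ((natDegree_lt_iff_degree_lt h0).2 h)
  · intro h
    exact lt_of_le_of_lt (degree_le_of_natDegree_le h) (by exact_mod_cast Nat.lt_succ_self d)

theorem poly_dense_tail_proj (d : ℕ) (R0 : ℝ[X]) : ∃ Q : ℝ[X], Q.natDegree ≤ d ∧
    ∀ R : ℝ[X], R.natDegree ≤ d → ∫ s, (R0 - Q).eval s * R.eval s ∂G1 = 0 := by
  haveI : Module.Finite ℝ (degreeLT ℝ (d + 1)) := Module.Finite.equiv (degreeLTEquiv ℝ (d + 1)).symm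
  let W : Submodule ℝ (Lp ℝ 2 G1) := (degreeLT ℝ (d + 1)).map poly_dense_tail_T
  haveI : FiniteDimensional ℝ W := Module.Finite.map _ _
  have hz : W.starProjection (poly_dense_tail_T R0) ∈ W := W.starProjection_apply_mem _
  obtain ⟨Q, hQ, hQz⟩ := hz
  refine ⟨Q, (poly_dense_tail_mem_deg d Q).1 hQ, fun R hR => ?_⟩
  have h1 := W.starProjection_inner_eq_zero (poly_dense_tail_T R0) (poly_dense_tail_T R)
    ⟨R, (poly_dense_tail_mem_deg d R).2 hR, rfl⟩
  rw [← hQz, ← map_sub, poly_dense_tail_inner] at h1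
  exact h1

theorem poly_dense_tail_even (F : ℝ → ℝ) : ∫ s, F (-s) ∂G1 = ∫ s, F s ∂G1 := by
  have h : (G1).map (fun x => -x) = G1 := by
    unfold G1
    rw [gaussianReal_map_neg, neg_zero]
  have h2 := (MeasurableEquiv.neg ℝ).measurableEmbedding.integral_map (μ := G1) F
  have h3 : Measure.map (MeasurableEquiv.neg ℝ) G1 = G1 := h
  rw [h3] at h2
  exact h2.symm

/-- Approximation by odd polynomials in the tail space. -/
theorem poly_dense_tail (d : ℕ) (ψ : ℝ → ℝ) (hψ : MemLp ψ 2 G1) (hodd : ∀ s, ψ (-s) = -ψ s)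
    (hT : ∀ R : ℝ[X], R.natDegree ≤ d → ∫ s, ψ s * R.eval s ∂G1 = 0) (η : ℝ) (hη : 0 < η) :
    ∃ q : ℝ[X], (∀ s, q.eval (-s) = -q.eval s) ∧
      (∀ R : ℝ[X], R.natDegree ≤ d → ∫ s, q.eval s * R.eval s ∂G1 = 0) ∧
      ∫ s, (ψ s - q.eval s) ^ 2 ∂G1 ≤ η := by
  obtain ⟨R0, hR0⟩ := poly_dense ψ hψ η hη
  obtain ⟨Q, hQd, hQ⟩ := poly_dense_tail_proj d R0
  set R1 := R0 - Q with hR1
  have hD : MemLp (fun s => ψ s - R1.eval s) 2 G1 := hψ.sub (poly_dense_tail_mem R1)
  have hD2 : Integrable (fun s => (ψ s - R1.eval s) ^ 2) G1 := hD.integrable_sq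
  have hQ2 : Integrable (fun s => (Q.eval s) ^ 2) G1 := (poly_dense_tail_mem Q).integrable_sq
  have hDQ : Integrable (fun s => (ψ s - R1.eval s) * Q.eval s) G1 := poly_dense_tail_intmul Q hD
  have hDQ0 : ∫ s, (ψ s - R1.eval s) * Q.eval s ∂G1 = 0 := by
    have e : (fun s => (ψ s - R1.eval s) * Q.eval s) =
        fun s => ψ s * Q.eval s - R1.eval s * Q.eval s := by
      funext s; ring
    rw [e, integral_sub (poly_dense_tail_intmul Q hψ)
      (poly_dense_tail_intmul Q (poly_dense_tail_mem R1)), hT Q hQd, hQ Q hQd, sub_zero]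
  have hle : ∫ s, (ψ s - R1.eval s) ^ 2 ∂G1 ≤ η := by
    refine le_trans ?_ hR0
    have e : ∫ s, (ψ s - R0.eval s) ^ 2 ∂G1 =
        ∫ s, (((ψ s - R1.eval s) ^ 2 - 2 * ((ψ s - R1.eval s) * Q.eval s)) + (Q.eval s) ^ 2) ∂G1 := by
      refine integral_congr_ae (Eventually.of_forall fun s => ?_)
      simp only [hR1, eval_sub]
      ring
    have i1 : Integrable (fun s => 2 * ((ψ s - R1.eval s) * Q.eval s)) G1 := hDQ.const_mul 2
    have i2 : Integrable (fun s => (ψ s - R1.eval s) ^ 2 - 2 * ((ψ s - R1.eval s) * Q.eval s)) G1 :=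
      hD2.sub i1
    rw [e, integral_add i2 hQ2, integral_sub hD2 i1, integral_const_mul, hDQ0]
    have : 0 ≤ ∫ s, (Q.eval s) ^ 2 ∂G1 := integral_nonneg fun s => sq_nonneg _
    linarith
  -- the odd part
  let q : ℝ[X] := C (1 / 2 : ℝ) * (R1 - R1.comp (-X))
  have hq : ∀ s, q.eval s = (R1.eval s - R1.eval (-s)) / 2 := by
    intro s
    simp only [q, eval_mul, eval_C, eval_sub, eval_comp, eval_neg, eval_X]
    ring
  refine ⟨q, fun s => ?_, fun R hR => ?_, ?_⟩
  · rw [hq, hq, neg_neg]; ring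
  · have hR' : (R.comp (-X)).natDegree ≤ d := by
      rw [natDegree_comp]
      simpa using hR
    have i1 : Integrable (fun s => R1.eval s * R.eval s) G1 :=
      poly_dense_tail_intmul R (poly_dense_tail_mem R1)
    have i2 : Integrable (fun s => (R1.comp (-X)).eval s * R.eval s) G1 :=
      poly_dense_tail_intmul R (poly_dense_tail_mem _)
    have e : ∫ s, q.eval s * R.eval s ∂G1 =
        ∫ s, (1 / 2 : ℝ) * (R1.eval s * R.eval s - (R1.comp (-X)).eval s * R.eval s) ∂G1 := by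
      refine integral_congr_ae (Eventually.of_forall fun s => ?_)
      simp only [hq, eval_comp, eval_neg, eval_X]
      ring
    rw [e, integral_const_mul, integral_sub i1 i2, hQ R hR]
    have e2 : ∫ s, (R1.comp (-X)).eval s * R.eval s ∂G1 = 0 := by
      rw [← hQ (R.comp (-X)) hR', ← poly_dense_tail_even]
      refine integral_congr_ae (Eventually.of_forall fun s => ?_)
      simp only [eval_comp, eval_neg, eval_X, neg_neg]
    rw [e2]; ring
  · refine le_trans ?_ hle
    have hDn : Integrable (fun s => (ψ (-s) - R1.eval (-s)) ^ 2) G1 := by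
      have e : (fun s => (ψ (-s) - R1.eval (-s)) ^ 2) = fun s => (ψ s - (-(R1.comp (-X))).eval s) ^ 2 := by
        funext s
        simp only [hodd, eval_neg, eval_comp, eval_X]
        ring
      rw [e]
      exact (hψ.sub (poly_dense_tail_mem _)).integrable_sq
    have h1 : ∫ s, (ψ s - q.eval s) ^ 2 ∂G1 ≤
        ∫ s, ((1 / 2 : ℝ) * (ψ s - R1.eval s) ^ 2 + (1 / 2 : ℝ) * (ψ (-s) - R1.eval (-s)) ^ 2) ∂G1 := by
      refine integral_mono (hψ.sub (poly_dense_tail_mem q)).integrable_sq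
        ((hD2.const_mul _).add (hDn.const_mul _)) fun s => ?_
      simp only [hq, hodd]
      nlinarith [sq_nonneg ((ψ s - R1.eval s) + (-ψ s - R1.eval (-s)))]
    have h2 := poly_dense_tail_even (fun s => (ψ s - R1.eval s) ^ 2)
    rw [integral_add (hD2.const_mul _) (hDn.const_mul _), integral_const_mul, integral_const_mul, h2] at h1
    linarith

end HS
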