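import Pool.Agent.HS.Defs

set_option autoImplicit false

open MeasureTheory ProbabilityTheory Filter Topology Set Polynomial
open scoped ENNReal NNReal Real

namespace HS

theorem sum_moment_exp (r : ℝ) (hr : 2 < r) : ∃ C0 : ℝ, 0 < C0 ∧ ∀ t : ℝ, 0 ≤ t → t ^ r ≤ C0 * Real.exp t := by
  obtain ⟨k, hk⟩ := exists_nat_ge r
  refine ⟨1 + k.factorial, by positivity, fun t ht => ?_⟩
  have h1 : t ^ r ≤ 1 + t ^ k := by
    rcases le_total t 1 with h | h
    · have : t ^ r ≤ 1 := Real.rpow_le_one ht h (by linarith)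
      have : 0 ≤ t ^ k := by positivity
      linarith
    · have : t ^ r ≤ t ^ (k : ℝ) := Real.rpow_le_rpow_of_exponent_le h hk
      rw [Real.rpow_natCast] at this
      linarith
  have h2 : t ^ k / k.factorial ≤ Real.exp t := Real.pow_div_factorial_le_exp t ht k
  have h3 : t ^ k ≤ k.factorial * Real.exp t := by
    rw [div_le_iff₀ (by positivity)] at h2
    linarith
  have h4 : 1 ≤ Real.exp t := Real.one_le_exp ht
  nlinarith

theorem sum_moment_ind (n : ℕ) (B : Set ℝ) (hB : MeasurableSet B) (h10 : (n : ℝ) * G1.real B ≤ 10) :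
    Integrable (fun x : Fin n → ℝ => ∏ j, Real.exp (B.indicator (fun _ => (1 : ℝ)) (x j))) (Gn n) ∧
    ∫ x : Fin n → ℝ, ∏ j, Real.exp (B.indicator (fun _ => (1 : ℝ)) (x j)) ∂(Gn n) ≤ Real.exp 20 := by
  have hi : Integrable (fun s => Real.exp (B.indicator (fun _ => (1 : ℝ)) s)) G1 := by
    refine Integrable.of_bound (C := Real.exp 1) ?_ ?_
    · exact ((measurable_const.indicator hB).exp).aestronglyMeasurable
    · refine Eventually.of_forall fun s => ?_
      rw [Real.norm_eq_abs, abs_of_pos (Real.exp_pos _)]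
      apply Real.exp_le_exp.mpr
      by_cases hs : s ∈ B <;> simp [hs]
  constructor
  · exact Integrable.fintype_prod (fun _ => hi)
  · have h1 := MeasureTheory.integral_fintype_prod_eq_prod (𝕜 := ℝ) (ι := Fin n) (E := fun _ => ℝ)
      (μ := fun _ => gaussianReal 0 1)
      (fun _ s => Real.exp (B.indicator (fun _ => (1 : ℝ)) s))
    rw [h1]
    simp only [Finset.prod_const, Finset.card_univ, Fintype.card_fin]
    have h2 : ∫ s, Real.exp (B.indicator (fun _ => (1 : ℝ)) s) ∂(gaussianReal 0 1) = 1 + (Real.exp 1 - 1) * G1.real B := by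
      have : ∀ s, Real.exp (B.indicator (fun _ => (1 : ℝ)) s) = 1 + B.indicator (fun _ => (Real.exp 1 - 1)) s := by
        intro s
        by_cases hs : s ∈ B <;> simp [hs]
      simp_rw [this]
      rw [integral_add (integrable_const _) ((integrable_const _).indicator hB),
        integral_indicator hB]
      simp [mul_comm]
    rw [h2]
    have h3 : 1 + (Real.exp 1 - 1) * G1.real B ≤ Real.exp ((Real.exp 1 - 1) * G1.real B) := by
      have := Real.add_one_le_exp ((Real.exp 1 - 1) * G1.real B)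
      linarith
    have he : Real.exp 1 ≤ 3 := by
      have := Real.exp_one_lt_d9; linarith
    have he1 : 1 ≤ Real.exp 1 := Real.one_le_exp (by norm_num)
    have hnn : 0 ≤ G1.real B := measureReal_nonneg
    calc (1 + (Real.exp 1 - 1) * G1.real B) ^ n ≤ (Real.exp ((Real.exp 1 - 1) * G1.real B)) ^ n := by
          apply pow_le_pow_left₀ _ h3
          have : 0 ≤ (Real.exp 1 - 1) * G1.real B := mul_nonneg (by linarith) hnn
          linarith
      _ = Real.exp ((Real.exp 1 - 1) * ((n : ℝ) * G1.real B)) := by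
          rw [← Real.exp_nat_mul]; congr 1; ring
      _ ≤ Real.exp 20 := by
          apply Real.exp_le_exp.mpr
          have h0 : 0 ≤ (n : ℝ) * G1.real B := by positivity
          nlinarith

theorem sum_moment (r : ℝ) (hr : 2 < r) : ∃ Cr : ℝ, 0 < Cr ∧ ∀ (n : ℕ) (L : ℝ) (B : Set ℝ)
    (f : ℝ → ℝ), 0 < L → MeasurableSet B → Continuous f → (∀ s, |f s| ≤ L) →
    (∀ s, s ∉ B → f s = 0) → (n : ℝ) * G1.real B ≤ 10 →
    (∫ x : Fin n → ℝ, |∑ j, f (x j)| ^ r ∂(Gn n)) ^ (1 / r) ≤ Cr * L := by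
  obtain ⟨C0, hC0, hC⟩ := sum_moment_exp r hr
  refine ⟨(C0 * Real.exp 20) ^ (1 / r), by positivity, ?_⟩
  intro n L B f hL hB hf hfL hfB h10
  obtain ⟨hI, hle⟩ := sum_moment_ind n B hB h10
  have hr0 : 0 < r := by linarith
  have hpt : ∀ x : Fin n → ℝ, |∑ j, f (x j)| ^ r ≤ L ^ r * (C0 * ∏ j, Real.exp (B.indicator (fun _ => (1 : ℝ)) (x j))) := by
    intro x
    have h1 : |∑ j, f (x j)| ≤ L * ∑ j, B.indicator (fun _ => (1 : ℝ)) (x j) := by
      refine (Finset.abs_sum_le_sum_abs _ _).trans ?_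
      rw [Finset.mul_sum]
      refine Finset.sum_le_sum fun j _ => ?_
      by_cases hx : x j ∈ B
      · simp [hx, hfL]
      · simp [hx, hfB]
    have hN : 0 ≤ ∑ j, B.indicator (fun _ => (1 : ℝ)) (x j) :=
      Finset.sum_nonneg fun j _ => indicator_nonneg (fun _ _ => zero_le_one) _
    calc |∑ j, f (x j)| ^ r ≤ (L * ∑ j, B.indicator (fun _ => (1 : ℝ)) (x j)) ^ r :=
          Real.rpow_le_rpow (abs_nonneg _) h1 hr0.le
      _ = L ^ r * (∑ j, B.indicator (fun _ => (1 : ℝ)) (x j)) ^ r := Real.mul_rpow hL.le hN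
      _ ≤ L ^ r * (C0 * Real.exp (∑ j, B.indicator (fun _ => (1 : ℝ)) (x j))) := by
          gcongr
          exact hC _ hN
      _ = _ := by rw [Real.exp_sum]
  have hint : ∫ x : Fin n → ℝ, |∑ j, f (x j)| ^ r ∂(Gn n) ≤ L ^ r * (C0 * Real.exp 20) := by
    calc ∫ x : Fin n → ℝ, |∑ j, f (x j)| ^ r ∂(Gn n)
        ≤ ∫ x : Fin n → ℝ, L ^ r * (C0 * ∏ j, Real.exp (B.indicator (fun _ => (1 : ℝ)) (x j))) ∂(Gn n) := by
          refine integral_mono_of_nonneg (Eventually.of_forall fun x => by positivity) ?_ (Eventually.of_forall hpt)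
          exact (hI.const_mul C0).const_mul (L ^ r)
      _ = L ^ r * (C0 * ∫ x : Fin n → ℝ, ∏ j, Real.exp (B.indicator (fun _ => (1 : ℝ)) (x j)) ∂(Gn n)) := by
          rw [integral_const_mul, integral_const_mul]
      _ ≤ _ := by gcongr
  calc (∫ x : Fin n → ℝ, |∑ j, f (x j)| ^ r ∂(Gn n)) ^ (1 / r) ≤ (L ^ r * (C0 * Real.exp 20)) ^ (1 / r) := by
        apply Real.rpow_le_rpow _ hint (by positivity)
        exact integral_nonneg fun x => by positivity
    _ = (C0 * Real.exp 20) ^ (1 / r) * L := by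
        rw [Real.mul_rpow (by positivity) (by positivity), ← Real.rpow_mul hL.le, mul_one_div, div_self hr0.ne', Real.rpow_one, mul_comm]

end HS
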