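import Pool.Agent.HS.Defs
import Pool.Agent.HS.M_nn_bounds

set_option autoImplicit false

open MeasureTheory ProbabilityTheory Filter Topology Set Polynomial
open scoped ENNReal NNReal Real

namespace HS

theorem nn_tail_pdf (s : ℝ) : gaussianPDFReal 0 1 s = (√(2 * π))⁻¹ * Real.exp (-s ^ 2 / 2) := by
  simp [gaussianPDFReal]

theorem nn_tail_int (a : ℝ) : Integrable (fun s => Real.exp ((s ^ 2 - a ^ 2) / 4)) G1 := by
  unfold G1
  rw [gaussianReal_of_var_ne_zero _ one_ne_zero, integrable_withDensity_iff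
    (measurable_gaussianPDF 0 1) (ae_of_all _ fun x => gaussianPDF_lt_top)]
  have h1 : Integrable (fun s : ℝ => ((√(2 * π))⁻¹ * Real.exp (-(a ^ 2 / 4))) *
      Real.exp (-(1 / 4) * s ^ 2)) volume :=
    (integrable_exp_neg_mul_sq (by norm_num : (0 : ℝ) < 1 / 4)).const_mul _
  refine h1.congr (ae_of_all _ fun s => ?_)
  simp only
  rw [toReal_gaussianPDF, nn_tail_pdf]
  have : Real.exp ((s ^ 2 - a ^ 2) / 4) * ((√(2 * π))⁻¹ * Real.exp (-s ^ 2 / 2)) =
      (√(2 * π))⁻¹ * (Real.exp ((s ^ 2 - a ^ 2) / 4) * Real.exp (-s ^ 2 / 2)) := by ring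
  rw [this, ← Real.exp_add, mul_assoc, ← Real.exp_add]
  congr 2
  ring

theorem nn_tail_half (a : ℝ) (ha : 1 ≤ a) :
    ∫ s in {s | a ≤ |s|}, Real.exp ((s ^ 2 - a ^ 2) / 4) ∂G1 ≤
      (√(2 * π))⁻¹ * Real.exp (-(a ^ 2 / 2)) * (4 / a) := by
  have hms : MeasurableSet {s : ℝ | a ≤ |s|} := measurableSet_le measurable_const (by fun_prop)
  have hms2 : MeasurableSet {s : ℝ | a ≤ s} := measurableSet_Ici
  rw [← integral_indicator hms]
  unfold G1
  rw [integral_gaussianReal_eq_integral_smul one_ne_zero]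
  -- the majorant
  have hneg : -(a / 2) < 0 := by linarith
  let F : ℝ → ℝ := fun x => Set.indicator {s : ℝ | a ≤ s} (fun s => Real.exp (-(a / 2) * s)) x
  have hF0 : ∫ x in Ioi (0 : ℝ), F x = Real.exp (-(a ^ 2 / 2)) / (a / 2) := by
    have e1 : ∫ x in Ioi (0 : ℝ), F x = ∫ x in Ioi (0 : ℝ) ∩ {s : ℝ | a ≤ s},
        Real.exp (-(a / 2) * x) := by
      exact setIntegral_indicator hms2
    have e2 : Ioi (0 : ℝ) ∩ {s : ℝ | a ≤ s} = Ici a := by
      ext x
      simp only [mem_inter_iff, mem_Ioi, mem_setOf_eq, mem_Ici]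
      constructor
      · exact fun h => h.2
      · exact fun h => ⟨by linarith, h⟩
    rw [e1, e2, integral_Ici_eq_integral_Ioi, integral_exp_mul_Ioi hneg]
    have : -(a / 2) * a = -(a ^ 2 / 2) := by ring
    rw [this, neg_div_neg_eq]
  have hFi : Integrable (fun x => F |x|) volume := by
    have h1 : IntegrableOn F (Ioi 0) := by
      have := (integrableOn_exp_mul_Ioi hneg 0).indicator hms2
      exact this
    have h1' : IntegrableOn (fun x => F |x|) (Ioi 0) :=
      h1.congr_fun (fun x hx => by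
        have hx' : (0 : ℝ) < x := hx
        simp only [abs_of_pos hx']) measurableSet_Ioi
    have h2 : IntegrableOn (fun x => F |x|) (Iic 0) := by
      rw [← Measure.map_neg_eq_self (volume : Measure ℝ)]
      let m : MeasurableEmbedding fun x : ℝ => -x := (Homeomorph.neg ℝ).measurableEmbedding
      rw [m.integrableOn_map_iff]
      simp_rw [Function.comp_def, abs_neg, neg_preimage, neg_Iic, neg_zero]
      exact Iff.mpr integrableOn_Ici_iff_integrableOn_Ioi h1'
    have h3 := h2.union h1'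
    rwa [Iic_union_Ioi, integrableOn_univ] at h3
  have hmaj : ∀ s : ℝ, gaussianPDFReal 0 1 s • ({s | a ≤ |s|} : Set ℝ).indicator
      (fun s => Real.exp ((s ^ 2 - a ^ 2) / 4)) s ≤ (√(2 * π))⁻¹ * F |s| := by
    intro s
    by_cases hs : a ≤ |s|
    · rw [indicator_of_mem (show s ∈ ({s | a ≤ |s|} : Set ℝ) from hs)]
      have : F |s| = Real.exp (-(a / 2) * |s|) := indicator_of_mem (show |s| ∈ {s : ℝ | a ≤ s} from hs) _
      rw [this, nn_tail_pdf, smul_eq_mul, mul_assoc, ← Real.exp_add]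
      refine mul_le_mul_of_nonneg_left (Real.exp_le_exp.mpr ?_) (by positivity)
      have h2 : s ^ 2 = |s| ^ 2 := (sq_abs s).symm
      rw [h2]
      nlinarith [abs_nonneg s]
    · rw [indicator_of_notMem (show s ∉ ({s | a ≤ |s|} : Set ℝ) from hs), smul_zero]
      have : F |s| = 0 := indicator_of_notMem (show |s| ∉ {s : ℝ | a ≤ s} from hs) _
      rw [this, mul_zero]
  have hint : ∫ x, (√(2 * π))⁻¹ * F |x| = (√(2 * π))⁻¹ * (2 * (Real.exp (-(a ^ 2 / 2)) / (a / 2))) := by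
    rw [integral_const_mul, integral_comp_abs, hF0]
  have hle := integral_mono_of_nonneg (μ := (volume : Measure ℝ))
    (f := fun s : ℝ => gaussianPDFReal 0 1 s • ({s | a ≤ |s|} : Set ℝ).indicator
      (fun s => Real.exp ((s ^ 2 - a ^ 2) / 4)) s) (g := fun x => (√(2 * π))⁻¹ * F |x|)
    (ae_of_all _ fun s => by
      simp only [Pi.zero_apply]
      refine smul_nonneg (gaussianPDFReal_nonneg _ _ _) (indicator_nonneg (fun _ _ => (Real.exp_pos _).le) _))
    (hFi.const_mul _) (ae_of_all _ hmaj)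
  refine hle.trans (le_of_eq ?_)
  rw [hint]
  have ha0 : a ≠ 0 := by linarith
  field_simp
  try ring

theorem nn_tail (a : ℝ) (ha : 1 ≤ a) :
    Integrable (fun s => Real.exp ((s ^ 2 - a ^ 2) / 4)) G1 ∧
    (nn a : ℝ) * ∫ s in {s | a ≤ |s|}, Real.exp ((s ^ 2 - a ^ 2) / 4) ∂G1 ≤ 10 := by
  refine ⟨nn_tail_int a, ?_⟩
  have ha0 : 0 < a := by linarith
  have h1 := nn_tail_half a ha
  have h2 := (nn_bounds a ha).2
  have hs : (√(2 * π))⁻¹ ≤ 1 := by
    have : 1 ≤ √(2 * π) := by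
      rw [Real.one_le_sqrt]
      nlinarith [Real.pi_gt_three]
    exact inv_le_one_of_one_le₀ this
  calc (nn a : ℝ) * ∫ s in {s | a ≤ |s|}, Real.exp ((s ^ 2 - a ^ 2) / 4) ∂G1
      ≤ (nn a : ℝ) * ((√(2 * π))⁻¹ * Real.exp (-(a ^ 2 / 2)) * (4 / a)) :=
        mul_le_mul_of_nonneg_left h1 (Nat.cast_nonneg _)
    _ ≤ (2 * a * Real.exp (a ^ 2 / 2)) * ((√(2 * π))⁻¹ * Real.exp (-(a ^ 2 / 2)) * (4 / a)) := by
        refine mul_le_mul_of_nonneg_right h2 (by positivity)
    _ = 8 * (√(2 * π))⁻¹ * (Real.exp (a ^ 2 / 2) * Real.exp (-(a ^ 2 / 2))) := by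
        field_simp
        try ring
    _ = 8 * (√(2 * π))⁻¹ := by
        rw [← Real.exp_add, add_neg_cancel, Real.exp_zero, mul_one]
    _ ≤ 10 := by linarith

end HS
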