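import Pool.Agent.HS.Defs

set_option autoImplicit false

open MeasureTheory ProbabilityTheory Filter Topology Set Polynomial
open scoped ENNReal NNReal Real

namespace HS

theorem sum_upper_pt1 (r A x : ℝ) (hr0 : 0 < r) (hr1 : r < 1) (hA : 1 ≤ A) :
    (A + x ^ 2) ^ r ≤ A ^ r + x ^ 2 := by
  have hA0 : 0 < A := by linarith
  have e : A + x ^ 2 = A * (1 + x ^ 2 / A) := by field_simp
  have h1 : (1 + x ^ 2 / A) ^ r ≤ 1 + r * (x ^ 2 / A) :=
    rpow_one_add_le_one_add_mul_self (by have : 0 ≤ x ^ 2 / A := by positivity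
                                         linarith) hr0.le hr1.le
  rw [e, Real.mul_rpow hA0.le (by positivity)]
  have h2 : A ^ r * (1 + x ^ 2 / A) ^ r ≤ A ^ r * (1 + r * (x ^ 2 / A)) :=
    mul_le_mul_of_nonneg_left h1 (by positivity)
  refine h2.trans ?_
  have h3 : A ^ r ≤ A := by
    calc A ^ r ≤ A ^ (1 : ℝ) := Real.rpow_le_rpow_of_exponent_le hA hr1.le
      _ = A := Real.rpow_one A
  have h4 : A ^ r * (x ^ 2 / A) ≤ x ^ 2 := by
    calc A ^ r * (x ^ 2 / A) ≤ A * (x ^ 2 / A) := mul_le_mul_of_nonneg_right h3 (by positivity)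
      _ = x ^ 2 := by field_simp
  have h5 : 0 ≤ A ^ r * (x ^ 2 / A) := by positivity
  nlinarith

theorem sum_upper_pt2 (p A x : ℝ) (hp : 1 < p) (hp2 : p < 2) (hA : 0 ≤ A) :
    (A + x ^ 2) ^ (p / 2) ≤ A ^ (p / 2) + |x| ^ p := by
  have h1 := Real.rpow_add_le_add_rpow (p := p / 2) hA (sq_nonneg x) (by linarith) (by linarith)
  refine h1.trans (le_of_eq ?_)
  congr 1
  rw [← sq_abs, ← Real.rpow_natCast, ← Real.rpow_mul (abs_nonneg x)]
  congr 1
  push_cast
  ring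

theorem sum_upper_avg (r S v : ℝ) (hr0 : 0 < r) (hr1 : r < 1) :
    (1 + (v + S) ^ 2) ^ r + (1 + (-v + S) ^ 2) ^ r ≤ 2 * (1 + S ^ 2 + v ^ 2) ^ r := by
  have hx : (1 + (v + S) ^ 2) ∈ Set.Ici (0 : ℝ) := by
    rw [Set.mem_Ici]; positivity
  have hy : (1 + (-v + S) ^ 2) ∈ Set.Ici (0 : ℝ) := by
    rw [Set.mem_Ici]; positivity
  have h := (Real.concaveOn_rpow hr0.le hr1.le).2 hx hy (by norm_num : (0 : ℝ) ≤ 1 / 2)
    (by norm_num : (0 : ℝ) ≤ 1 / 2) (by norm_num)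
  simp only [smul_eq_mul] at h
  have e : 1 / 2 * (1 + (v + S) ^ 2) + 1 / 2 * (1 + (-v + S) ^ 2) = 1 + S ^ 2 + v ^ 2 := by ring
  rw [e] at h
  linarith

/-- the bound for one summand -/
noncomputable def sum_upper_m (p a : ℝ) (q : ℝ → ℝ) (s : ℝ) : ℝ :=
  {s : ℝ | |s| < a}.indicator (fun s => (q s) ^ 2) s +
    {s : ℝ | a ≤ |s|}.indicator (fun s => |q s| ^ p) s

theorem sum_upper_m_eq (p a : ℝ) (q : ℝ → ℝ) (s : ℝ) :
    sum_upper_m p a q s = if |s| < a then (q s) ^ 2 else |q s| ^ p := by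
  unfold sum_upper_m
  by_cases h : |s| < a
  · have h1 : s ∈ {s : ℝ | |s| < a} := h
    have h2 : s ∉ {s : ℝ | a ≤ |s|} := not_le.2 h
    rw [Set.indicator_of_mem h1, Set.indicator_of_notMem h2, if_pos h, add_zero]
  · have h1 : s ∉ {s : ℝ | |s| < a} := h
    have h2 : s ∈ {s : ℝ | a ≤ |s|} := not_lt.1 h
    rw [Set.indicator_of_notMem h1, Set.indicator_of_mem h2, if_neg h, zero_add]

theorem sum_upper_m_nonneg (p a : ℝ) (q : ℝ → ℝ) (s : ℝ) : 0 ≤ sum_upper_m p a q s := by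
  rw [sum_upper_m_eq]
  split_ifs <;> positivity

theorem sum_upper_meas1 (a : ℝ) : MeasurableSet {s : ℝ | |s| < a} :=
  measurableSet_lt (by fun_prop) (by fun_prop)

theorem sum_upper_meas2 (a : ℝ) : MeasurableSet {s : ℝ | a ≤ |s|} :=
  measurableSet_le (by fun_prop) (by fun_prop)

theorem sum_upper_m_meas (p a : ℝ) (q : ℝ → ℝ) (hq : Continuous q) :
    Measurable (sum_upper_m p a q) := by
  have hqm := hq.measurable
  exact (Measurable.indicator (by fun_prop) (sum_upper_meas1 a)).add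
    (Measurable.indicator (by fun_prop) (sum_upper_meas2 a))

/-- one step -/
theorem sum_upper_one (p a S : ℝ) (hp : 1 < p) (hp2 : p < 2) (q : ℝ → ℝ) (hq : Continuous q)
    (hodd : ∀ s, q (-s) = -q s) :
    ∫⁻ s, ENNReal.ofReal ((1 + (q s + S) ^ 2) ^ (p / 2)) ∂G1 ≤
      ENNReal.ofReal ((1 + S ^ 2) ^ (p / 2)) + ∫⁻ s, ENNReal.ofReal (sum_upper_m p a q s) ∂G1 := by
  have hqm := hq.measurable
  have hsym : ∫⁻ s, ENNReal.ofReal ((1 + (q s + S) ^ 2) ^ (p / 2)) ∂G1 =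
      ∫⁻ s, ENNReal.ofReal ((1 + (-q s + S) ^ 2) ^ (p / 2)) ∂G1 := by
    have hG : (G1).map (fun x : ℝ => -x) = G1 := by
      have := gaussianReal_map_neg (μ := 0) (v := 1)
      rwa [neg_zero] at this
    conv_lhs => rw [← hG]
    rw [lintegral_map (by fun_prop) (by fun_prop)]
    simp only [hodd]
  have hpt : ∀ s, ENNReal.ofReal ((1 + (q s + S) ^ 2) ^ (p / 2)) +
      ENNReal.ofReal ((1 + (-q s + S) ^ 2) ^ (p / 2)) ≤
      2 * (ENNReal.ofReal ((1 + S ^ 2) ^ (p / 2)) + ENNReal.ofReal (sum_upper_m p a q s)) := by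
    intro s
    rw [← ENNReal.ofReal_add (by positivity) (by positivity),
      ← ENNReal.ofReal_add (by positivity) (sum_upper_m_nonneg p a q s),
      ← ENNReal.ofReal_ofNat 2, ← ENNReal.ofReal_mul (by norm_num)]
    apply ENNReal.ofReal_le_ofReal
    have h1 := sum_upper_avg (p / 2) S (q s) (by linarith) (by linarith)
    have h2 : (1 + S ^ 2 + q s ^ 2) ^ (p / 2) ≤ (1 + S ^ 2) ^ (p / 2) + sum_upper_m p a q s := by
      rw [sum_upper_m_eq]
      split_ifs with h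
      · exact sum_upper_pt1 _ _ _ (by linarith) (by linarith) (by nlinarith [sq_nonneg S])
      · exact sum_upper_pt2 _ _ _ hp hp2 (by positivity)
    linarith
  have h2 : 2 * ∫⁻ s, ENNReal.ofReal ((1 + (q s + S) ^ 2) ^ (p / 2)) ∂G1 ≤
      2 * (ENNReal.ofReal ((1 + S ^ 2) ^ (p / 2)) +
        ∫⁻ s, ENNReal.ofReal (sum_upper_m p a q s) ∂G1) := by
    calc 2 * ∫⁻ s, ENNReal.ofReal ((1 + (q s + S) ^ 2) ^ (p / 2)) ∂G1
        = ∫⁻ s, ENNReal.ofReal ((1 + (q s + S) ^ 2) ^ (p / 2)) ∂G1 +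
          ∫⁻ s, ENNReal.ofReal ((1 + (-q s + S) ^ 2) ^ (p / 2)) ∂G1 := by
            rw [← hsym, two_mul]
      _ = ∫⁻ s, (ENNReal.ofReal ((1 + (q s + S) ^ 2) ^ (p / 2)) +
          ENNReal.ofReal ((1 + (-q s + S) ^ 2) ^ (p / 2))) ∂G1 := by
            rw [lintegral_add_left (by fun_prop)]
      _ ≤ ∫⁻ s, 2 * (ENNReal.ofReal ((1 + S ^ 2) ^ (p / 2)) +
          ENNReal.ofReal (sum_upper_m p a q s)) ∂G1 := lintegral_mono hpt
      _ = _ := by
            rw [lintegral_const_mul' _ _ (by norm_num), lintegral_add_left (by fun_prop),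
              lintegral_const, measure_univ, mul_one]
  exact (ENNReal.mul_le_mul_iff_right (by norm_num) (by norm_num)).1 h2

theorem sum_upper_ind (p a : ℝ) (hp : 1 < p) (hp2 : p < 2) (q : ℝ → ℝ) (hq : Continuous q)
    (hodd : ∀ s, q (-s) = -q s) (n : ℕ) :
    ∫⁻ x, ENNReal.ofReal ((1 + (∑ j, q (x j)) ^ 2) ^ (p / 2)) ∂(Gn n) ≤
      1 + n * ∫⁻ s, ENNReal.ofReal (sum_upper_m p a q s) ∂G1 := by
  have hqm := hq.measurable
  induction n with
  | zero => simp
  | succ n ih =>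
    have hmp := (measurePreserving_piFinSuccAbove (fun _ : Fin (n + 1) => gaussianReal 0 1) 0).symm
    have hmeas : Measurable (fun x : Fin (n + 1) → ℝ =>
        ENNReal.ofReal ((1 + (∑ j, q (x j)) ^ 2) ^ (p / 2))) := by fun_prop
    have h1 := hmp.lintegral_comp hmeas
    show ∫⁻ x, ENNReal.ofReal ((1 + (∑ j, q (x j)) ^ 2) ^ (p / 2))
      ∂(Measure.pi (fun _ : Fin (n + 1) => gaussianReal 0 1)) ≤ _
    rw [← h1]
    have h2 : Measurable (fun z : ℝ × (Fin n → ℝ) => ENNReal.ofReal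
        ((1 + (∑ j, q ((MeasurableEquiv.piFinSuccAbove (fun _ : Fin (n + 1) => ℝ) 0).symm z j)) ^ 2)
          ^ (p / 2))) := hmeas.comp (MeasurableEquiv.measurable _)
    refine (le_of_eq (lintegral_prod_symm' _ h2)).trans ?_
    have e : ∀ (s : ℝ) (y : Fin n → ℝ), ∑ j, q ((MeasurableEquiv.piFinSuccAbove
        (fun _ : Fin (n + 1) => ℝ) 0).symm (s, y) j) = q s + ∑ j, q (y j) := by
      intro s y
      rw [Fin.sum_univ_succ]
      simp [MeasurableEquiv.piFinSuccAbove]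
    simp only [e]
    calc ∫⁻ y : Fin n → ℝ, ∫⁻ s : ℝ, ENNReal.ofReal ((1 + (q s + ∑ j, q (y j)) ^ 2) ^ (p / 2)) ∂G1
          ∂(Gn n)
        ≤ ∫⁻ y : Fin n → ℝ, (ENNReal.ofReal ((1 + (∑ j, q (y j)) ^ 2) ^ (p / 2)) +
          ∫⁻ s, ENNReal.ofReal (sum_upper_m p a q s) ∂G1) ∂(Gn n) :=
          lintegral_mono fun y => sum_upper_one p a _ hp hp2 q hq hodd
      _ = ∫⁻ y : Fin n → ℝ, ENNReal.ofReal ((1 + (∑ j, q (y j)) ^ 2) ^ (p / 2)) ∂(Gn n) +
          ∫⁻ s, ENNReal.ofReal (sum_upper_m p a q s) ∂G1 := by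
          rw [lintegral_add_right _ measurable_const, lintegral_const, measure_univ, mul_one]
      _ ≤ (1 + n * ∫⁻ s, ENNReal.ofReal (sum_upper_m p a q s) ∂G1) +
          ∫⁻ s, ENNReal.ofReal (sum_upper_m p a q s) ∂G1 := by gcongr
      _ = 1 + ((n + 1 : ℕ) : ℝ≥0∞) * ∫⁻ s, ENNReal.ofReal (sum_upper_m p a q s) ∂G1 := by
          push_cast
          ring

/-- sums of independent symmetric variables: `E |Σ ψ(x_j)|^p` for `1 < p < 2` -/
theorem sum_upper (n : ℕ) (p a : ℝ) (hp : 1 < p) (hp2 : p < 2) (q : ℝ → ℝ) (hq : Continuous q)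
    (hodd : ∀ s, q (-s) = -q s) (hL2 : MemLp q 2 G1) :
    Integrable (fun x : Fin n → ℝ => |∑ j, q (x j)| ^ p) (Gn n) ∧
    ∫ x : Fin n → ℝ, |∑ j, q (x j)| ^ p ∂(Gn n) ≤
      1 + (n : ℝ) * ∫ s in {s | |s| < a}, (q s) ^ 2 ∂G1 +
        (n : ℝ) * ∫ s in {s | a ≤ |s|}, |q s| ^ p ∂G1 := by
  have hqm := hq.measurable
  have hsq : Integrable (fun s => (q s) ^ 2) G1 := hL2.integrable_sq
  have hpp : Integrable (fun s => |q s| ^ p) G1 := by
    refine Integrable.mono' ((integrable_const (1 : ℝ)).add hsq)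
      (hqm.abs.pow_const p).aestronglyMeasurable (Eventually.of_forall fun s => ?_)
    rw [Real.norm_of_nonneg (by positivity)]
    show |q s| ^ p ≤ 1 + (q s) ^ 2
    rcases le_total |q s| 1 with h | h
    · have : |q s| ^ p ≤ 1 := Real.rpow_le_one (abs_nonneg _) h (by linarith)
      nlinarith [sq_nonneg (q s)]
    · have : |q s| ^ p ≤ |q s| ^ (2 : ℝ) := Real.rpow_le_rpow_of_exponent_le h hp2.le
      rw [Real.rpow_two, sq_abs] at this
      linarith
  have hi1 : Integrable ({s : ℝ | |s| < a}.indicator (fun s => (q s) ^ 2)) G1 :=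
    hsq.indicator (sum_upper_meas1 a)
  have hi2 : Integrable ({s : ℝ | a ≤ |s|}.indicator (fun s => |q s| ^ p)) G1 :=
    hpp.indicator (sum_upper_meas2 a)
  have him : Integrable (sum_upper_m p a q) G1 := hi1.add hi2
  have hMint : ∫ s, sum_upper_m p a q s ∂G1 = ∫ s in {s | |s| < a}, (q s) ^ 2 ∂G1 +
      ∫ s in {s | a ≤ |s|}, |q s| ^ p ∂G1 := by
    rw [← integral_indicator (sum_upper_meas1 a), ← integral_indicator (sum_upper_meas2 a),
      ← integral_add hi1 hi2]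
    rfl
  have hMl : ∫⁻ s, ENNReal.ofReal (sum_upper_m p a q s) ∂G1 =
      ENNReal.ofReal (∫ s, sum_upper_m p a q s ∂G1) :=
    (ofReal_integral_eq_lintegral_ofReal him
      (Eventually.of_forall fun s => sum_upper_m_nonneg p a q s)).symm
  have hM0 : 0 ≤ ∫ s, sum_upper_m p a q s ∂G1 :=
    integral_nonneg fun s => sum_upper_m_nonneg p a q s
  have hlin : ∫⁻ x : Fin n → ℝ, ENNReal.ofReal (|∑ j, q (x j)| ^ p) ∂(Gn n) ≤
      ENNReal.ofReal (1 + n * ∫ s, sum_upper_m p a q s ∂G1) := by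
    calc ∫⁻ x : Fin n → ℝ, ENNReal.ofReal (|∑ j, q (x j)| ^ p) ∂(Gn n)
        ≤ ∫⁻ x, ENNReal.ofReal ((1 + (∑ j, q (x j)) ^ 2) ^ (p / 2)) ∂(Gn n) := by
          apply lintegral_mono
          intro x
          apply ENNReal.ofReal_le_ofReal
          have e : |∑ j, q (x j)| ^ p = ((∑ j, q (x j)) ^ 2) ^ (p / 2) := by
            rw [← sq_abs, ← Real.rpow_natCast, ← Real.rpow_mul (abs_nonneg _)]
            congr 1
            push_cast
            ring
          rw [e]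
          exact Real.rpow_le_rpow (by positivity) (by linarith) (by linarith)
      _ ≤ 1 + n * ∫⁻ s, ENNReal.ofReal (sum_upper_m p a q s) ∂G1 :=
          sum_upper_ind p a hp hp2 q hq hodd n
      _ = ENNReal.ofReal (1 + n * ∫ s, sum_upper_m p a q s ∂G1) := by
          rw [hMl, ENNReal.ofReal_add (by norm_num) (by positivity), ENNReal.ofReal_one,
            ENNReal.ofReal_mul (by positivity), ENNReal.ofReal_natCast]
  have hint : Integrable (fun x : Fin n → ℝ => |∑ j, q (x j)| ^ p) (Gn n) := by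
    have hmm : Measurable (fun x : Fin n → ℝ => ∑ j, q (x j)) := by fun_prop
    refine ⟨(hmm.abs.pow_const p).aestronglyMeasurable, ?_⟩
    rw [hasFiniteIntegral_iff_ofReal (Eventually.of_forall fun x => by positivity)]
    exact lt_of_le_of_lt hlin ENNReal.ofReal_lt_top
  refine ⟨hint, ?_⟩
  rw [integral_eq_lintegral_of_nonneg_ae (Eventually.of_forall fun x => by positivity)
    hint.aestronglyMeasurable]
  have := ENNReal.toReal_le_of_le_ofReal (by positivity) hlin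
  rw [hMint] at this
  linarith

end HS
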