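import Pool.Agent.HS.Defs
import Pool.Agent.HS.M_nn_bounds
import Pool.Agent.HS.M_nn_tail
import Pool.Agent.HS.M_sum_upper

set_option autoImplicit false

open MeasureTheory ProbabilityTheory Filter Topology Set Polynomial
open scoped ENNReal NNReal Real

namespace HS

theorem sum_upper_KK_cont (a α : ℝ) : Continuous (fun s => KK a α s) := by
  unfold KK
  fun_prop

theorem sum_upper_KK_one_le (a α s : ℝ) (hα : 0 ≤ α) : 1 ≤ KK a α s := by
  unfold KK
  apply Real.one_le_exp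
  have : 0 ≤ max (s ^ 2 - a ^ 2) 0 := le_max_right _ _
  positivity

theorem sum_upper_KK_young (p a : ℝ) (hp : 1 < p) (hp2 : p < 2) (ha : 1 ≤ a) (s t : ℝ)
    (hs : a ≤ |s|) :
    |t| ^ p ≤ t ^ 2 * (KK a ((2 - p) / (2 * p)) s)⁻¹ + Real.exp ((s ^ 2 - a ^ 2) / 4) := by
  have hp0 : 0 < p := by linarith
  have h2 : a ^ 2 ≤ s ^ 2 := by
    rw [← sq_abs s]
    exact pow_le_pow_left₀ (by linarith) hs 2
  have hK : KK a ((2 - p) / (2 * p)) s = Real.exp ((2 - p) / (4 * p) * (s ^ 2 - a ^ 2)) := by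
    unfold KK
    rw [max_eq_left (by linarith)]
    congr 1
    field_simp
    ring
  set X := t ^ 2 * (KK a ((2 - p) / (2 * p)) s)⁻¹ with hX
  set Y := Real.exp ((s ^ 2 - a ^ 2) / 4) with hY
  have hX0 : 0 ≤ X := by
    rw [hX, hK]; positivity
  have hY0 : 0 ≤ Y := (Real.exp_pos _).le
  have h := Real.geom_mean_le_arith_mean2_weighted (w₁ := p / 2) (w₂ := 1 - p / 2) (p₁ := X) (p₂ := Y)
    (by linarith) (by linarith) hX0 hY0 (by ring)
  have e1 : X ^ (p / 2) * Y ^ (1 - p / 2) = |t| ^ p := by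
    have a1 : X ^ (p / 2) = |t| ^ p * Real.exp (-((2 - p) / (4 * p) * (s ^ 2 - a ^ 2)) * (p / 2)) := by
      rw [hX, hK, ← Real.exp_neg, Real.mul_rpow (by positivity) (Real.exp_pos _).le, ← Real.exp_mul]
      congr 1
      rw [← sq_abs t, ← Real.rpow_natCast, ← Real.rpow_mul (abs_nonneg t)]
      congr 1
      push_cast
      ring
    have a2 : Y ^ (1 - p / 2) = Real.exp ((s ^ 2 - a ^ 2) / 4 * (1 - p / 2)) := by
      rw [hY, ← Real.exp_mul]
    rw [a1, a2, mul_assoc, ← Real.exp_add]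
    have : -((2 - p) / (4 * p) * (s ^ 2 - a ^ 2)) * (p / 2) + (s ^ 2 - a ^ 2) / 4 * (1 - p / 2) = 0 := by
      field_simp
      ring
    rw [this, Real.exp_zero, mul_one]
  rw [e1] at h
  have h3 : p / 2 * X ≤ 1 * X := mul_le_mul_of_nonneg_right (by linarith) hX0
  have h4 : (1 - p / 2) * Y ≤ 1 * Y := mul_le_mul_of_nonneg_right (by linarith) hY0
  linarith

theorem sum_upper_KK (p a : ℝ) (hp : 1 < p) (hp2 : p < 2) (ha : 1 ≤ a) (q : ℝ → ℝ)
    (hq : Continuous q) (hodd : ∀ s, q (-s) = -q s) (hL2 : MemLp q 2 G1) :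
    ∫ x : Fin (nn a) → ℝ, |∑ j, q (x j)| ^ p ∂(Gn (nn a)) ≤
      11 + 2 * ((nn a : ℝ) * ∫ s, (q s) ^ 2 * (KK a ((2 - p) / (2 * p)) s)⁻¹ ∂G1) := by
  have hp0 : 0 < p := by linarith
  have hα : 0 ≤ (2 - p) / (2 * p) := by
    apply div_nonneg <;> linarith
  obtain ⟨_, hU⟩ := sum_upper (nn a) p a hp hp2 q hq hodd hL2
  obtain ⟨hEi, hE⟩ := nn_tail a ha
  have hcK : Continuous (fun s => KK a ((2 - p) / (2 * p)) s) := sum_upper_KK_cont _ _
  have hq2 : Integrable (fun s => (q s) ^ 2) G1 := hL2.integrable_sq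
  have hKi : Integrable (fun s => (q s) ^ 2 * (KK a ((2 - p) / (2 * p)) s)⁻¹) G1 := by
    refine hq2.mono' ?_ (Filter.Eventually.of_forall fun s => ?_)
    · refine Continuous.aestronglyMeasurable ?_
      refine (hq.pow 2).mul (hcK.inv₀ fun s => ?_)
      have := sum_upper_KK_one_le a ((2 - p) / (2 * p)) s hα
      positivity
    · have h1 := sum_upper_KK_one_le a ((2 - p) / (2 * p)) s hα
      have h2 : (KK a ((2 - p) / (2 * p)) s)⁻¹ ≤ 1 := inv_le_one_of_one_le₀ h1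
      have h3 : 0 ≤ (KK a ((2 - p) / (2 * p)) s)⁻¹ := by positivity
      rw [Real.norm_eq_abs, abs_of_nonneg (by positivity)]
      calc (q s) ^ 2 * (KK a ((2 - p) / (2 * p)) s)⁻¹ ≤ (q s) ^ 2 * 1 := by gcongr
        _ = _ := mul_one _
  have hnn : ∀ s, 0 ≤ (q s) ^ 2 * (KK a ((2 - p) / (2 * p)) s)⁻¹ := by
    intro s
    have h1 := sum_upper_KK_one_le a ((2 - p) / (2 * p)) s hα
    positivity
  set J := ∫ s, (q s) ^ 2 * (KK a ((2 - p) / (2 * p)) s)⁻¹ ∂G1 with hJ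
  have hm1 : MeasurableSet {s : ℝ | |s| < a} := measurableSet_lt (by fun_prop) measurable_const
  have hm2 : MeasurableSet {s : ℝ | a ≤ |s|} := measurableSet_le measurable_const (by fun_prop)
  have hA : ∫ s in {s | |s| < a}, (q s) ^ 2 ∂G1 ≤ J := by
    have e : ∫ s in {s | |s| < a}, (q s) ^ 2 ∂G1
        = ∫ s in {s | |s| < a}, (q s) ^ 2 * (KK a ((2 - p) / (2 * p)) s)⁻¹ ∂G1 := by
      refine setIntegral_congr_fun hm1 fun s hs => ?_
      have h2 : s ^ 2 ≤ a ^ 2 := by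
        rw [← sq_abs s]
        exact pow_le_pow_left₀ (abs_nonneg _) (le_of_lt hs) 2
      have : KK a ((2 - p) / (2 * p)) s = 1 := by
        unfold KK
        rw [max_eq_right (by linarith), mul_zero, Real.exp_zero]
      simp only [this, inv_one, mul_one]
    rw [e]
    exact setIntegral_le_integral hKi (Filter.Eventually.of_forall hnn)
  have hB : ∫ s in {s | a ≤ |s|}, |q s| ^ p ∂G1
      ≤ J + ∫ s in {s | a ≤ |s|}, Real.exp ((s ^ 2 - a ^ 2) / 4) ∂G1 := by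
    have h1 : ∫ s in {s | a ≤ |s|}, |q s| ^ p ∂G1
        ≤ ∫ s in {s | a ≤ |s|}, ((q s) ^ 2 * (KK a ((2 - p) / (2 * p)) s)⁻¹
          + Real.exp ((s ^ 2 - a ^ 2) / 4)) ∂G1 := by
      refine integral_mono_of_nonneg (Filter.Eventually.of_forall fun s => by positivity)
        (hKi.integrableOn.add hEi.integrableOn) ?_
      filter_upwards [ae_restrict_mem hm2] with s hs
      exact sum_upper_KK_young p a hp hp2 ha s (q s) hs
    rw [integral_add hKi.integrableOn hEi.integrableOn] at h1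
    have h2 : ∫ s in {s | a ≤ |s|}, (q s) ^ 2 * (KK a ((2 - p) / (2 * p)) s)⁻¹ ∂G1 ≤ J :=
      setIntegral_le_integral hKi (Filter.Eventually.of_forall hnn)
    linarith
  have hn : (0 : ℝ) ≤ (nn a : ℝ) := Nat.cast_nonneg _
  have hA' := mul_le_mul_of_nonneg_left hA hn
  have hB' := mul_le_mul_of_nonneg_left hB hn
  rw [mul_add] at hB'
  linarith

end HS
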