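import Pool.Agent.HS.Defs
import Pool.Agent.HS.M_gg_facts
import Pool.Agent.HS.M_ph_facts
import Pool.Agent.HS.M_ibp
import Pool.Agent.HS.M_nn_mass
import Pool.Agent.HS.M_exists_psi
import Pool.Agent.HS.M_poly_integrable
import Pool.Agent.HS.M_poly_dense_tail
import Pool.Agent.HS.M_NN_inv
import Pool.Agent.HS.M_sum_upper_KK
import Pool.Agent.HS.M_sum_moment
import Pool.Agent.HS.M_holder_pair

set_option autoImplicit false

open MeasureTheory ProbabilityTheory Filter Topology Set Polynomial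
open scoped ENNReal NNReal Real

namespace HS

theorem weak_fail_L1 (f : ℝ → ℝ) (hf : MemLp f 2 G1) (η : ℝ) (hη : 0 < η)
    (h : ∫ s, (f s) ^ 2 ∂G1 ≤ η) : ∫ s, |f s| ∂G1 ≤ √η := by
  have hs : 0 < √η := Real.sqrt_pos.mpr hη
  have hint : Integrable f G1 := hf.integrable (by norm_num)
  have hint2 : Integrable (fun s => (f s) ^ 2) G1 := hf.integrable_sq
  have h1 : ∀ s, |f s| ≤ (f s) ^ 2 / (2 * √η) + √η / 2 := by
    intro s
    rw [div_add_div _ _ (by positivity) (by norm_num), le_div_iff₀ (by positivity)]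
    nlinarith [sq_abs (f s), sq_nonneg (|f s| - √η), Real.sq_sqrt hη.le]
  calc ∫ s, |f s| ∂G1 ≤ ∫ s, ((f s) ^ 2 / (2 * √η) + √η / 2) ∂G1 :=
        integral_mono hint.abs ((hint2.div_const _).add (integrable_const _)) h1
    _ = (∫ s, (f s) ^ 2 ∂G1) / (2 * √η) + √η / 2 := by
        rw [integral_add (hint2.div_const _) (integrable_const _), integral_div, integral_const]
        simp
    _ ≤ η / (2 * √η) + √η / 2 := by gcongr
    _ = √η := by
        have h2 : η = √η * √η := (Real.mul_self_sqrt hη.le).symm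
        have h3 : η / (2 * √η) = √η / 2 := by
          rw [div_eq_div_iff (by positivity) (by norm_num)]
          nlinarith
        rw [h3]
        ring

theorem weak_fail_memLp (q : ℝ[X]) : MemLp (fun s => q.eval s) 2 G1 := by
  have h : Integrable (fun s => (q.eval s) ^ 2) G1 := by
    have := poly_integrable (q ^ 2)
    simpa using this
  exact (memLp_two_iff_integrable_sq q.continuous.aestronglyMeasurable).mpr h

theorem weak_fail_KK_cont (a α : ℝ) : Continuous (KK a α) := by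
  unfold KK
  fun_prop

theorem weak_fail_KK_one (a α s : ℝ) (hα : 0 ≤ α) : 1 ≤ KK a α s := by
  unfold KK
  apply Real.one_le_exp
  positivity

theorem weak_fail_gg (a : ℝ) (ha : 1 ≤ a) (n : ℕ) (ψ : ℝ → ℝ) (q : ℝ[X]) (hψ : MemLp ψ 2 G1)
    (h1 : 1 / 400 ≤ (n : ℝ) * ∫ s, ψ s * gg a s ∂G1) (η : ℝ) (hη : 0 < η)
    (hn : (n : ℝ) * √η ≤ 1 / 800) (hq : ∫ s, (ψ s - q.eval s) ^ 2 ∂G1 ≤ η) :
    1 / 800 ≤ (n : ℝ) * ∫ s, q.eval s * gg a s ∂G1 := by
  obtain ⟨hgc, -, hgb, -, -⟩ := gg_facts a ha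
  have hd : MemLp (fun s => ψ s - q.eval s) 2 G1 := hψ.sub (weak_fail_memLp q)
  have hdi : Integrable (fun s => ψ s - q.eval s) G1 := hd.integrable (by norm_num)
  have hψi : Integrable ψ G1 := hψ.integrable (by norm_num)
  have hqi : Integrable (fun s => q.eval s) G1 := poly_integrable q
  have hb : ∀ᵐ s ∂G1, ‖gg a s‖ ≤ 1 := Filter.Eventually.of_forall fun s => hgb s
  have i1 : Integrable (fun s => ψ s * gg a s) G1 :=
    hψi.mul_bdd (c := 1) hgc.aestronglyMeasurable hb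
  have i2 : Integrable (fun s => q.eval s * gg a s) G1 :=
    hqi.mul_bdd (c := 1) hgc.aestronglyMeasurable hb
  have h2 : ∫ s, ψ s * gg a s ∂G1 - ∫ s, q.eval s * gg a s ∂G1 ≤ √η := by
    rw [← integral_sub i1 i2]
    calc ∫ s, (ψ s * gg a s - q.eval s * gg a s) ∂G1 ≤ ∫ s, |ψ s - q.eval s| ∂G1 := by
          apply integral_mono (i1.sub i2) hdi.abs
          intro s
          have h3 : ψ s * gg a s - q.eval s * gg a s = (ψ s - q.eval s) * gg a s := by ring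
          show ψ s * gg a s - q.eval s * gg a s ≤ |ψ s - q.eval s|
          rw [h3]
          calc (ψ s - q.eval s) * gg a s ≤ |(ψ s - q.eval s) * gg a s| := le_abs_self _
            _ = |ψ s - q.eval s| * |gg a s| := abs_mul _ _
            _ ≤ |ψ s - q.eval s| * 1 := by
                gcongr
                exact hgb s
            _ = |ψ s - q.eval s| := mul_one _
      _ ≤ √η := weak_fail_L1 _ hd η hη hq
  have h4 : (n : ℝ) * (∫ s, ψ s * gg a s ∂G1 - ∫ s, q.eval s * gg a s ∂G1) ≤ (n : ℝ) * √η :=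
    mul_le_mul_of_nonneg_left h2 (Nat.cast_nonneg n)
  rw [mul_sub] at h4
  linarith

theorem weak_fail_upper (a α : ℝ) (hα : 0 ≤ α) (n : ℕ) (ψ : ℝ → ℝ) (q : ℝ[X])
    (hψc : Continuous ψ) (hψ : MemLp ψ 2 G1)
    (h1 : (n : ℝ) * ∫ s, (ψ s) ^ 2 * (KK a α s)⁻¹ ∂G1 ≤ 50) (η : ℝ)
    (hn : (n : ℝ) * η ≤ 1) (hq : ∫ s, (ψ s - q.eval s) ^ 2 ∂G1 ≤ η) :
    (n : ℝ) * ∫ s, (q.eval s) ^ 2 * (KK a α s)⁻¹ ∂G1 ≤ 102 := by
  have hKc : Continuous fun s => (KK a α s)⁻¹ :=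
    (weak_fail_KK_cont a α).inv₀ fun s => (lt_of_lt_of_le one_pos (weak_fail_KK_one a α s hα)).ne'
  have hK0 : ∀ s, 0 ≤ (KK a α s)⁻¹ := fun s =>
    inv_nonneg.mpr (zero_le_one.trans (weak_fail_KK_one a α s hα))
  have hK1 : ∀ s, (KK a α s)⁻¹ ≤ 1 := fun s => inv_le_one_of_one_le₀ (weak_fail_KK_one a α s hα)
  have hb : ∀ᵐ s ∂G1, ‖(KK a α s)⁻¹‖ ≤ 1 := Filter.Eventually.of_forall fun s => by
    rw [Real.norm_eq_abs, abs_of_nonneg (hK0 s)]
    exact hK1 s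
  have hd : MemLp (fun s => ψ s - q.eval s) 2 G1 := hψ.sub (weak_fail_memLp q)
  have i0 : Integrable (fun s => (ψ s - q.eval s) ^ 2) G1 := hd.integrable_sq
  have i1 : Integrable (fun s => (ψ s) ^ 2 * (KK a α s)⁻¹) G1 :=
    hψ.integrable_sq.mul_bdd (c := 1) hKc.aestronglyMeasurable hb
  have i2 : Integrable (fun s => (q.eval s) ^ 2 * (KK a α s)⁻¹) G1 :=
    (weak_fail_memLp q).integrable_sq.mul_bdd (c := 1) hKc.aestronglyMeasurable hb
  have h2 : ∫ s, (q.eval s) ^ 2 * (KK a α s)⁻¹ ∂G1 ≤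
      2 * ∫ s, (ψ s) ^ 2 * (KK a α s)⁻¹ ∂G1 + 2 * ∫ s, (ψ s - q.eval s) ^ 2 ∂G1 := by
    rw [← integral_const_mul, ← integral_const_mul, ← integral_add (i1.const_mul 2)
      (i0.const_mul 2)]
    apply integral_mono i2 ((i1.const_mul 2).add (i0.const_mul 2))
    intro s
    show (q.eval s) ^ 2 * (KK a α s)⁻¹ ≤
      2 * ((ψ s) ^ 2 * (KK a α s)⁻¹) + 2 * (ψ s - q.eval s) ^ 2
    have e1 : (q.eval s) ^ 2 ≤ 2 * (ψ s) ^ 2 + 2 * (ψ s - q.eval s) ^ 2 := by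
      nlinarith [sq_nonneg (2 * ψ s - q.eval s)]
    have e2 : (q.eval s) ^ 2 * (KK a α s)⁻¹ ≤
        (2 * (ψ s) ^ 2 + 2 * (ψ s - q.eval s) ^ 2) * (KK a α s)⁻¹ :=
      mul_le_mul_of_nonneg_right e1 (hK0 s)
    have e3 : 2 * (ψ s - q.eval s) ^ 2 * (KK a α s)⁻¹ ≤ 2 * (ψ s - q.eval s) ^ 2 * 1 :=
      mul_le_mul_of_nonneg_left (hK1 s) (by positivity)
    nlinarith
  have h3 := mul_le_mul_of_nonneg_left h2 (Nat.cast_nonneg (α := ℝ) n)
  have h4 := mul_le_mul_of_nonneg_left hq (Nat.cast_nonneg (α := ℝ) n)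
  nlinarith

/-- **The one-variable-sums counterexample.** -/
theorem weak_fail (p : ℝ) (hp : 1 < p) (hp2 : p < 2) (c : ℝ) (hc : 0 < c) :
    ∃ (d n : ℕ) (Q : ℝ[X]), 1 ≤ d ∧ (∀ s, Q.eval (-s) = -Q.eval s) ∧
      (∀ R : ℝ[X], R.natDegree ≤ d → ∫ s, Q.eval s * R.eval s ∂G1 = 0) ∧
      (∫ x : Fin n → ℝ, |∑ j, (NN Q).eval (x j)| ^ p ∂(Gn n)) ^ (1 / p) <
        c * d * (∫ x : Fin n → ℝ, |∑ j, Q.eval (x j)| ^ p ∂(Gn n)) ^ (1 / p) := by
  have hp0 : 0 < p := by linarith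
  have hp1 : 0 < p - 1 := by linarith
  have hα : 0 < (2 - p) / (2 * p) := div_pos (by linarith) (by linarith)
  have hα1 : (2 - p) / (2 * p) < 1 / 2 := by
    rw [div_lt_div_iff₀ (by linarith) (by norm_num)]
    linarith
  have hr : 2 < p / (p - 1) := by
    rw [lt_div_iff₀ hp1]
    linarith
  obtain ⟨Cr, hCr, hmom⟩ := sum_moment (p / (p - 1)) hr
  -- the choice of `ε`
  obtain ⟨ε, hε, hε1, hε2⟩ : ∃ ε : ℝ, 0 < ε ∧ ε ≤ 1 ∧ ε ^ 2 * (80000 * Cr * 430) ≤ c := by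
    refine ⟨min 1 (c / (80000 * Cr * 430)), lt_min one_pos (by positivity), min_le_left _ _, ?_⟩
    set ε := min 1 (c / (80000 * Cr * 430)) with hεd
    have h1 : ε ≤ 1 := min_le_left _ _
    have h2 : ε ≤ c / (80000 * Cr * 430) := min_le_right _ _
    have h0 : 0 < ε := lt_min one_pos (by positivity)
    have h3 : ε * (80000 * Cr * 430) ≤ c := by
      rwa [le_div_iff₀ (by positivity)] at h2
    have h4 : ε ^ 2 ≤ ε := by nlinarith
    calc ε ^ 2 * (80000 * Cr * 430) ≤ ε * (80000 * Cr * 430) :=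
          mul_le_mul_of_nonneg_right h4 (by positivity)
      _ ≤ c := h3
  obtain ⟨d₀, hd₀⟩ := exists_psi ((2 - p) / (2 * p)) ε hα hα1 hε hε1
  -- the choice of `d`
  obtain ⟨d, hdd, hd1, hda⟩ : ∃ d : ℕ, d₀ ≤ d ∧ 1 ≤ d ∧ 1 ≤ ε * √(d : ℝ) := by
    obtain ⟨m, hm⟩ := exists_nat_ge ((1 / ε) ^ 2)
    refine ⟨max d₀ (max 1 m), le_max_left _ _, (le_max_left _ _).trans (le_max_right _ _), ?_⟩
    have h1 : (1 / ε) ^ 2 ≤ ((max d₀ (max 1 m) : ℕ) : ℝ) := by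
      refine hm.trans ?_
      exact_mod_cast (le_max_right 1 m).trans (le_max_right d₀ (max 1 m))
    have h2 : 1 / ε ≤ √((max d₀ (max 1 m) : ℕ) : ℝ) := Real.le_sqrt_of_sq_le h1
    rw [div_le_iff₀ hε] at h2
    linarith
  obtain ⟨ψ, hψc, hψo, hψL, hψT, hψg, hψK⟩ := hd₀ d hdd
  have ha0 : 0 < ε * √(d : ℝ) := lt_of_lt_of_le one_pos hda
  have ha2 : (ε * √(d : ℝ)) ^ 2 = ε ^ 2 * d := by
    rw [mul_pow, Real.sq_sqrt (Nat.cast_nonneg d)]
  set a : ℝ := ε * √(d : ℝ) with had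
  set n : ℕ := nn a with hnd
  -- the choice of `η`
  obtain ⟨η, hη, hη1, hη2⟩ : ∃ η : ℝ, 0 < η ∧ (n : ℝ) * √η ≤ 1 / 800 ∧ (n : ℝ) * η ≤ 1 := by
    have hn0 : (0 : ℝ) ≤ n := Nat.cast_nonneg n
    have hpos : (0 : ℝ) < 1 / (800 * (n + 1)) := by positivity
    have hle : (n : ℝ) * (1 / (800 * (n + 1))) ≤ 1 / 800 := by
      rw [mul_one_div, div_le_div_iff₀ (by positivity) (by norm_num)]
      nlinarith
    have hle1 : 1 / (800 * ((n : ℝ) + 1)) ≤ 1 := by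
      rw [div_le_one (by positivity)]
      nlinarith
    refine ⟨(1 / (800 * (n + 1))) ^ 2, by positivity, ?_, ?_⟩
    · rw [Real.sqrt_sq hpos.le]
      exact hle
    · have : (1 / (800 * ((n : ℝ) + 1))) ^ 2 ≤ 1 / (800 * (n + 1)) := by
        nlinarith
      calc (n : ℝ) * (1 / (800 * (n + 1))) ^ 2 ≤ (n : ℝ) * (1 / (800 * (n + 1))) :=
            mul_le_mul_of_nonneg_left this hn0
        _ ≤ 1 / 800 := hle
        _ ≤ 1 := by norm_num
  obtain ⟨q, hqo, hqT, hqη⟩ := poly_dense_tail d ψ hψL hψo hψT η hη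
  obtain ⟨Q, hQq, hQo, hQT⟩ := NN_inv d q hqo hqT
  refine ⟨d, n, Q, hd1, hQo, hQT, ?_⟩
  -- lower bound for the pairing
  have hlow : 1 / 800 ≤ (n : ℝ) * ∫ s, q.eval s * gg a s ∂G1 :=
    weak_fail_gg a hda n ψ q hψL hψg η hη hη1 hqη
  rw [← hQq, ← ibp a hda Q] at hlow
  obtain ⟨hphc, hpho, hphb, hph0⟩ := ph_facts a hda
  have hL : 0 < 100 * a ^ 2 := by positivity
  have hhol := holder_pair n p hp hp2 Q (ph a) (100 * a ^ 2) hQo hphc hphb hpho
  have hBm : MeasurableSet {s : ℝ | |s - a| ≤ 1 / a ∨ |s + a| ≤ 1 / a} := by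
    have h1 : MeasurableSet {s : ℝ | |s - a| ≤ 1 / a} :=
      measurableSet_le (by fun_prop) measurable_const
    have h2 : MeasurableSet {s : ℝ | |s + a| ≤ 1 / a} :=
      measurableSet_le (by fun_prop) measurable_const
    exact h1.union h2
  have hm := hmom n (100 * a ^ 2) {s : ℝ | |s - a| ≤ 1 / a ∨ |s + a| ≤ 1 / a} (ph a) hL hBm
    hphc hphb (fun s hs => hph0 s hs) (nn_mass a hda)
  have hA0 : 0 ≤ (∫ x : Fin n → ℝ, |∑ j, Q.eval (x j)| ^ p ∂(Gn n)) ^ (1 / p) := by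
    apply Real.rpow_nonneg
    apply integral_nonneg
    intro x
    positivity
  set A : ℝ := (∫ x : Fin n → ℝ, |∑ j, Q.eval (x j)| ^ p ∂(Gn n)) ^ (1 / p) with hA
  have hlow2 : 1 / 800 ≤ A * (Cr * (100 * a ^ 2)) :=
    hlow.trans (hhol.trans (mul_le_mul_of_nonneg_left hm hA0))
  rw [ha2] at hlow2
  -- the upper bound
  have hup := weak_fail_upper a ((2 - p) / (2 * p)) hα.le n ψ q hψc hψL hψK η hη2 hqη
  have hup2 := sum_upper_KK p a hp hp2 hda (fun s => q.eval s) q.continuous hqo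
    (weak_fail_memLp q)
  rw [← hnd] at hup2
  have hI0 : 0 ≤ ∫ x : Fin n → ℝ, |∑ j, q.eval (x j)| ^ p ∂(Gn n) := by
    apply integral_nonneg
    intro x
    positivity
  have hI : ∫ x : Fin n → ℝ, |∑ j, q.eval (x j)| ^ p ∂(Gn n) ≤ 215 := by
    refine hup2.trans ?_
    linarith
  have h215 : (∫ x : Fin n → ℝ, |∑ j, (NN Q).eval (x j)| ^ p ∂(Gn n)) ^ (1 / p) ≤ 215 := by
    rw [hQq]
    calc (∫ x : Fin n → ℝ, |∑ j, q.eval (x j)| ^ p ∂(Gn n)) ^ (1 / p) ≤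
          (215 : ℝ) ^ (1 / p) := Real.rpow_le_rpow hI0 hI (by positivity)
      _ ≤ (215 : ℝ) ^ (1 : ℝ) := by
          apply Real.rpow_le_rpow_of_exponent_le (by norm_num)
          rw [div_le_one hp0]
          exact hp.le
      _ = 215 := Real.rpow_one _
  refine lt_of_le_of_lt h215 ?_
  -- `430 ≤ c d A`
  have hdpos : (0 : ℝ) < d := by exact_mod_cast hd1
  have h5 : 1 ≤ A * d * (80000 * Cr * ε ^ 2) := by nlinarith
  have h6 : 430 ≤ c * d * A := by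
    have hAd : 0 ≤ A * d := by positivity
    have h7 : A * d * (ε ^ 2 * (80000 * Cr * 430)) ≤ A * d * c :=
      mul_le_mul_of_nonneg_left hε2 hAd
    nlinarith
  linarith

end HS
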