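import Pool.Agent.HS.Defs
import Pool.Agent.HS.DefsT
import Pool.Agent.HS.M_weak_fail
import Pool.Agent.HS.M_transfer
import Pool.Agent.HS.M_he_expand
import Pool.Agent.HS.M_FM_walsh
import Pool.Agent.HS.M_FM_lap

set_option autoImplicit false

open MeasureTheory ProbabilityTheory Filter Topology Set Polynomial
open scoped ENNReal NNReal Real

namespace HS

/-- **Failure of weak heat smoothing on the cube, for every `1 < p < 2`.** -/
theorem cube_weak_fail (p c : ℝ) (hp : 1 < p) (hp2 : p < 2) (hc : 0 < c) :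
    ∃ (d N : ℕ) (f : (Fin N → Bool) → ℝ), 1 ≤ d ∧
      (∀ S : Finset (Fin N), S.card < d →
        ∑ x : Fin N → Bool, f x * ∏ i ∈ S, (if x i then (-1 : ℝ) else 1) = 0) ∧
      ((∑ x : Fin N → Bool,
            |∑ i : Fin N, (f x - f (Function.update x i (!x i))) / 2| ^ p) / (2 : ℝ) ^ N) ^ (1 / p) <
        (d : ℝ) * c * ((∑ x : Fin N → Bool, |f x| ^ p) / (2 : ℝ) ^ N) ^ (1 / p) := by
  obtain ⟨d, n, Q, hd, -, hT, hlt⟩ := weak_fail p hp hp2 c hc
  obtain ⟨D, cf, hcf, hQ, hN⟩ := he_expand d Q hT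
  have hp0 : 0 ≤ 1 / p := by positivity
  have t1 := transfer n D p hp.le hp2.le cf
  have t2 := transfer n D p hp.le hp2.le (fun k => (k : ℝ) * cf k)
  rw [← hQ] at t1
  rw [← hN] at t2
  have s1 := ((Real.continuous_rpow_const hp0).tendsto _).comp t1
  have s2 := ((Real.continuous_rpow_const hp0).tendsto _).comp t2
  have s3 := s1.const_mul (c * d)
  obtain ⟨M, hM⟩ := (s2.eventually_lt s3 hlt).exists
  simp only [Function.comp_apply] at hM
  refine ⟨d, n * M, FM n M D cf, hd, fun S hS => FM_walsh n M D d cf hcf S hS.le, ?_⟩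
  simp only [FM_lap]
  rw [div_eq_inv_mul _ ((2:ℝ) ^ (n * M)), div_eq_inv_mul _ ((2:ℝ) ^ (n * M)), mul_comm (d : ℝ) c]
  exact hM

end HS
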