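import Pool.Agent.HS.Defs
import Pool.Agent.HS.M_cube_weak_fail
import Pool.Agent.HS.M_cube_heat_deriv

set_option autoImplicit false

open MeasureTheory ProbabilityTheory Filter Topology Set Polynomial
open scoped ENNReal NNReal Real

namespace HS

/-- **Failure of heat smoothing on the cube, for every `1 < p < 2`.** -/
noncomputable def cube_heat_fail_n (N : ℕ) (p : ℝ) (g : (Fin N → Bool) → ℝ) : ℝ :=
  (∑ x : Fin N → Bool, |g x| ^ p) ^ (1 / p)

theorem cube_heat_fail_smul (N : ℕ) (p : ℝ) (hp : 1 < p) (t : ℝ) (ht : 0 ≤ t)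
    (g : (Fin N → Bool) → ℝ) :
    cube_heat_fail_n N p (fun x => t * g x) = t * cube_heat_fail_n N p g := by
  unfold cube_heat_fail_n
  have hp0 : p ≠ 0 := by linarith
  have h1 : ∑ x : Fin N → Bool, |t * g x| ^ p = t ^ p * ∑ x : Fin N → Bool, |g x| ^ p := by
    rw [Finset.mul_sum]
    apply Finset.sum_congr rfl
    intro x _
    rw [abs_mul, abs_of_nonneg ht, Real.mul_rpow ht (abs_nonneg _)]
  rw [h1, Real.mul_rpow (Real.rpow_nonneg ht _)
    (Finset.sum_nonneg (fun x _ => Real.rpow_nonneg (abs_nonneg _) _)), ← Real.rpow_mul ht,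
    mul_one_div_cancel hp0, Real.rpow_one]

theorem cube_heat_fail_add (N : ℕ) (p : ℝ) (hp : 1 < p) (f g : (Fin N → Bool) → ℝ) :
    cube_heat_fail_n N p (fun x => f x + g x) ≤ cube_heat_fail_n N p f + cube_heat_fail_n N p g := by
  unfold cube_heat_fail_n
  exact Real.Lp_add_le Finset.univ f g hp.le

theorem cube_heat_fail_lim (N : ℕ) (p : ℝ) (hp : 1 < p) (F : ℝ → (Fin N → Bool) → ℝ)
    (g : (Fin N → Bool) → ℝ) (l : Filter ℝ) (h : ∀ x, Tendsto (fun t => F t x) l (𝓝 (g x))) :
    Tendsto (fun t => cube_heat_fail_n N p (F t)) l (𝓝 (cube_heat_fail_n N p g)) := by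
  unfold cube_heat_fail_n
  apply Tendsto.rpow_const _ (Or.inr (by positivity))
  apply tendsto_finset_sum
  intro x _
  exact (h x).abs.rpow_const (Or.inr (by linarith))

/-- **Failure of heat smoothing on the cube, for every `1 < p < 2`.** -/
theorem cube_heat_fail (p c : ℝ) (hp : 1 < p) (hp2 : p < 2) (hc : 0 < c) :
    ∃ (d N : ℕ) (f : (Fin N → Bool) → ℝ) (t : ℝ), 1 ≤ d ∧ 0 < t ∧
      (∀ S : Finset (Fin N), S.card < d →
        ∑ x : Fin N → Bool, f x * ∏ i ∈ S, (if x i then (-1 : ℝ) else 1) = 0) ∧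
      Real.exp (-t * (d : ℝ) * c) * (∑ x : Fin N → Bool, |f x| ^ p) ^ (1 / p) <
        (∑ x : Fin N → Bool,
              |∑ S : Finset (Fin N),
                  Real.exp (-t * (S.card : ℝ)) *
                    ((1 / (2 : ℝ) ^ N) *
                      ∑ y : Fin N → Bool, f y * ∏ i ∈ S, (if y i then (-1 : ℝ) else 1)) *
                    ∏ i ∈ S, (if x i then (-1 : ℝ) else 1)| ^ p) ^ (1 / p) := by
  obtain ⟨d, N, f, hd, hS, hlt⟩ := cube_weak_fail p c hp hp2 hc
  have key : ∃ t : ℝ, 0 < t ∧
      Real.exp (-t * (d : ℝ) * c) * (∑ x : Fin N → Bool, |f x| ^ p) ^ (1 / p) <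
        (∑ x : Fin N → Bool,
              |∑ S : Finset (Fin N),
                  Real.exp (-t * (S.card : ℝ)) *
                    ((1 / (2 : ℝ) ^ N) *
                      ∑ y : Fin N → Bool, f y * ∏ i ∈ S, (if y i then (-1 : ℝ) else 1)) *
                    ∏ i ∈ S, (if x i then (-1 : ℝ) else 1)| ^ p) ^ (1 / p) := by
    by_contra hcon
    push Not at hcon
    let P : ℝ → (Fin N → Bool) → ℝ := fun t x => ∑ S : Finset (Fin N),
                  Real.exp (-t * (S.card : ℝ)) *
                    ((1 / (2 : ℝ) ^ N) *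
                      ∑ y : Fin N → Bool, f y * ∏ i ∈ S, (if y i then (-1 : ℝ) else 1)) *
                    ∏ i ∈ S, (if x i then (-1 : ℝ) else 1)
    let Lf : (Fin N → Bool) → ℝ := fun x => ∑ i : Fin N, (f x - f (Function.update x i (!x i))) / 2
    let n := cube_heat_fail_n N p
    have hP : ∀ t : ℝ, 0 < t → n (P t) ≤ Real.exp (-t * (d : ℝ) * c) * n f := fun t ht => hcon t ht
    have hlim := cube_heat_fail_lim N p hp (fun t x => (f x - P t x) / t) Lf (𝓝[>] 0)
      (fun x => cube_heat_deriv N f x)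
    have hlim2 : Tendsto (fun t : ℝ => (1 - Real.exp (-t * (d : ℝ) * c)) / t * n f) (𝓝[>] 0)
        (𝓝 (d * c * n f)) := by
      apply Tendsto.mul_const
      have hder : HasDerivAt (fun t : ℝ => 1 - Real.exp (-t * (d : ℝ) * c)) (d * c) 0 := by
        have h1 : HasDerivAt (fun t : ℝ => -t * (d : ℝ) * c) (-1 * (d : ℝ) * c) 0 :=
          (((hasDerivAt_id (0 : ℝ)).neg).mul_const _).mul_const _
        have h2 := (h1.exp).const_sub 1
        have h5 : -(Real.exp (-0 * (d : ℝ) * c) * (-1 * (d : ℝ) * c)) = d * c := by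
          rw [neg_zero, zero_mul, zero_mul, Real.exp_zero]; ring
        rw [h5] at h2
        exact h2
      have h3 := hasDerivAt_iff_tendsto_slope_zero.mp hder
      have h4 := h3.mono_left (nhdsWithin_mono (0 : ℝ) (fun t (ht : t ∈ Ioi 0) =>
        (show t ∈ ({0} : Set ℝ)ᶜ from ne_of_gt ht)))
      refine h4.congr (fun t => ?_)
      simp [div_eq_inv_mul]
    have hle : ∀ᶠ t : ℝ in 𝓝[>] 0, (1 - Real.exp (-t * (d : ℝ) * c)) / t * n f ≤
        cube_heat_fail_n N p (fun x => (f x - P t x) / t) := by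
      filter_upwards [self_mem_nhdsWithin] with t ht
      have ht' : 0 < t := ht
      have h1 : n f ≤ n (P t) + n (fun x => f x - P t x) := by
        have := cube_heat_fail_add N p hp (P t) (fun x => f x - P t x)
        have e : (fun x => P t x + (f x - P t x)) = f := by funext x; ring
        rw [e] at this
        exact this
      have h2 : n (fun x => f x - P t x) = t * n (fun x => (f x - P t x) / t) := by
        have := cube_heat_fail_smul N p hp t ht'.le (fun x => (f x - P t x) / t)
        have e : (fun x => t * ((f x - P t x) / t)) = (fun x => f x - P t x) := by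
          funext x; field_simp
        rw [e] at this
        exact this
      have h3 := hP t ht'
      have h4 : (1 - Real.exp (-t * (d : ℝ) * c)) * n f ≤ t * n (fun x => (f x - P t x) / t) := by
        rw [← h2]; linarith
      rw [div_mul_eq_mul_div, div_le_iff₀ ht']
      have h5 : cube_heat_fail_n N p (fun x => (f x - P t x) / t) * t =
        t * n (fun x => (f x - P t x) / t) := mul_comm _ _
      rw [h5]
      exact h4
    have hfin : d * c * n f ≤ cube_heat_fail_n N p Lf := le_of_tendsto_of_tendsto hlim2 hlim hle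
    -- contradiction with hlt
    have h2N : (0 : ℝ) ≤ (2 : ℝ) ^ N := by positivity
    rw [Real.div_rpow (Finset.sum_nonneg (fun x _ => Real.rpow_nonneg (abs_nonneg _) _)) h2N,
      Real.div_rpow (Finset.sum_nonneg (fun x _ => Real.rpow_nonneg (abs_nonneg _) _)) h2N,
      ← mul_div_assoc] at hlt
    have hpos : 0 < ((2 : ℝ) ^ N) ^ (1 / p) := by positivity
    have h6 := (div_lt_div_iff_of_pos_right hpos).mp hlt
    exact absurd hfin (not_le.mpr h6)
  obtain ⟨t, ht, h⟩ := key
  exact ⟨d, N, f, t, hd, ht, hS, h⟩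

end HS
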