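import Pool.Agent.HS.Defs
import Pool.Agent.HS.M_poly_integrable

set_option autoImplicit false

open MeasureTheory ProbabilityTheory Filter Topology Set Polynomial
open scoped ENNReal NNReal Real

namespace HS

theorem ou_poly_int (Q : ℝ[X]) (u v s : ℝ) : Integrable (fun y => Q.eval (u * s + v * y)) G1 := by
  have h := poly_integrable (Q.comp (C (u * s) + C v * X))
  refine h.congr (Filter.Eventually.of_forall fun y => ?_)
  simp [eval_comp]

theorem ou_poly_pow (v : ℝ) (k : ℕ) : Integrable (fun y => (v * y) ^ k) G1 := by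
  have h := poly_integrable ((C v * X) ^ k)
  refine h.congr (Filter.Eventually.of_forall fun y => ?_)
  simp

theorem ou_poly (Q : ℝ[X]) (u v : ℝ) :
    ∃ R : ℝ[X], ∀ s, ∫ y, Q.eval (u * s + v * y) ∂G1 = R.eval s := by
  induction Q using Polynomial.induction_on' with
  | add p q hp hq =>
    obtain ⟨R1, h1⟩ := hp
    obtain ⟨R2, h2⟩ := hq
    refine ⟨R1 + R2, fun s => ?_⟩
    simp only [eval_add]
    rw [integral_add (ou_poly_int p u v s) (ou_poly_int q u v s), h1, h2]
  | monomial n a =>
    refine ⟨∑ m ∈ Finset.range (n + 1), C (a * (u ^ m * (n.choose m) * ∫ y, (v * y) ^ (n - m) ∂G1)) *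
      X ^ m, fun s => ?_⟩
    simp only [eval_monomial, eval_finset_sum, eval_mul, eval_C, eval_pow, eval_X]
    rw [integral_const_mul]
    have h1 : ∀ y : ℝ, (u * s + v * y) ^ n =
        ∑ m ∈ Finset.range (n + 1), (u * s) ^ m * (n.choose m) * (v * y) ^ (n - m) := by
      intro y
      rw [add_pow]
      exact Finset.sum_congr rfl fun m _ => by ring
    simp only [h1]
    rw [integral_finset_sum _ (fun m _ => (ou_poly_pow v (n - m)).const_mul _), Finset.mul_sum]
    refine Finset.sum_congr rfl fun m _ => ?_
    rw [integral_const_mul, mul_pow]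
    ring

end HS
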