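import Pool.Agent.HS.Defs
import Pool.Agent.HS.M_poly_integrable
import Pool.Agent.HS.M_ou_poly

set_option autoImplicit false

open MeasureTheory ProbabilityTheory Filter Topology Set Polynomial
open scoped ENNReal NNReal Real

namespace HS

noncomputable def ou_deriv_M (k : ℕ) : ℝ := ∫ y, y ^ k ∂G1

noncomputable def ou_deriv_A (Q : ℝ[X]) (t s : ℝ) : ℝ :=
  (Q.eval s - ∫ y, Q.eval (Real.exp (-t) * s + √(1 - Real.exp (-2 * t)) * y) ∂G1) / t -
    (NN Q).eval s

theorem ou_deriv_M0 : ou_deriv_M 0 = 1 := by simp [ou_deriv_M]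

theorem ou_deriv_M1 : ou_deriv_M 1 = 0 := by
  have h : ∫ x, x ∂gaussianReal 0 1 = 0 := integral_id_gaussianReal
  simpa [ou_deriv_M] using h

theorem ou_deriv_M2 : ou_deriv_M 2 = 1 := by
  have h := variance_fun_id_gaussianReal (μ := 0) (v := 1)
  rw [variance_of_integral_eq_zero (by fun_prop) (by exact integral_id_gaussianReal)] at h
  simpa [ou_deriv_M] using h

theorem ou_deriv_pow_int (k : ℕ) : Integrable (fun y : ℝ => y ^ k) G1 := by
  have h := poly_integrable (X ^ k)
  simpa using h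

theorem ou_deriv_A_poly (Q : ℝ[X]) (t : ℝ) :
    ∃ R : ℝ[X], ∀ s, ou_deriv_A Q t s = R.eval s := by
  obtain ⟨R, hR⟩ := ou_poly Q (Real.exp (-t)) (√(1 - Real.exp (-2 * t)))
  refine ⟨C (1 / t) * (Q - R) - NN Q, fun s => ?_⟩
  unfold ou_deriv_A
  rw [hR]
  simp only [eval_sub, eval_mul, eval_C]
  ring

theorem ou_deriv_A_sq_int (Q : ℝ[X]) (t : ℝ) :
    Integrable (fun s => (ou_deriv_A Q t s) ^ 2) G1 := by
  obtain ⟨R, hR⟩ := ou_deriv_A_poly Q t
  have h := poly_integrable (R ^ 2)
  refine h.congr (ae_of_all _ (fun s => ?_))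
  simp [hR]

theorem ou_deriv_comp_int (p : ℝ[X]) (a b : ℝ) :
    Integrable (fun y => p.eval (a + b * y)) G1 := by
  have h := poly_integrable (p.comp (C a + C b * X))
  simpa [eval_comp] using h

theorem ou_deriv_add (p q : ℝ[X]) (t s : ℝ) :
    ou_deriv_A (p + q) t s = ou_deriv_A p t s + ou_deriv_A q t s := by
  unfold ou_deriv_A
  have hp := ou_deriv_comp_int p (Real.exp (-t) * s) (√(1 - Real.exp (-2 * t)))
  have hq := ou_deriv_comp_int q (Real.exp (-t) * s) (√(1 - Real.exp (-2 * t)))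
  simp only [eval_add]
  rw [integral_add hp hq]
  have h : (NN (p + q)).eval s = (NN p).eval s + (NN q).eval s := by
    simp only [NN, derivative_add, eval_sub, eval_mul, eval_add, eval_X]
    ring
  rw [h]
  ring

noncomputable def ou_deriv_c (m k : ℕ) (t : ℝ) : ℝ :=
  ((if k = m then 1 else 0) - (m.choose k : ℝ) * Real.exp (-t) ^ k *
    √(1 - Real.exp (-2 * t)) ^ (m - k) * ou_deriv_M (m - k)) / t
   - (if k = m then (m : ℝ) else 0) + (if k + 2 = m then (m : ℝ) * (m - 1) else 0)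

theorem ou_deriv_NN (m : ℕ) (a s : ℝ) :
    (NN (monomial m a)).eval s = a * ((m : ℝ) * s ^ m - (m : ℝ) * (m - 1) * s ^ (m - 2)) := by
  unfold NN
  rcases m with _ | _ | m
  · simp
  · simp
  · simp only [derivative_monomial, eval_sub, eval_mul, eval_X, eval_monomial]
    have e1 : m + 1 + 1 - 1 = m + 1 := by omega
    have e2 : m + 1 - 1 = m := by omega
    have e3 : m + 1 + 1 - 2 = m := by omega
    rw [e1, e2, e3]
    push_cast
    ring

theorem ou_deriv_mon_int (m : ℕ) (a u v s : ℝ) :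
    ∫ y, (monomial m a).eval (u * s + v * y) ∂G1 =
      a * ∑ k ∈ Finset.range (m + 1), (m.choose k : ℝ) * u ^ k * v ^ (m - k) *
        ou_deriv_M (m - k) * s ^ k := by
  have e : ∀ y : ℝ, (monomial m a).eval (u * s + v * y) =
      a * ∑ k ∈ Finset.range (m + 1), ((m.choose k : ℝ) * u ^ k * v ^ (m - k) * s ^ k) *
        y ^ (m - k) := by
    intro y
    rw [eval_monomial, add_pow]
    congr 1
    refine Finset.sum_congr rfl (fun k _ => ?_)
    rw [mul_pow, mul_pow]
    ring
  simp_rw [e]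
  rw [integral_const_mul, integral_finsetSum]
  · congr 1
    refine Finset.sum_congr rfl (fun k _ => ?_)
    rw [integral_const_mul]
    unfold ou_deriv_M
    ring
  · intro k _
    exact (ou_deriv_pow_int (m - k)).const_mul _

theorem ou_deriv_mon (m : ℕ) (a t s : ℝ) :
    ou_deriv_A (monomial m a) t s =
      a * ∑ k ∈ Finset.range (m + 1), ou_deriv_c m k t * s ^ k := by
  unfold ou_deriv_A
  rw [ou_deriv_mon_int, ou_deriv_NN, eval_monomial]
  have h1 : ∑ k ∈ Finset.range (m + 1), (if k = m then (1 : ℝ) else 0) * s ^ k = s ^ m := by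
    simp [Finset.sum_ite_eq']
  have h2 : ∑ k ∈ Finset.range (m + 1), (if k = m then (m : ℝ) else 0) * s ^ k = m * s ^ m := by
    simp [Finset.sum_ite_eq']
  have h3 : ∑ k ∈ Finset.range (m + 1), (if k + 2 = m then (m : ℝ) * (m - 1) else 0) * s ^ k =
      m * (m - 1) * s ^ (m - 2) := by
    rcases m with _ | _ | m
    · simp
    · simp
    · have e3 : m + 1 + 1 - 2 = m := by omega
      rw [e3, Finset.sum_eq_single m]
      · simp
      · intro b _ hb
        rw [if_neg (by omega), zero_mul]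
      · intro hb
        exact absurd (Finset.mem_range.mpr (by omega)) hb
  have h4 : ∑ k ∈ Finset.range (m + 1), ou_deriv_c m k t * s ^ k =
      (∑ k ∈ Finset.range (m + 1), (if k = m then (1 : ℝ) else 0) * s ^ k -
        ∑ k ∈ Finset.range (m + 1), (m.choose k : ℝ) * Real.exp (-t) ^ k *
          √(1 - Real.exp (-2 * t)) ^ (m - k) * ou_deriv_M (m - k) * s ^ k) / t -
      ∑ k ∈ Finset.range (m + 1), (if k = m then (m : ℝ) else 0) * s ^ k +
      ∑ k ∈ Finset.range (m + 1), (if k + 2 = m then (m : ℝ) * (m - 1) else 0) * s ^ k := by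
    rw [← Finset.sum_sub_distrib, Finset.sum_div, ← Finset.sum_sub_distrib,
      ← Finset.sum_add_distrib]
    refine Finset.sum_congr rfl (fun k _ => ?_)
    unfold ou_deriv_c
    ring
  rw [h4, h1, h2, h3]
  ring

theorem ou_deriv_u_lim (k : ℕ) :
    Tendsto (fun t : ℝ => Real.exp (-t) ^ k) (𝓝[>] 0) (𝓝 1) := by
  have h : Continuous (fun t : ℝ => Real.exp (-t) ^ k) := by fun_prop
  have h' := h.tendsto 0
  simp only [neg_zero, Real.exp_zero, one_pow] at h'
  exact h'.mono_left nhdsWithin_le_nhds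

theorem ou_deriv_v_lim (j : ℕ) :
    Tendsto (fun t : ℝ => √(1 - Real.exp (-2 * t)) ^ (j + 1)) (𝓝[>] 0) (𝓝 0) := by
  have h : Continuous (fun t : ℝ => √(1 - Real.exp (-2 * t)) ^ (j + 1)) := by fun_prop
  have h' := h.tendsto 0
  simp only [mul_zero, Real.exp_zero, sub_self, Real.sqrt_zero, ne_eq, Nat.add_eq_zero_iff,
    one_ne_zero, and_false, not_false_eq_true, zero_pow] at h'
  exact h'.mono_left nhdsWithin_le_nhds

theorem ou_deriv_v2_lim :
    Tendsto (fun t : ℝ => √(1 - Real.exp (-2 * t)) ^ 2 / t) (𝓝[>] 0) (𝓝 2) := by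
  have hd : HasDerivAt (fun t : ℝ => 1 - Real.exp (-2 * t)) 2 0 := by
    have h1 : HasDerivAt (fun t : ℝ => -2 * t) (-2) 0 := by
      simpa using (hasDerivAt_id (0 : ℝ)).const_mul (-2)
    have h2 := (h1.exp).const_sub 1
    simpa using h2
  have h := hd.tendsto_slope_zero_right
  refine h.congr' ?_
  filter_upwards [self_mem_nhdsWithin] with t ht
  have ht' : (0 : ℝ) < t := ht
  have h3 : Real.exp (-2 * t) ≤ 1 := Real.exp_le_one_iff.mpr (by linarith)
  rw [Real.sq_sqrt (by linarith)]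
  simp only [zero_add, smul_eq_mul, mul_zero, Real.exp_zero, sub_self, sub_zero]
  rw [div_eq_inv_mul]

theorem ou_deriv_c_lim (k d : ℕ) :
    Tendsto (ou_deriv_c (k + d) k) (𝓝[>] 0) (𝓝 0) := by
  have e : k + d - k = d := by omega
  rcases d with _ | _ | _ | d
  · have hd : HasDerivAt (fun t : ℝ => 1 - Real.exp (-t) ^ k) (k : ℝ) 0 := by
      have h1 : HasDerivAt (fun t : ℝ => -t) (-1) 0 := (hasDerivAt_id (0 : ℝ)).neg
      have h2 := ((h1.exp).pow k).const_sub 1
      simpa using h2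
    have h := hd.tendsto_slope_zero_right
    have h' := h.sub_const (k : ℝ)
    rw [sub_self] at h'
    refine h'.congr' ?_
    filter_upwards [self_mem_nhdsWithin] with t ht
    unfold ou_deriv_c
    rw [e]
    simp [ou_deriv_M0]
    ring
  · have : ou_deriv_c (k + (0 + 1)) k = fun _ => 0 := by
      funext t
      unfold ou_deriv_c
      rw [e]
      simp [ou_deriv_M1]
    rw [this]
    exact tendsto_const_nhds
  · have h1 := ((ou_deriv_u_lim k).mul ou_deriv_v2_lim).const_mul (-((k + 2).choose k : ℝ))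
    have h2 := h1.add_const (((k + 2 : ℕ) : ℝ) * ((k + 2 : ℕ) - 1))
    have h3 : (((k + 2).choose k : ℕ) : ℝ) = ((k + 2 : ℕ) : ℝ) * ((k + 2 : ℕ) - 1) / 2 := by
      have h4 : (k + 2).choose k = (k + 2).choose 2 := by
        rw [← Nat.choose_symm (by omega : 2 ≤ k + 2)]
        congr 1
      rw [h4, Nat.cast_choose_two]
    have h5 : -((k + 2).choose k : ℝ) * (1 * 2) + ((k + 2 : ℕ) : ℝ) * ((k + 2 : ℕ) - 1) = 0 := by
      rw [h3]; ring
    rw [h5] at h2
    refine h2.congr' ?_
    filter_upwards [self_mem_nhdsWithin] with t ht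
    unfold ou_deriv_c
    rw [e]
    simp [ou_deriv_M2]
    ring
  · have h1 := ((((ou_deriv_u_lim k).mul (ou_deriv_v_lim d)).mul ou_deriv_v2_lim).const_mul
      (-((k + (d + 1 + 1 + 1)).choose k : ℝ) * ou_deriv_M (d + 1 + 1 + 1)))
    have h5 : -((k + (d + 1 + 1 + 1)).choose k : ℝ) * ou_deriv_M (d + 1 + 1 + 1) *
      (1 * 0 * 2) = 0 := by ring
    rw [h5] at h1
    refine h1.congr' ?_
    filter_upwards [self_mem_nhdsWithin] with t ht
    unfold ou_deriv_c
    rw [e, if_neg (by omega), if_neg (by omega), if_neg (by omega)]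
    ring

theorem ou_deriv_mon_lim (m : ℕ) (a : ℝ) :
    Tendsto (fun t => ∫ s, (ou_deriv_A (monomial m a) t s) ^ 2 ∂G1) (𝓝[>] 0) (𝓝 0) := by
  have e : ∀ t, ∫ s, (ou_deriv_A (monomial m a) t s) ^ 2 ∂G1 =
      a ^ 2 * ∑ j ∈ Finset.range (m + 1), ∑ k ∈ Finset.range (m + 1),
        ou_deriv_c m j t * ou_deriv_c m k t * ou_deriv_M (j + k) := by
    intro t
    have e1 : ∀ s, (ou_deriv_A (monomial m a) t s) ^ 2 =
        a ^ 2 * ∑ j ∈ Finset.range (m + 1), ∑ k ∈ Finset.range (m + 1),
          (ou_deriv_c m j t * ou_deriv_c m k t) * s ^ (j + k) := by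
      intro s
      rw [ou_deriv_mon, mul_pow, sq (∑ k ∈ Finset.range (m + 1), ou_deriv_c m k t * s ^ k),
        Finset.sum_mul_sum]
      congr 1
      refine Finset.sum_congr rfl (fun j _ => Finset.sum_congr rfl (fun k _ => ?_))
      rw [pow_add]; ring
    simp_rw [e1]
    rw [integral_const_mul, integral_finsetSum]
    · congr 1
      refine Finset.sum_congr rfl (fun j _ => ?_)
      rw [integral_finsetSum]
      · refine Finset.sum_congr rfl (fun k _ => ?_)
        rw [integral_const_mul]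
        rfl
      · intro k _
        exact (ou_deriv_pow_int _).const_mul _
    · intro j _
      exact integrable_finsetSum _ (fun k _ => (ou_deriv_pow_int _).const_mul _)
  rw [funext e]
  have hl : ∀ j ∈ Finset.range (m + 1), Tendsto (ou_deriv_c m j) (𝓝[>] 0) (𝓝 0) := by
    intro j hj
    have hj' := Finset.mem_range.mp hj
    have h := ou_deriv_c_lim j (m - j)
    have e2 : j + (m - j) = m := by omega
    rwa [e2] at h
  have h : Tendsto (fun t => a ^ 2 * ∑ j ∈ Finset.range (m + 1), ∑ k ∈ Finset.range (m + 1),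
      ou_deriv_c m j t * ou_deriv_c m k t * ou_deriv_M (j + k)) (𝓝[>] 0)
      (𝓝 (a ^ 2 * ∑ j ∈ Finset.range (m + 1), ∑ k ∈ Finset.range (m + 1),
        (0 : ℝ) * 0 * ou_deriv_M (j + k))) :=
    tendsto_const_nhds.mul (tendsto_finsetSum _ (fun j hj => tendsto_finsetSum _ (fun k hk =>
      ((hl j hj).mul (hl k hk)).mul tendsto_const_nhds)))
  simpa using h

theorem ou_deriv (Q : ℝ[X]) :
    Tendsto (fun t : ℝ => ∫ s, ((Q.eval s -
        ∫ y, Q.eval (Real.exp (-t) * s + √(1 - Real.exp (-2 * t)) * y) ∂G1) / t -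
          (NN Q).eval s) ^ 2 ∂G1) (𝓝[>] 0) (𝓝 0) := by
  change Tendsto (fun t : ℝ => ∫ s, (ou_deriv_A Q t s) ^ 2 ∂G1) (𝓝[>] 0) (𝓝 0)
  induction Q using Polynomial.induction_on' with
  | add p q hp hq =>
    have h := (hp.const_mul 2).add (hq.const_mul 2)
    rw [mul_zero, add_zero] at h
    refine squeeze_zero (fun t => integral_nonneg (fun s => sq_nonneg _)) (fun t => ?_) h
    rw [← integral_const_mul, ← integral_const_mul,
      ← integral_add ((ou_deriv_A_sq_int p t).const_mul 2) ((ou_deriv_A_sq_int q t).const_mul 2)]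
    refine integral_mono (ou_deriv_A_sq_int (p + q) t)
      (((ou_deriv_A_sq_int p t).const_mul 2).add ((ou_deriv_A_sq_int q t).const_mul 2)) ?_
    intro s
    simp only [Pi.add_apply]
    rw [ou_deriv_add]
    nlinarith [sq_nonneg (ou_deriv_A p t s - ou_deriv_A q t s)]
  | monomial m a => exact ou_deriv_mon_lim m a

end HS
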