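import Pool.Agent.HS.Defs
import Pool.Agent.HS.M_poly_integrable
import Pool.Agent.HS.M_ou_deriv
import Pool.Agent.HS.M_ou_poly

set_option autoImplicit false

open MeasureTheory ProbabilityTheory Filter Topology Set Polynomial
open scoped ENNReal NNReal Real

namespace HS

theorem heat_fail_aux_D {n : ℕ} (p : ℝ) (hp : 1 < p) (F : (Fin n → ℝ) → ℝ)
    (hF : MemLp F (ENNReal.ofReal p) (Gn n)) :
    (∫ x : Fin n → ℝ, |F x| ^ p ∂(Gn n)) ^ (1 / p) = (eLpNorm F (ENNReal.ofReal p) (Gn n)).toReal := by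
  have h0 : ENNReal.ofReal p ≠ 0 := by
    simp only [ne_eq, ENNReal.ofReal_eq_zero, not_le]
    linarith
  rw [hF.eLpNorm_eq_integral_rpow_norm h0 ENNReal.ofReal_ne_top,
    ENNReal.toReal_ofReal (by positivity : (0:ℝ) ≤ _)]
  rw [ENNReal.toReal_ofReal (by linarith : (0:ℝ) ≤ p), one_div]
  simp only [Real.norm_eq_abs]

theorem heat_fail_aux_A (Q : ℝ[X]) : MemLp (fun s => Q.eval s) 2 G1 := by
  have hm : AEStronglyMeasurable (fun s => Q.eval s) G1 :=
    (Polynomial.continuous Q).aestronglyMeasurable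
  rw [memLp_two_iff_integrable_sq hm]
  have := poly_integrable (Q ^ 2)
  simpa using this

theorem heat_fail_aux_B {n : ℕ} (p : ℝ) (hp2 : p < 2) (f : ℝ → ℝ) (hf : MemLp f 2 G1) (j : Fin n) :
    MemLp (fun x : Fin n → ℝ => f (x j)) (ENNReal.ofReal p) (Gn n) ∧
      eLpNorm (fun x : Fin n → ℝ => f (x j)) (ENNReal.ofReal p) (Gn n) ≤ eLpNorm f 2 G1 := by
  have hP2 : ENNReal.ofReal p ≤ 2 := by
    have : (2 : ENNReal) = ENNReal.ofReal 2 := by simp
    rw [this]
    exact ENNReal.ofReal_le_ofReal hp2.le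
  have hmp : MeasurePreserving (Function.eval j : (Fin n → ℝ) → ℝ) (Gn n) G1 :=
    measurePreserving_eval (fun _ : Fin n => gaussianReal 0 1) j
  have h2 : MemLp (f ∘ (Function.eval j : (Fin n → ℝ) → ℝ)) 2 (Gn n) :=
    hf.comp_measurePreserving hmp
  have e2 := eLpNorm_comp_measurePreserving (p := 2) hf.aestronglyMeasurable hmp
  refine ⟨h2.mono_exponent hP2, ?_⟩
  calc eLpNorm (fun x : Fin n → ℝ => f (x j)) (ENNReal.ofReal p) (Gn n)
      ≤ eLpNorm (f ∘ (Function.eval j : (Fin n → ℝ) → ℝ)) 2 (Gn n) :=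
        eLpNorm_le_eLpNorm_of_exponent_le hP2 h2.aestronglyMeasurable
    _ = _ := e2

theorem heat_fail_aux_C {n : ℕ} (p : ℝ) (hp : 1 < p) (hp2 : p < 2) (f : ℝ → ℝ)
    (hf : MemLp f 2 G1) :
    MemLp (fun x : Fin n → ℝ => ∑ j, f (x j)) (ENNReal.ofReal p) (Gn n) ∧
      eLpNorm (fun x : Fin n → ℝ => ∑ j, f (x j)) (ENNReal.ofReal p) (Gn n)
        ≤ n * eLpNorm f 2 G1 := by
  have hP1 : 1 ≤ ENNReal.ofReal p := by
    rw [← ENNReal.ofReal_one]
    exact ENNReal.ofReal_le_ofReal hp.le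
  have e : (fun x : Fin n → ℝ => ∑ j, f (x j)) = ∑ j : Fin n, (fun x : Fin n → ℝ => f (x j)) := by
    funext x
    simp
  refine ⟨memLp_finsetSum _ fun j _ => (heat_fail_aux_B p hp2 f hf j).1, ?_⟩
  rw [e]
  refine (eLpNorm_sum_le (fun j _ => (heat_fail_aux_B p hp2 f hf j).1.aestronglyMeasurable) hP1).trans ?_
  refine (Finset.sum_le_sum fun j _ => (heat_fail_aux_B p hp2 f hf j).2).trans ?_
  simp

theorem heat_fail_aux (p c : ℝ) (hp : 1 < p) (hp2 : p < 2) (hc : 0 < c) (d n : ℕ) (Q : ℝ[X])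
    (h : (∫ x : Fin n → ℝ, |∑ j, (NN Q).eval (x j)| ^ p ∂(Gn n)) ^ (1 / p) <
        c * d * (∫ x : Fin n → ℝ, |∑ j, Q.eval (x j)| ^ p ∂(Gn n)) ^ (1 / p)) :
    ∃ t : ℝ, 0 < t ∧
      Real.exp (-(t * (d : ℝ) * c)) *
          (∫ x : Fin n → ℝ, |∑ j, Q.eval (x j)| ^ p ∂(Gn n)) ^ (1 / p) <
        (∫ x : Fin n → ℝ, |∑ j, ∫ y, Q.eval (Real.exp (-t) * x j +
          √(1 - Real.exp (-2 * t)) * y) ∂G1| ^ p ∂(Gn n)) ^ (1 / p) := by
  have hP1 : 1 ≤ ENNReal.ofReal p := by
    rw [← ENNReal.ofReal_one]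
    exact ENNReal.ofReal_le_ofReal hp.le
  by_contra hcon
  push Not at hcon
  set g : ℝ → ℝ → ℝ := fun t s => ∫ y, Q.eval (Real.exp (-t) * s +
          √(1 - Real.exp (-2 * t)) * y) ∂G1 with hg
  have hgL : ∀ t, MemLp (g t) 2 G1 := by
    intro t
    obtain ⟨R, hR⟩ := ou_poly Q (Real.exp (-t)) (√(1 - Real.exp (-2 * t)))
    have : g t = fun s => R.eval s := by
      funext s
      exact hR s
    rw [this]
    exact heat_fail_aux_A R
  set e : ℝ → ℝ → ℝ := fun t s => (Q.eval s - g t s) / t - (NN Q).eval s with he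
  have heL : ∀ t, MemLp (e t) 2 G1 := by
    intro t
    have h1 := ((heat_fail_aux_A Q).sub (hgL t)).const_mul t⁻¹
    have h2 := h1.sub (heat_fail_aux_A (NN Q))
    refine h2.ae_eq ?_
    refine Filter.Eventually.of_forall fun s => ?_
    simp only [he, Pi.sub_apply]
    ring
  have hQ := heat_fail_aux_C (n := n) p hp hp2 _ (heat_fail_aux_A Q)
  have hN := heat_fail_aux_C (n := n) p hp hp2 _ (heat_fail_aux_A (NN Q))
  have hG := fun t => heat_fail_aux_C (n := n) p hp hp2 _ (hgL t)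
  have hE := fun t => heat_fail_aux_C (n := n) p hp hp2 _ (heL t)
  rw [heat_fail_aux_D p hp _ hN.1, heat_fail_aux_D p hp _ hQ.1] at h
  have hcon' : ∀ t : ℝ, 0 < t →
      (eLpNorm (fun x : Fin n → ℝ => ∑ j, g t (x j)) (ENNReal.ofReal p) (Gn n)).toReal
        ≤ Real.exp (-(t * (d : ℝ) * c)) *
          (eLpNorm (fun x : Fin n → ℝ => ∑ j, Q.eval (x j)) (ENNReal.ofReal p) (Gn n)).toReal := by
    intro t ht
    have := hcon t ht
    rw [heat_fail_aux_D p hp _ hQ.1] at this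
    rw [← heat_fail_aux_D p hp _ (hG t).1]
    exact this
  set a := (eLpNorm (fun x : Fin n → ℝ => ∑ j, Q.eval (x j)) (ENNReal.ofReal p) (Gn n)).toReal
    with ha
  set b := (eLpNorm (fun x : Fin n → ℝ => ∑ j, (NN Q).eval (x j)) (ENNReal.ofReal p)
    (Gn n)).toReal with hb
  have hδ := ou_deriv Q
  have heq : ∀ t, (eLpNorm (e t) 2 G1).toReal = √(∫ s, (e t s) ^ 2 ∂G1) := by
    intro t
    rw [(heL t).eLpNorm_eq_integral_rpow_norm (by norm_num) (by norm_num),
      ENNReal.toReal_ofReal (by positivity : (0:ℝ) ≤ _)]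
    rw [Real.sqrt_eq_rpow]
    simp only [ENNReal.toReal_ofNat, Real.rpow_ofNat, Real.norm_eq_abs, sq_abs]
    norm_num
  have key : ∀ t : ℝ, 0 < t →
      (1 - Real.exp (-(t * (d : ℝ) * c))) / t * a ≤ b + n * √(∫ s, (e t s) ^ 2 ∂G1) := by
    intro t ht
    have hsum : (fun x : Fin n → ℝ => ∑ j, Q.eval (x j))
        = (fun x : Fin n → ℝ => ∑ j, g t (x j)) + ((fun x : Fin n → ℝ => t * ∑ j, (NN Q).eval (x j))
          + (fun x : Fin n → ℝ => t * ∑ j, e t (x j))) := by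
      funext x
      simp only [Pi.add_apply, Finset.mul_sum, ← Finset.sum_add_distrib]
      refine Finset.sum_congr rfl fun j _ => ?_
      simp only [he]
      field_simp
      ring
    have hmN := hN.1.const_mul t
    have hmE := (hE t).1.const_mul t
    have h1 : eLpNorm (fun x : Fin n → ℝ => ∑ j, Q.eval (x j)) (ENNReal.ofReal p) (Gn n)
        ≤ eLpNorm (fun x : Fin n → ℝ => ∑ j, g t (x j)) (ENNReal.ofReal p) (Gn n)
          + (eLpNorm (fun x : Fin n → ℝ => t * ∑ j, (NN Q).eval (x j)) (ENNReal.ofReal p) (Gn n)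
            + eLpNorm (fun x : Fin n → ℝ => t * ∑ j, e t (x j)) (ENNReal.ofReal p) (Gn n)) := by
      rw [hsum]
      refine (eLpNorm_add_le (hG t).1.aestronglyMeasurable
        (hmN.add hmE).aestronglyMeasurable hP1).trans ?_
      gcongr
      exact eLpNorm_add_le hmN.aestronglyMeasurable hmE.aestronglyMeasurable hP1
    have hc1 : ∀ F : (Fin n → ℝ) → ℝ, (eLpNorm (fun x => t * F x) (ENNReal.ofReal p) (Gn n)).toReal
        = t * (eLpNorm F (ENNReal.ofReal p) (Gn n)).toReal := by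
      intro F
      have := eLpNorm_const_smul (μ := Gn n) (p := ENNReal.ofReal p) t F
      have e1 : (t • F) = fun x => t * F x := rfl
      rw [e1] at this
      rw [this, ENNReal.toReal_mul]
      simp [abs_of_pos ht]
    have h2 : a ≤ (eLpNorm (fun x : Fin n → ℝ => ∑ j, g t (x j)) (ENNReal.ofReal p)
          (Gn n)).toReal + (t * b
          + t * (eLpNorm (fun x : Fin n → ℝ => ∑ j, e t (x j)) (ENNReal.ofReal p)
            (Gn n)).toReal) := by
      rw [← hc1, ← hc1, ← ENNReal.toReal_add hmN.eLpNorm_ne_top hmE.eLpNorm_ne_top,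
        ← ENNReal.toReal_add (hG t).1.eLpNorm_ne_top
          (ENNReal.add_ne_top.mpr ⟨hmN.eLpNorm_ne_top, hmE.eLpNorm_ne_top⟩)]
      exact ENNReal.toReal_mono (ENNReal.add_ne_top.mpr ⟨(hG t).1.eLpNorm_ne_top,
        ENNReal.add_ne_top.mpr ⟨hmN.eLpNorm_ne_top, hmE.eLpNorm_ne_top⟩⟩) h1
    have h3 : (eLpNorm (fun x : Fin n → ℝ => ∑ j, e t (x j)) (ENNReal.ofReal p)
            (Gn n)).toReal ≤ n * √(∫ s, (e t s) ^ 2 ∂G1) := by
      rw [← heq t]
      have := ENNReal.toReal_mono (ENNReal.mul_ne_top (ENNReal.natCast_ne_top n)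
        (heL t).eLpNorm_ne_top) (hE t).2
      rw [ENNReal.toReal_mul, ENNReal.toReal_natCast] at this
      exact this
    have h4 := hcon' t ht
    have h5 : (1 - Real.exp (-(t * (d : ℝ) * c))) * a ≤ t * (b + n * √(∫ s, (e t s) ^ 2 ∂G1)) := by
      have := mul_le_mul_of_nonneg_left h3 ht.le
      nlinarith [h2, h4, this]
    rw [div_mul_eq_mul_div, div_le_iff₀ ht]
    linarith
  have hlim1 : Tendsto (fun t : ℝ => (1 - Real.exp (-(t * (d : ℝ) * c))) / t * a) (𝓝[>] 0)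
      (𝓝 (d * c * a)) := by
    have hder : HasDerivAt (fun t : ℝ => - Real.exp (-(t * (d : ℝ) * c))) (d * c) 0 := by
      have h1 : HasDerivAt (fun t : ℝ => -(t * (d : ℝ) * c)) (-(d * c)) 0 := by
        have := ((hasDerivAt_id' (0:ℝ)).mul_const ((d : ℝ) * c)).fun_neg
        simpa [mul_assoc] using this
      have h2 := h1.exp.fun_neg
      simpa using h2
    have h3 := hder.tendsto_slope
    have h4 : Tendsto (slope (fun t : ℝ => - Real.exp (-(t * (d : ℝ) * c))) 0) (𝓝[>] 0)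
        (𝓝 (d * c)) := h3.mono_left (nhdsWithin_mono _ fun x hx => ne_of_gt hx)
    have h5 := h4.mul_const a
    refine h5.congr' ?_
    filter_upwards [self_mem_nhdsWithin] with t ht
    rw [slope_def_field]
    simp only [zero_mul, neg_zero, Real.exp_zero, sub_zero]
    congr 1
    ring
  have hlim2 : Tendsto (fun t : ℝ => b + n * √(∫ s, (e t s) ^ 2 ∂G1)) (𝓝[>] 0)
      (𝓝 (b + n * √0)) := by
    refine tendsto_const_nhds.add (Tendsto.const_mul _ ?_)
    exact (Real.continuous_sqrt.tendsto 0).comp hδ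
  have hfin : d * c * a ≤ b + n * √0 := by
    refine le_of_tendsto_of_tendsto hlim1 hlim2 ?_
    filter_upwards [self_mem_nhdsWithin] with t ht
    exact key t ht
  rw [Real.sqrt_zero, mul_zero, add_zero] at hfin
  have : c * d * a = d * c * a := by ring
  linarith

end HS
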