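import Pool.Agent.HS.Defs

set_option autoImplicit false

open MeasureTheory ProbabilityTheory Filter Topology Set Polynomial
open scoped ENNReal NNReal Real

namespace HS

theorem mv_eval (n : ℕ) (Q : ℝ[X]) (x : Fin n → ℝ) :
    MvPolynomial.eval x (∑ j : Fin n, Polynomial.aeval (MvPolynomial.X j) Q) =
      ∑ j, Q.eval (x j) := by
  rw [map_sum]
  refine Finset.sum_congr rfl fun j _ => ?_
  induction Q using Polynomial.induction_on' with
  | add p q hp hq => rw [map_add, map_add, hp, hq, Polynomial.eval_add]
  | monomial k c =>
    rw [Polynomial.aeval_monomial, Polynomial.eval_monomial, map_mul, map_pow, MvPolynomial.eval_X,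
      MvPolynomial.algebraMap_eq, MvPolynomial.eval_C]

end HS
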