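import Pool.Agent.HS.Defs
import Pool.Agent.HS.M_poly_integrable
import Pool.Agent.HS.M_mv_eval

set_option autoImplicit false

open MeasureTheory ProbabilityTheory Filter Topology Set Polynomial
open scoped ENNReal NNReal Real

namespace HS

theorem mv_orth_poly (d n : ℕ) (Q : ℝ[X]) (j : Fin n) (m : Fin n →₀ ℕ) (i : Fin n) :
    ∃ P : ℝ[X], (fun s : ℝ => if i = j then Q.eval s * s ^ (m i) else s ^ (m i)) =
      fun s => P.eval s := by
  by_cases h : i = j
  · exact ⟨Q * Polynomial.X ^ (m i), by funext s; simp [h]⟩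
  · exact ⟨Polynomial.X ^ (m i), by funext s; simp [h]⟩

theorem mv_orth_term (d n : ℕ) (Q : ℝ[X])
    (hT : ∀ R : ℝ[X], R.natDegree ≤ d → ∫ s, Q.eval s * R.eval s ∂G1 = 0)
    (j : Fin n) (m : Fin n →₀ ℕ) (hm : m j ≤ d) :
    Integrable (fun x : Fin n → ℝ => Q.eval (x j) * ∏ i, x i ^ m i) (Gn n) ∧
    ∫ x : Fin n → ℝ, Q.eval (x j) * ∏ i, x i ^ m i ∂(Gn n) = 0 := by
  have he : (fun x : Fin n → ℝ => Q.eval (x j) * ∏ i, x i ^ m i) =
      fun x => ∏ i, (fun s : ℝ => if i = j then Q.eval s * s ^ (m i) else s ^ (m i)) (x i) := by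
    funext x
    rw [← Finset.mul_prod_erase Finset.univ _ (Finset.mem_univ j),
      ← Finset.mul_prod_erase Finset.univ
        (fun i => (fun s : ℝ => if i = j then Q.eval s * s ^ (m i) else s ^ (m i)) (x i))
        (Finset.mem_univ j)]
    simp only [if_true]
    rw [← mul_assoc]
    congr 1
    refine Finset.prod_congr rfl (fun i hi => ?_)
    rw [if_neg (Finset.ne_of_mem_erase hi)]
  constructor
  · rw [he]
    apply Integrable.fintype_prod (f := fun (i : Fin n) (s : ℝ) =>
      if i = j then Q.eval s * s ^ (m i) else s ^ (m i))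
    intro i
    obtain ⟨P, hP⟩ := mv_orth_poly d n Q j m i
    rw [hP]
    exact poly_integrable P
  · have h2 : ∫ x : Fin n → ℝ, Q.eval (x j) * ∏ i, x i ^ m i ∂(Gn n)
        = ∫ x : Fin n → ℝ, ∏ i, (fun s : ℝ => if i = j then Q.eval s * s ^ (m i) else s ^ (m i)) (x i)
          ∂(Gn n) := by
      rw [he]
    rw [h2]
    rw [integral_fintype_prod_eq_prod
      (fun (i : Fin n) (s : ℝ) => if i = j then Q.eval s * s ^ (m i) else s ^ (m i))]
    apply Finset.prod_eq_zero (Finset.mem_univ j)
    have := hT (Polynomial.X ^ (m j)) (by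
      refine le_trans (Polynomial.natDegree_X_pow_le _) hm)
    simpa using this

theorem mv_orth (d n : ℕ) (Q : ℝ[X])
    (hT : ∀ R : ℝ[X], R.natDegree ≤ d → ∫ s, Q.eval s * R.eval s ∂G1 = 0)
    (g : MvPolynomial (Fin n) ℝ) (hg : g.totalDegree ≤ d) :
    ∫ x, MvPolynomial.eval x (∑ j : Fin n, Polynomial.aeval (MvPolynomial.X j) Q) *
      MvPolynomial.eval x g ∂(Gn n) = 0 := by
  have he : (fun x : Fin n → ℝ =>
      MvPolynomial.eval x (∑ j : Fin n, Polynomial.aeval (MvPolynomial.X j) Q) *
      MvPolynomial.eval x g) = fun x => ∑ j : Fin n, ∑ m ∈ g.support,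
        MvPolynomial.coeff m g * (Q.eval (x j) * ∏ i, x i ^ m i) := by
    funext x
    rw [mv_eval, MvPolynomial.eval_eq', Finset.sum_mul]
    refine Finset.sum_congr rfl (fun j _ => ?_)
    rw [Finset.mul_sum]
    refine Finset.sum_congr rfl (fun m _ => ?_)
    ring
  have hdeg : ∀ m ∈ g.support, ∀ j, m j ≤ d := by
    intro m hm j
    have h1 := MvPolynomial.le_totalDegree hm
    have h2 : m j ≤ m.sum fun _ e => e := by
      by_cases h : m j = 0
      · rw [h]; exact Nat.zero_le _
      · exact Finset.single_le_sum (f := fun i => m i) (fun i _ => Nat.zero_le _)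
          (Finsupp.mem_support_iff.mpr h)
    omega
  rw [he, integral_finset_sum]
  · apply Finset.sum_eq_zero
    intro j _
    rw [integral_finset_sum]
    · apply Finset.sum_eq_zero
      intro m hm
      rw [integral_const_mul, (mv_orth_term d n Q hT j m (hdeg m hm j)).2, mul_zero]
    · intro m hm
      exact ((mv_orth_term d n Q hT j m (hdeg m hm j)).1).const_mul _
  · intro j _
    apply integrable_finset_sum
    intro m hm
    exact ((mv_orth_term d n Q hT j m (hdeg m hm j)).1).const_mul _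

end HS
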