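import Pool.Agent.HS.Defs
import Pool.Agent.HS.M_poly_integrable

set_option autoImplicit false

open MeasureTheory ProbabilityTheory Filter Topology Set Polynomial
open scoped ENNReal NNReal Real

namespace HS

theorem ou_sum_int (Q : ℝ[X]) (c v : ℝ) : Integrable (fun s => Q.eval (c + v * s)) G1 := by
  have h := poly_integrable (Q.comp (C c + C v * X))
  simpa [Polynomial.eval_comp] using h

/-- Mehler's formula on sums of one-variable polynomials -/
theorem ou_sum (n : ℕ) (Q : ℝ[X]) (u v : ℝ) (x : Fin n → ℝ) :
    ∫ y : Fin n → ℝ, ∑ j, Q.eval (u * x j + v * y j) ∂(Gn n) =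
      ∑ j, ∫ y, Q.eval (u * x j + v * y) ∂G1 := by
  have hmp : ∀ j : Fin n, MeasurePreserving (fun y : Fin n → ℝ => y j) (Gn n) G1 := fun j =>
    measurePreserving_eval (fun _ : Fin n => gaussianReal 0 1) j
  have hI : ∀ j : Fin n, Integrable (fun s => Q.eval (u * x j + v * s)) G1 := fun j =>
    ou_sum_int Q (u * x j) v
  rw [integral_finsetSum]
  · refine Finset.sum_congr rfl fun j _ => ?_
    rw [← (hmp j).map_eq, integral_map (hmp j).measurable.aemeasurable]
    rw [(hmp j).map_eq]
    exact (hI j).aestronglyMeasurable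
  · intro j _
    exact (hmp j).integrable_comp_of_integrable (hI j)

end HS
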