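import Pool.Agent.HS.Defs
import Pool.Agent.HS.M_poly_integrable
import Pool.Agent.HS.M_weak_fail
import Pool.Agent.HS.M_mv_orth
import Pool.Agent.HS.M_mv_eval
import Pool.Agent.HS.M_ou_sum
import Pool.Agent.HS.M_heat_fail_aux

set_option autoImplicit false

open MeasureTheory ProbabilityTheory Filter Topology Set Polynomial
open scoped ENNReal NNReal Real

namespace HS

theorem heat_fail_pd (n : ℕ) (Q : ℝ[X]) (i j : Fin n) :
    MvPolynomial.pderiv i (Polynomial.aeval (MvPolynomial.X j : MvPolynomial (Fin n) ℝ) Q) =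
      if i = j then Polynomial.aeval (MvPolynomial.X j : MvPolynomial (Fin n) ℝ) (derivative Q)
      else 0 := by
  rw [Derivation.map_aeval]
  by_cases h : i = j
  · subst h
    simp
  · rw [if_neg h, MvPolynomial.pderiv_X_of_ne (Ne.symm h)]
    simp

theorem heat_fail_pds (n : ℕ) (Q : ℝ[X]) (i : Fin n) :
    MvPolynomial.pderiv i (∑ j : Fin n, Polynomial.aeval (MvPolynomial.X j) Q) =
      Polynomial.aeval (MvPolynomial.X i : MvPolynomial (Fin n) ℝ) (derivative Q) := by
  rw [map_sum]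
  simp only [heat_fail_pd]
  simp

theorem heat_fail_op (n : ℕ) (Q : ℝ[X]) :
    (∑ i, (MvPolynomial.X i * MvPolynomial.pderiv i
        (∑ j : Fin n, Polynomial.aeval (MvPolynomial.X j : MvPolynomial (Fin n) ℝ) Q) -
          MvPolynomial.pderiv i (MvPolynomial.pderiv i
            (∑ j : Fin n, Polynomial.aeval (MvPolynomial.X j : MvPolynomial (Fin n) ℝ) Q)))) =
      ∑ j : Fin n, Polynomial.aeval (MvPolynomial.X j : MvPolynomial (Fin n) ℝ) (NN Q) := by
  refine Finset.sum_congr rfl fun i _ => ?_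
  rw [heat_fail_pds, heat_fail_pd, if_pos rfl]
  unfold NN
  simp

/-- **Failure of dimension-free Gaussian heat smoothing, for every `1 < p < 2`** -/
theorem heat_fail (p c : ℝ) (hp : 1 < p) (hp2 : p < 2) (hc : 0 < c) :
    ∃ (d n : ℕ) (f : MvPolynomial (Fin n) ℝ), 1 ≤ d ∧ 1 ≤ n ∧
      (∀ g : MvPolynomial (Fin n) ℝ, g.totalDegree < d →
        ∫ x, MvPolynomial.eval x f * MvPolynomial.eval x g ∂(Gn n) = 0) ∧
      (∫ x, |MvPolynomial.eval x (∑ i, (MvPolynomial.X i * MvPolynomial.pderiv i f -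
          MvPolynomial.pderiv i (MvPolynomial.pderiv i f)))| ^ p ∂(Gn n)) ^ (1 / p) <
        c * d * (∫ x, |MvPolynomial.eval x f| ^ p ∂(Gn n)) ^ (1 / p) ∧
      ∃ t : ℝ, 0 < t ∧
        Real.exp (-(t * (d : ℝ) * c)) * (∫ x, |MvPolynomial.eval x f| ^ p ∂(Gn n)) ^ (1 / p) <
          (∫ x, |∫ y, MvPolynomial.eval (fun i => Real.exp (-t) * x i +
              Real.sqrt (1 - Real.exp (-2 * t)) * y i) f ∂(Gn n)| ^ p ∂(Gn n)) ^ (1 / p) := by
  obtain ⟨d, n, Q, hd, _, hT, hlt⟩ := weak_fail p hp hp2 c hc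
  obtain ⟨t, ht, hlt2⟩ := heat_fail_aux p c hp hp2 hc d n Q hlt
  refine ⟨d, n, ∑ j : Fin n, Polynomial.aeval (MvPolynomial.X j) Q, hd, ?_, ?_, ?_, t, ht, ?_⟩
  · rcases Nat.eq_zero_or_pos n with h0 | h0
    · exfalso
      subst h0
      have hp0 : p ≠ 0 := by linarith
      have hp1 : (1 / p) ≠ 0 := by positivity
      simp only [Finset.univ_eq_empty, Finset.sum_empty, abs_zero, Real.zero_rpow hp0,
        integral_zero, Real.zero_rpow hp1, mul_zero, lt_irrefl] at hlt
    · exact h0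
  · intro g hg
    exact mv_orth d n Q hT g hg.le
  · rw [heat_fail_op]
    simp only [mv_eval]
    exact hlt
  · simp only [mv_eval]
    simp only [ou_sum]
    exact hlt2

end HS
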